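import Pool.Agent.MP_db8016_pr.HD.Stmts

/-! From far away a box is avoided for a long time with probability `1 / log`. -/

namespace Pool.Agent.MP_db8016_pr.HD
open MeasureTheory ProbabilityTheory Filter Finset

namespace AnnAux

lemma log_ge (w : ℝ) (hw : -1 / 2 ≤ w) : w - 2 * w ^ 2 ≤ Real.log (1 + w) := by
  have h0 : 0 < 1 + w := by linarith
  refine le_trans ?_ (Real.one_sub_inv_le_log_of_pos h0)
  have h1 : (1 + w)⁻¹ ≤ 1 - w + 2 * w ^ 2 := by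
    rw [inv_eq_one_div, div_le_iff₀ h0]
    nlinarith [mul_nonneg (sq_nonneg w) (by linarith : (0 : ℝ) ≤ 1 + 2 * w)]
  linarith

lemma pair (Z i x : ℝ) (hi : 0 < i) (hZ : x ^ 2 * i + 8 * i ≤ Z) :
    i * (2 * Z + i - 4 * (x ^ 2 * i)) / Z ^ 2 - 18 * i ^ 2 / Z ^ 2 ≤
      Real.log (Z + i + 2 * x * i) + Real.log (Z + i - 2 * x * i) - 2 * Real.log Z := by
  have ha : 0 ≤ x ^ 2 * i := by positivity
  have hZ0 : 0 < Z := by linarith
  have hA : 0 < Z + i + 2 * x * i := by nlinarith [mul_nonneg (sq_nonneg (x + 1)) hi.le]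
  have hB : 0 < Z + i - 2 * x * i := by nlinarith [mul_nonneg (sq_nonneg (x - 1)) hi.le]
  set w := i * (2 * Z + i - 4 * (x ^ 2 * i)) / Z ^ 2 with hw
  have hZ2 : 0 < Z ^ 2 := by positivity
  have h1 : 1 + w = (Z + i + 2 * x * i) * (Z + i - 2 * x * i) / Z ^ 2 := by
    rw [hw]; field_simp; ring
  have h2 : Real.log (1 + w) =
      Real.log (Z + i + 2 * x * i) + Real.log (Z + i - 2 * x * i) - 2 * Real.log Z := by
    rw [h1, Real.log_div (mul_pos hA hB).ne' hZ2.ne', Real.log_mul hA.ne' hB.ne', Real.log_pow]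
    norm_num
  have h3 : -(3 * Z) ≤ 2 * Z + i - 4 * (x ^ 2 * i) := by linarith
  have h4 : 2 * Z + i - 4 * (x ^ 2 * i) ≤ 3 * Z := by linarith
  have h5 : -1 / 2 ≤ w := by
    rw [hw, le_div_iff₀ hZ2]
    have : i * (-(3 * Z)) ≤ i * (2 * Z + i - 4 * (x ^ 2 * i)) := mul_le_mul_of_nonneg_left h3 hi.le
    nlinarith [mul_nonneg hZ0.le (by linarith : 0 ≤ Z - 8 * i), mul_pos hi hZ0]
  have h6 : w ^ 2 ≤ 9 * i ^ 2 / Z ^ 2 := by
    have h7 : (2 * Z + i - 4 * (x ^ 2 * i)) ^ 2 ≤ (3 * Z) ^ 2 := sq_le_sq' h3 h4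
    have h8 : w ^ 2 = i ^ 2 * (2 * Z + i - 4 * (x ^ 2 * i)) ^ 2 / Z ^ 2 / Z ^ 2 := by
      rw [hw]; field_simp
    rw [h8]
    refine div_le_div_of_nonneg_right ?_ hZ2.le
    rw [div_le_iff₀ hZ2]
    nlinarith [mul_le_mul_of_nonneg_left h7 (sq_nonneg i)]
  have h9 := log_ge w h5
  have h10 : 18 * i ^ 2 / Z ^ 2 = 2 * (9 * i ^ 2 / Z ^ 2) := by ring
  rw [← h2, h10]
  linarith

variable {m : Measure T} (l : Lat m)

/-- The sum of the inverse weights. -/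
noncomputable def sg : ℝ := l.p⁻¹ + l.q⁻¹

/-- The adapted quadratic form with a constant. -/
noncomputable def qf (z : ℤ × ℤ) : ℝ := (z.1 : ℝ) ^ 2 * l.p⁻¹ + (z.2 : ℝ) ^ 2 * l.q⁻¹ + 8 * sg l

/-- The squared length. -/
def sq2 (z : ℤ × ℤ) : ℝ := (z.1 : ℝ) ^ 2 + (z.2 : ℝ) ^ 2

lemma sg_pos : 0 < sg l := add_pos (inv_pos.2 l.hp) (inv_pos.2 l.hq)

lemma qf_pos (z : ℤ × ℤ) : 0 < qf l z := by
  have := inv_pos.2 l.hp
  have := inv_pos.2 l.hq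
  have := sg_pos l
  unfold qf; positivity

lemma sub_log (z : ℤ × ℤ) : Real.log (qf l z) ≤ l.av (fun y => Real.log (qf l y)) z := by
  have hp := l.hp
  have hq := l.hq
  have hi := inv_pos.2 hp
  have hj := inv_pos.2 hq
  have hx : 0 ≤ (z.1 : ℝ) ^ 2 * l.p⁻¹ := by positivity
  have hy : 0 ≤ (z.2 : ℝ) ^ 2 * l.q⁻¹ := by positivity
  have hZ := qf_pos l z
  have h1 := pair (qf l z) l.p⁻¹ z.1 hi (by unfold qf sg; linarith)
  have h2 := pair (qf l z) l.q⁻¹ z.2 hj (by unfold qf sg; linarith)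
  have e1 : qf l (z + (1, 0)) = qf l z + l.p⁻¹ + 2 * z.1 * l.p⁻¹ := by
    simp only [qf, Prod.fst_add, Prod.snd_add]; push_cast; ring
  have e2 : qf l (z + (-1, 0)) = qf l z + l.p⁻¹ - 2 * z.1 * l.p⁻¹ := by
    simp only [qf, Prod.fst_add, Prod.snd_add]; push_cast; ring
  have e3 : qf l (z + (0, 1)) = qf l z + l.q⁻¹ + 2 * z.2 * l.q⁻¹ := by
    simp only [qf, Prod.fst_add, Prod.snd_add]; push_cast; ring
  have e4 : qf l (z + (0, -1)) = qf l z + l.q⁻¹ - 2 * z.2 * l.q⁻¹ := by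
    simp only [qf, Prod.fst_add, Prod.snd_add]; push_cast; ring
  have h3 := mul_le_mul_of_nonneg_left h1 hp.le
  have h4 := mul_le_mul_of_nonneg_left h2 hq.le
  have h5 : l.p * (l.p⁻¹ * (2 * qf l z + l.p⁻¹ - 4 * ((z.1 : ℝ) ^ 2 * l.p⁻¹)) / qf l z ^ 2 -
        18 * l.p⁻¹ ^ 2 / qf l z ^ 2) +
      l.q * (l.q⁻¹ * (2 * qf l z + l.q⁻¹ - 4 * ((z.2 : ℝ) ^ 2 * l.q⁻¹)) / qf l z ^ 2 -
        18 * l.q⁻¹ ^ 2 / qf l z ^ 2) =
      (4 * (qf l z - (z.1 : ℝ) ^ 2 * l.p⁻¹ - (z.2 : ℝ) ^ 2 * l.q⁻¹) - 17 * (l.p⁻¹ + l.q⁻¹)) /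
        qf l z ^ 2 := by
    field_simp; ring
  have h6 : 0 ≤ (4 * (qf l z - (z.1 : ℝ) ^ 2 * l.p⁻¹ - (z.2 : ℝ) ^ 2 * l.q⁻¹) -
      17 * (l.p⁻¹ + l.q⁻¹)) / qf l z ^ 2 := by
    refine div_nonneg ?_ (sq_nonneg _)
    unfold qf sg; linarith
  simp only [Lat.av, e1, e2, e3, e4]
  linarith

lemma av_sq2 (z : ℤ × ℤ) : l.av sq2 z ≤ sq2 z + 1 := by
  have h := l.rest_nonneg
  have : l.av sq2 z = sq2 z + (2 * l.p + 2 * l.q) := by
    simp only [Lat.av, sq2, Prod.fst_add, Prod.snd_add]; push_cast; ring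
  linarith

lemma sub_f (α : ℝ) (hα : 0 ≤ α) (k : ℕ) (z : ℤ × ℤ) :
    Real.log (qf l z) - α * (sq2 z - k) ≤
      l.av (fun y => Real.log (qf l y) - α * (sq2 y - ((k + 1 : ℕ) : ℝ))) z := by
  have h1 := sub_log l z
  have h2 := mul_le_mul_of_nonneg_left (av_sq2 l z) hα
  have h3 : l.av (fun y => Real.log (qf l y) - α * (sq2 y - ((k + 1 : ℕ) : ℝ))) z =
      l.av (fun y => Real.log (qf l y)) z - α * l.av sq2 z + α * (k + 1) := by
    simp only [Lat.av]; push_cast; ring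
  rw [h3]
  linarith

lemma sq_le_of_nn {z : ℤ × ℤ} {N : ℤ} (h : nn z ≤ N) :
    (z.1 : ℝ) ^ 2 ≤ (N : ℝ) ^ 2 ∧ (z.2 : ℝ) ^ 2 ≤ (N : ℝ) ^ 2 := by
  have h1 : |z.1| ≤ N := le_trans (le_max_left _ _) h
  have h2 : |z.2| ≤ N := le_trans (le_max_right _ _) h
  rw [abs_le] at h1 h2
  constructor
  · exact_mod_cast sq_le_sq' h1.1 h1.2
  · exact_mod_cast sq_le_sq' h2.1 h2.2

lemma qf_le_of_nn {z : ℤ × ℤ} {N : ℤ} (h : nn z ≤ N) :
    qf l z ≤ (N : ℝ) ^ 2 * sg l + 8 * sg l := by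
  obtain ⟨h1, h2⟩ := sq_le_of_nn h
  have h3 := mul_le_mul_of_nonneg_right h1 (inv_pos.2 l.hp).le
  have h4 := mul_le_mul_of_nonneg_right h2 (inv_pos.2 l.hq).le
  unfold qf
  have : (N : ℝ) ^ 2 * sg l = (N : ℝ) ^ 2 * l.p⁻¹ + (N : ℝ) ^ 2 * l.q⁻¹ := by unfold sg; ring
  linarith

/-- The global bound. -/
lemma log_qf_le (y : ℤ × ℤ) (ρ N B : ℝ) (hρ : 0 < ρ) (hN : ρ ≤ N) (hB : 1 ≤ B) :
    Real.log (qf l y) ≤ Real.log (N * sg l + 8 * sg l) + Real.log B + (B * ρ)⁻¹ * sq2 y := by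
  have hs := sg_pos l
  have hi := inv_pos.2 l.hp
  have hj := inv_pos.2 l.hq
  have hh : 0 ≤ sq2 y := by unfold sq2; positivity
  have hN0 : 0 < N := lt_of_lt_of_le hρ hN
  have hB0 : 0 < B := by linarith
  have hW : 0 < N * sg l + 8 * sg l := by positivity
  have hu : 0 ≤ (B * ρ)⁻¹ * sq2 y := by positivity
  have h1 : qf l y ≤ sq2 y * sg l + 8 * sg l := by
    unfold qf sq2
    have : ((y.1 : ℝ) ^ 2 + (y.2 : ℝ) ^ 2) * sg l = (y.1 : ℝ) ^ 2 * l.p⁻¹ + (y.2 : ℝ) ^ 2 * l.q⁻¹ +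
        ((y.1 : ℝ) ^ 2 * l.q⁻¹ + (y.2 : ℝ) ^ 2 * l.p⁻¹) := by unfold sg; ring
    have : 0 ≤ (y.1 : ℝ) ^ 2 * l.q⁻¹ + (y.2 : ℝ) ^ 2 * l.p⁻¹ := by positivity
    linarith
  have h2 : qf l y ≤ (N * sg l + 8 * sg l) * B * (1 + (B * ρ)⁻¹ * sq2 y) := by
    have e : (N * sg l + 8 * sg l) * B * (1 + (B * ρ)⁻¹ * sq2 y) =
        (N * sg l + 8 * sg l) * B + (N * sg l + 8 * sg l) * ρ⁻¹ * sq2 y := by
      field_simp
    have h3 : 8 * sg l ≤ (N * sg l + 8 * sg l) * B := by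
      nlinarith [mul_pos hN0 hs, mul_le_mul_of_nonneg_left hB hW.le]
    have h4 : sg l ≤ (N * sg l + 8 * sg l) * ρ⁻¹ := by
      rw [← div_eq_mul_inv, le_div_iff₀ hρ]
      nlinarith [mul_le_mul_of_nonneg_left hN hs.le]
    have h5 := mul_le_mul_of_nonneg_right h4 hh
    rw [e]
    linarith
  have h6 := Real.log_le_log (qf_pos l y) h2
  rw [Real.log_mul (mul_pos hW hB0).ne' (by linarith), Real.log_mul hW.ne' hB0.ne'] at h6
  have h7 := Real.log_le_sub_one_of_pos (by linarith : 0 < 1 + (B * ρ)⁻¹ * sq2 y)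
  linarith

lemma log_B (j : ℕ) (A : ℝ) (hA : 1 ≤ A) : Real.log (2 ^ j * A) ≤ A * (j + 1) := by
  rw [Real.log_mul (by positivity) (by linarith), Real.log_pow]
  have h1 := Real.log_le_sub_one_of_pos (by norm_num : (0 : ℝ) < 2)
  have h2 := Real.log_le_sub_one_of_pos (by linarith : 0 < A)
  have h3 : (0 : ℝ) ≤ j := Nat.cast_nonneg j
  nlinarith [mul_le_mul_of_nonneg_left h1 h3, mul_le_mul_of_nonneg_left hA h3]

end AnnAux

open AnnAux in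
theorem ann_thm (hO : OptStmt) : AnnStmt := by
  intro m _ l K hK
  have hs := sg_pos l
  have hKr : (1 : ℝ) ≤ K := by exact_mod_cast hK
  have hV : 0 < Real.exp 3 * ((K : ℝ) ^ 2 * sg l + 8 * sg l) := by positivity
  refine ⟨⌈Real.exp 3 * ((K : ℝ) ^ 2 * sg l + 8 * sg l)⌉, Int.ceil_pos.2 hV, fun M hM => ?_⟩
  set X : ℤ := ⌈Real.exp 3 * ((K : ℝ) ^ 2 * sg l + 8 * sg l)⌉ with hX
  have hX0 : 0 < X := Int.ceil_pos.2 hV
  have hX1 : (1 : ℝ) ≤ X := by exact_mod_cast hX0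
  have hXV : Real.exp 3 * ((K : ℝ) ^ 2 * sg l + 8 * sg l) ≤ X := Int.le_ceil _
  have hM1 : (1 : ℝ) ≤ M := by exact_mod_cast (lt_of_lt_of_le hX0 hM)
  have hA : (1 : ℝ) ≤ 2 * (M : ℝ) ^ 2 := by nlinarith
  refine ⟨(2 * (M : ℝ) ^ 2)⁻¹, by positivity, fun r z hr hz hzM j n hn => ?_⟩
  set A : ℝ := 2 * (M : ℝ) ^ 2 with hAdef
  have hr1 : (1 : ℝ) ≤ r := by exact_mod_cast hr
  have hρ : (0 : ℝ) < (r : ℝ) ^ 2 := by positivity
  have h2j : (1 : ℝ) ≤ 2 ^ j := one_le_pow₀ (by norm_num)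
  have hB : (1 : ℝ) ≤ 2 ^ j * A := one_le_mul_of_one_le_of_one_le h2j hA
  set α : ℝ := (2 ^ j * A * (r : ℝ) ^ 2)⁻¹ with hα
  have hden : 0 < 2 ^ j * A * (r : ℝ) ^ 2 := by positivity
  have hα0 : 0 ≤ α := by positivity
  set F : ℝ := Real.log (((K * r : ℤ) : ℝ) ^ 2 * sg l + 8 * sg l) with hF
  have hNr : (r : ℝ) ^ 2 ≤ ((K * r : ℤ) : ℝ) ^ 2 := by
    push_cast
    rw [mul_pow]
    nlinarith [mul_le_mul_of_nonneg_right (one_le_pow₀ hKr (n := 2)) hρ.le]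
  have hnr : (n : ℝ) ≤ 2 ^ j * (r : ℝ) ^ 2 := by exact_mod_cast hn
  have hαn : ∀ k ≤ n, α * (k : ℝ) ≤ 1 := by
    intro k hk
    have hk' : (k : ℝ) ≤ n := by exact_mod_cast hk
    rw [hα, inv_mul_le_iff₀ hden]
    have : 2 ^ j * (r : ℝ) ^ 2 * 1 ≤ 2 ^ j * (r : ℝ) ^ 2 * A :=
      mul_le_mul_of_nonneg_left hA (by positivity)
    linarith
  set E : Set (ℕ → T) := {a | ∀ k ≤ n, K * r < nn (z + l.Y a k)} with hE
  have hEm : MeasurableSet E := by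
    refine Det.measurableSet (n := n) fun a a' h ha k hk => ?_
    rw [l.Y_congr h hk]
    exact ha k hk
  have hD : 0 < A * (j + 1) := by positivity
  have key := hO m l {y | K * r < nn y} z n
    (fun k y => Real.log (qf l y) - α * (sq2 y - k)) E (F + 1) (A * (j + 1)) hEm
    (fun k _ y _ => sub_f l α hα0 k y) (by
      intro a
      have hτ := l.stop_le {y | K * r < nn y} z n a
      have h1 := hαn _ hτ
      by_cases ha : a ∈ E
      · rw [Set.indicator_of_mem ha]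
        have h2 := log_qf_le l (z + l.Y a (l.stop {y | K * r < nn y} z n a)) ((r : ℝ) ^ 2)
          (((K * r : ℤ) : ℝ) ^ 2) (2 ^ j * A) hρ hNr hB
        have h3 := log_B j A hA
        simp only [Pi.one_apply, mul_one]
        rw [← hα, ← hF] at h2
        linarith
      · rw [Set.indicator_of_notMem ha]
        have h2 : nn (z + l.Y a (l.stop {y | K * r < nn y} z n a)) ≤ K * r := by
          by_contra h
          refine ha fun k hk => ?_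
          rcases l.stop_spec {y | K * r < nn y} z n a with h3 | h3
          · rcases lt_or_eq_of_le hk with h4 | h4
            · exact l.mem_of_lt_stop (Dm := {y | K * r < nn y}) (t := n) (by rw [h3]; exact h4)
            · rw [h3] at h
              rw [h4]
              exact not_le.1 h
          · exact absurd (not_le.1 h) h3
        have h3 := Real.log_le_log (qf_pos l _) (qf_le_of_nn l h2)
        have h4 : 0 ≤ α * sq2 (z + l.Y a (l.stop {y | K * r < nn y} z n a)) :=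
          mul_nonneg hα0 (by unfold sq2; positivity)
        rw [← hF] at h3
        linarith)
  have h1 : α * sq2 z ≤ 1 := by
    obtain ⟨h1, h2⟩ := sq_le_of_nn hzM
    rw [hα, inv_mul_le_iff₀ hden]
    have h3 : sq2 z ≤ A * (r : ℝ) ^ 2 := by
      unfold sq2
      push_cast at h1 h2
      rw [hAdef]
      nlinarith
    have h4 : 1 * (A * (r : ℝ) ^ 2) ≤ 2 ^ j * (A * (r : ℝ) ^ 2) :=
      mul_le_mul_of_nonneg_right h2j (by positivity)
    linarith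
  have h2 : F + 3 ≤ Real.log (qf l z) := by
    have hW : 0 < ((K * r : ℤ) : ℝ) ^ 2 * sg l + 8 * sg l := by positivity
    have e : F + 3 = Real.log (Real.exp 3 * (((K * r : ℤ) : ℝ) ^ 2 * sg l + 8 * sg l)) := by
      rw [Real.log_mul (Real.exp_pos 3).ne' hW.ne', Real.log_exp, hF]; ring
    rw [e]
    refine Real.log_le_log (by positivity) ?_
    have hz' : (X : ℝ) * r ≤ z.1 := by exact_mod_cast hz
    have hr2 : (1 : ℝ) ≤ (r : ℝ) ^ 2 := one_le_pow₀ hr1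
    have h3 : ((K * r : ℤ) : ℝ) ^ 2 * sg l + 8 * sg l ≤
        ((K : ℝ) ^ 2 * sg l + 8 * sg l) * (r : ℝ) ^ 2 := by
      push_cast
      nlinarith [mul_le_mul_of_nonneg_left hr2 hs.le]
    have h4 : Real.exp 3 * (((K * r : ℤ) : ℝ) ^ 2 * sg l + 8 * sg l) ≤ X * (r : ℝ) ^ 2 := by
      calc _ ≤ Real.exp 3 * (((K : ℝ) ^ 2 * sg l + 8 * sg l) * (r : ℝ) ^ 2) :=
            mul_le_mul_of_nonneg_left h3 (Real.exp_pos 3).le
        _ = Real.exp 3 * ((K : ℝ) ^ 2 * sg l + 8 * sg l) * (r : ℝ) ^ 2 := by ring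
        _ ≤ _ := mul_le_mul_of_nonneg_right hXV hρ.le
    have h5 : (X : ℝ) * (r : ℝ) ^ 2 ≤ (z.1 : ℝ) ^ 2 := by
      have h6 : ((X : ℝ) * r) ^ 2 ≤ (z.1 : ℝ) ^ 2 := pow_le_pow_left₀ (by positivity) hz' 2
      nlinarith [mul_le_mul_of_nonneg_right hX1 (by positivity : (0 : ℝ) ≤ X * (r : ℝ) ^ 2)]
    have h6 : (1 : ℝ) ≤ l.p⁻¹ := by
      have := l.rest_nonneg
      have := l.hq
      exact (one_le_inv₀ l.hp).2 (by linarith)
    have h7 : (z.1 : ℝ) ^ 2 * 1 ≤ (z.1 : ℝ) ^ 2 * l.p⁻¹ :=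
      mul_le_mul_of_nonneg_left h6 (sq_nonneg _)
    have h8 : 0 ≤ (z.2 : ℝ) ^ 2 * l.q⁻¹ := mul_nonneg (sq_nonneg _) (inv_pos.2 l.hq).le
    unfold qf
    linarith
  have h3 : 1 ≤ A * (j + 1) * (IID m).real E := by
    simp only [Nat.cast_zero, sub_zero] at key
    linarith
  have hA0 : 0 < A := by linarith
  rw [div_le_iff₀ (by positivity), inv_le_iff_one_le_mul₀ hA0]
  linarith

end Pool.Agent.MP_db8016_pr.HD
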