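import Pool.Agent.MP_db8016_pr.HD.Stmts

namespace Pool.Agent.MP_db8016_pr.HD
open MeasureTheory ProbabilityTheory Filter Finset

namespace AutoAux

section
variable {α : Type} [MeasurableSpace α] [Countable α] [DiscreteMeasurableSpace α]

lemma det_ext (μ ν : Measure (ℕ → α)) (j : ℕ) (h : ∀ e, μ (Cy e j) = ν (Cy e j))
    {A : Set (ℕ → α)} (hA : Det j A) : μ A = ν A := by
  let g : (ℕ → α) → (Fin j → α) := fun x i => x i
  have hg : Measurable g := measurable_pi_lambda _ fun i => measurable_pi_apply (i : ℕ)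
  have e1 : A = g ⁻¹' (g '' A) := by
    refine Set.Subset.antisymm (Set.subset_preimage_image _ _) ?_
    rintro y ⟨x, hx, hxy⟩
    exact hA x y (fun i hi => (congrFun hxy ⟨i, hi⟩).symm) hx
  have e2 : μ.map g = ν.map g := by
    refine Measure.ext_of_singleton fun w => ?_
    rw [Measure.map_apply hg (measurableSet_singleton _),
      Measure.map_apply hg (measurableSet_singleton _)]
    rcases (g ⁻¹' {w}).eq_empty_or_nonempty with h0 | ⟨e, he⟩
    · simp [h0]
    · have : g ⁻¹' {w} = Cy e j := by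
        ext a
        rw [Set.mem_preimage, Set.mem_singleton_iff] at *
        rw [← he]
        exact ⟨fun h1 i hi => congrFun h1 ⟨i, hi⟩, fun h1 => funext fun i => h1 i i.2⟩
      rw [this, h]
  have hm : MeasurableSet (g '' A) := (Set.to_countable _).measurableSet
  rw [e1, ← Measure.map_apply hg hm, ← Measure.map_apply hg hm, e2]

lemma cy_ext (μ ν : Measure (ℕ → α)) [IsFiniteMeasure μ] (h : ∀ e j, μ (Cy e j) = ν (Cy e j)) :
    μ = ν := by
  refine ext_of_generate_finite {A | ∃ k, Det k A} ?_ ?_ ?_ ?_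
  · refine le_antisymm (iSup_le fun i => ?_) (MeasurableSpace.generateFrom_le ?_)
    · rintro _ ⟨s, -, rfl⟩
      refine MeasurableSpace.measurableSet_generateFrom ⟨i + 1, fun a a' h1 h2 => ?_⟩
      rw [Set.mem_preimage] at *
      rwa [h1 i (Nat.lt_succ_self i)]
    · rintro A ⟨k, hk⟩
      exact hk.measurableSet
  · rintro A ⟨k, hk⟩ B ⟨k', hk'⟩ -
    exact ⟨max k k', fun a a' h1 h2 =>
      ⟨hk a a' (fun i hi => h1 i (lt_max_of_lt_left hi)) h2.1,
        hk' a a' (fun i hi => h1 i (lt_max_of_lt_right hi)) h2.2⟩⟩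
  · rintro A ⟨k, hk⟩
    exact det_ext μ ν k (fun e => h e k) hk
  · exact det_ext μ ν 0 (fun e => h e 0) fun _ _ _ _ => Set.mem_univ _

end

lemma det_step (W : Model) (j : ℕ) (t : T) {A : Set (ℕ → W.D)} (hA : Det j A) :
    W.S.real (A ∩ {e' | W.lam (e' j) = t}) = W.m.real {t} * W.S.real A := by
  have := det_ext (W.S.restrict {e' | W.lam (e' j) = t}) (W.m {t} • W.S) j (fun e => by
    rw [Measure.restrict_apply (measurableSet_Cy e j), Measure.smul_apply, smul_eq_mul,
      ← ENNReal.toReal_eq_toReal_iff' (measure_ne_top _ _)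
        (ENNReal.mul_ne_top (measure_ne_top _ _) (measure_ne_top _ _)), ENNReal.toReal_mul]
    exact W.auto e j t) hA
  rw [Measure.restrict_apply hA.measurableSet, Measure.smul_apply, smul_eq_mul] at this
  rw [measureReal_def, this, ENNReal.toReal_mul]
  rfl

lemma cyl (W : Model) (e : ℕ → W.D) (n : ℕ) (b : ℕ → T) (k : ℕ) :
    W.S.real (Cy e n ∩ sh n ⁻¹' (W.la ⁻¹' Cy b k)) =
      W.S.real (Cy e n) * ∏ i ∈ range k, W.m.real {b i} := by
  induction k with
  | zero => simp
  | succ k ih =>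
    have e1 : Cy e n ∩ sh n ⁻¹' (W.la ⁻¹' Cy b (k + 1)) =
        (Cy e n ∩ sh n ⁻¹' (W.la ⁻¹' Cy b k)) ∩ {e' | W.lam (e' (n + k)) = b k} := by
      ext a
      refine ⟨fun h => ⟨⟨h.1, fun i hi => h.2 i (by omega)⟩, h.2 k (by omega)⟩,
        fun h => ⟨h.1.1, fun i hi => ?_⟩⟩
      rcases Nat.lt_succ_iff_lt_or_eq.1 hi with h1 | rfl
      · exact h.1.2 i h1
      · exact h.2
    have hd : Det (n + k) (Cy e n ∩ sh n ⁻¹' (W.la ⁻¹' Cy b k)) := fun a a' h1 h2 =>
      ⟨fun i hi => (h1 i (by omega)).trans (h2.1 i hi),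
        fun i hi => (congrArg W.lam (h1 (n + i) (by omega))).trans (h2.2 i hi)⟩
    rw [e1, det_step W _ _ hd, ih, prod_range_succ]
    ring

end AutoAux

theorem auto_thm (hI : IidStmt) : AutoStmt := by
  intro W e n B hB
  have hm : Measurable (W.la ∘ sh n) := W.measurable_la.comp (measurable_sh n)
  have h1 : ∀ C, MeasurableSet C → ((W.S.restrict (Cy e n)).map (W.la ∘ sh n)) C =
      W.S (Cy e n ∩ sh n ⁻¹' (W.la ⁻¹' C)) := fun C hC => by
    rw [Measure.map_apply hm hC, Measure.restrict_apply (hm hC), Set.inter_comm]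
    rfl
  have := AutoAux.cy_ext ((W.S.restrict (Cy e n)).map (W.la ∘ sh n)) (W.S (Cy e n) • IID W.m)
    fun b k => by
      rw [h1 _ (measurableSet_Cy b k), Measure.smul_apply, smul_eq_mul,
        ← ENNReal.toReal_eq_toReal_iff' (measure_ne_top _ _)
          (ENNReal.mul_ne_top (measure_ne_top _ _) (measure_ne_top _ _)), ENNReal.toReal_mul]
      exact (AutoAux.cyl W e n b k).trans (congrArg _ (hI W.m b k).1.symm)
  rw [Model.cS, measureReal_def, ← h1 B hB, this, Measure.smul_apply, smul_eq_mul,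
    ENNReal.toReal_mul]
  rfl

theorem fresh_thm (hS : StopStmt) : FreshStmt := by
  intro W e n A hA
  let Q : (ℕ → W.D) → ℕ → Prop := fun e' k =>
    Cy e' k ⊆ A ∧ ∀ i < n, ∀ j < k, W.X e i ≠ W.X e n + W.X e' j
  have hQ : Adapt Q := fun a a' k h1 h2 => by
    refine ⟨by rw [Model.Cy_congr (e := a) h1]; exact h2.1, fun i hi j hj => ?_⟩
    rw [show W.X a' j = W.X a j from ps_congr _ h1 hj.le]
    exact h2.2 i hi j hj
  have eA : {e' | ∃ k, Q e' k} = A :=
    Set.Subset.antisymm (fun a ⟨k, hk⟩ => hk.1 (mem_Cy_self a k)) hA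
  have mA : MeasurableSet A := by
    rw [← eA, Set.ofPred_exists]
    exact MeasurableSet.iUnion fun k => hQ.measurableSet k
  have h1 : ∀ C, MeasurableSet C → ((W.S.restrict (Cy e n)).map (sh n)).real C =
      W.S.real (Cy e n ∩ sh n ⁻¹' C) := fun C hC => by
    rw [measureReal_def, Measure.map_apply (measurable_sh n) hC,
      Measure.restrict_apply (measurable_sh n hC), Set.inter_comm]
    rfl
  have h2 : ∀ e' k, First Q e' k → ((W.S.restrict (Cy e n)).map (sh n)).real (Cy e' k) =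
      W.S.real (Cy e n) * W.S.real (Cy e' k) := fun e' k hk => by
    have := W.fresh (Model.cat e n e') n k fun i hi j hj => by
      rw [ps_add, Model.sh_cat, ps_congr W.vec (Model.cat_mem e n e') hi.le,
        ps_congr W.vec (Model.cat_mem e n e') le_rfl]
      exact hk.1.2 i hi j hj
    rw [Model.Cy_cat, Model.sh_cat, Model.Cy_congr (Model.cat_mem e n e')] at this
    rw [h1 _ (measurableSet_Cy e' k), this]
  have a1 := hS W.D W.S ((W.S.restrict (Cy e n)).map (sh n)) Q hQ Set.univ Set.univ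
    MeasurableSet.univ MeasurableSet.univ (W.S.real (Cy e n)) 1 fun e' k hk => by
      rw [Set.inter_univ, one_mul, h2 e' k hk]
  have a2 := hS W.D ((W.S.restrict (Cy e n)).map (sh n)) W.S Q hQ Set.univ Set.univ
    MeasurableSet.univ MeasurableSet.univ 1 (W.S.real (Cy e n)) fun e' k hk => by
      rw [Set.inter_univ, one_mul, h2 e' k hk]
  rw [Set.inter_univ, one_mul, eA, h1 A mA] at a1 a2
  exact le_antisymm a1 a2

end Pool.Agent.MP_db8016_pr.HD
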