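import Pool.Agent.MP_db8016_pr.HD.Stmts

/-! The climbing estimate and the deviation estimate for the planar walk. -/

namespace Pool.Agent.MP_db8016_pr.HD
open MeasureTheory ProbabilityTheory Filter Finset

namespace ClimbAux

/-- The test function of the climbing estimate. -/
noncomputable def fc (h H α γ δ : ℝ) (k : ℕ) (z : ℤ × ℤ) : ℝ :=
  ((z.1 : ℝ) + h) - α * (z.2 : ℝ) ^ 2 - γ * k - δ * (((z.1 : ℝ) + h) * (H - h - z.1))

lemma av_fc {m : Measure T} (l : Lat m) (h H α γ δ : ℝ) (hδ : 2 * l.p * δ = 2 * l.q * α + γ)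
    (k : ℕ) (z : ℤ × ℤ) : l.av (fc h H α γ δ (k + 1)) z = fc h H α γ δ k z := by
  simp only [Lat.av, fc, Prod.fst_add, Prod.snd_add]
  push_cast
  linear_combination hδ

/-- The box in which the climbing walk is observed. -/
def Dc (h H M : ℤ) : Set (ℤ × ℤ) := {z | -h < z.1 ∧ z.1 < H - h ∧ -M < z.2 ∧ z.2 ≤ M}

lemma det_Ph {m : Measure T} (l : Lat m) (h₁ M₁ h₂ M₂ : ℤ) (t : ℕ) :
    Det t {a | ∃ n ≤ t, l.Ph h₁ M₁ h₂ M₂ a n} := by
  rintro a a' hh ⟨n, hn, h1, h2⟩
  refine ⟨n, hn, fun k hk => ?_, ?_⟩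
  · rw [l.U_congr hh (hk.trans hn), l.V_congr hh (hk.trans hn)]
    exact h1 k hk
  · rw [l.U_congr hh hn]; exact h2

/-- At a time before which the walk was in the box, the first coordinate is in the closed
interval, and at the upper end the event `Ph` holds. -/
lemma geo {m : Measure T} (l : Lat m) {h H M : ℤ} (h0 : 0 < h) (hH : h ≤ H) (hM : 0 < M)
    (a : ℕ → T) (τ : ℕ) (hb : ∀ k < τ, l.Y a k ∈ Dc h H M) :
    -h ≤ l.U a τ ∧ l.U a τ ≤ H - h ∧ (l.U a τ = H - h → l.Ph h (H - h) M M a τ) := by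
  have key : -h ≤ l.U a τ ∧ l.U a τ ≤ H - h ∧
      (l.U a τ = H - h → -M < l.V a τ ∧ l.V a τ ≤ M) := by
    rcases τ with _ | j
    · simp only [Lat.U_zero, Lat.V_zero]
      omega
    · have h1 := hb j (Nat.lt_succ_self j)
      simp only [Dc, Lat.Y, Set.mem_ofPred_eq] at h1
      have h2 := l.hst (a j)
      simp only [Prod.mk.injEq] at h2
      rw [l.U_succ, l.V_succ]
      omega
  refine ⟨key.1, key.2.1, fun he => ⟨fun k hk => ?_, he⟩⟩
  rcases lt_or_eq_of_le hk with hk' | rfl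
  · have h1 := hb k hk'
    simp only [Dc, Lat.Y, Set.mem_ofPred_eq] at h1
    omega
  · have h3 := key.2.2 he
    omega

lemma sq_ge {M v : ℤ} (hM : 0 < M) (hv : v ≤ -M ∨ M ≤ v) : (M : ℝ) ^ 2 ≤ (v : ℝ) ^ 2 := by
  have : M ^ 2 ≤ v ^ 2 := by rcases hv with hv | hv <;> nlinarith
  exact_mod_cast this

/-- The test function of the deviation estimate. -/
noncomputable def fd (k : ℕ) (z : ℤ × ℤ) : ℝ := (k : ℝ) * (-1) + ((z.1 : ℝ) ^ 2 + (z.2 : ℝ) ^ 2)

end ClimbAux

open ClimbAux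

theorem climb_thm (hO : OptStmt) : ClimbStmt := by
  intro m _ l h H M t h0 hH hM ht
  have hp := l.hp
  have hq := l.hq
  have h0' : (0 : ℝ) < h := by exact_mod_cast h0
  have hH' : (h : ℝ) ≤ H := by exact_mod_cast hH
  have hM' : (0 : ℝ) < M := by exact_mod_cast hM
  have ht' : (0 : ℝ) < t := by exact_mod_cast ht
  have hH0 : (0 : ℝ) < H := lt_of_lt_of_le h0' hH'
  obtain ⟨α, hα⟩ : ∃ α : ℝ, α = (H : ℝ) / (M : ℝ) ^ 2 := ⟨_, rfl⟩
  obtain ⟨γ, hγ⟩ : ∃ γ : ℝ, γ = (H : ℝ) / t := ⟨_, rfl⟩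
  obtain ⟨δ, hδ⟩ : ∃ δ : ℝ, δ = (2 * l.q * α + γ) / (2 * l.p) := ⟨_, rfl⟩
  have hα0 : 0 ≤ α := by rw [hα]; positivity
  have hγ0 : 0 ≤ γ := by rw [hγ]; positivity
  have hδ0 : 0 ≤ δ := by rw [hδ]; positivity
  have hαM : α * (M : ℝ) ^ 2 = H := by rw [hα]; field_simp
  have hγt : γ * t = H := by rw [hγ]; field_simp
  have hδp : 2 * l.p * δ = 2 * l.q * α + γ := by rw [hδ]; field_simp
  have hδH : δ * H = l.q / l.p * (H : ℝ) ^ 2 / (M : ℝ) ^ 2 + (H : ℝ) ^ 2 / (2 * l.p * t) := by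
    rw [hδ, hα, hγ]; field_simp
  have main := hO m l (Dc h H M) 0 t (fc h H α γ δ) {a | ∃ n ≤ t, l.Ph h (H - h) M M a n} 0 H
    (det_Ph l h (H - h) M M t).measurableSet
    (fun k _ z _ => (av_fc l h H α γ δ hδp k z).ge) ?_
  · have e0 : fc h H α γ δ 0 0 = h - δ * (h * (H - h)) := by simp [fc]
    rw [e0, zero_add] at main
    have e1 : (h : ℝ) / H * (1 - l.q / l.p * (H : ℝ) ^ 2 / (M : ℝ) ^ 2 -
        (H : ℝ) ^ 2 / (2 * l.p * t)) = (h * (1 - δ * H)) / H := by
      rw [hδH]; ring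
    rw [e1, div_le_iff₀ hH0]
    have h3 : 0 ≤ δ * (h * h) := by positivity
    nlinarith
  · intro a
    have hle := l.stop_le (Dc h H M) 0 t a
    have hsp := l.stop_spec (Dc h H M) 0 t a
    have hb : ∀ k < l.stop (Dc h H M) 0 t a, l.Y a k ∈ Dc h H M := fun k hk => by
      simpa using l.mem_of_lt_stop hk
    generalize l.stop (Dc h H M) 0 t a = τ at hle hsp hb
    obtain ⟨g1, g2, g3⟩ := geo l h0 hH hM a τ hb
    rw [zero_add] at hsp ⊢
    rw [zero_add]
    have g1' : (0 : ℝ) ≤ (l.U a τ : ℝ) + h := by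
      have : (0 : ℤ) ≤ l.U a τ + h := by omega
      exact_mod_cast this
    have g2' : (0 : ℝ) ≤ (H : ℝ) - h - l.U a τ := by
      have : (0 : ℤ) ≤ H - h - l.U a τ := by omega
      exact_mod_cast this
    have p1 : 0 ≤ δ * (((l.U a τ : ℝ) + h) * (H - h - l.U a τ)) := by positivity
    have p2 : 0 ≤ α * (l.V a τ : ℝ) ^ 2 := by positivity
    have p3 : 0 ≤ γ * (τ : ℝ) := by positivity
    have ef : fc h H α γ δ τ (l.Y a τ) = ((l.U a τ : ℝ) + h) - α * (l.V a τ : ℝ) ^ 2 - γ * τ -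
        δ * (((l.U a τ : ℝ) + h) * (H - h - l.U a τ)) := rfl
    rw [ef]
    by_cases he : l.U a τ = H - h
    · have hmem : a ∈ {a | ∃ n ≤ t, l.Ph h (H - h) M M a n} := ⟨τ, hle, g3 he⟩
      rw [Set.indicator_of_mem hmem, Pi.one_apply]
      linarith only [g2', p1, p2, p3]
    · have hi : 0 ≤ (H : ℝ) * Set.indicator {a | ∃ n ≤ t, l.Ph h (H - h) M M a n}
          (1 : (ℕ → T) → ℝ) a :=
        mul_nonneg hH0.le (Set.indicator_nonneg (fun _ _ => zero_le_one) _)
      refine le_trans ?_ hi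
      rcases hsp with rfl | hout
      · linarith only [g2', p1, p2, hγt]
      · simp only [Dc, Lat.Y, Set.mem_ofPred_eq] at hout
        by_cases hl : l.U a τ = -h
        · have : (l.U a τ : ℝ) + h = 0 := by rw [hl]; push_cast; ring
          linarith only [this, p1, p2, p3]
        · have hv : l.V a τ ≤ -M ∨ M ≤ l.V a τ := by omega
          have h4 := mul_le_mul_of_nonneg_left (sq_ge hM hv) hα0
          linarith only [h4, hαM, g2', p1, p3]

theorem dev_thm (hO : OptStmt) : DevStmt := by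
  intro m _ l M t hM
  have hM' : (0 : ℝ) < M := by exact_mod_cast hM
  have hdet : Det t {a | ∃ k ≤ t, M ≤ nn (l.Y a k)} := by
    rintro a a' hh ⟨k, hk, h1⟩
    exact ⟨k, hk, by rwa [l.Y_congr hh hk]⟩
  have main := hO m l {z | nn z < M} 0 t (fun k z => - fd k z)
    {a | ∃ k ≤ t, M ≤ nn (l.Y a k)} t (-(M : ℝ) ^ 2) hdet.measurableSet ?_ ?_
  · have e0 : fd 0 0 = 0 := by simp [fd]
    simp only [e0, neg_zero] at main
    rw [le_div_iff₀ (by positivity)]
    linarith only [main]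
  · intro k _ z _
    have hr := l.rest_nonneg
    have : l.av (fun z => - fd (k + 1) z) z = - fd k z + (1 - 2 * l.p - 2 * l.q) := by
      simp only [Lat.av, fd, Prod.fst_add, Prod.snd_add]
      push_cast
      ring
    rw [this]
    linarith only [hr]
  · intro a
    have hle := l.stop_le {z | nn z < M} 0 t a
    have hsp := l.stop_spec {z | nn z < M} 0 t a
    have hb : ∀ k < l.stop {z | nn z < M} 0 t a, nn (l.Y a k) < M := fun k hk => by
      simpa using l.mem_of_lt_stop hk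
    generalize l.stop {z | nn z < M} 0 t a = τ at hle hsp hb
    rw [zero_add] at hsp ⊢
    have hle' : (τ : ℝ) ≤ t := by exact_mod_cast hle
    have ef : fd τ (l.Y a τ) = (τ : ℝ) * (-1) + ((l.U a τ : ℝ) ^ 2 + (l.V a τ : ℝ) ^ 2) := rfl
    have p1 := sq_nonneg (l.U a τ : ℝ)
    have p2 := sq_nonneg (l.V a τ : ℝ)
    show - fd τ (l.Y a τ) ≤ _
    rw [ef]
    by_cases he : a ∈ {a | ∃ k ≤ t, M ≤ nn (l.Y a k)}
    · rw [Set.indicator_of_mem he, Pi.one_apply]
      obtain ⟨k, hk, h1⟩ := he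
      have hk' : τ ≤ k := by
        by_contra hc
        exact absurd (hb k (not_le.1 hc)) (not_lt.2 h1)
      have hout : M ≤ nn (l.Y a τ) := by
        rcases hsp with rfl | hout
        · rwa [le_antisymm hk hk'] at h1
        · exact not_lt.1 hout
      simp only [nn, Lat.Y, le_max_iff, le_abs'] at hout
      rcases hout with hu | hv
      · have := sq_ge hM hu
        linarith only [this, hle', p2]
      · have := sq_ge hM hv
        linarith only [this, hle', p1]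
    · rw [Set.indicator_of_notMem he]
      linarith only [hle', p1, p2]

end Pool.Agent.MP_db8016_pr.HD
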