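import Pool.Agent.MP_db8016_pr.HD.Stmts

/-! The final contradiction: exponential growth of the reached level against polynomial steps. -/

namespace Pool.Agent.MP_db8016_pr.HD
open MeasureTheory ProbabilityTheory Filter Finset

namespace CoreAux

lemma exists_s {a C : ℝ} (ha : 1 < a) (hC : 0 < C) {k : ℕ} (hk : 1 ≤ k) :
    ∃ s : ℕ, C * (((k * s : ℕ) : ℝ) + 1) ^ 4 + 2 < a ^ s := by
  have h := tendsto_pow_const_div_const_pow_of_one_lt 4 ha
  have hk' : (1 : ℝ) ≤ k := by exact_mod_cast hk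
  have hB : 0 < 16 * C * (k : ℝ) ^ 4 + 2 := by positivity
  have h1 := (h.eventually (gt_mem_nhds (show (0 : ℝ) < 1 / (16 * C * (k : ℝ) ^ 4 + 2) by
    positivity))).and (eventually_ge_atTop 1)
  obtain ⟨s, hs, hs1⟩ := h1.exists
  refine ⟨s, ?_⟩
  have hs' : (1 : ℝ) ≤ s := by exact_mod_cast hs1
  have hp : 0 < a ^ s := by positivity
  rw [div_lt_div_iff₀ hp hB, one_mul] at hs
  refine lt_of_le_of_lt ?_ hs
  push_cast
  have h2 : (1 : ℝ) ≤ k * s := one_le_mul_of_one_le_of_one_le hk' hs'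
  have h3 : ((k : ℝ) * s + 1) ^ 4 ≤ (2 * (k * s)) ^ 4 :=
    pow_le_pow_left₀ (by positivity) (by linarith) 4
  have h4 : (1 : ℝ) ≤ (s : ℝ) ^ 4 := one_le_pow₀ hs'
  have h5 := mul_le_mul_of_nonneg_left h3 hC.le
  calc C * ((k : ℝ) * s + 1) ^ 4 + 2 ≤ C * (2 * (k * s)) ^ 4 + 2 * (s : ℝ) ^ 4 := by linarith
    _ = (s : ℝ) ^ 4 * (16 * C * (k : ℝ) ^ 4 + 2) := by ring

lemma growth (f : ℕ → ℝ) (hf : ∀ I, 0 ≤ f I) {C a w₀ : ℝ} (hC : 0 < C) (ha : 1 < a)
    (hw : 0 < w₀) {k J : ℕ} (hk : 1 ≤ k)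
    (hup : ∀ Lb : ℕ, ∃ (I₁ : ℕ) (w₁ : ℝ), ∀ I, I₁ ≤ I →
      f (I + 1 + Lb) ≤ max w₁ (C * ((Lb : ℝ) + 1) ^ 4 * (f (I + 1) + 1)))
    (hlo : ∀ i I, J + i * k ≤ I → a ^ i * w₀ ≤ f I + 1) : False := by
  obtain ⟨s, hs⟩ := exists_s ha hC hk
  obtain ⟨I₁, w₁, h⟩ := hup (k * s)
  generalize hB : C * (((k * s : ℕ) : ℝ) + 1) ^ 4 = B at hs h
  have hB0 : 0 ≤ B := by rw [← hB]; positivity
  have hw₁ := abs_nonneg w₁
  have step : ∀ I, I₁ ≤ I →
      f (I + k * s + 1) + |w₁| + 1 ≤ (B + 2) * (f (I + 1) + |w₁| + 1) := by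
    intro I hI
    have h1 := h I hI
    rw [show I + 1 + k * s = I + k * s + 1 by ring] at h1
    have h2 := hf (I + 1)
    have h3 : 0 ≤ B * (f (I + 1) + 1) := by positivity
    have h4 : max w₁ (B * (f (I + 1) + 1)) ≤ |w₁| + B * (f (I + 1) + 1) :=
      max_le (by linarith [le_abs_self w₁]) (by linarith)
    have h5 : 0 ≤ B * |w₁| := by positivity
    nlinarith
  have iter : ∀ i : ℕ, f (I₁ + J + i * (k * s) + 1) + |w₁| + 1 ≤
      (B + 2) ^ i * (f (I₁ + J + 1) + |w₁| + 1) := by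
    intro i
    induction i with
    | zero => simp
    | succ i ih =>
      have h1 := step (I₁ + J + i * (k * s)) (by omega)
      rw [show I₁ + J + (i + 1) * (k * s) + 1 = I₁ + J + i * (k * s) + k * s + 1 by ring,
        pow_succ', mul_assoc]
      exact h1.trans (mul_le_mul_of_nonneg_left ih (by linarith))
  have hG : 0 < B + 2 := by linarith
  have hr : 1 < a ^ s / (B + 2) := by rwa [one_lt_div hG]
  obtain ⟨i, hi⟩ := ((tendsto_pow_atTop_atTop_of_one_lt hr).eventually_gt_atTop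
    ((f (I₁ + J + 1) + |w₁| + 1) / w₀)).exists
  have h1 := hlo (i * s) (I₁ + J + i * (k * s) + 1) (by
    have : i * s * k = i * (k * s) := by ring
    omega)
  have h2 := iter i
  rw [div_pow, div_lt_div_iff₀ hw (by positivity), ← pow_mul, mul_comm s i] at hi
  linarith

variable {W : Model} (ℓ : Lev W)

/-- Level `w` is reached within `t` steps in one of the two directions, with fair probability. -/
def good (w : ℝ) (t : ℕ) : Prop :=
  ℓ.β / 2 ≤ W.S.real (ℓ.Up w t) ∨ ℓ.β / 2 ≤ W.S.real (ℓ.neg.Up w t)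

lemma good_mono {w w' : ℝ} {t t' : ℕ} (hw : w' ≤ w) (ht : t ≤ t') (h : good ℓ w t) :
    good ℓ w' t' :=
  h.imp (fun h => h.trans (measureReal_mono (ℓ.Up_mono hw ht)))
    fun h => h.trans (measureReal_mono (ℓ.neg.Up_mono hw ht))

lemma good_zero (t : ℕ) : good ℓ ((0 : ℕ) : ℝ) t := by
  left
  have : ℓ.Up ((0 : ℕ) : ℝ) t = Set.univ := by
    refine Set.eq_univ_of_forall fun e => ⟨0, Nat.zero_le _, by simp, fun k hk => ?_⟩
    obtain rfl : k = 0 := by omega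
    simp
  rw [this, probReal_univ]
  linarith [ℓ.β_le_one, ℓ.hβ]

lemma Up_empty {w : ℝ} {t : ℕ} (h : (t : ℝ) < w) : ℓ.Up w t = ∅ := by
  refine Set.eq_empty_of_forall_notMem ?_
  rintro e ⟨n, h1, h2, -⟩
  have h3 := (abs_le.1 (ℓ.abs_lv_le e n)).2
  have h4 : (n : ℝ) ≤ t := by exact_mod_cast h1
  linarith

lemma good_le {w : ℝ} {t : ℕ} (h : good ℓ w t) : w ≤ t := by
  by_contra h'
  have h1 := not_le.1 h'
  have := ℓ.hβ
  rcases h with h | h
  · rw [Up_empty ℓ h1, measureReal_empty] at h; linarith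
  · rw [Up_empty ℓ.neg h1, measureReal_empty] at h; linarith

open Classical in
/-- The largest integer level that is good at time `t`. -/
noncomputable def Wn (t : ℕ) : ℕ := Nat.findGreatest (fun w : ℕ => good ℓ w t) t

lemma good_Wn (t : ℕ) : good ℓ (Wn ℓ t) t := by
  classical
  exact Nat.findGreatest_spec (P := fun w : ℕ => good ℓ w t) (Nat.zero_le t) (good_zero ℓ t)

lemma not_good (t : ℕ) : ¬ good ℓ ((Wn ℓ t : ℝ) + 1) t := by
  classical
  intro h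
  have h1 : good ℓ ((Wn ℓ t + 1 : ℕ) : ℝ) t := by push_cast; exact h
  have h2 : Wn ℓ t + 1 ≤ t := by exact_mod_cast good_le ℓ h1
  exact Nat.findGreatest_is_greatest (P := fun w : ℕ => good ℓ w t) (Nat.lt_succ_self _) h2 h1

lemma le_Wn {w : ℝ} {t : ℕ} (h : good ℓ w t) : w ≤ Wn ℓ t + 1 := by
  by_contra h'
  exact not_good ℓ t (good_mono ℓ (not_le.1 h').le le_rfl h)

lemma mul_t_le {m : Measure T} {l : Lat m} (c : Cut l) (I n : ℕ) :
    (n + 1) * c.t I ≤ c.t (I + n) := by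
  induction n with
  | zero => simp
  | succ n ih =>
    have h := c.nine_t_le (I + n)
    rw [← add_assoc]
    nlinarith [Nat.zero_le (c.t I), Nat.zero_le (n * c.t I)]

end CoreAux

open CoreAux in
theorem core_thm (hC : CutStmt) (hS : SpeedStmt) (hF : FinalStmt) : CoreStmt := by
  intro W ℓ
  obtain ⟨c⟩ := hC W.m W.l
  obtain ⟨a, w₀, k₁, C₁, I₀, ha, hw, hk, -, hlow⟩ := hS W ℓ c
  obtain ⟨C, hC0, h1⟩ := hF W ℓ c
  obtain ⟨C', -, h2⟩ := hF W ℓ.neg c
  refine growth (fun I => (Wn ℓ (c.t I) : ℝ)) (fun _ => Nat.cast_nonneg _) (C := max C C')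
    (lt_max_of_lt_left hC0) ha hw (J := I₀ + C₁) hk (fun Lb => ?_) fun i I hI => ?_
  · obtain ⟨I₁, w₁, h1⟩ := h1 Lb
    obtain ⟨I₂, w₂, h2⟩ := h2 Lb
    refine ⟨max I₁ I₂, max w₁ w₂, fun I hI => ?_⟩
    rcases le_total (Wn ℓ (c.t (I + 1 + Lb)) : ℝ) (max w₁ w₂) with h | h
    · exact le_max_of_le_left h
    refine le_max_of_le_right ?_
    have n1 := not_or.1 (not_good ℓ (c.t (I + 1 + Lb)))
    have n2 := not_or.1 (not_good ℓ (c.t (I + 1)))
    have hp : 0 ≤ ((Lb : ℝ) + 1) ^ 4 * ((Wn ℓ (c.t (I + 1)) : ℝ) + 1) := by positivity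
    rcases good_Wn ℓ (c.t (I + 1 + Lb)) with g | g
    · refine (h1 I (le_of_max_le_left hI) _ _ (le_of_max_le_left h) (Nat.cast_nonneg _) g
        (not_le.1 n1.2) (not_le.1 n2.1)).trans ?_
      rw [mul_assoc, mul_assoc]
      exact mul_le_mul_of_nonneg_right (le_max_left _ _) hp
    · refine (h2 I (le_of_max_le_right hI) _ _ (le_of_max_le_right h) (Nat.cast_nonneg _) g
        (by rw [ℓ.neg_neg_Up]; exact not_le.1 n1.1) (not_le.1 n2.2)).trans ?_
      rw [mul_assoc, mul_assoc]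
      exact mul_le_mul_of_nonneg_right (le_max_right _ _) hp
  · refine le_Wn ℓ (good_mono ℓ le_rfl ?_ (Or.inl (hlow i)))
    have h3 := mul_t_le c (I₀ + i * k₁) C₁
    have h4 := c.t_mono (show I₀ + i * k₁ + C₁ ≤ I by omega)
    nlinarith [Nat.zero_le (c.t (I₀ + i * k₁))]

end Pool.Agent.MP_db8016_pr.HD
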