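import Pool.Agent.MP_db8016_pr.HD.Stmts

/-! Existence of a system of cut events. -/

namespace Pool.Agent.MP_db8016_pr.HD
open MeasureTheory ProbabilityTheory Filter Finset

namespace CutExAux

/-- The block times. -/
def tt (A μ : ℕ) : ℕ → ℕ
  | 0 => 0
  | i + 1 => A * (μ ^ i) ^ 2

/-- The block events. -/
def GG {m : Measure T} (l : Lat m) (A μ K : ℕ) (s0 : T) : ℕ → Set ((ℕ → T) × (ℕ → T))
  | 0 => Cy (fun _ => s0) A ×ˢ Cy (fun _ => s0) A
  | i + 1 => {x | l.Lead ((μ ^ i : ℕ) : ℤ) ((μ ^ i : ℕ) : ℤ) K (μ * μ ^ i : ℕ) (μ * μ ^ i : ℕ) K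
      x.1 (A * (μ * μ ^ i) ^ 2 - A * (μ ^ i) ^ 2) x.2 (A * (μ * μ ^ i) ^ 2 - A * (μ ^ i) ^ 2)}

lemma tt_lt {A μ : ℕ} (hA : 1 ≤ A) (hμ : 2 ≤ μ) (i : ℕ) : tt A μ i < tt A μ (i + 1) := by
  cases i with
  | zero => simp only [tt]; simp; omega
  | succ i =>
    simp only [tt]
    have h1 : μ ^ i < μ ^ (i + 1) := Nat.pow_lt_pow_right (by omega) (by omega)
    exact Nat.mul_lt_mul_of_pos_left (Nat.pow_lt_pow_left h1 (by omega)) (by omega)

lemma tt_strict {A μ : ℕ} (hA : 1 ≤ A) (hμ : 2 ≤ μ) : StrictMono (tt A μ) :=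
  strictMono_nat_of_lt_succ (tt_lt hA hμ)

lemma tt_sub (A μ i : ℕ) :
    tt A μ (i + 1 + 1) - tt A μ (i + 1) = A * (μ * μ ^ i) ^ 2 - A * (μ ^ i) ^ 2 := by
  simp only [tt, pow_succ' μ i]

lemma exists_sym {m : Measure T} [IsProbabilityMeasure m] (l : Lat m) :
    ∃ s0 : T, l.st s0 = (1, 0) ∧ 0 < m.real {s0} := by
  by_contra hc
  push Not at hc
  have h := l.hE fun a b => if a = 1 ∧ b = 0 then 1 else 0
  have h0 : ∑ t, m.real {t} * (if l.u t = 1 ∧ l.v t = 0 then (1 : ℝ) else 0) = 0 := by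
    refine sum_eq_zero fun t _ => ?_
    split_ifs with ht
    · have h1 := hc t (by simp [Lat.st, ht.1, ht.2])
      have h2 : 0 ≤ m.real {t} := measureReal_nonneg
      rw [le_antisymm h1 h2]; simp
    · simp
  rw [h0] at h
  have := l.hp
  norm_num at h
  linarith

lemma Y_const {m : Measure T} (l : Lat m) {s0 : T} (h0 : l.st s0 = (1, 0)) {a : ℕ → T} {A : ℕ}
    (ha : a ∈ Cy (fun _ => s0) A) {k : ℕ} (hk : k ≤ A) : l.Y a k = ((k : ℤ), 0) := by
  induction k with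
  | zero => rw [l.Y_zero]; rfl
  | succ k ih =>
    rw [l.Y_succ, ih (by omega), ha k (by omega), h0]
    simp

lemma trace_union {m : Measure T} (l : Lat m) (a : ℕ → T) (n k : ℕ) :
    l.trace 0 a n ∪ l.trace (l.Y a n) (sh n a) k = l.trace 0 a (n + k) := by
  ext z
  simp only [Lat.trace, Set.mem_union, Set.mem_ofPred_eq, zero_add]
  constructor
  · rintro (⟨j, hj, rfl⟩ | ⟨j, hj, rfl⟩)
    · exact ⟨j, by omega, rfl⟩
    · exact ⟨n + j, by omega, (l.Y_add a n j).symm⟩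
  · rintro ⟨j, hj, rfl⟩
    rcases le_total j n with h | h
    · exact Or.inl ⟨j, h, rfl⟩
    · obtain ⟨j, rfl⟩ := Nat.exists_eq_add_of_le h
      exact Or.inr ⟨j, by omega, l.Y_add a n j⟩

lemma mem_trace {m : Measure T} (l : Lat m) (a : ℕ → T) {n s : ℕ} (h : s ≤ n) :
    l.Y a s ∈ l.trace 0 a n := ⟨s, h, (zero_add _).symm⟩

lemma mem_trace' {m : Measure T} (l : Lat m) (a : ℕ → T) {n k s : ℕ} (h : n ≤ s)
    (h' : s ≤ n + k) : l.Y a s ∈ l.trace (l.Y a n) (sh n a) k := by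
  obtain ⟨j, rfl⟩ := Nat.exists_eq_add_of_le h
  exact ⟨j, by omega, l.Y_add a n j⟩

lemma le_nn (z : ℤ × ℤ) : z.1 ≤ nn z := (le_abs_self _).trans (le_max_left _ _)

/-- The invariant at depth `I + 1`. -/
def Inv {m : Measure T} (l : Lat m) (A μ K I : ℕ) (x : (ℕ → T) × (ℕ → T)) : Prop :=
  Std ((μ ^ I : ℕ) : ℤ) ((μ ^ I : ℕ) : ℤ) K (l.trace 0 x.1 (tt A μ (I + 1)))
      (l.Y x.1 (tt A μ (I + 1))) (l.trace 0 x.2 (tt A μ (I + 1))) (l.Y x.2 (tt A μ (I + 1))) ∧
    ∀ s ≤ tt A μ (I + 1), ∀ s' ≤ tt A μ (I + 1), ∀ i,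
      (tt A μ (i + 1) ≤ s ∨ tt A μ (i + 1) ≤ s') →
      ((μ ^ i : ℕ) : ℤ) ≤ nn (l.Y x.1 s + l.Y x.2 s')

lemma base {m : Measure T} (l : Lat m) {A μ K : ℕ} {s0 : T} (h0 : l.st s0 = (1, 0))
    {I : ℕ} {x : (ℕ → T) × (ℕ → T)} (hx : x ∈ CC (tt A μ) (GG l A μ K s0) (I + 1)) {k : ℕ}
    (hk : k ≤ A) : l.Y x.1 k = ((k : ℤ), 0) ∧ l.Y x.2 k = ((k : ℤ), 0) := by
  have h := hx 0 (by omega)
  simp only [tt, sh_zero, GG, Set.mem_prod] at h
  exact ⟨Y_const l h0 h.1 hk, Y_const l h0 h.2 hk⟩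

/-- The end points are far from all reflected points. -/
lemma top {m : Measure T} (l : Lat m) {A μ K : ℕ} (hA : 1 ≤ A) (hμ : 2 ≤ μ) {I : ℕ}
    {x : (ℕ → T) × (ℕ → T)}
    (h : Std ((μ ^ I : ℕ) : ℤ) ((μ ^ I : ℕ) : ℤ) K (l.trace 0 x.1 (tt A μ (I + 1)))
      (l.Y x.1 (tt A μ (I + 1))) (l.trace 0 x.2 (tt A μ (I + 1))) (l.Y x.2 (tt A μ (I + 1))))
    {s s' i : ℕ} (hs : s ≤ tt A μ (I + 1)) (hs' : s' ≤ tt A μ (I + 1)) (hi : I ≤ i)
    (hor : tt A μ (i + 1) ≤ s ∨ tt A μ (i + 1) ≤ s') :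
    ((μ ^ i : ℕ) : ℤ) ≤ nn (l.Y x.1 s + l.Y x.2 s') := by
  have hm := (tt_strict hA hμ).monotone (show I + 1 ≤ i + 1 by omega)
  have hiI : i = I := by
    have : tt A μ (i + 1) ≤ tt A μ (I + 1) := by omega
    have := (tt_strict hA hμ).le_iff_le.1 this
    omega
  subst hiI
  have hp : (0 : ℤ) ≤ ((μ ^ i : ℕ) : ℤ) := Int.natCast_nonneg _
  refine le_trans ?_ (le_nn _)
  rw [Prod.fst_add]
  rcases hor with h1 | h1
  · have e : s = tt A μ (i + 1) := by omega
    have := h.h1 _ (mem_trace l x.2 hs')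
    rw [e]; linarith
  · have e : s' = tt A μ (i + 1) := by omega
    have := h.h2 _ (mem_trace l x.1 hs)
    rw [e]; linarith

lemma inv {m : Measure T} (l : Lat m) {A μ K : ℕ} {s0 : T} (h0 : l.st s0 = (1, 0))
    (hA : 2 ≤ A) (hK : A ≤ K) (hμ : 3 * K ≤ μ) (I : ℕ) :
    ∀ x ∈ CC (tt A μ) (GG l A μ K s0) (I + 1), Inv l A μ K I x := by
  have hA1 : 1 ≤ A := by omega
  have hμ2 : 2 ≤ μ := by omega
  induction I with
  | zero =>
    intro x hx
    have hb := fun k hk => base l h0 (k := k) hx hk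
    have ht : tt A μ (0 + 1) = A := by simp [tt]
    have hA' : (2 : ℤ) ≤ A := by exact_mod_cast hA
    have hK' : (A : ℤ) ≤ K := by exact_mod_cast hK
    have hS : Std ((μ ^ 0 : ℕ) : ℤ) ((μ ^ 0 : ℕ) : ℤ) K (l.trace 0 x.1 (tt A μ (0 + 1)))
        (l.Y x.1 (tt A μ (0 + 1))) (l.trace 0 x.2 (tt A μ (0 + 1)))
        (l.Y x.2 (tt A μ (0 + 1))) := by
      rw [ht]
      refine ⟨mem_trace l _ le_rfl, mem_trace l _ le_rfl, ?_, ?_, ?_, ?_, ?_⟩
      · rintro z ⟨k, hk, rfl⟩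
        rw [(hb A le_rfl).1, (hb k hk).2]
        have : (0 : ℤ) ≤ k := Int.natCast_nonneg _
        simp only [pow_zero, Nat.cast_one, zero_add]; linarith
      · rintro z ⟨k, hk, rfl⟩
        rw [(hb A le_rfl).2, (hb k hk).1]
        have : (0 : ℤ) ≤ k := Int.natCast_nonneg _
        simp only [pow_zero, Nat.cast_one, zero_add]; linarith
      · rw [(hb A le_rfl).1, (hb A le_rfl).2]
        simp only [pow_zero, Nat.cast_one]; linarith
      · rintro z ⟨k, hk, rfl⟩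
        rw [(hb k hk).1]
        have : (k : ℤ) ≤ A := by exact_mod_cast hk
        simp only [pow_zero, Nat.cast_one, zero_add, nn, Nat.abs_cast, abs_zero, mul_one,
          max_le_iff]
        constructor <;> linarith
      · rintro z ⟨k, hk, rfl⟩
        rw [(hb k hk).2]
        have : (k : ℤ) ≤ A := by exact_mod_cast hk
        simp only [pow_zero, Nat.cast_one, zero_add, nn, Nat.abs_cast, abs_zero, mul_one,
          max_le_iff]
        constructor <;> linarith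
    exact ⟨hS, fun s hs s' hs' i hor => top l hA1 hμ2 hS hs hs' (Nat.zero_le _) hor⟩
  | succ I ih =>
    intro x hx
    obtain ⟨h1, h2⟩ := ih x fun i hi => hx i (by omega)
    have hG := hx (I + 1) (by omega)
    simp only [GG, Set.mem_ofPred_eq] at hG
    rw [← tt_sub] at hG
    obtain ⟨k1, k2, k3⟩ := hG _ _ _ _ h1
    have hlt := tt_lt hA1 hμ2 (I + 1)
    have he : tt A μ (I + 1) + (tt A μ (I + 1 + 1) - tt A μ (I + 1)) = tt A μ (I + 1 + 1) := by
      omega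
    rw [trace_union, he] at k2 k3
    rw [trace_union, trace_union, ← l.Y_add, ← l.Y_add, he, ← pow_succ'] at k1
    refine ⟨k1, fun s hs s' hs' i hor => ?_⟩
    rcases le_or_gt (I + 1) i with hi | hi
    · exact top l hA1 hμ2 k1 hs hs' hi hor
    have hpow : ((μ ^ i : ℕ) : ℤ) ≤ ((μ ^ I : ℕ) : ℤ) := by
      exact_mod_cast Nat.pow_le_pow_right (by omega) (by omega)
    rcases le_total (tt A μ (I + 1)) s with c1 | c1
    · exact hpow.trans (k2 _ (mem_trace' l x.1 c1 (by omega)) _ (mem_trace l x.2 hs'))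
    rcases le_total (tt A μ (I + 1)) s' with c2 | c2
    · exact hpow.trans (k3 _ (mem_trace l x.1 hs) _ (mem_trace' l x.2 c2 (by omega)))
    exact h2 s c1 s' c2 i hor

end CutExAux

open CutExAux in
theorem cut_thm (hB : BlockStmt) (hI : IidStmt) (hD : LeadDet) : CutStmt := by
  intro m _ l
  obtain ⟨A, μ, K, hA, hK, hμ, hblk⟩ := hB m l
  obtain ⟨s0, h0, hpos⟩ := exists_sym l
  have hA1 : 1 ≤ A := by omega
  have hμ2 : 2 ≤ μ := by omega
  have hμr : (0 : ℝ) < (μ : ℝ) ^ 2 := by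
    have : (0 : ℝ) < μ := by exact_mod_cast (show 0 < μ by omega)
    positivity
  have htwo : ∀ i, 2 ≤ (μ : ℝ) ^ 2 * (IID2 m).real (GG l A μ K s0 (i + 1)) := fun i =>
    hblk (μ ^ i) (Nat.one_le_pow _ _ (by omega))
  have hinv := inv l h0 hA hK hμ
  refine ⟨{
    A := A
    μ := μ
    K := K
    t := tt A μ
    r := fun i => μ ^ (i - 1)
    G := GG l A μ K s0
    π₀ := min (m.real {s0} ^ A * m.real {s0} ^ A) (2 / (μ : ℝ) ^ 2)
    hA := hA1
    hK := by omega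
    hμ := hμ
    t_zero := rfl
    r_one := by simp
    r_succ := ?_
    t_eq := ?_
    det := ?_
    π₀_pos := lt_min (by positivity) (by positivity)
    π₀_le := ?_
    two_le := ?_
    g1 := ?_
    g2 := ?_
    g3 := ?_
    g4 := ?_
    g5 := ?_ }⟩
  · intro i hi
    obtain ⟨i, rfl⟩ := Nat.exists_eq_add_of_le' hi
    simp [pow_succ']
  · intro i hi
    obtain ⟨i, rfl⟩ := Nat.exists_eq_add_of_le' hi
    simp [tt]
  · intro i
    cases i with
    | zero =>
      have ht : tt A μ (0 + 1) - tt A μ 0 = A := by simp [tt]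
      rw [ht]
      intro x y h1 h2 hx
      exact ⟨fun i hi => (h1 i hi).trans (hx.1 i hi), fun i hi => (h2 i hi).trans (hx.2 i hi)⟩
    | succ i =>
      rw [tt_sub]
      exact hD m l _ _ _ _ _ _ _ _
  · intro i
    cases i with
    | zero =>
      refine (min_le_left _ _).trans (le_of_eq ?_)
      have h1 := (hI m (fun _ => s0) A).1
      simp only [prod_const, card_range] at h1
      simp only [GG, IID2]
      rw [measureReal_prod_prod, h1]
    | succ i =>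
      refine (min_le_right _ _).trans ?_
      rw [div_le_iff₀' hμr]
      exact htwo i
  · intro i hi
    obtain ⟨i, rfl⟩ := Nat.exists_eq_add_of_le' hi
    exact htwo i
  · intro I x hx s hs s' hs' h1
    cases I with
    | zero => simp only [tt] at hs'; omega
    | succ I =>
      by_cases hc : s ≤ A ∧ s' ≤ A
      · rw [(base l h0 hx hc.1).1, (base l h0 hx hc.2).2]
        intro h
        have := congrArg Prod.fst h
        simp only [Prod.fst_add, Prod.fst_zero] at this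
        omega
      · have ht : tt A μ (0 + 1) = A := by simp [tt]
        have h2 := (hinv I x hx).2 s hs s' hs' 0 (by rw [ht]; omega)
        intro h
        rw [h] at h2
        simp [nn] at h2
  · intro I x hx i hi s hs hts s' hs'
    obtain ⟨i, rfl⟩ := Nat.exists_eq_add_of_le' hi
    cases I with
    | zero =>
      have := tt_strict hA1 hμ2 (show 0 < i + 1 by omega)
      omega
    | succ I => exact (hinv I x hx).2 s hs s' hs' i (Or.inl hts)
  · intro I hI1 x hx s hs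
    obtain ⟨I, rfl⟩ := Nat.exists_eq_add_of_le' hI1
    exact ⟨(hinv I x hx).1.h4 _ (mem_trace l x.1 hs), (hinv I x hx).1.h5 _ (mem_trace l x.2 hs)⟩
  · intro I hI1 x hx s hs
    obtain ⟨I, rfl⟩ := Nat.exists_eq_add_of_le' hI1
    have h1 := (hinv I x hx).1.h1 _ (mem_trace l x.2 hs)
    have h2 := (hinv I x hx).1.h2 _ (mem_trace l x.1 hs)
    simp only [Lat.Y, Nat.add_sub_cancel] at h1 h2 ⊢
    constructor <;> linarith
  · intro I hI1 x hx
    obtain ⟨I, rfl⟩ := Nat.exists_eq_add_of_le' hI1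
    have h1 := (hinv I x hx).1.h3
    simp only [Lat.Y, Nat.add_sub_cancel] at h1 ⊢
    linarith

end Pool.Agent.MP_db8016_pr.HD
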