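import Pool.Agent.MP_db8016_pr.HD.Stmts
namespace Pool.Agent.MP_db8016_pr.HD
open MeasureTheory ProbabilityTheory Filter Finset

namespace DrawAux
variable {W : Model} (ℓ : Lev W)

/-- After the first passage of level `a` the walk rises by `y` and then comes back. -/
def BB (a y : ℝ) : Set (ℕ → W.D) :=
  {e | ∃ n, First (fun e n => a ≤ ℓ.lv e n) e n ∧ sh n e ∈ ℓ.Back y}

lemma adapt_le (a : ℝ) : Adapt fun e n => a ≤ ℓ.lv e n := fun _ _ _ h h' =>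
  le_of_le_of_eq h' (ℓ.lv_congr h le_rfl).symm

lemma first_congr {a : ℝ} {e e' : ℕ → W.D} {n : ℕ} (h : ∀ i < n, e' i = e i)
    (h' : First (fun e n => a ≤ ℓ.lv e n) e n) : First (fun e n => a ≤ ℓ.lv e n) e' n :=
  ⟨le_of_le_of_eq h'.1 (ℓ.lv_congr h le_rfl).symm, fun k hk c =>
    h'.2 k hk (le_of_le_of_eq c (ℓ.lv_congr h hk.le))⟩

lemma meas_Back (y : ℝ) : MeasurableSet (ℓ.Back y) := by
  have : ℓ.Back y = ⋃ i, ⋃ j, {e | i ≤ j ∧ y ≤ ℓ.lv e i ∧ ℓ.lv e j < 0} := by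
    ext e; simp [Lev.Back]
  rw [this]
  refine MeasurableSet.iUnion fun i => MeasurableSet.iUnion fun j =>
    Det.measurableSet (n := j) fun e e' h h' => ?_
  exact ⟨h'.1, by rw [ℓ.lv_congr h h'.1]; exact h'.2.1, by rw [ℓ.lv_congr h le_rfl]; exact h'.2.2⟩

lemma meas_BB (a y : ℝ) : MeasurableSet (BB ℓ a y) := by
  have : BB ℓ a y = ⋃ n, {e | First (fun e n => a ≤ ℓ.lv e n) e n} ∩ sh n ⁻¹' ℓ.Back y := by
    ext e; simp [BB]
  rw [this]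
  exact MeasurableSet.iUnion fun n =>
    (Det.measurableSet (n := n) fun e e' h h' => first_congr ℓ h h').inter
      (measurable_sh n (meas_Back ℓ y))

lemma BB_le (hS : StopStmt) (a y ε : ℝ) (hε : 0 ≤ ε)
    (h : ∀ e n, ℓ.Rec e n → W.cS e n (ℓ.Back y) ≤ ε * W.S.real (Cy e n)) :
    W.S.real (BB ℓ a y) ≤ ε := by
  have h1 := hS W.D W.S W.S (fun e n => a ≤ ℓ.lv e n) (adapt_le ℓ a) Set.univ (BB ℓ a y)
    MeasurableSet.univ (meas_BB ℓ a y) ε 1 (fun e n hf => by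
      have h2 := h e n fun i hi => (not_le.1 (hf.2 i hi)).trans_le hf.1
      rw [one_mul, Set.inter_univ]
      refine le_trans (measureReal_mono ?_) h2
      rintro e' ⟨he, n', hn', hb⟩
      obtain rfl : n = n' := (first_congr ℓ he hf).unique hn'
      exact ⟨he, hb⟩)
  have h3 : {e | ∃ n, a ≤ ℓ.lv e n} ∩ BB ℓ a y = BB ℓ a y :=
    Set.inter_eq_right.2 fun e ⟨n, hn, _⟩ => ⟨n, hn.1⟩
  rw [one_mul, h3] at h1
  exact h1.trans (mul_le_of_le_one_right hε measureReal_le_one)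

lemma cover (N : ℕ) (y : ℝ) (hy : 1 ≤ y) :
    {e | (∀ n, 0 ≤ ℓ.lv e n) ∧ ∃ i j, i ≤ j ∧ ℓ.lv e i < N * (3 * y) ∧
      3 * y ≤ ℓ.lv e i - ℓ.lv e j} ⊆ ⋃ k ∈ range (3 * N + 1), BB ℓ (k * y) y := by
  rintro e ⟨h0, i, j, hij, h1, h2⟩
  have y0 : 0 < y := by linarith
  have hj := h0 j
  have a0 : 0 ≤ (ℓ.lv e i - 3 * y) / y := div_nonneg (by linarith) y0.le
  obtain ⟨k, hk⟩ : ∃ k, k = ⌊(ℓ.lv e i - 3 * y) / y⌋₊ := ⟨_, rfl⟩
  have a1 : (k : ℝ) * y ≤ ℓ.lv e i - 3 * y := by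
    rw [← le_div_iff₀ y0, hk]; exact Nat.floor_le a0
  have a2 : ℓ.lv e i - 3 * y < ((k + 1 : ℕ) : ℝ) * y := by
    rw [← div_lt_iff₀ y0, hk]; push_cast; exact Nat.lt_floor_add_one _
  have a3 : ((k + 1 : ℕ) : ℝ) * y ≤ ℓ.lv e i - 2 * y := by push_cast; linarith
  have a4 : k + 1 < 3 * N + 1 := by
    have : ((k + 1 : ℕ) : ℝ) * y < ((3 * N + 1 : ℕ) : ℝ) * y := by push_cast at a3 ⊢; linarith
    exact_mod_cast lt_of_mul_lt_mul_right this y0.le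
  simp only [Set.mem_iUnion]
  obtain ⟨n, hn, hf⟩ := exists_first (Q := fun e n => ((k + 1 : ℕ) : ℝ) * y ≤ ℓ.lv e n) (a := e)
    (n := i) (by linarith)
  refine ⟨k + 1, mem_range.2 a4, n, hf, i - n, j - n, by omega, ?_, ?_⟩
  · have b1 : ℓ.lv e n < ((k + 1 : ℕ) : ℝ) * y + 1 := by
      rcases n with _ | n
      · rw [ℓ.lv_zero]; positivity
      · have c1 := not_le.1 (hf.2 n (Nat.lt_succ_self n))
        have c2 := (abs_le.1 (ℓ.lv_succ e n)).2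
        linarith
    have b2 := ℓ.lv_add e n (i - n)
    rw [Nat.add_sub_cancel' hn] at b2
    linarith
  · have b2 := ℓ.lv_add e n (j - n)
    rw [Nat.add_sub_cancel' (hn.trans hij)] at b2
    have := hf.1
    linarith

lemma pow_le (b : ℝ) (g : ℕ) (h0 : 0 ≤ b) (h1 : b ≤ 1) : (1 - b) ^ g * (g * b) ≤ 1 := by
  have a1 : 1 + (g : ℝ) * b ≤ (1 + b) ^ g := one_add_mul_le_pow (by linarith) g
  have a2 : 0 ≤ (1 - b) ^ g := pow_nonneg (by linarith) g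
  have a3 : (1 - b) ^ g * (1 + b) ^ g ≤ 1 := by
    rw [← mul_pow]
    exact pow_le_one₀ (by nlinarith) (by nlinarith)
  nlinarith

end DrawAux

theorem draw_thm (hN : NoRegStmt) (hS : StopStmt) : DrawStmt := by
  intro W ℓ N ε hε
  have hp : (0 : ℝ) < ((3 * N + 1 : ℕ) : ℝ) := by positivity
  obtain ⟨x₀, hx₀⟩ := hN W ℓ (ε / ((3 * N + 1 : ℕ) : ℝ)) (by positivity)
  refine ⟨3 * max x₀ 1, fun x hx => ?_⟩
  obtain ⟨y, rfl⟩ : ∃ y, x = 3 * y := ⟨x / 3, by ring⟩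
  have h1 : x₀ ≤ y := by linarith [le_max_left x₀ 1]
  have h2 : 1 ≤ y := by linarith [le_max_right x₀ 1]
  refine (measureReal_mono (DrawAux.cover ℓ N y h2) (measure_ne_top _ _)).trans
    ((measureReal_biUnion_finset_le _ _).trans ?_)
  refine (sum_le_sum fun (k : ℕ) _ =>
    DrawAux.BB_le ℓ hS (k * y) y _ (by positivity) (hx₀ y h1)).trans ?_
  rw [sum_const, card_range, nsmul_eq_mul, mul_div_cancel₀ _ hp.ne']

theorem move_thm (hD : DrawStmt) (hG : GroupStmt) (hL : SlowStmt) : MoveStmt := by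
  intro W ℓ g N ε hg hε
  obtain ⟨x₀, hx₀⟩ := hD W ℓ N ε hε
  refine ⟨x₀, fun x hx w n m₀ hw hu hN => ?_⟩
  have h1 := hx₀ x hx
  have h2 := hG W ℓ (w + 1) n g 2 (by linarith) (by norm_num)
  have h3 := hL W ℓ (w + 1) n
  have hβ := ℓ.hβ
  have g0 : (0 : ℝ) < g := by exact_mod_cast hg
  have h4 := DrawAux.pow_le (W.S.real (ℓ.Slow (w + 1) n)) g measureReal_nonneg measureReal_le_one
  have h5 : 0 ≤ (1 - W.S.real (ℓ.Slow (w + 1) n)) ^ g :=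
    pow_nonneg (sub_nonneg.2 measureReal_le_one) g
  have h6 : 2 * (1 - W.S.real (ℓ.Slow (w + 1) n)) ^ g ≤ 4 / (ℓ.β * g) := by
    rw [le_div_iff₀ (by positivity)]
    have : (1 - W.S.real (ℓ.Slow (w + 1) n)) ^ g * (g * (ℓ.β / 2)) ≤ 1 :=
      le_trans (mul_le_mul_of_nonneg_left (mul_le_mul_of_nonneg_left (by linarith) g0.le) h5) h4
    linarith
  have hsub : ℓ.Pos m₀ ∩ ℓ.neg.Rise x (2 * n) ⊆ (ℓ.Pos m₀ \ {e | ∀ k, 0 ≤ ℓ.lv e k}) ∪
      ℓ.Reach (((2 : ℕ) : ℝ) * (g * (w + 1 + 1) + 1)) (2 * n) ∪ {e | (∀ n, 0 ≤ ℓ.lv e n) ∧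
        ∃ i j, i ≤ j ∧ ℓ.lv e i < N * x ∧ x ≤ ℓ.lv e i - ℓ.lv e j} := by
    rintro e ⟨hp, i, j, hij, hj, hr⟩
    by_cases h0 : ∀ k, 0 ≤ ℓ.lv e k
    · rcases lt_or_ge (ℓ.lv e i) (N * x) with c | c
      · refine Or.inr ⟨h0, i, j, hij, c, ?_⟩
        simp only [Lev.neg_lv] at hr
        linarith
      · refine Or.inl (Or.inr ⟨i, hij.trans hj, ?_⟩)
        push_cast
        linarith
    · exact Or.inl (Or.inl ⟨hp, h0⟩)
  refine (measureReal_mono hsub).trans ((measureReal_union_le _ _).trans ?_)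
  refine add_le_add ((measureReal_union_le _ _).trans ?_) h1
  push_cast at h2 ⊢
  linarith

end Pool.Agent.MP_db8016_pr.HD
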