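import Pool.Agent.MP_db8016_pr.HD.Stmts

namespace Pool.Agent.MP_db8016_pr.HD
open MeasureTheory ProbabilityTheory Filter Finset

namespace ExitOfAux

lemma U_rev {m : Measure T} (l : Lat m) (a : ℕ → T) (s : ℕ) :
    ∀ s' ≤ s, l.U (rev s a) s' + l.U a (s - s') = l.U a s := by
  intro s'
  induction s' with
  | zero => simp
  | succ k ih =>
    intro hk
    have h1 := ih (by omega)
    have h2 : s - k = (s - (k + 1)) + 1 := by omega
    have h3 : s - 1 - k = s - (k + 1) := by omega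
    rw [h2, l.U_succ] at h1
    rw [l.U_succ]
    simp only [rev, h3] at h1 ⊢
    linarith

lemma rho_real (W : Model) (e : ℕ → W.D) (n : ℕ) {B : Set (ℕ → W.D)} (hB : MeasurableSet B) :
    ((W.S.restrict (Cy e n)).map (sh n)).real B = W.cS e n B := by
  simp only [Measure.real, Model.cS]
  rw [Measure.map_apply (measurable_sh n) hB, Measure.restrict_apply (measurable_sh n hB),
    Set.inter_comm]

lemma meas_At {m : Measure T} {l : Lat m} (c : Cut l) (I s : ℕ) : MeasurableSet (c.At I s) :=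
  ((measurable_sh s).prodMk (measurable_rev s)) (c.C_det I).measurableSet

lemma meas_At' (W : Model) {J : Set ((ℕ → W.D) × (ℕ → T))} (hJ : MeasurableSet J) (s : ℕ) :
    MeasurableSet (W.At J s) :=
  ((measurable_sh s).prodMk ((measurable_rev s).comp W.measurable_la)) hJ

end ExitOfAux

open ExitOfAux in
theorem exitOf_thm (hT : TransferStmt) (hA : AutoStmt) (hC : CSStmt) (h2 : SecondStmt)
    (hQ : QStmt) : ExitOfStmt := by
  intro W ℓ c
  obtain ⟨C₀, hC₀, hS⟩ := h2 W.m W.l c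
  refine ⟨C₀, hC₀, fun w I₀ I R b J hI h1 hb hJ e n hrec => ?_⟩
  have hq : 0 < c.q I₀ := (hQ W.m W.l c I₀).2.1
  have ht : (0 : ℝ) < c.t I := by exact_mod_cast c.one_le_t h1
  set p := W.S.real (Cy e n) with hp
  have hp0 : 0 ≤ p := measureReal_nonneg
  set ρ : Measure (ℕ → W.D) := (W.S.restrict (Cy e n)).map (sh n) with hρ
  have hJm : ∀ s ∈ Ico (c.t I) (2 * c.t I), MeasurableSet (W.At (J s) s) := fun s hs =>
    meas_At' W (measurableSet_of_stable (s := s) fun x hx => by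
      obtain ⟨k, -, hk, -⟩ := (hJ s hs).2.2 x hx
      exact ⟨k, hk⟩) s
  have hZm : ∀ s, MeasurableSet (W.la ⁻¹' c.At I₀ s) := fun s => W.measurable_la (meas_At c I₀ s)
  set A : Set (ℕ → W.D) := ⋃ s ∈ Ico (c.t I) (2 * c.t I), W.At (J s) s with hAdef
  have hAm : MeasurableSet A := Finset.measurableSet_biUnion _ hJm
  have hcs := hC _ ℕ ρ (Ico (c.t I) (2 * c.t I)) (fun s => W.la ⁻¹' c.At I₀ s) A hZm hAm
  have low : ∀ s ∈ Ico (c.t I) (2 * c.t I),
      p * (b * c.q I₀) ≤ ρ.real (W.la ⁻¹' c.At I₀ s ∩ A) := by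
    intro s hs
    obtain ⟨j1, j2, j3⟩ := hJ s hs
    have e1 : W.cS e n (W.At (J s) s) = p * W.M.real (J s) := by
      refine hT W e n s (J s) fun x hx => ?_
      obtain ⟨k, -, k1, k2, k3, -⟩ := j3 x hx
      refine ⟨k, k1, k2, fun j hj i hi he => ?_⟩
      have h3 := congrArg Prod.fst he
      simp only [Lat.Y, Prod.fst_add] at h3
      have h4 := k3 j hj
      have h5 := hrec i hi.le
      omega
    have e2 : W.At (J s) s ⊆ W.la ⁻¹' c.At I₀ s ∩ A := fun e' he' =>
      ⟨j2 he', Set.mem_biUnion (mem_coe.2 hs) he'⟩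
    calc p * (b * c.q I₀) ≤ p * W.M.real (J s) := mul_le_mul_of_nonneg_left j1 hp0
      _ = ρ.real (W.At (J s) s) := by rw [rho_real W e n (hJm s hs), e1]
      _ ≤ _ := measureReal_mono e2
  have low' : (c.t I : ℝ) * (p * (b * c.q I₀)) ≤
      ∑ s ∈ Ico (c.t I) (2 * c.t I), ρ.real (W.la ⁻¹' c.At I₀ s ∩ A) := by
    have := Finset.card_nsmul_le_sum _ _ _ low
    rw [Nat.card_Ico, show 2 * c.t I - c.t I = c.t I by omega, nsmul_eq_mul] at this
    exact this
  have up : ∑ i ∈ Ico (c.t I) (2 * c.t I), ∑ j ∈ Ico (c.t I) (2 * c.t I),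
      ρ.real (W.la ⁻¹' c.At I₀ i ∩ W.la ⁻¹' c.At I₀ j) ≤
      p * (C₀ * ((c.t I : ℝ) * c.q I₀) ^ 2) := by
    have e1 : ∀ i j, ρ.real (W.la ⁻¹' c.At I₀ i ∩ W.la ⁻¹' c.At I₀ j) =
        p * (IID W.m).real (c.At I₀ i ∩ c.At I₀ j) := fun i j => by
      rw [rho_real W e n ((hZm i).inter (hZm j)), ← Set.preimage_inter,
        hA W e n _ ((meas_At c I₀ i).inter (meas_At c I₀ j))]
    simp only [e1, ← Finset.mul_sum]
    exact mul_le_mul_of_nonneg_left (hS I₀ I hI h1) hp0
  have sub : A ⊆ ℓ.Succ w (4 * c.t I) R := by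
    intro e' he'
    obtain ⟨s, hs, hx⟩ := Set.mem_iUnion₂.1 he'
    obtain ⟨k, k0, -, -, -, k4, k5, k6⟩ := (hJ s hs).2.2 _ hx
    have hs' := (mem_Ico.1 hs).2
    have r0 := U_rev W.l (W.la e') s s le_rfl
    simp only [Nat.sub_self, Lat.U_zero, add_zero] at r0
    refine ⟨s + k, by omega, k4.of_sh, fun i hi => ?_⟩
    rcases le_total i s with h | h
    · have r1 := U_rev W.l (W.la e') s (s - i) (by omega)
      rw [show s - (s - i) = i by omega] at r1
      have r2 := k5 (s - i) (by omega)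
      simp only at r2
      omega
    · obtain ⟨j, rfl⟩ := Nat.exists_eq_add_of_le h
      have r2 := k6 j (by omega)
      simp only [Model.la_sh] at r2
      rw [W.l.U_add]
      omega
  have hle : ρ.real A ≤ W.cS e n (ℓ.Succ w (4 * c.t I) R) := by
    rw [rho_real W e n hAm]
    exact measureReal_mono (Set.inter_subset_inter_right _ (Set.preimage_mono sub))
  refine le_trans ?_ hle
  have ha0 : 0 ≤ ρ.real A := measureReal_nonneg
  rcases hp0.eq_or_lt with h0 | h0
  · rw [← h0, mul_zero]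
    exact ha0
  have key : ((c.t I : ℝ) * (p * (b * c.q I₀))) ^ 2 ≤
      p * (C₀ * ((c.t I : ℝ) * c.q I₀) ^ 2) * ρ.real A :=
    ((pow_le_pow_left₀ (by positivity) low' 2).trans hcs).trans
      (mul_le_mul_of_nonneg_right up ha0)
  have hpos : 0 < p * ((c.t I : ℝ) * c.q I₀) ^ 2 := by positivity
  have key2 : b ^ 2 * p ≤ ρ.real A * C₀ := by
    refine le_of_mul_le_mul_left ?_ hpos
    calc _ = ((c.t I : ℝ) * (p * (b * c.q I₀))) ^ 2 := by ring
      _ ≤ _ := key
      _ = _ := by ring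
  rw [div_mul_eq_mul_div, div_le_iff₀ hC₀]
  exact key2

end Pool.Agent.MP_db8016_pr.HD
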