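import Pool.Agent.MP_db8016_pr.HD.Stmts

/-! The exterior event and the probability of the second way through a stage. -/

namespace Pool.Agent.MP_db8016_pr.HD
open MeasureTheory ProbabilityTheory Filter Finset

namespace ExtAux

lemma adapt_Ph {m : Measure T} (l : Lat m) (N h₁ M₁ h₂ M₂ : ℤ) :
    Adapt (fun (a : ℕ → T) (n : ℕ) => (n : ℤ) ≤ N ∧ l.Ph h₁ M₁ h₂ M₂ a n) := by
  rintro a a' n h ⟨h0, h1, h2⟩
  refine ⟨h0, fun k hk => ?_, ?_⟩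
  · rw [l.U_congr h hk, l.V_congr h hk]; exact h1 k hk
  · rw [l.U_congr h le_rfl]; exact h2

lemma meas_ex {Q : (ℕ → T) → ℕ → Prop} (hQ : Adapt Q) : MeasurableSet {a | ∃ n, Q a n} := by
  have : {a | ∃ n, Q a n} = ⋃ n, {a | Q a n} := by ext a; simp
  rw [this]
  exact MeasurableSet.iUnion fun n => hQ.measurableSet n

lemma meas_chain {Q : (ℕ → T) → ℕ → Prop} (hQ : Adapt Q) {B : Set (ℕ → T)}
    (hB : MeasurableSet B) : MeasurableSet {a | ∃ n, Q a n ∧ sh n a ∈ B} := by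
  have : {a | ∃ n, Q a n ∧ sh n a ∈ B} = ⋃ n, {a | Q a n} ∩ sh n ⁻¹' B := by ext a; simp
  rw [this]
  exact MeasurableSet.iUnion fun n => (hQ.measurableSet n).inter (measurable_sh n hB)

lemma chain (h1 : SM1Stmt) (m : Measure T) [IsProbabilityMeasure m]
    {Q : (ℕ → T) → ℕ → Prop} (hQ : Adapt Q) {B : Set (ℕ → T)} (hB : MeasurableSet B)
    {c₁ c₂ : ℝ} (h₂ : 0 ≤ c₂) (hc₁ : c₁ ≤ (IID m).real {a | ∃ n, Q a n})
    (hc₂ : c₂ ≤ (IID m).real B) :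
    c₂ * c₁ ≤ (IID m).real {a | ∃ n, Q a n ∧ sh n a ∈ B} := by
  have h := h1 m Q hQ (fun _ _ => B) c₂ (fun _ _ => hB) (fun _ _ _ _ => rfl) fun _ _ _ => hc₂
  refine (mul_le_mul_of_nonneg_left hc₁ h₂).trans (h.trans ?_)
  refine measureReal_mono ?_
  rintro a ⟨n, hn, hb⟩
  exact ⟨n, hn.1, hb⟩

lemma climb (hC : ClimbStmt) (m : Measure T) [IsProbabilityMeasure m] (l : Lat m) :
    ∃ (K₀ : ℤ) (A₀ : ℕ), 1 ≤ K₀ ∧ ∀ K h H : ℤ, K₀ ≤ K → 0 < h → h ≤ H →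
      (h : ℝ) / H / 2 ≤ (IID m).real
        {a | ∃ n : ℕ, (n : ℤ) ≤ A₀ * H ^ 2 ∧ l.Ph h (H - h) (K * H) (K * H) a n} := by
  have hp := l.hp
  have hq := l.hq
  obtain ⟨K₁, hK₁⟩ := exists_nat_ge (4 * (l.q / l.p))
  obtain ⟨A₁, hA₁⟩ := exists_nat_ge (2 / l.p)
  refine ⟨K₁ + 1, A₁ + 1, by omega, fun K h H hK hh hH => ?_⟩
  have hH0 : 0 < H := lt_of_lt_of_le hh hH
  have hK0 : 0 < K := by omega
  obtain ⟨H', rfl⟩ : ∃ H' : ℕ, H = H' := ⟨H.toNat, (Int.toNat_of_nonneg hH0.le).symm⟩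
  have hH' : 0 < H' := by exact_mod_cast hH0
  have h0 := hC m l h H' (K * H') ((A₁ + 1) * H' ^ 2) hh hH (mul_pos hK0 hH0) (by positivity)
  have hs : {a | ∃ n ≤ (A₁ + 1) * H' ^ 2, l.Ph h (H' - h) (K * H') (K * H') a n} =
      {a | ∃ n : ℕ, (n : ℤ) ≤ ((A₁ + 1 : ℕ) : ℤ) * (H' : ℤ) ^ 2 ∧
        l.Ph h (H' - h) (K * H') (K * H') a n} := by
    ext a
    simp only [Set.mem_ofPred_eq]
    constructor
    · rintro ⟨n, hn, hp⟩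
      exact ⟨n, by exact_mod_cast hn, hp⟩
    · rintro ⟨n, hn, hp⟩
      exact ⟨n, by exact_mod_cast hn, hp⟩
  rw [hs] at h0
  refine le_trans ?_ h0
  have hHr : (0 : ℝ) < H' := by exact_mod_cast hH'
  have hhr : (0 : ℝ) < h := by exact_mod_cast hh
  have hKr : (K₁ : ℝ) + 1 ≤ K := by exact_mod_cast hK
  have hK1 : (0 : ℝ) ≤ K₁ := Nat.cast_nonneg _
  have hA1 : (0 : ℝ) ≤ A₁ := Nat.cast_nonneg _
  have e1 : l.q / l.p * ((H' : ℤ) : ℝ) ^ 2 / (((K * (H' : ℤ) : ℤ)) : ℝ) ^ 2 ≤ 1 / 4 := by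
    push_cast
    have hKp : (0 : ℝ) < K := by linarith
    rw [div_le_iff₀ (by positivity)]
    have h3 : l.q / l.p ≤ 1 / 4 * (K : ℝ) ^ 2 := by nlinarith
    calc l.q / l.p * (H' : ℝ) ^ 2 ≤ 1 / 4 * (K : ℝ) ^ 2 * (H' : ℝ) ^ 2 :=
          mul_le_mul_of_nonneg_right h3 (by positivity)
      _ = 1 / 4 * ((K : ℝ) * H') ^ 2 := by ring
  have e2 : ((H' : ℤ) : ℝ) ^ 2 / (2 * l.p * (((A₁ + 1) * H' ^ 2 : ℕ) : ℝ)) ≤ 1 / 4 := by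
    push_cast
    rw [div_le_iff₀ (by positivity)]
    have h3 : 2 ≤ l.p * (A₁ + 1) := by
      have := (div_le_iff₀ hp).1 hA₁
      nlinarith
    have h4 : (0 : ℝ) < (H' : ℝ) ^ 2 := by positivity
    nlinarith
  have e3 : (0 : ℝ) ≤ (h : ℝ) / ((H' : ℤ) : ℝ) := by positivity
  calc (h : ℝ) / ((H' : ℤ) : ℝ) / 2 = (h : ℝ) / ((H' : ℤ) : ℝ) * (1 / 2) := by ring
    _ ≤ _ := mul_le_mul_of_nonneg_left (by linarith) e3

end ExtAux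

open ExtAux

theorem ext_thm (hC : ClimbStmt) (hA : AnnStmt) (h1 : SM1Stmt) : ExtStmt := by
  intro m _ l K hK
  obtain ⟨X, hX, hX'⟩ := hA m l K hK
  obtain ⟨K₀, A₀, hK₀, hcl⟩ := climb hC m l
  have hM : X ≤ K₀ * (X + 1) := by nlinarith
  obtain ⟨c, hc, hc'⟩ := hX' (K₀ * (X + 1)) hM
  have hXr : (0 : ℝ) < X := by exact_mod_cast hX
  refine ⟨c * (1 / ((X : ℝ) + 1) / 2), by positivity, fun r hr j n hn => ?_⟩
  have hrr : (0 : ℝ) < r := by exact_mod_cast hr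
  have h2 := hcl K₀ r ((X + 1) * r) le_rfl hr (by nlinarith)
  have h3 := h1 m _ (adapt_Ph l (A₀ * ((X + 1) * r) ^ 2) r ((X + 1) * r - r)
    (K₀ * ((X + 1) * r)) (K₀ * ((X + 1) * r)))
    (fun a k => {b | ∀ i ≤ n, K * r < nn (l.Y a k + l.Y b i)}) (c / (j + 1))
    (fun a k => Det.measurableSet (n := n) fun b b' hb hb' i hi => by
      rw [l.Y_congr hb hi]; exact hb' i hi)
    (fun a a' k h => by simp only [l.Y_congr h le_rfl])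
    (fun a k hk => by
      obtain ⟨⟨-, h4, h5⟩, -⟩ := hk
      obtain ⟨-, -, h6, h7⟩ := h4 k le_rfl
      refine hc' r (l.Y a k) hr ?_ ?_ j n hn
      · show X * r ≤ l.U a k
        rw [h5]; nlinarith
      · show max |l.U a k| |l.V a k| ≤ K₀ * (X + 1) * r
        have h8 : X * r ≤ K₀ * (X + 1) * r := mul_le_mul_of_nonneg_right hM hr.le
        have h9 : 0 < X * r := mul_pos hX hr
        refine max_le (abs_le.2 ⟨?_, ?_⟩) (abs_le.2 ⟨?_, ?_⟩)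
        · rw [h5]; nlinarith
        · rw [h5]; nlinarith
        · nlinarith
        · nlinarith)
  have e1 : ((r : ℝ) / (((X + 1) * r : ℤ) : ℝ)) / 2 = 1 / ((X : ℝ) + 1) / 2 := by
    push_cast; field_simp
  rw [e1] at h2
  have hj : (0 : ℝ) ≤ c / (j + 1) := by positivity
  calc c * (1 / ((X : ℝ) + 1) / 2) / (j + 1) = c / (j + 1) * (1 / ((X : ℝ) + 1) / 2) := by ring
    _ ≤ _ := mul_le_mul_of_nonneg_left h2 hj
    _ ≤ _ := h3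
    _ ≤ _ := by
      refine measureReal_mono ?_
      rintro a ⟨k, ⟨⟨-, h4, -⟩, -⟩, h5⟩ i hi
      rcases le_total i k with h6 | h6
      · exact Or.inl (h4 i h6).1
      · obtain ⟨i', rfl⟩ := Nat.exists_eq_add_of_le h6
        right
        rw [l.Y_add]
        exact h5 i' (by omega)

theorem way2prob_thm (hC : ClimbStmt) (hT : TransitStmt) (h1 : SM1Stmt) : Way2Prob := by
  intro m _ l
  obtain ⟨Ka, Aa, hKa, hca⟩ := climb hC m l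
  obtain ⟨Kb, Ab, hKb, hcb⟩ := climb hC m l.swap
  obtain ⟨K₀, hK₀, hK₁⟩ : ∃ K₀ : ℤ, Ka ≤ K₀ ∧ Kb ≤ K₀ := ⟨max Ka Kb, le_max_left _ _, le_max_right _ _⟩
  obtain ⟨c₁, X₁, A₁, hc₁, hX₁, ht₁⟩ := hT m l.swap (2 * K₀ + 8) (by omega)
  obtain ⟨c₂, X₂, A₂, hc₂, hX₂, ht₂⟩ := hT m l.neg (X₁ + 2) (by omega)
  obtain ⟨c₃, X₃, A₃, hc₃, hX₃, ht₃⟩ := hT m l (2 * K₀ + 6) (by omega)
  refine ⟨K₀, 2 * K₀ + 8, X₁, X₁ + 2, X₂, 2 * K₀ + 6, X₃, Aa + A₁ + A₂ + Ab + A₃,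
    c₁ * c₂ * c₃ / 4, by positivity, by omega, le_rfl, hX₁, le_rfl, hX₂, le_rfl, hX₃,
    fun ρ lam hρ hlam => ?_⟩
  have hh : 0 < lam * ρ := mul_pos (by omega) hρ
  have hρh : ρ ≤ lam * ρ := by nlinarith
  have hhH : lam * ρ ≤ lam ^ 2 * ρ := by nlinarith
  have hH : 0 < lam ^ 2 * ρ := lt_of_lt_of_le hh hhH
  have hρr : (0 : ℝ) < ρ := by exact_mod_cast hρ
  have hlr : (0 : ℝ) < lam := by exact_mod_cast (show (0 : ℤ) < lam by omega)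
  have p1 := hca K₀ ρ (lam * ρ) hK₀ hρ hρh
  have p2 := ht₁ (lam * ρ) hh
  have p3 := ht₂ (lam * ρ) hh
  have p4 := hcb K₀ (lam * ρ) (lam ^ 2 * ρ) hK₁ hh hhH
  have p5 := ht₃ (lam ^ 2 * ρ) hH
  have e1 : (ρ : ℝ) / ((lam * ρ : ℤ) : ℝ) / 2 = 1 / (2 * lam) := by push_cast; field_simp
  have e4 : ((lam * ρ : ℤ) : ℝ) / ((lam ^ 2 * ρ : ℤ) : ℝ) / 2 = 1 / (2 * lam) := by
    push_cast; field_simp
  rw [e1] at p1
  rw [e4] at p4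
  have m5 := meas_ex (adapt_Ph l (A₃ * (lam ^ 2 * ρ) ^ 2) (lam ^ 2 * ρ)
    ((2 * K₀ + 6) * (lam ^ 2 * ρ)) (lam ^ 2 * ρ) (X₃ * (lam ^ 2 * ρ)))
  have q4 := chain h1 m (adapt_Ph l.swap _ _ _ _ _) m5 hc₃.le p4 p5
  have m4 := meas_chain (adapt_Ph l.swap (Ab * (lam ^ 2 * ρ) ^ 2) (lam * ρ)
    (lam ^ 2 * ρ - lam * ρ) (K₀ * (lam ^ 2 * ρ)) (K₀ * (lam ^ 2 * ρ))) m5
  have q3 := chain h1 m (adapt_Ph l.neg _ _ _ _ _) m4 (by positivity) p3 q4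
  have m3 := meas_chain (adapt_Ph l.neg (A₂ * (lam * ρ) ^ 2) (lam * ρ)
    ((X₁ + 2) * (lam * ρ)) (lam * ρ) (X₂ * (lam * ρ))) m4
  have q2 := chain h1 m (adapt_Ph l.swap _ _ _ _ _) m3 (by positivity) p2 q3
  have m2 := meas_chain (adapt_Ph l.swap (A₁ * (lam * ρ) ^ 2) (lam * ρ)
    ((2 * K₀ + 8) * (lam * ρ)) (lam * ρ) (X₁ * (lam * ρ))) m3
  have q1 := chain h1 m (adapt_Ph l _ _ _ _ _) m2 (by positivity) p1 q2
  have e5 : c₁ * c₂ * c₃ / 4 / (lam : ℝ) ^ 2 =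
      c₃ * (1 / (2 * lam)) * c₂ * c₁ * (1 / (2 * lam)) := by field_simp; ring
  rw [e5]
  refine q1.trans (measureReal_mono ?_)
  rintro a ⟨n₁, ⟨b1, w1⟩, n₂, ⟨b2, w2⟩, n₃, ⟨b3, w3⟩, n₄, ⟨b4, w4⟩, n₅, b5, w5⟩
  simp only [sh_sh] at w3 w4 w5
  refine ⟨n₁ + n₂ + n₃ + n₄ + n₅, ?_, n₁, n₂, n₃, n₄, n₅, rfl, w1, w2, w3, ?_, ?_⟩
  · have hsq : (lam * ρ) ^ 2 ≤ (lam ^ 2 * ρ) ^ 2 := pow_le_pow_left₀ hh.le hhH 2
    have f1 := mul_le_mul_of_nonneg_left hsq (Int.natCast_nonneg Aa)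
    have f2 := mul_le_mul_of_nonneg_left hsq (Int.natCast_nonneg A₁)
    have f3 := mul_le_mul_of_nonneg_left hsq (Int.natCast_nonneg A₂)
    push_cast
    linarith
  · simpa only [add_assoc] using w4
  · simpa only [add_assoc] using w5

end Pool.Agent.MP_db8016_pr.HD
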