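import Pool.Agent.MP_db8016_pr.HD.Stmts

namespace Pool.Agent.MP_db8016_pr.HD
open MeasureTheory ProbabilityTheory Filter Finset

namespace FastAux
variable {W : Model} (ℓ : Lev W)

lemma det_Reach (w : ℝ) (t : ℕ) : Det t (ℓ.Reach w t) := by
  rintro a a' h ⟨n, hn, h1⟩
  exact ⟨n, hn, by rwa [ℓ.lv_congr h hn]⟩

lemma det_Slow (z : ℝ) (t : ℕ) : Det t (ℓ.Slow z t) := by
  intro a a' h h1 k hk
  rw [ℓ.lv_congr h hk]
  exact h1 k hk

/-- The law of the later steps on a cylinder. -/
noncomputable def S1 (W : Model) (e : ℕ → W.D) (n : ℕ) : Measure (ℕ → W.D) :=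
  (W.S.restrict (Cy e n)).map (sh n)

instance (W : Model) (e : ℕ → W.D) (n : ℕ) : IsFiniteMeasure (S1 W e n) := by
  unfold S1; infer_instance

lemma S1_real (W : Model) (e : ℕ → W.D) (n : ℕ) {A : Set (ℕ → W.D)} (hA : MeasurableSet A) :
    (S1 W e n).real A = W.cS e n A := by
  simp only [S1, Model.cS, Measure.real]
  rw [Measure.map_apply (measurable_sh n) hA, Measure.restrict_apply (measurable_sh n hA),
    Set.inter_comm]

lemma cS_le (W : Model) (e : ℕ → W.D) (n : ℕ) (A : Set (ℕ → W.D)) :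
    W.cS e n A ≤ W.S.real (Cy e n) :=
  measureReal_mono Set.inter_subset_left

lemma cS_slow (hF : FreshStmt) (z : ℝ) (t : ℕ) {e : ℕ → W.D} {n : ℕ} (h : ℓ.Rec e n) :
    W.cS e n (ℓ.Slow z t) = W.S.real (Cy e n) * W.S.real (ℓ.Slow z t) := by
  refine hF W e n _ fun e' he' => ⟨t, fun a ha => det_Slow ℓ z t e' a ha he', ?_⟩
  intro i hi j hj hE
  have h1 : ℓ.lv e i = ℓ.lv e n + ℓ.lv e' j := by
    simp only [Lev.lv, hE, map_add]
  have h2 := h i hi
  have h3 := (he' j hj.le).1
  linarith

end FastAux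

open FastAux

theorem slow_thm : SlowStmt := by
  intro W ℓ z t
  have h1 : {e | ∀ n, 0 ≤ ℓ.L (W.X e n)} ⊆ ℓ.Slow z t ∪ ℓ.Up z t := by
    intro e he
    by_cases h : e ∈ ℓ.Slow z t
    · exact Or.inl h
    · right
      simp only [Lev.Slow, Set.mem_ofPred_eq, not_forall] at h
      obtain ⟨k, hk, h⟩ := h
      refine ⟨k, hk, ?_, fun j _ => he j⟩
      by_contra h'
      exact h ⟨he k, not_le.1 h'⟩
  have h2 := (measureReal_mono (μ := W.S) h1).trans (measureReal_union_le _ _)
  have h3 := ℓ.up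
  linarith

theorem fast_thm (hF : FreshStmt) (hS : StopStmt) : FastStmt := by
  intro W ℓ z t g e n hz hrec
  rcases hz.eq_or_lt with rfl | hz
  · have h0 : ℓ.Slow 0 t = ∅ := by
      refine Set.eq_empty_of_forall_notMem fun a ha => ?_
      have := ha 0 (Nat.zero_le _)
      simp at this
    rw [h0]
    simpa using cS_le W e n _
  set π := W.S.real (ℓ.Slow z t) with hπ
  have hπ1 : 0 ≤ 1 - π := sub_nonneg.2 measureReal_le_one
  induction g generalizing e n with
  | zero => simpa using cS_le W e n _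
  | succ g ih =>
    let Q : (ℕ → W.D) → ℕ → Prop := fun a k => k ≤ t ∧ z ≤ ℓ.lv a k
    have hQ : Adapt Q := by
      rintro a a' k h ⟨h1, h2⟩
      exact ⟨h1, by rwa [ℓ.lv_congr h le_rfl]⟩
    have hg : (0 : ℝ) ≤ g * (z + 1) := by positivity
    have hmB : MeasurableSet (ℓ.Reach (((g + 1 : ℕ) : ℝ) * (z + 1)) t) :=
      (det_Reach ℓ _ t).measurableSet
    have hmQ : MeasurableSet {a | ∃ k, Q a k} := by
      rw [Set.ofPred_exists]
      exact MeasurableSet.iUnion fun k => hQ.measurableSet k
    have key := hS W.D (S1 W e n) (S1 W e n) Q hQ Set.univ _ MeasurableSet.univ hmB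
      ((1 - π) ^ g) 1 (by
        rintro e' k ⟨⟨hk, hzk⟩, hmin⟩
        have hlt : ∀ j < k, ℓ.lv e' j < z := fun j hj => by
          by_contra h'
          exact hmin j hj ⟨by omega, not_lt.1 h'⟩
        have hk1 : ℓ.lv e' k < z + 1 := by
          rcases k with _ | k
          · simp only [Lev.lv_zero]; linarith
          · have h1 := (abs_le.1 (ℓ.lv_succ e' k)).2
            have h2 := hlt k (Nat.lt_succ_self k)
            linarith
        have hc : ∀ j, ℓ.lv (Model.cat e n e') (n + j) = ℓ.lv e n + ℓ.lv e' j := fun j => by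
          rw [ℓ.lv_add, Model.sh_cat, ℓ.lv_congr (Model.cat_mem e n e') le_rfl]
        have hrec' : ℓ.Rec (Model.cat e n e') (n + k) := by
          intro i hi
          rw [hc]
          rcases lt_or_ge i n with h1 | h1
          · rw [ℓ.lv_congr (Model.cat_mem e n e') h1.le]
            have := hrec i h1
            linarith
          · obtain ⟨j, rfl⟩ := Nat.exists_eq_add_of_le h1
            rw [hc]
            have := hlt j (by omega)
            linarith
        have h1 := ih (Model.cat e n e') (n + k) hrec'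
        rw [Set.inter_univ, one_mul, S1_real W e n ((measurableSet_Cy e' k).inter hmB),
          S1_real W e n (measurableSet_Cy e' k)]
        refine le_trans ?_ (h1.trans_eq ?_)
        · refine measureReal_mono ?_
          rintro a ⟨ha, ha', m, hm, hm'⟩
          refine ⟨by rw [Model.Cy_cat]; exact ⟨ha, ha'⟩, ?_⟩
          push_cast at hm'
          rcases le_or_gt m k with h2 | h2
          · exfalso
            rw [ℓ.lv_congr ha' h2] at hm'
            rcases h2.eq_or_lt with rfl | h2
            · nlinarith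
            · have := hlt m h2
              nlinarith
          · obtain ⟨j, rfl⟩ := Nat.exists_eq_add_of_le h2.le
            rw [ℓ.lv_add, ℓ.lv_congr ha' le_rfl, sh_sh] at hm'
            exact ⟨j, by omega, by nlinarith⟩
        · rw [Model.Cy_cat]; rfl)
    have hsub : ℓ.Reach (((g + 1 : ℕ) : ℝ) * (z + 1)) t ⊆ {a | ∃ k, Q a k} := by
      rintro a ⟨m, hm, hm'⟩
      push_cast at hm'
      exact ⟨m, hm, by nlinarith⟩
    rw [Set.inter_univ, one_mul, Set.inter_eq_right.2 hsub, S1_real W e n hmB] at key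
    have hdisj : Disjoint {a | ∃ k, Q a k} (ℓ.Slow z t) := by
      rw [Set.disjoint_left]
      rintro a ⟨k, hk, hzk⟩ ha
      exact absurd (ha k hk).2 (not_lt.2 hzk)
    have hmS : MeasurableSet (ℓ.Slow z t) := (det_Slow ℓ z t).measurableSet
    have h2 : (S1 W e n).real {a | ∃ k, Q a k} + (S1 W e n).real (ℓ.Slow z t) ≤
        W.S.real (Cy e n) := by
      rw [← measureReal_union hdisj hmS, S1_real W e n (hmQ.union hmS)]
      exact cS_le W e n _
    rw [S1_real W e n hmS, cS_slow ℓ hF z t hrec, ← hπ] at h2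
    have h3 : (S1 W e n).real {a | ∃ k, Q a k} ≤ (1 - π) * W.S.real (Cy e n) := by linarith
    calc _ ≤ _ := key
      _ ≤ (1 - π) ^ g * ((1 - π) * W.S.real (Cy e n)) :=
        mul_le_mul_of_nonneg_left h3 (pow_nonneg hπ1 g)
      _ = _ := by ring

end Pool.Agent.MP_db8016_pr.HD
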