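import Pool.Agent.MP_db8016_pr.HD.Stmts
namespace Pool.Agent.MP_db8016_pr.HD
open MeasureTheory ProbabilityTheory Filter Finset

namespace FinalAux

lemma le_r {m : Measure T} {l : Lat m} (c : Cut l) {i : ℕ} (hi : 1 ≤ i) : i ≤ c.r i := by
  induction i, hi using Nat.le_induction with
  | base => rw [c.r_one]
  | succ i hi ih =>
    rw [c.r_succ i hi]
    have h1 := c.hμ
    have h2 := c.hK
    have h3 : 3 * c.r i ≤ c.μ * c.r i := Nat.mul_le_mul_right _ (by omega)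
    omega

lemma arith {G w w' x₀ : ℝ} (hG : 1 ≤ G) (hw' : 0 ≤ w') (h1 : 4 * G * max x₀ 1 ≤ w)
    (h2 : 5 * G ^ 2 * (w' + 1) < w) :
    ∃ x, x₀ ≤ x ∧ 0 ≤ w ∧ G * (w' + 2) ≤ x ∧ G * (2 * x + 1) ≤ w ∧
      2 * (G * (w + 2) + 1) ≤ 40 * G ^ 2 * x := by
  have hG0 : 0 < G := by linarith
  obtain ⟨y, rfl⟩ : ∃ y, w = G * y := ⟨w / G, by field_simp⟩
  have hM1 : 1 ≤ max x₀ 1 := le_max_right _ _
  have hM0 : x₀ ≤ max x₀ 1 := le_max_left _ _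
  have hy : 4 * max x₀ 1 ≤ y := by
    by_contra hc
    have := mul_lt_mul_of_pos_left (not_le.1 hc) hG0
    linarith
  have hy2 : 5 * G * (w' + 1) < y := by
    by_contra hc
    have := mul_le_mul_of_nonneg_left (not_lt.1 hc) hG0.le
    nlinarith
  have hGw : 0 ≤ G * w' := mul_nonneg hG0.le hw'
  refine ⟨(y - 1) / 2, by linarith, mul_nonneg hG0.le (by linarith), by nlinarith,
    le_of_eq (by ring), ?_⟩
  have h4 : 4 ≤ y := by linarith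
  have hG2 : G ≤ G ^ 2 := by nlinarith
  have h5 : 0 ≤ G ^ 2 * (y - 4) := mul_nonneg (sq_nonneg _) (by linarith)
  nlinarith

end FinalAux

theorem final_thm (hK : KeyStmt) (hL : LateStmt) (hM : MoveStmt) (hP : PosLimStmt) :
    FinalStmt := by
  intro W ℓ c
  obtain ⟨CK, hCK, hkey⟩ := hK W ℓ c
  have hβ := ℓ.hβ
  refine ⟨5 * (32 * CK / ℓ.β + 1) ^ 2, by positivity, fun Lb => ?_⟩
  obtain ⟨L, hLdef⟩ : ∃ L : ℝ, L = (Lb : ℝ) + 1 := ⟨_, rfl⟩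
  have hL1 : 1 ≤ L := by rw [hLdef]; linarith [Nat.cast_nonneg (α := ℝ) Lb]
  have hL0 : 0 < L := by linarith
  obtain ⟨ε, hεdef⟩ : ∃ ε : ℝ, ε = 1 / (8 * CK * L ^ 2) := ⟨_, rfl⟩
  have hε : 0 < ε := by rw [hεdef]; positivity
  obtain ⟨g, hgdef⟩ : ∃ g : ℕ, g = ⌈4 / (ℓ.β * ε)⌉₊ := ⟨_, rfl⟩
  have hq : 0 < 4 / (ℓ.β * ε) := by positivity
  have hg1 : 1 ≤ g := by rw [hgdef]; exact Nat.ceil_pos.2 hq
  have hG1 : (1 : ℝ) ≤ g := by exact_mod_cast hg1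
  have hgl : 4 / (ℓ.β * ε) ≤ g := by rw [hgdef]; exact Nat.le_ceil _
  have hgu : (g : ℝ) ≤ (32 * CK / ℓ.β + 1) * L ^ 2 := by
    have h1 : (g : ℝ) < 4 / (ℓ.β * ε) + 1 := by rw [hgdef]; exact Nat.ceil_lt_add_one hq.le
    have h2 : 4 / (ℓ.β * ε) = 32 * CK / ℓ.β * L ^ 2 := by rw [hεdef]; field_simp; norm_num
    have h3 : 1 ≤ L ^ 2 := one_le_pow₀ hL1
    rw [add_mul, ← h2]
    linarith
  have h4 : 4 / (ℓ.β * g) ≤ ε := by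
    rw [div_le_iff₀ (by positivity)] at hgl ⊢
    linarith
  have h2 : 2 / (ℓ.β * g) + 2 / (ℓ.β * g) ≤ ε := by
    rw [← add_div]; norm_num; exact h4
  obtain ⟨x₀, hx₀⟩ := hM W ℓ.neg g (40 * g ^ 2) ε hg1 hε
  obtain ⟨m₀, hm1, hm2⟩ := (((hP W ℓ).eventually (ge_mem_nhds hε)).and
    ((hP W ℓ.neg).eventually (ge_mem_nhds hε))).exists
  refine ⟨m₀ + 1, 4 * g * max x₀ 1, fun I hI w w' hw hw' hu1 hu2 hu3 => ?_⟩
  rw [← hLdef]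
  by_contra hc
  have hI1 : 1 ≤ I := by omega
  have hmr : m₀ ≤ c.r I := (by omega : m₀ ≤ I).trans (FinalAux.le_r c hI1)
  have hbig : 5 * (g : ℝ) ^ 2 * (w' + 1) < w := by
    refine lt_of_le_of_lt ?_ (not_le.1 hc)
    have h5 : (g : ℝ) ^ 2 ≤ ((32 * CK / ℓ.β + 1) * L ^ 2) ^ 2 :=
      pow_le_pow_left₀ (by linarith) hgu 2
    refine mul_le_mul_of_nonneg_right ?_ (by linarith)
    calc 5 * (g : ℝ) ^ 2 ≤ 5 * ((32 * CK / ℓ.β + 1) * L ^ 2) ^ 2 := by linarith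
      _ = 5 * (32 * CK / ℓ.β + 1) ^ 2 * L ^ 4 := by ring
  obtain ⟨x, hx1, hw0, hx2, hx3, hx4⟩ := FinalAux.arith hG1 hw' hw hbig
  have e1 := hL W ℓ g g w w' x (c.t (I + 1)) (c.t (I + 1 + Lb)) m₀ hg1 hg1 hw' hu1 hu3 hx2 hx3
  have e2 := hx₀ x hx1 w (c.t (I + 1 + Lb)) m₀ hw0 hu2 (by push_cast; exact hx4)
  rw [ℓ.neg_neg_Rise, ℓ.neg_β] at e2
  have e3 := hkey Lb I m₀ x (2 * ε) (3 * ε) hI1 hmr (by linarith) (by linarith)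
  rw [← hLdef, hεdef] at e3
  have e4 : CK * L ^ 2 * (2 * (1 / (8 * CK * L ^ 2)) + 3 * (1 / (8 * CK * L ^ 2))) = 5 / 8 := by
    field_simp; norm_num
  linarith

end Pool.Agent.MP_db8016_pr.HD
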