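import Pool.Agent.MP_db8016_pr.HD.Stmts

namespace Pool.Agent.MP_db8016_pr.HD
open MeasureTheory ProbabilityTheory Filter Finset

namespace Geo1Aux

lemma le_nn {g : ℤ} {z : ℤ × ℤ} (h : g ≤ z.1) : g ≤ nn z :=
  h.trans ((le_abs_self _).trans (le_max_left _ _))

lemma nn_le_iff {c : ℤ} {z : ℤ × ℤ} :
    nn z ≤ c ↔ (-c ≤ z.1 ∧ z.1 ≤ c) ∧ (-c ≤ z.2 ∧ z.2 ≤ c) := by
  simp only [nn, max_le_iff, abs_le]

variable {m : Measure T} (l : Lat m)

lemma mem_trace (x : ℤ × ℤ) (a : ℕ → T) (n : ℕ) : x + l.Y a n ∈ l.trace x a n :=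
  ⟨n, le_rfl, rfl⟩

lemma fst_new (x : ℤ × ℤ) (a : ℕ → T) (k : ℕ) : (x + l.Y a k).1 = x.1 + l.U a k := rfl

lemma snd_new (x : ℤ × ℤ) (a : ℕ → T) (k : ℕ) : (x + l.Y a k).2 = x.2 + l.V a k := rfl

lemma trace_add (x : ℤ × ℤ) (a : ℕ → T) (n k : ℕ) :
    l.trace x a (n + k) = l.trace x a n ∪ l.trace (x + l.Y a n) (sh n a) k := by
  ext z
  constructor
  · rintro ⟨j, hj, rfl⟩
    rcases le_total j n with h | h
    · exact Or.inl ⟨j, h, rfl⟩
    · obtain ⟨i, rfl⟩ := Nat.exists_eq_add_of_le h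
      exact Or.inr ⟨i, by omega, by rw [l.Y_add, add_assoc]⟩
  · rintro (⟨j, hj, rfl⟩ | ⟨j, hj, rfl⟩)
    · exact ⟨j, by omega, rfl⟩
    · exact ⟨n + j, by omega, by rw [l.Y_add, add_assoc]⟩

lemma trace_congr (x : ℤ × ℤ) {a a' : ℕ → T} {n : ℕ} (h : ∀ i < n, a' i = a i) :
    l.trace x a' n = l.trace x a n := by
  ext z
  constructor
  · rintro ⟨j, hj, rfl⟩
    exact ⟨j, hj, by rw [l.Y_congr h hj]⟩
  · rintro ⟨j, hj, rfl⟩
    exact ⟨j, hj, by rw [l.Y_congr h hj]⟩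

/-- A common form of the two direct statements. -/
lemma lead_of {ρ g K ρ' g' K' d e c : ℤ} {a b : ℕ → T} {n n' : ℕ}
    (ha : ∀ k ≤ n, -d < l.U a k ∧ nn (l.Y a k) ≤ c)
    (hb : ∀ k ≤ n', -d < l.U b k ∧ nn (l.Y b k) ≤ c)
    (ha' : e ≤ l.U a n) (hb' : e ≤ l.U b n') (hd : d ≤ ρ) (hc : 0 ≤ c)
    (h1 : ρ' + g' ≤ ρ + g + e) (h3 : 2 * ρ' + g' ≤ 2 * ρ + g + 2 * e)
    (h4 : K * ρ + c ≤ K' * ρ') : l.Lead ρ g K ρ' g' K' a n b n' := by
  intro P x Q y S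
  have hx := nn_le_iff.1 (S.h4 x S.hx)
  have hy := nn_le_iff.1 (S.h5 y S.hy)
  have s3 := S.h3
  refine ⟨⟨Or.inr (mem_trace l _ _ _), Or.inr (mem_trace l _ _ _), ?_, ?_, ?_, ?_, ?_⟩, ?_, ?_⟩
  · rintro z (hz | ⟨k, hk, rfl⟩)
    · have := S.h1 z hz
      rw [fst_new]; omega
    · have := (hb k hk).1
      rw [fst_new, fst_new]; omega
  · rintro z (hz | ⟨k, hk, rfl⟩)
    · have := S.h2 z hz
      rw [fst_new]; omega
    · have := (ha k hk).1
      rw [fst_new, fst_new]; omega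
  · rw [fst_new, fst_new]; omega
  · rintro z (hz | ⟨k, hk, rfl⟩)
    · have := S.h4 z hz
      linarith
    · have := nn_le_iff.1 (ha k hk).2
      simp only [Lat.Y] at this
      rw [nn_le_iff, fst_new, snd_new]
      refine ⟨⟨?_, ?_⟩, ?_, ?_⟩ <;> linarith [this.1.1, this.1.2, this.2.1, this.2.2, hx.1.1,
        hx.1.2, hx.2.1, hx.2.2]
  · rintro z (hz | ⟨k, hk, rfl⟩)
    · have := S.h5 z hz
      linarith
    · have := nn_le_iff.1 (hb k hk).2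
      simp only [Lat.Y] at this
      rw [nn_le_iff, fst_new, snd_new]
      refine ⟨⟨?_, ?_⟩, ?_, ?_⟩ <;> linarith [this.1.1, this.1.2, this.2.1, this.2.2, hy.1.1,
        hy.1.2, hy.2.1, hy.2.2]
  · rintro z ⟨k, hk, rfl⟩ z' (hz | ⟨j, hj, rfl⟩)
    · have := S.h1 z' hz
      have := (ha k hk).1
      apply le_nn
      rw [Prod.fst_add, fst_new]; omega
    · have := (ha k hk).1
      have := (hb j hj).1
      apply le_nn
      rw [Prod.fst_add, fst_new, fst_new]; omega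
  · rintro z (hz | ⟨k, hk, rfl⟩) z' ⟨j, hj, rfl⟩
    · have := S.h2 z hz
      have := (hb j hj).1
      apply le_nn
      rw [Prod.fst_add, fst_new]; omega
    · have := (ha k hk).1
      have := (hb j hj).1
      apply le_nn
      rw [Prod.fst_add, fst_new, fst_new]; omega

end Geo1Aux

open Geo1Aux

theorem way1_thm : Way1Geo := by
  intro m l ρ H g K K₁ K' a b n n' hρ hH _ hK hK₁ hK' ha hb
  have h0 : H ≤ K₁ * H := by nlinarith
  have h1 : (K₁ + 1) * H ≤ K' * H := mul_le_mul_of_nonneg_right hK' (by omega)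
  have key : ∀ (a : ℕ → T) (n : ℕ), l.Ph ρ (H - ρ) (K₁ * H) (K₁ * H) a n →
      ∀ k ≤ n, -ρ < l.U a k ∧ nn (l.Y a k) ≤ K₁ * H := by
    intro a n h k hk
    obtain ⟨p1, p2, p3, p4⟩ := h.1 k hk
    refine ⟨p1, nn_le_iff.2 ?_⟩
    simp only [Lat.Y]
    refine ⟨⟨?_, ?_⟩, ?_, ?_⟩ <;> linarith
  exact lead_of l (e := H - ρ) (key a n ha) (key b n' hb) ha.2.ge hb.2.ge le_rfl (by linarith)
    (by linarith) (by linarith) (by linarith)

theorem waitgeo_thm : WaitGeo := by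
  intro m l r g K Kw K' a b n n' hr hg hK hKw ha hb
  have h1 : (4 * K + 2 * Kw) * r ≤ K' * r := mul_le_mul_of_nonneg_right hK hr.le
  exact lead_of l (d := 2 * r) (e := -(2 * r)) (c := Kw * (2 * r)) ha hb (ha n le_rfl).1.le
    (hb n' le_rfl).1.le (by linarith) (by positivity) (by linarith) (by linarith) (by linarith)

theorem way12_thm : Way12Geo := by
  rintro m l ρ h H K₀ a₁ X₁ a₂ X₂ a₃ X₃ M a n n' hh hX ha₂ hH
    ⟨n₁, n₂, n₃, n₄, n₅, -, p1, p2, p3, -, -⟩ hp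
  have e1 : 0 < X₁ * h := mul_pos hX hh
  have e2 : (X₁ + 2) * h ≤ a₂ * h := mul_le_mul_of_nonneg_right ha₂ hh.le
  have q2 : ∀ k ≤ n₂, l.U a (n₁ + k) ≤ h - ρ + X₁ * h := by
    intro k hk
    have := (p2.1 k hk).2.2.2
    rw [Lat.swap_V] at this
    rw [l.U_add, p1.2]; linarith
  have q3 : ∀ k ≤ n₃, l.U a (n₁ + n₂ + k) < h - ρ + X₁ * h + h := by
    intro k hk
    have := (p3.1 k hk).1
    rw [Lat.neg_U] at this
    have h2 := q2 n₂ le_rfl
    rw [l.U_add]; linarith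
  have q4 : l.U a (n₁ + n₂ + n₃) ≤ -ρ := by
    have := p3.2
    rw [Lat.neg_U] at this
    have h2 := q2 n₂ le_rfl
    rw [l.U_add]; linarith
  have hn := hp.2
  rcases le_total n' n₁ with c1 | c1
  · have := (p1.1 n' c1).2.1
    linarith
  rcases le_total n' (n₁ + n₂) with c2 | c2
  · obtain ⟨k, rfl⟩ := Nat.exists_eq_add_of_le c1
    have := q2 k (by omega)
    linarith
  rcases le_total n' (n₁ + n₂ + n₃) with c3 | c3
  · obtain ⟨k, rfl⟩ := Nat.exists_eq_add_of_le c2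
    have := q3 k (by omega)
    linarith
  · have := (hp.1 _ c3).1
    linarith

theorem leadTrans_thm : LeadTrans := by
  intro m l ρ g K ρ₁ K₁ ρ₂ g₂ K₂ a b n n' k k' h1 h2 P x Q y S
  obtain ⟨S1, c2, c3⟩ := h1 P x Q y S
  obtain ⟨S2, d2, d3⟩ := h2 _ _ _ _ S1
  rw [trace_add, trace_add, l.Y_add, l.Y_add, ← add_assoc, ← add_assoc, ← Set.union_assoc,
    ← Set.union_assoc]
  refine ⟨S2, ?_, ?_⟩
  · rintro z (hz | hz) z' hz'
    · rcases hz' with hz' | hz'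
      · exact c2 z hz z' hz'
      · exact d3 z (Or.inl (Or.inr hz)) z' hz'
    · exact d2 z hz z' hz'
  · rintro z hz z' (hz' | hz')
    · rcases hz with hz | hz
      · exact c3 z hz z' hz'
      · exact d2 z hz z' (Or.inl (Or.inr hz'))
    · exact d3 z hz z' hz'

theorem leadDet_thm : LeadDet := by
  intro m l ρ g K ρ' g' K' n n' u w h1 h2 h P x Q y S
  rw [trace_congr l x h1, trace_congr l y h2, l.Y_congr h1 le_rfl, l.Y_congr h2 le_rfl]
  exact h P x Q y S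

end Pool.Agent.MP_db8016_pr.HD
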