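import Pool.Agent.MP_db8016_pr.HD.Stmts
namespace Pool.Agent.MP_db8016_pr.HD
open MeasureTheory ProbabilityTheory Filter Finset

namespace Geo2Aux

/-- A coordinate. -/
structure Co (cf : ℤ × ℤ → ℤ) : Prop where
  add : ∀ z w, cf (z + w) = cf z + cf w
  le : ∀ z, cf z ≤ nn z
  ge : ∀ z, -nn z ≤ cf z

lemma co_fst : Co Prod.fst :=
  ⟨fun _ _ => rfl, fun _ => (le_abs_self _).trans (le_max_left _ _),
    fun _ => (neg_le_neg (le_max_left _ _)).trans (neg_abs_le _)⟩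

lemma co_snd : Co Prod.snd :=
  ⟨fun _ _ => rfl, fun _ => (le_abs_self _).trans (le_max_right _ _),
    fun _ => (neg_le_neg (le_max_right _ _)).trans (neg_abs_le _)⟩

lemma nn_add (z w : ℤ × ℤ) : nn (z + w) ≤ nn z + nn w :=
  max_le ((abs_add_le _ _).trans (add_le_add (le_max_left _ _) (le_max_left _ _)))
    ((abs_add_le _ _).trans (add_le_add (le_max_right _ _) (le_max_right _ _)))

lemma nn_nonneg (z : ℤ × ℤ) : 0 ≤ nn z := (abs_nonneg _).trans (le_max_left _ _)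

lemma nn_le {u v M : ℤ} (h1 : -M ≤ u) (h2 : u ≤ M) (h3 : -M ≤ v) (h4 : v ≤ M) : nn (u, v) ≤ M :=
  max_le (abs_le.2 ⟨h1, h2⟩) (abs_le.2 ⟨h3, h4⟩)

/-- Standard position in a coordinate. -/
structure StdC (cf : ℤ × ℤ → ℤ) (ρ g B : ℤ) (P : Set (ℤ × ℤ)) (x : ℤ × ℤ) (Q : Set (ℤ × ℤ))
    (y : ℤ × ℤ) : Prop where
  hx : x ∈ P
  hy : y ∈ Q
  h1 : ∀ z ∈ Q, ρ + g ≤ cf x + cf z
  h2 : ∀ z ∈ P, ρ + g ≤ cf z + cf y
  h3 : 2 * ρ + g ≤ cf x + cf y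
  h4 : ∀ z ∈ P, nn z ≤ B
  h5 : ∀ z ∈ Q, nn z ≤ B

variable {m : Measure T} (l : Lat m)

/-- Passage between standard positions. -/
def LeadC (g : ℤ) (cf : ℤ × ℤ → ℤ) (ρ B : ℤ) (cf' : ℤ × ℤ → ℤ) (ρ' B' : ℤ) (a : ℕ → T) (n : ℕ)
    (b : ℕ → T) (n' : ℕ) : Prop :=
  ∀ P x Q y, StdC cf ρ g B P x Q y →
    StdC cf' ρ' g B' (P ∪ l.trace x a n) (x + l.Y a n) (Q ∪ l.trace y b n') (y + l.Y b n') ∧
    (∀ z ∈ l.trace x a n, ∀ z' ∈ Q ∪ l.trace y b n', g ≤ nn (z + z')) ∧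
    (∀ z ∈ P ∪ l.trace x a n, ∀ z' ∈ l.trace y b n', g ≤ nn (z + z'))

lemma trace_add (x : ℤ × ℤ) (a : ℕ → T) (n k : ℕ) :
    l.trace x a (n + k) = l.trace x a n ∪ l.trace (x + l.Y a n) (sh n a) k := by
  ext z
  constructor
  · rintro ⟨j, hj, rfl⟩
    rcases le_total j n with h | h
    · exact Or.inl ⟨j, h, rfl⟩
    · obtain ⟨i, rfl⟩ := Nat.exists_eq_add_of_le h
      exact Or.inr ⟨i, by omega, by rw [l.Y_add, add_assoc]⟩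
  · rintro (⟨j, hj, rfl⟩ | ⟨j, hj, rfl⟩)
    · exact ⟨j, by omega, rfl⟩
    · exact ⟨n + j, by omega, by rw [l.Y_add, add_assoc]⟩

variable {l}

lemma LeadC.trans {g : ℤ} {cf cf₁ cf₂ : ℤ × ℤ → ℤ} {ρ B ρ₁ B₁ ρ₂ B₂ : ℤ} {a b : ℕ → T}
    {n n' k k' : ℕ} (h : LeadC l g cf ρ B cf₁ ρ₁ B₁ a n b n')
    (h' : LeadC l g cf₁ ρ₁ B₁ cf₂ ρ₂ B₂ (sh n a) k (sh n' b) k') :
    LeadC l g cf ρ B cf₂ ρ₂ B₂ a (n + k) b (n' + k') := by
  intro P x Q y hs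
  obtain ⟨s1, a1, b1⟩ := h P x Q y hs
  obtain ⟨s2, a2, b2⟩ := h' _ _ _ _ s1
  rw [trace_add, trace_add, l.Y_add, l.Y_add, ← Set.union_assoc, ← Set.union_assoc, ← add_assoc,
    ← add_assoc]
  refine ⟨s2, ?_, ?_⟩
  · rintro z (hz | hz) z' hz'
    · rcases hz' with hz' | hz'
      · exact a1 z hz z' hz'
      · exact b2 z (Or.inl (Or.inr hz)) z' hz'
    · exact a2 z hz z' hz'
  · rintro z hz z' (hz' | hz')
    · rcases hz with hz | hz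
      · exact b1 z hz z' hz'
      · exact a2 z hz z' (Or.inl (Or.inr hz'))
    · exact b2 z hz z' hz'

/-- The bounds kept by a walker. -/
def Keep (l : Lat m) (cf : ℤ × ℤ → ℤ) (s e M : ℤ) (a : ℕ → T) (n : ℕ) : Prop :=
  (∀ k ≤ n, -s < cf (l.Y a k) ∧ nn (l.Y a k) ≤ M) ∧ e ≤ cf (l.Y a n)

lemma sep {g : ℤ} {cf : ℤ × ℤ → ℤ} {ρ B s e e' M B' : ℤ} {a b : ℕ → T} {n n' : ℕ} (hc : Co cf)
    (hs : s ≤ ρ) (hB : B + M ≤ B') (ha : Keep l cf s e M a n) (hb : Keep l cf s e' M b n')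
    {P Q : Set (ℤ × ℤ)} {x y : ℤ × ℤ} (h : StdC cf ρ g B P x Q y) :
    ((∀ z ∈ P ∪ l.trace x a n, nn z ≤ B') ∧ ∀ z ∈ Q ∪ l.trace y b n', nn z ≤ B') ∧
    (∀ z ∈ l.trace x a n, ∀ z' ∈ Q ∪ l.trace y b n', g ≤ nn (z + z')) ∧
    (∀ z ∈ P ∪ l.trace x a n, ∀ z' ∈ l.trace y b n', g ≤ nn (z + z')) := by
  have hM : 0 ≤ M := (nn_nonneg _).trans (ha.1 0 (Nat.zero_le _)).2
  have h3 := h.h3
  refine ⟨⟨?_, ?_⟩, ?_, ?_⟩
  · rintro z (hz | ⟨k, hk, rfl⟩)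
    · linarith [h.h4 z hz]
    · linarith [nn_add x (l.Y a k), h.h4 x h.hx, (ha.1 k hk).2]
  · rintro z (hz | ⟨k, hk, rfl⟩)
    · linarith [h.h5 z hz]
    · linarith [nn_add y (l.Y b k), h.h5 y h.hy, (hb.1 k hk).2]
  · rintro z ⟨k, hk, rfl⟩ z' hz'
    refine le_trans ?_ (hc.le _)
    have h4 := (ha.1 k hk).1
    rcases hz' with hz' | ⟨j, hj, rfl⟩
    · simp only [hc.add]
      linarith [h.h1 z' hz']
    · simp only [hc.add]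
      linarith [(hb.1 j hj).1]
  · rintro z hz z' ⟨j, hj, rfl⟩
    refine le_trans ?_ (hc.le _)
    have h4 := (hb.1 j hj).1
    rcases hz with hz | ⟨k, hk, rfl⟩
    · simp only [hc.add]
      linarith [h.h2 z hz]
    · simp only [hc.add]
      linarith [(ha.1 k hk).1]

lemma move {g : ℤ} {cf : ℤ × ℤ → ℤ} {ρ B s e M ρ' B' : ℤ} {a b : ℕ → T} {n n' : ℕ} (hc : Co cf)
    (hs : s ≤ ρ) (hB : B + M ≤ B') (h1 : ρ' ≤ ρ + e) (h2 : ρ' ≤ 2 * ρ + e - s)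
    (ha : Keep l cf s e M a n) (hb : Keep l cf s e M b n') :
    LeadC l g cf ρ B cf ρ' B' a n b n' := by
  intro P x Q y h
  obtain ⟨⟨b1, b2⟩, s1, s2⟩ := sep hc hs hB ha hb h
  have h3 := h.h3
  have ea := ha.2
  have eb := hb.2
  refine ⟨⟨Or.inr ⟨n, le_rfl, rfl⟩, Or.inr ⟨n', le_rfl, rfl⟩, ?_, ?_, ?_, b1, b2⟩, s1, s2⟩
  · rintro z (hz | ⟨k, hk, rfl⟩)
    · simp only [hc.add]
      linarith [h.h1 z hz]
    · simp only [hc.add]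
      linarith [(hb.1 k hk).1]
  · rintro z (hz | ⟨k, hk, rfl⟩)
    · simp only [hc.add]
      linarith [h.h2 z hz]
    · simp only [hc.add]
      linarith [(ha.1 k hk).1]
  · simp only [hc.add]
    linarith

lemma switch {g : ℤ} {cf cf' : ℤ × ℤ → ℤ} {ρ B s e s' e' M ρ' B' : ℤ} {a b : ℕ → T} {n n' : ℕ}
    (hc : Co cf) (hc' : Co cf') (hs : s ≤ ρ) (hB : B + M ≤ B') (hg : 0 ≤ g) (hρ : 0 ≤ ρ')
    (hs' : 0 ≤ s') (h1 : 2 * ρ' + g ≤ e' - 2 * B - s')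
    (ha : Keep l cf s e M a n) (hb : Keep l cf s e M b n')
    (ha' : Keep l cf' s' e' M a n) (hb' : Keep l cf' s' e' M b n') :
    LeadC l g cf ρ B cf' ρ' B' a n b n' := by
  intro P x Q y h
  obtain ⟨⟨b1, b2⟩, s1, s2⟩ := sep hc hs hB ha hb h
  have ea := ha'.2
  have eb := hb'.2
  have gx := hc'.ge x
  have gy := hc'.ge y
  have bx := h.h4 x h.hx
  have by' := h.h5 y h.hy
  have b0 := nn_nonneg x
  refine ⟨⟨Or.inr ⟨n, le_rfl, rfl⟩, Or.inr ⟨n', le_rfl, rfl⟩, ?_, ?_, ?_, b1, b2⟩, s1, s2⟩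
  · rintro z (hz | ⟨k, hk, rfl⟩)
    · simp only [hc'.add]
      linarith [h.h5 z hz, hc'.ge z]
    · simp only [hc'.add]
      linarith [(hb'.1 k hk).1]
  · rintro z (hz | ⟨k, hk, rfl⟩)
    · simp only [hc'.add]
      linarith [h.h4 z hz, hc'.ge z]
    · simp only [hc'.add]
      linarith [(ha'.1 k hk).1]
  · simp only [hc'.add]
    linarith

lemma keep_of {a : ℕ → T} {n : ℕ} {u₁ u₂ v₁ v₂ M : ℤ}
    (h : ∀ k ≤ n, -u₁ < l.U a k ∧ l.U a k ≤ u₂ ∧ -v₁ < l.V a k ∧ l.V a k ≤ v₂)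
    (h1 : u₁ ≤ M) (h2 : u₂ ≤ M) (h3 : v₁ ≤ M) (h4 : v₂ ≤ M) :
    (∀ e, e ≤ l.U a n → Keep l Prod.fst u₁ e M a n) ∧
      ∀ e, e ≤ l.V a n → Keep l Prod.snd v₁ e M a n := by
  have hn : ∀ k ≤ n, nn (l.Y a k) ≤ M := fun k hk => by
    obtain ⟨g1, g2, g3, g4⟩ := h k hk
    exact nn_le (by linarith) (by linarith) (by linarith) (by linarith)
  exact ⟨fun e he => ⟨fun k hk => ⟨(h k hk).1, hn k hk⟩, he⟩,
    fun e he => ⟨fun k hk => ⟨(h k hk).2.2.1, hn k hk⟩, he⟩⟩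

lemma keep_ph {a : ℕ → T} {n : ℕ} {u₁ u₂ v₁ v₂ M : ℤ} (h : l.Ph u₁ u₂ v₁ v₂ a n)
    (h1 : u₁ ≤ M) (h2 : u₂ ≤ M) (h3 : v₁ ≤ M) (h4 : v₂ ≤ M) :
    Keep l Prod.fst u₁ u₂ M a n ∧ Keep l Prod.snd v₁ (-v₁) M a n :=
  ⟨(keep_of h.1 h1 h2 h3 h4).1 _ h.2.ge, (keep_of h.1 h1 h2 h3 h4).2 _ (h.1 n le_rfl).2.2.1.le⟩

lemma keep_swap {a : ℕ → T} {n : ℕ} {u₁ u₂ v₁ v₂ M : ℤ} (h : l.swap.Ph v₁ v₂ u₁ u₂ a n)
    (h1 : u₁ ≤ M) (h2 : u₂ ≤ M) (h3 : v₁ ≤ M) (h4 : v₂ ≤ M) :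
    Keep l Prod.snd v₁ v₂ M a n ∧ Keep l Prod.fst u₁ (-u₁) M a n := by
  have h' : ∀ k ≤ n, -u₁ < l.U a k ∧ l.U a k ≤ u₂ ∧ -v₁ < l.V a k ∧ l.V a k ≤ v₂ := fun k hk =>
    ⟨(h.1 k hk).2.2.1, (h.1 k hk).2.2.2, (h.1 k hk).1, (h.1 k hk).2.1⟩
  exact ⟨(keep_of h' h1 h2 h3 h4).2 _ h.2.ge, (keep_of h' h1 h2 h3 h4).1 _ (h' n le_rfl).1.le⟩

lemma keep_neg {a : ℕ → T} {n : ℕ} {u₁ u₂ v₁ v₂ M : ℤ} (h : l.neg.Ph u₁ u₂ v₁ v₂ a n)
    (h1 : u₁ ≤ M) (h2 : u₂ ≤ M) (h3 : v₁ ≤ M) (h4 : v₂ ≤ M) :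
    Keep l Prod.snd v₁ (-v₁) M a n := by
  have h' : ∀ k ≤ n, -v₁ < l.V a k ∧ nn (l.Y a k) ≤ M := fun k hk => by
    obtain ⟨g1, g2, g3, g4⟩ := h.1 k hk
    rw [Lat.neg_U] at g1 g2
    rw [Lat.neg_V] at g3 g4
    exact ⟨g3, nn_le (by linarith) (by linarith) (by linarith) (by linarith)⟩
  exact ⟨h', (h' n le_rfl).1.le⟩

end Geo2Aux

open Geo2Aux in
theorem way2_thm : Way2Geo := by
  intro m l ρ h H g K K₀ a₁ X₁ a₂ X₂ a₃ X₃ K' a b n n' hρ hρh hg hgρ hK hK₀ ha₁ hX₁ ha₂ hX₂ ha₃ hX₃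
    hH hK' ⟨n₁, n₂, n₃, n₄, n₅, en, p1, p2, p3, p4, p5⟩ ⟨k₁, k₂, k₃, k₄, k₅, ek, q1, q2, q3, q4, q5⟩
  have h0 : 0 < h := by linarith
  have f1 : h ≤ K₀ * h := by nlinarith
  have f2 : 2 * (K₀ * h) + 8 * h ≤ a₁ * h := by nlinarith
  have f3 : h ≤ X₁ * h := by nlinarith
  have f4 : h ≤ a₂ * h := by nlinarith
  have f5 : h ≤ X₂ * h := by nlinarith
  have f6 : K₀ * h + h + a₁ * h + X₁ * h + a₂ * h + X₂ * h ≤ H := by linarith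
  have H0 : 0 < H := by linarith
  have f7 : H ≤ K₀ * H := by nlinarith
  have f8 : 2 * (K₀ * H) + 6 * H ≤ a₃ * H := by nlinarith
  have f9 : H ≤ X₃ * H := by nlinarith
  have f10 : K₀ * H + H + a₃ * H + X₃ * H ≤ K' * H := by nlinarith
  have A1 := keep_ph (M := K₀ * h) p1 (by linarith) (by linarith) le_rfl le_rfl
  have B1 := keep_ph (M := K₀ * h) q1 (by linarith) (by linarith) le_rfl le_rfl
  have A2 := keep_swap (M := a₁ * h + X₁ * h) p2 (by linarith) (by linarith) (by linarith)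
    (by linarith)
  have B2 := keep_swap (M := a₁ * h + X₁ * h) q2 (by linarith) (by linarith) (by linarith)
    (by linarith)
  have A3 := keep_neg (M := a₂ * h + X₂ * h) p3 (by linarith) (by linarith) (by linarith)
    (by linarith)
  have B3 := keep_neg (M := a₂ * h + X₂ * h) q3 (by linarith) (by linarith) (by linarith)
    (by linarith)
  have A4 := keep_swap (M := K₀ * H) p4 le_rfl le_rfl (by linarith) (by linarith)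
  have B4 := keep_swap (M := K₀ * H) q4 le_rfl le_rfl (by linarith) (by linarith)
  have A5 := keep_ph (M := a₃ * H + X₃ * H) p5 (by linarith) (by linarith) (by linarith)
    (by linarith)
  have B5 := keep_ph (M := a₃ * H + X₃ * H) q5 (by linarith) (by linarith) (by linarith)
    (by linarith)
  have L1 := move (g := g) (ρ := ρ) (B := K * ρ) (ρ' := h) (B' := K₀ * h + h) co_fst le_rfl
    (by linarith) (by linarith) (by linarith) A1.1 B1.1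
  have L2 := switch (g := g) (ρ := h) (B := K₀ * h + h) (ρ' := 2 * h)
    (B' := K₀ * h + h + a₁ * h + X₁ * h) co_fst co_snd le_rfl (by linarith) hg (by linarith) h0.le
    (by linarith) A2.2 B2.2 A2.1 B2.1
  have L3 := move (g := g) (ρ := 2 * h) (B := K₀ * h + h + a₁ * h + X₁ * h) (ρ' := h) (B' := H)
    co_snd (by linarith) (by linarith) (by linarith) (by linarith) A3 B3
  have L4 := move (g := g) (ρ := h) (B := H) (ρ' := H) (B' := K₀ * H + H) co_snd le_rfl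
    (by linarith) (by linarith) (by linarith) A4.1 B4.1
  have L5 := switch (g := g) (ρ := H) (B := K₀ * H + H) (ρ' := H) (B' := K' * H) co_snd co_fst
    le_rfl (by linarith) hg H0.le H0.le (by linarith) A5.2 B5.2 A5.1 B5.1
  have L := (((L1.trans L2).trans L3).trans L4).trans L5
  rw [← en, ← ek] at L
  intro P x Q y hs
  obtain ⟨s, s1, s2⟩ := L P x Q y ⟨hs.hx, hs.hy, hs.h1, hs.h2, hs.h3, hs.h4, hs.h5⟩
  exact ⟨⟨s.hx, s.hy, s.h1, s.h2, s.h3, s.h4, s.h5⟩, s1, s2⟩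

end Pool.Agent.MP_db8016_pr.HD
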