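import Pool.Agent.MP_db8016_pr.HD.Stmts
namespace Pool.Agent.MP_db8016_pr.HD
open MeasureTheory ProbabilityTheory Filter Finset

namespace GroupAux

lemma adapt_first {α : Type} {Q : (ℕ → α) → ℕ → Prop} (h : Adapt Q) : Adapt (First Q) :=
  fun a a' n h1 h2 => ⟨h a a' n h1 h2.1, fun k hk h3 =>
    h2.2 k hk (h a' a k (fun i hi => (h1 i (hi.trans hk)).symm) h3)⟩

variable {W : Model} (ℓ : Lev W)

/-- The level is at least `x`. -/
def Q (x : ℝ) (e : ℕ → W.D) (n : ℕ) : Prop := x ≤ ℓ.lv e n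

/-- After the first visit to level `x`, a rise of `w` within `t` steps. -/
def B (x w : ℝ) (t : ℕ) : Set (ℕ → W.D) := {e | ∃ n, First (Q ℓ x) e n ∧ sh n e ∈ ℓ.Reach w t}

lemma adapt_Q (x : ℝ) : Adapt (Q ℓ x) := fun a a' n h1 h2 => by
  unfold Q at h2 ⊢
  rwa [ℓ.lv_congr h1 le_rfl]

lemma first_le {x : ℝ} (hx : 0 ≤ x) {e : ℕ → W.D} {n : ℕ} (h : First (Q ℓ x) e n) :
    ℓ.lv e n ≤ x + 1 := by
  rcases n with _ | n
  · rw [ℓ.lv_zero]; linarith
  · have h1 : ¬ x ≤ ℓ.lv e n := h.2 n (Nat.lt_succ_self n)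
    have h2 := (abs_le.1 (ℓ.lv_succ e n)).2
    linarith [not_le.1 h1]

lemma meas_B (x w : ℝ) (t : ℕ) : MeasurableSet (B ℓ x w t) := by
  have h1 : MeasurableSet (ℓ.Reach w t) :=
    Det.measurableSet (n := t) fun a a' h ⟨n, h2, h3⟩ => ⟨n, h2, by rwa [ℓ.lv_congr h h2]⟩
  have : B ℓ x w t = ⋃ n, {e | First (Q ℓ x) e n} ∩ sh n ⁻¹' ℓ.Reach w t := by
    ext e
    simp only [B, Set.mem_iUnion, Set.mem_inter_iff, Set.mem_preimage, Set.mem_ofPred_eq]
  rw [this]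
  exact MeasurableSet.iUnion fun n =>
    ((adapt_first (adapt_Q ℓ x)).measurableSet n).inter (measurable_sh n h1)

lemma B_le (hS : StopStmt) {x w c : ℝ} {t : ℕ} (hc : 0 ≤ c)
    (h : ∀ e n, ℓ.Rec e n → W.cS e n (ℓ.Reach w t) ≤ c * W.S.real (Cy e n)) :
    W.S.real (B ℓ x w t) ≤ c := by
  have h1 := hS W.D W.S W.S (Q ℓ x) (adapt_Q ℓ x) Set.univ (B ℓ x w t) MeasurableSet.univ
    (meas_B ℓ x w t) c 1 fun e n hn => by
      rw [one_mul, Set.inter_univ]
      refine le_trans (measureReal_mono ?_) (h e n fun i hi => (not_le.1 (hn.2 i hi)).trans_le hn.1)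
      rintro e' ⟨h2, k, h3, h4⟩
      obtain rfl := h3.unique (adapt_first (adapt_Q ℓ x) e e' n h2 hn)
      exact ⟨h2, h4⟩
  have h2 : B ℓ x w t ⊆ {e | ∃ n, Q ℓ x e n} := fun e ⟨n, h2, _⟩ => ⟨n, h2.1⟩
  rw [one_mul, Set.inter_eq_right.2 h2] at h1
  exact h1.trans (mul_le_of_le_one_right hc measureReal_le_one)

lemma cover {w : ℝ} (hw : 0 ≤ w) {t j : ℕ} (hj : 1 ≤ j) :
    ℓ.Reach (j * (w + 1)) (j * t) ⊆ ⋃ i ∈ range j, B ℓ (i * (w + 1)) w t := by
  rintro e ⟨n, h1, h2⟩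
  by_contra h
  simp only [Set.mem_iUnion, not_exists, mem_range] at h
  have key : ∀ i ≤ j, ∀ k, First (Q ℓ (i * (w + 1))) e k → i * (t + 1) ≤ k := by
    intro i
    induction i with
    | zero => simp
    | succ i ih =>
      intro hi k hk
      have h3 : ((i + 1 : ℕ) : ℝ) * (w + 1) ≤ ℓ.lv e k := hk.1
      push_cast at h3
      obtain ⟨k', h4, h5⟩ := exists_first (Q := Q ℓ (i * (w + 1))) (a := e) (n := k)
        (by unfold Q; linarith)
      have h6 := ih (by omega) k' h5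
      have h7 := first_le ℓ (by positivity) h5
      obtain ⟨d, rfl⟩ := Nat.exists_eq_add_of_le h4
      rw [ℓ.lv_add] at h3
      have h8 : t < d := not_le.1 fun h9 => h i (by omega) ⟨k', h5, d, h9, by linarith⟩
      rw [Nat.succ_mul]
      omega
  obtain ⟨k, h3, h4⟩ := exists_first (Q := Q ℓ (j * (w + 1))) (a := e) (n := n) h2
  have h5 := key j le_rfl k h4
  rw [Nat.mul_succ] at h5
  omega

lemma U_le {m : Measure T} (l : Lat m) (a : ℕ → T) (k : ℕ) : l.U a k ≤ k := by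
  induction k with
  | zero => simp
  | succ k ih =>
    have := (abs_le.1 (l.abs_u_le (a k))).2
    rw [l.U_succ]
    push_cast
    omega

lemma pow_le (W : Model) (a : ℕ → W.D) (n k : ℕ) :
    W.κ ^ k * W.S.real (Cy a n) ≤ W.S.real (Cy a (n + k)) := by
  induction k with
  | zero => simp
  | succ k ih =>
    rw [pow_succ', mul_assoc]
    refine (mul_le_mul_of_nonneg_left ih W.hκ.le).trans ((W.uel a (n + k) (a (n + k))).trans
      (measureReal_mono fun e' h i hi => ?_))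
    rcases Nat.lt_succ_iff_lt_or_eq.1 hi with h1 | rfl
    · exact h.1 i h1
    · exact h.2

end GroupAux

open GroupAux

theorem group_thm (hF : FastStmt) (hS : StopStmt) : GroupStmt := by
  intro W ℓ z t g j hz hj
  have hc : 0 ≤ (1 - W.S.real (ℓ.Slow z t)) ^ g := pow_nonneg (sub_nonneg.2 measureReal_le_one) g
  refine (measureReal_mono (cover ℓ (by positivity) hj) (measure_ne_top _ _)).trans
    ((measureReal_biUnion_finset_le _ _).trans ?_)
  refine (sum_le_card_nsmul _ _ _ fun i _ =>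
    B_le ℓ hS hc fun e n hn => hF W ℓ z t g e n hz hn).trans_eq ?_
  rw [card_range, nsmul_eq_mul]

theorem posLim_thm : PosLimStmt := by
  intro W ℓ
  have h0 : ∀ m, MeasurableSet (ℓ.Pos m) := fun m =>
    Det.measurableSet (n := m) fun a a' h h1 k hk => by rw [ℓ.lv_congr h hk]; exact h1 k hk
  have h1 : {e | ∀ k, 0 ≤ ℓ.lv e k} = ⋂ m, ℓ.Pos m := by
    ext e
    exact ⟨fun h => Set.mem_iInter.2 fun m k _ => h k, fun h k => Set.mem_iInter.1 h k k le_rfl⟩
  have h2 := tendsto_measure_iInter_atTop (μ := W.S)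
    (s := fun m => ℓ.Pos m \ {e | ∀ k, 0 ≤ ℓ.lv e k})
    (fun m => ((h0 m).diff (h1 ▸ MeasurableSet.iInter h0)).nullMeasurableSet)
    (fun m m' h e he => ⟨fun k hk => he.1 k (hk.trans h), he.2⟩) ⟨0, measure_ne_top _ _⟩
  have h3 : ⋂ m, ℓ.Pos m \ {e | ∀ k, 0 ≤ ℓ.lv e k} = ∅ :=
    Set.eq_empty_of_forall_notMem fun e he =>
      (Set.mem_iInter.1 he 0).2 fun k => (Set.mem_iInter.1 he k).1 k le_rfl
  rw [h3, measure_empty] at h2
  exact (ENNReal.tendsto_toReal ENNReal.zero_ne_top).comp h2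

theorem start_thm : StartStmt := by
  intro W ℓ N t R h1 h2 e n _
  obtain ⟨d, hd⟩ := ℓ.hd
  have h3 := pow_le W (Model.cat e n fun _ => d) n N
  rw [Model.Cy_cat, Model.Cy_congr (Model.cat_mem e n _)] at h3
  refine h3.trans (measureReal_mono (Set.inter_subset_inter_right _ (Set.preimage_mono ?_)))
  intro a ha
  have h4 : ℓ.lv a N = N * ℓ.L (W.vec d) := by
    rw [ℓ.lv_congr ha le_rfl]
    simp [Lev.lv, Model.X, ps]
  refine ⟨N, h1, ?_, fun k hk => ?_⟩
  · rcases (abs_eq zero_le_one).1 hd with h5 | h5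
    · exact ⟨0, N.zero_le, N, le_rfl, by rw [h4, h5, ℓ.lv_zero]; linarith⟩
    · exact ⟨N, le_rfl, 0, N.zero_le, by rw [h4, h5, ℓ.lv_zero]; linarith⟩
  · have := U_le W.l (W.la a) k
    omega

end Pool.Agent.MP_db8016_pr.HD
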