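import Pool.Agent.MP_db8016_pr.HD.Stmts

/-! Cylinders of an i.i.d. sequence and the strong Markov lower bound. -/

namespace Pool.Agent.MP_db8016_pr.HD
open MeasureTheory ProbabilityTheory Filter Finset

namespace IidAux

lemma cy_eq (m : Measure T) [IsProbabilityMeasure m] (e : ℕ → T) (n : ℕ) :
    IID m (Cy e n) = ∏ i ∈ range n, m {e i} := by
  have h : Cy e n = Set.pi (range n : Finset ℕ) fun i => ({e i} : Set T) := by
    ext a
    simp [Cy]
  rw [h, IID, Measure.infinitePi_pi _ fun i _ => measurableSet_singleton _]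

lemma box_eq (m : Measure T) [IsProbabilityMeasure m] (e : ℕ → T) (n : ℕ) (s : Finset ℕ)
    (t : ℕ → Set T) :
    IID m (Cy e n ∩ sh n ⁻¹' Set.pi s t) = IID m (Cy e n) * ∏ i ∈ s, m (t i) := by
  have hd : Disjoint (range n) (s.map (addLeftEmbedding n)) := by
    rw [Finset.disjoint_left]
    intro i hi h2
    obtain ⟨j, _, hj⟩ := Finset.mem_map.1 h2
    have h3 : n + j = i := hj
    have h4 := mem_range.1 hi
    omega
  have h : Cy e n ∩ sh n ⁻¹' Set.pi s t =
      Set.pi ((range n).disjUnion (s.map (addLeftEmbedding n)) hd : Finset ℕ)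
        fun i => if i < n then ({e i} : Set T) else t (i - n) := by
    ext a
    simp only [Cy, Set.mem_inter_iff, Set.mem_ofPred_eq, Set.mem_preimage, Set.mem_pi, mem_coe,
      mem_disjUnion, mem_range, Finset.mem_map, addLeftEmbedding_apply, sh]
    constructor
    · rintro ⟨h1, h2⟩ i (hi | ⟨j, hj, rfl⟩)
      · rw [if_pos hi]
        exact h1 i hi
      · rw [if_neg (by omega), Nat.add_sub_cancel_left]
        exact h2 j hj
    · intro h1
      refine ⟨fun i hi => ?_, fun j hj => ?_⟩
      · have := h1 i (Or.inl hi)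
        rwa [if_pos hi] at this
      · have := h1 (n + j) (Or.inr ⟨j, hj, rfl⟩)
        rwa [if_neg (by omega), Nat.add_sub_cancel_left] at this
  rw [h, cy_eq, IID, Measure.infinitePi_pi _ fun i _ => MeasurableSet.of_discrete,
    prod_disjUnion, prod_map]
  congr 1
  · exact prod_congr rfl fun i hi => by rw [if_pos (mem_range.1 hi)]
  · refine prod_congr rfl fun j _ => ?_
    rw [addLeftEmbedding_apply, if_neg (by omega), Nat.add_sub_cancel_left]

lemma cy_inter (m : Measure T) [IsProbabilityMeasure m] (e : ℕ → T) (n : ℕ) {B : Set (ℕ → T)}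
    (hB : MeasurableSet B) : IID m (Cy e n ∩ sh n ⁻¹' B) = IID m (Cy e n) * IID m B := by
  by_cases h0 : IID m (Cy e n) = 0
  · rw [h0, zero_mul]
    exact measure_mono_null Set.inter_subset_left h0
  have ht : IID m (Cy e n) ≠ ⊤ := measure_ne_top _ _
  have key : ∀ A : Set (ℕ → T), MeasurableSet A →
      ((IID m (Cy e n))⁻¹ • ((IID m).restrict (Cy e n)).map (sh n)) A =
        (IID m (Cy e n))⁻¹ * IID m (Cy e n ∩ sh n ⁻¹' A) := by
    intro A hA
    rw [Measure.smul_apply, Measure.map_apply (measurable_sh n) hA,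
      Measure.restrict_apply (measurable_sh n hA), Set.inter_comm, smul_eq_mul]
  have h1 : (IID m (Cy e n))⁻¹ • ((IID m).restrict (Cy e n)).map (sh n) = IID m := by
    refine Measure.eq_infinitePi _ fun s t h => ?_
    rw [key _ (MeasurableSet.pi s.countable_toSet fun i _ => h i), box_eq, ← mul_assoc,
      ENNReal.inv_mul_cancel h0 ht, one_mul]
  have h2 := key B hB
  rw [h1] at h2
  rw [h2, ← mul_assoc, ENNReal.mul_inv_cancel h0 ht, one_mul]

lemma first_congr {Q : (ℕ → T) → ℕ → Prop} (hQ : Adapt Q) {a a' : ℕ → T} {n : ℕ}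
    (h : ∀ i < n, a' i = a i) (hf : First Q a n) : First Q a' n :=
  ⟨hQ a a' n h hf.1, fun k hk h2 =>
    hf.2 k hk (hQ a' a k (fun i hi => (h i (hi.trans hk)).symm) h2)⟩

lemma meas_target {Q : (ℕ → T) → ℕ → Prop} (hQ : Adapt Q) {E : (ℕ → T) → ℕ → Set (ℕ → T)}
    (hE : ∀ a n, MeasurableSet (E a n)) (hc : ∀ a a' n, (∀ i < n, a' i = a i) → E a' n = E a n) :
    MeasurableSet {a | ∃ n, First Q a n ∧ sh n a ∈ E a n} := by
  let w : (n : ℕ) → (Fin n → T) → ℕ → T := fun n f i => if h : i < n then f ⟨i, h⟩ else 0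
  have h : {a | ∃ n, First Q a n ∧ sh n a ∈ E a n} =
      ⋃ n, ⋃ f ∈ {f : Fin n → T | First Q (w n f) n}, Cy (w n f) n ∩ sh n ⁻¹' E (w n f) n := by
    ext a
    simp only [Set.mem_ofPred_eq, Set.mem_iUnion, Set.mem_inter_iff, Set.mem_preimage,
      exists_prop]
    constructor
    · rintro ⟨n, h1, h2⟩
      have h3 : ∀ i < n, w n (fun j => a j) i = a i := fun i hi => by simp only [w, dif_pos hi]
      refine ⟨n, fun j => a j, first_congr hQ h3 h1, fun i hi => (h3 i hi).symm, ?_⟩
      rw [hc a _ n h3]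
      exact h2
    · rintro ⟨n, f, h1, h2, h3⟩
      refine ⟨n, first_congr hQ h2 h1, ?_⟩
      rw [hc _ a n h2]
      exact h3
  rw [h]
  exact MeasurableSet.iUnion fun n => MeasurableSet.biUnion (Set.to_countable _) fun f _ =>
    (measurableSet_Cy _ _).inter (measurable_sh n (hE _ _))

end IidAux

theorem iid_thm : IidStmt := by
  intro m _ e n
  refine ⟨?_, fun B hB => ?_⟩
  · simp only [Measure.real, IidAux.cy_eq, ENNReal.toReal_prod]
  · simp only [Measure.real, IidAux.cy_inter m e n hB, ENNReal.toReal_mul]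

theorem sm1_thm (hS : StopStmt) : SM1Stmt := by
  intro m _ Q hQ E c hE hc h
  have hB := IidAux.meas_target hQ hE hc
  have h1 := hS T (IID m) (IID m) Q hQ _ Set.univ hB MeasurableSet.univ 1 c fun e n hf => by
    rw [Set.inter_univ, one_mul]
    calc c * (IID m).real (Cy e n) ≤ (IID m).real (E e n) * (IID m).real (Cy e n) :=
          mul_le_mul_of_nonneg_right (h e n hf) measureReal_nonneg
      _ = (IID m).real (Cy e n ∩ sh n ⁻¹' E e n) := by
          rw [(iid_thm m e n).2 _ (hE e n), mul_comm]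
      _ ≤ _ := by
          refine measureReal_mono (fun a ha => ⟨ha.1, n, IidAux.first_congr hQ ha.1 hf, ?_⟩)
          rw [hc e a n ha.1]
          exact ha.2
  rw [Set.inter_univ, one_mul] at h1
  exact h1.trans (measureReal_mono Set.inter_subset_right)

end Pool.Agent.MP_db8016_pr.HD
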