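import Pool.Agent.MP_db8016_pr.HD.Stmts

/-! Later lateral steps are independent of the past. -/

namespace Pool.Agent.MP_db8016_pr.HD
open MeasureTheory ProbabilityTheory Filter Finset

namespace IndepAux

lemma map_restrict {A B : Type} [MeasurableSpace A] [MeasurableSpace B] (μ : Measure A)
    [IsFiniteMeasure μ] (ν : Measure B) [IsFiniteMeasure ν] {f : A → B} (hf : Measurable f)
    (C : Set A) (h : ∀ s, MeasurableSet s → μ.real (C ∩ f ⁻¹' s) = μ.real C * ν.real s) :
    (μ.restrict C).map f = μ C • ν := by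
  ext s hs
  rw [Measure.map_apply hf hs, Measure.restrict_apply (hf hs), Set.inter_comm,
    Measure.smul_apply, smul_eq_mul]
  have h1 := h s hs
  simp only [Measure.real, ← ENNReal.toReal_mul] at h1
  exact (ENNReal.toReal_eq_toReal_iff' (measure_ne_top _ _)
    (ENNReal.mul_ne_top (measure_ne_top _ _) (measure_ne_top _ _))).1 h1

lemma prod_one {A A' B B' : Type} [MeasurableSpace A] [MeasurableSpace A'] [MeasurableSpace B]
    [MeasurableSpace B'] (μ : Measure A) [IsFiniteMeasure μ] (μ' : Measure A')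
    [IsFiniteMeasure μ'] (ν : Measure B) [IsFiniteMeasure ν] (ν' : Measure B')
    [IsFiniteMeasure ν'] {f : A → B} (hf : Measurable f) {f' : A' → B'} (hf' : Measurable f')
    (C : Set A) (C' : Set A')
    (h : ∀ s, MeasurableSet s → μ.real (C ∩ f ⁻¹' s) = μ.real C * ν.real s)
    (h' : ∀ s, MeasurableSet s → μ'.real (C' ∩ f' ⁻¹' s) = μ'.real C' * ν'.real s)
    {E : Set (B × B')} (hE : MeasurableSet E) :
    (μ.prod μ').real (C ×ˢ C' ∩ Prod.map f f' ⁻¹' E) =
      (μ.prod μ').real (C ×ˢ C') * (ν.prod ν').real E := by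
  have h1 : ((μ.prod μ').restrict (C ×ˢ C')).map (Prod.map f f') =
      (μ C * μ' C') • ν.prod ν' := by
    rw [← Measure.prod_restrict, ← Measure.map_prod_map _ _ hf hf', map_restrict μ ν hf C h,
      map_restrict μ' ν' hf' C' h', Measure.prod_smul_left, Measure.prod_smul_right, smul_smul]
  have h2 := congrArg (fun m : Measure (B × B') => m E) h1
  simp only [Measure.map_apply (hf.prodMap hf') hE,
    Measure.restrict_apply (hf.prodMap hf' hE), Measure.smul_apply, smul_eq_mul] at h2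
  rw [Set.inter_comm, Measure.real, h2, Measure.real, Measure.real, Measure.prod_prod,
    ENNReal.toReal_mul]

end IndepAux

theorem indep_thm (hA : AutoStmt) (hI : IidStmt) : IndepStmt := by
  classical
  intro W n Θ E hΘ hE
  let g : (ℕ → W.D) × (ℕ → T) → (Fin n → W.D) × (Fin n → T) :=
    fun x => (fun i => x.1 i, fun i => x.2 i)
  have hg : ∀ x, g ⁻¹' {g x} = Cy x.1 n ×ˢ Cy x.2 n := fun x => by
    ext y
    simp only [g, Set.mem_preimage, Set.mem_singleton_iff, Prod.mk.injEq, funext_iff,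
      Set.mem_prod, Cy, Set.mem_ofPred_eq]
    exact ⟨fun h => ⟨fun i hi => h.1 ⟨i, hi⟩, fun i hi => h.2 ⟨i, hi⟩⟩,
      fun h => ⟨fun i => h.1 i i.2, fun i => h.2 i i.2⟩⟩
  let s : Finset ((Fin n → W.D) × (Fin n → T)) := univ.filter fun w => w ∈ g '' Θ
  have hs : Θ = g ⁻¹' s := by
    ext y
    simp only [s, Set.mem_preimage, coe_filter, mem_univ, true_and, Set.mem_ofPred_eq]
    refine ⟨fun h => ⟨y, h, rfl⟩, ?_⟩
    rintro ⟨x, hx, hxy⟩
    have : y ∈ g ⁻¹' {g x} := hxy.symm
    rw [hg] at this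
    exact hΘ x y this.1 this.2 hx
  have hm : ∀ w ∈ s, MeasurableSet (g ⁻¹' {w}) := by
    intro w hw
    obtain ⟨x, -, rfl⟩ := (mem_filter.1 hw).2
    rw [hg]
    exact (measurableSet_Cy _ _).prod (measurableSet_Cy _ _)
  have hf : Measurable fun e : ℕ → W.D => sh n (W.la e) := (measurable_sh n).comp W.measurable_la
  have hF : {x : (ℕ → W.D) × (ℕ → T) | (sh n (W.la x.1), sh n x.2) ∈ E} =
      Prod.map (fun e : ℕ → W.D => sh n (W.la e)) (sh n) ⁻¹' E := rfl
  rw [hF, ← measureReal_restrict_apply hΘ.measurableSet, hs,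
    ← sum_measureReal_preimage_singleton s hm, ← sum_measureReal_preimage_singleton s hm, sum_mul]
  refine sum_congr rfl fun w hw => ?_
  rw [measureReal_restrict_apply (hm w hw)]
  obtain ⟨x, -, rfl⟩ := (mem_filter.1 hw).2
  rw [hg]
  exact IndepAux.prod_one W.S (IID W.m) (IID W.m) (IID W.m) hf (measurable_sh n) _ _
    (fun B hB => hA W x.1 n B hB) (hI W.m x.2 n).2 hE

end Pool.Agent.MP_db8016_pr.HD
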