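import Pool.Agent.MP_db8016_pr.HD.Stmts

/-! The probability of the stopped event. -/

namespace Pool.Agent.MP_db8016_pr.HD
open MeasureTheory ProbabilityTheory Filter Finset

namespace JProbAux

lemma adapt_First {α : Type} {Q : (ℕ → α) → ℕ → Prop} (h : Adapt Q) : Adapt (First Q) := by
  intro a a' n h1 h2
  refine ⟨h a a' n h1 h2.1, fun k hk h3 => h2.2 k hk ?_⟩
  exact h a' a k (fun i hi => (h1 i (by omega)).symm) h3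

lemma wait_det {m : Measure T} (l : Lat m) (h K : ℤ) (t : ℕ) : Det t (l.WaitEv h K t) := by
  intro a a' h1 h2 k hk
  rw [l.U_congr h1 hk, l.Y_congr h1 hk]
  exact h2 k hk

variable {W : Model}

lemma run_stable (ℓ : Lev W) {z : ℝ} {t : ℕ} {ρ : ℤ} {e : ℕ → W.D} (h : e ∈ ℓ.Run z t ρ) :
    ∃ k, Cy e k ⊆ ℓ.Run z t ρ ∧ ∀ j ≤ k, 0 ≤ ℓ.lv e j := by
  obtain ⟨n, hn, h1, h2⟩ := h
  refine ⟨n, fun e' he' => ⟨n, hn, ?_, fun k hk => ?_⟩, fun j hj => (h2 j hj).1⟩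
  · rwa [ℓ.lv_congr he' le_rfl]
  · have h3 : ∀ i < n, W.la e' i = W.la e i := fun i hi => by simp only [Model.la, he' i hi]
    rw [ℓ.lv_congr he' hk, W.l.Y_congr h3 hk]
    exact h2 k hk

lemma run_fresh (hF : FreshStmt) (ℓ : Lev W) (z : ℝ) (t : ℕ) (ρ : ℤ) {e : ℕ → W.D} {n : ℕ}
    (h : ℓ.Rec e n) :
    W.S.real (Cy e n ∩ sh n ⁻¹' ℓ.Run z t ρ) = W.S.real (Cy e n) * W.S.real (ℓ.Run z t ρ) := by
  refine hF W e n _ fun e' he' => ?_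
  obtain ⟨k, h1, h2⟩ := run_stable ℓ he'
  refine ⟨k, h1, fun i hi j hj h3 => ?_⟩
  have h4 : ℓ.lv e i = ℓ.lv e n + ℓ.lv e' j := by simp only [Lev.lv, h3, map_add]
  have h5 := h i hi
  have h6 := h2 j hj.le
  linarith

lemma rec_congr (ℓ : Lev W) {e e' : ℕ → W.D} {n : ℕ} (h : ∀ i < n, e' i = e i)
    (h1 : ℓ.Rec e n) : ℓ.Rec e' n := by
  intro i hi
  rw [ℓ.lv_congr h hi.le, ℓ.lv_congr h le_rfl]
  exact h1 i hi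

lemma first_cases (ℓ : Lev W) {w : ℝ} (hw : 0 < w) {e : ℕ → W.D} {n : ℕ}
    (h : First (ℓ.Rng w) e n) :
    (ℓ.Rec e n ∧ ∃ i ≤ n, w ≤ ℓ.lv e n - ℓ.lv e i) ∨
      (ℓ.neg.Rec e n ∧ ∃ i ≤ n, w ≤ ℓ.lv e i - ℓ.lv e n) := by
  obtain ⟨⟨i, hi, j, hj, h1⟩, h2⟩ := h
  have h3 : ∀ i' < n, ∀ j' < n, ℓ.lv e j' - ℓ.lv e i' < w := by
    intro i' hi' j' hj'
    by_contra h4
    exact h2 (n - 1) (by omega) ⟨i', by omega, j', by omega, not_lt.1 h4⟩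
  rcases hj.lt_or_eq with hj' | rfl
  · rcases hi.lt_or_eq with hi' | rfl
    · exact absurd (h3 i hi' j hj') (not_lt.2 h1)
    · refine Or.inr ⟨fun i' hi' => ?_, j, hj, h1⟩
      have := h3 i' hi' j hj'
      simp only [Lev.neg_lv]
      linarith
  · rcases hi.lt_or_eq with hi' | rfl
    · refine Or.inl ⟨fun i' hi'' => ?_, i, hi, h1⟩
      have := h3 i hi' i' hi''
      linarith
    · linarith

/-- The conditions on the past. -/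
def Past (ℓ : Lev W) (c : Cut W.l) (w : ℝ) (I₀ I Kw s : ℕ) (b : ℕ → T) (e : ℕ → W.D)
    (n₀ : ℕ) : Prop :=
  First (ℓ.Rng w) e n₀ ∧ c.t I₀ < n₀ ∧ n₀ ≤ c.t I ∧
    (∃ y : ℕ → W.D, (∀ i < n₀, y i = e i) ∧ (W.la y, b) ∈ c.C I) ∧
    sh (c.t I) b ∈ W.l.WaitEv (c.r I) Kw (s - c.t I)

/-- The conditions on the record and on the future. -/
def Fut (ℓ : Lev W) (w z : ℝ) (t' : ℕ) (ρ : ℤ) (e : ℕ → W.D) (n₀ : ℕ) : Prop :=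
  (ℓ.Rec e n₀ ∧ (∃ i ≤ n₀, w ≤ ℓ.lv e n₀ - ℓ.lv e i) ∧ sh n₀ e ∈ ℓ.Run z t' ρ) ∨
    (ℓ.neg.Rec e n₀ ∧ (∃ i ≤ n₀, w ≤ ℓ.lv e i - ℓ.lv e n₀) ∧ sh n₀ e ∈ ℓ.neg.Run z t' ρ)

lemma mem_JEv (ℓ : Lev W) (c : Cut W.l) (w z : ℝ) (I₀ I t' Kw s : ℕ)
    (x : (ℕ → W.D) × (ℕ → T)) :
    x ∈ JEv W ℓ c w z I₀ I t' Kw s ↔
      ∃ n₀, Past ℓ c w I₀ I Kw s x.2 x.1 n₀ ∧ Fut ℓ w z t' (c.r I₀) x.1 n₀ := by
  constructor
  · rintro ⟨n₀, h1, h2, h3, h4, h5, h6⟩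
    exact ⟨n₀, ⟨h1, h2, h3, h4, h5⟩, h6⟩
  · rintro ⟨n₀, ⟨h1, h2, h3, h4, h5⟩, h6⟩
    exact ⟨n₀, h1, h2, h3, h4, h5, h6⟩

lemma past_congr {ℓ : Lev W} {c : Cut W.l} {w : ℝ} {I₀ I Kw s : ℕ} {b b' : ℕ → T}
    {e e' : ℕ → W.D} {n₀ : ℕ} (he : ∀ i < n₀, e' i = e i) (hb : ∀ i < c.t I + s, b' i = b i)
    (h : Past ℓ c w I₀ I Kw s b e n₀) : Past ℓ c w I₀ I Kw s b' e' n₀ := by
  obtain ⟨h1, h2, h3, ⟨y, h4, h5⟩, h6⟩ := h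
  refine ⟨adapt_First (ℓ.adapt_Rng w) e e' n₀ he h1, h2, h3,
    ⟨y, fun i hi => (h4 i hi).trans (he i hi).symm, ?_⟩, ?_⟩
  · exact c.C_det I (W.la y, b) (W.la y, b') (fun _ _ => rfl) (fun i hi => hb i (by omega)) h5
  · exact wait_det W.l _ _ _ _ _ (fun i hi => hb (c.t I + i) (by omega)) h6

lemma fut_stable {ℓ : Lev W} {w z : ℝ} {t' : ℕ} {ρ : ℤ} {e : ℕ → W.D} {n₀ : ℕ}
    (h : Fut ℓ w z t' ρ e n₀) :
    ∃ k, ∀ e' : ℕ → W.D, (∀ i < n₀ + k, e' i = e i) → Fut ℓ w z t' ρ e' n₀ := by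
  rcases h with ⟨h1, ⟨i, hi, h2⟩, h3⟩ | ⟨h1, ⟨i, hi, h2⟩, h3⟩
  · obtain ⟨k, h4, -⟩ := run_stable ℓ h3
    refine ⟨k, fun e' he' => Or.inl ⟨rec_congr ℓ (fun i hi => he' i (by omega)) h1,
      ⟨i, hi, ?_⟩, h4 fun j hj => he' (n₀ + j) (by omega)⟩⟩
    rwa [ℓ.lv_congr he' (show n₀ ≤ n₀ + k by omega), ℓ.lv_congr he' (show i ≤ n₀ + k by omega)]
  · obtain ⟨k, h4, -⟩ := run_stable ℓ.neg h3
    refine ⟨k, fun e' he' => Or.inr ⟨rec_congr ℓ.neg (fun i hi => he' i (by omega)) h1,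
      ⟨i, hi, ?_⟩, h4 fun j hj => he' (n₀ + j) (by omega)⟩⟩
    rwa [ℓ.lv_congr he' (show n₀ ≤ n₀ + k by omega), ℓ.lv_congr he' (show i ≤ n₀ + k by omega)]

/-- The event without the conditions on the future. -/
def DEv (ℓ : Lev W) (c : Cut W.l) (w : ℝ) (I₀ I Kw s : ℕ) : Set ((ℕ → W.D) × (ℕ → T)) :=
  {x | ∃ n₀, Past ℓ c w I₀ I Kw s x.2 x.1 n₀}

lemma meas_DEv (ℓ : Lev W) (c : Cut W.l) (w : ℝ) (I₀ I Kw s : ℕ) :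
    MeasurableSet (DEv ℓ c w I₀ I Kw s) := by
  refine measurableSet_of_stable (s := c.t I + s) ?_
  rintro x ⟨n₀, h⟩
  exact ⟨n₀, fun y h1 h2 => ⟨n₀, past_congr h1 h2 h⟩⟩

lemma meas_JEv (ℓ : Lev W) (c : Cut W.l) (w z : ℝ) (I₀ I t' Kw s : ℕ) :
    MeasurableSet (JEv W ℓ c w z I₀ I t' Kw s) := by
  refine measurableSet_of_stable (s := c.t I + s) fun x hx => ?_
  obtain ⟨n₀, h, h'⟩ := (mem_JEv ℓ c w z I₀ I t' Kw s x).1 hx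
  obtain ⟨k, hk⟩ := fut_stable h'
  exact ⟨n₀ + k, fun y h1 h2 => (mem_JEv ℓ c w z I₀ I t' Kw s y).2
    ⟨n₀, past_congr (fun i hi => h1 i (by omega)) h2 h, hk y.1 h1⟩⟩

lemma step1 (hF : FreshStmt) (hS : StopStmt) (hU : FubStmt) (ℓ : Lev W) (c : Cut W.l) {w : ℝ}
    (z : ℝ) (I₀ I t' Kw s : ℕ) (hw : 0 < w)
    (h1 : ℓ.β / 4 ≤ W.S.real (ℓ.Run z t' (c.r I₀)))
    (h2 : ℓ.β / 4 ≤ W.S.real (ℓ.neg.Run z t' (c.r I₀))) :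
    ℓ.β / 4 * W.M.real (DEv ℓ c w I₀ I Kw s) ≤ W.M.real (JEv W ℓ c w z I₀ I t' Kw s) := by
  have key := hU _ _ W.S (IID W.m) _ _ (meas_JEv ℓ c w z I₀ I t' Kw s)
    (meas_DEv ℓ c w I₀ I Kw s) 1 (ℓ.β / 4) ?_
  · rw [one_mul] at key
    exact key
  intro b
  have hB : MeasurableSet {e | (e, b) ∈ JEv W ℓ c w z I₀ I t' Kw s} :=
    measurable_prodMk_right (meas_JEv ℓ c w z I₀ I t' Kw s)
  have had : Adapt (Past ℓ c w I₀ I Kw s b) := fun e e' n he h =>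
    past_congr he (fun _ _ => rfl) h
  have key := hS W.D W.S W.S (Past ℓ c w I₀ I Kw s b) had _ Set.univ hB MeasurableSet.univ 1
    (ℓ.β / 4) ?_
  · rw [Set.inter_univ] at key
    refine le_trans key ?_
    rw [one_mul, one_mul]
    exact measureReal_mono Set.inter_subset_right
  intro e n hn
  rw [Set.inter_univ, one_mul]
  have h0 : 0 ≤ W.S.real (Cy e n) := measureReal_nonneg
  rcases first_cases ℓ hw hn.1.1 with ⟨h3, i, hi, h4⟩ | ⟨h3, i, hi, h4⟩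
  · calc ℓ.β / 4 * W.S.real (Cy e n) ≤ W.S.real (ℓ.Run z t' (c.r I₀)) * W.S.real (Cy e n) :=
          mul_le_mul_of_nonneg_right h1 h0
      _ = W.S.real (Cy e n ∩ sh n ⁻¹' ℓ.Run z t' (c.r I₀)) := by
          rw [run_fresh hF ℓ z t' _ h3, mul_comm]
      _ ≤ _ := by
          refine measureReal_mono fun e' he' => ⟨he'.1, ?_⟩
          refine (mem_JEv ℓ c w z I₀ I t' Kw s (e', b)).2 ⟨n, had e e' n he'.1 hn.1, ?_⟩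
          refine Or.inl ⟨rec_congr ℓ he'.1 h3, ⟨i, hi, ?_⟩, he'.2⟩
          rwa [ℓ.lv_congr he'.1 le_rfl, ℓ.lv_congr he'.1 hi]
  · calc ℓ.β / 4 * W.S.real (Cy e n)
          ≤ W.S.real (ℓ.neg.Run z t' (c.r I₀)) * W.S.real (Cy e n) :=
          mul_le_mul_of_nonneg_right h2 h0
      _ = W.S.real (Cy e n ∩ sh n ⁻¹' ℓ.neg.Run z t' (c.r I₀)) := by
          rw [run_fresh hF ℓ.neg z t' _ h3, mul_comm]
      _ ≤ _ := by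
          refine measureReal_mono fun e' he' => ⟨he'.1, ?_⟩
          refine (mem_JEv ℓ c w z I₀ I t' Kw s (e', b)).2 ⟨n, had e e' n he'.1 hn.1, ?_⟩
          refine Or.inr ⟨rec_congr ℓ.neg he'.1 h3, ⟨i, hi, ?_⟩, he'.2⟩
          rwa [ℓ.lv_congr he'.1 le_rfl, ℓ.lv_congr he'.1 hi]

lemma det_lift (c : Cut W.l) (J : ℕ) : Det2 (c.t J) (c.t J) (W.lift (c.C J)) := by
  intro x y h1 h2 hx
  exact c.C_det J (W.la x.1, x.2) (W.la y.1, y.2)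
    (fun i hi => by simp only [Model.la, h1 i hi]) h2 hx

lemma th_iff (ℓ : Lev W) (w : ℝ) {t n : ℕ} (ht : t ≤ n) {x y : (ℕ → W.D) × (ℕ → T)}
    (h : ∀ i < n, y.1 i = x.1 i) : y ∈ ℓ.Th w t ↔ x ∈ ℓ.Th w t :=
  ⟨ℓ.adapt_Rng w y.1 x.1 t fun i hi => (h i (by omega)).symm,
    ℓ.adapt_Rng w x.1 y.1 t fun i hi => h i (by omega)⟩

lemma step3 (hI : IndepStmt) (hQ : QStmt) (ℓ : Lev W) (c : Cut W.l) (w : ℝ) {I₀ I : ℕ}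
    (hII : I₀ ≤ I) (h : W.M.real (W.lift (c.C I₀) ∩ ℓ.Th w (c.t I₀)) ≤ 1 / 2 * c.q I₀) :
    W.M.real (W.lift (c.C I) ∩ ℓ.Th w (c.t I₀)) ≤ 1 / 2 * c.q I := by
  induction I, hII using Nat.le_induction with
  | base => exact h
  | succ J hJ ih =>
    have hd : Det2 (c.t J) (c.t J) (W.lift (c.C J) ∩ ℓ.Th w (c.t I₀)) := fun x y h1 h2 hx =>
      ⟨det_lift c J x y h1 h2 hx.1, (th_iff ℓ w (c.t_mono hJ) h1).2 hx.2⟩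
    have e1 : W.lift (c.C (J + 1)) ∩ ℓ.Th w (c.t I₀) = (W.lift (c.C J) ∩ ℓ.Th w (c.t I₀)) ∩
        {x | (sh (c.t J) (W.la x.1), sh (c.t J) x.2) ∈ c.G J} := by
      rw [c.C_succ]
      ext x
      exact ⟨fun hx => ⟨⟨hx.1.1, hx.2⟩, hx.1.2⟩, fun hx => ⟨⟨hx.1.1, hx.2⟩, hx.1.2⟩⟩
    rw [e1, hI W (c.t J) _ _ hd (c.det J).measurableSet, (hQ W.m W.l c J).1, ← mul_assoc]
    exact mul_le_mul_of_nonneg_right ih measureReal_nonneg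

lemma step2 (hI : IndepStmt) (ℓ : Lev W) (c : Cut W.l) (w : ℝ) {I₀ I : ℕ} (Kw s : ℕ)
    (hII : I₀ ≤ I) :
    (W.M.real (W.lift (c.C I) ∩ ℓ.Th w (c.t I)) - W.M.real (W.lift (c.C I) ∩ ℓ.Th w (c.t I₀))) *
      (IID W.m).real (W.l.WaitEv (c.r I) Kw (s - c.t I)) ≤ W.M.real (DEv ℓ c w I₀ I Kw s) := by
  have hd : Det2 (c.t I) (c.t I) ((W.lift (c.C I) ∩ ℓ.Th w (c.t I)) \ ℓ.Th w (c.t I₀)) :=
    fun x y h1 h2 hx => ⟨⟨det_lift c I x y h1 h2 hx.1.1, (th_iff ℓ w le_rfl h1).2 hx.1.2⟩,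
      fun h3 => hx.2 ((th_iff ℓ w (c.t_mono hII) h1).1 h3)⟩
  have hm : MeasurableSet ((Set.univ : Set (ℕ → T)) ×ˢ W.l.WaitEv (c.r I) Kw (s - c.t I)) :=
    MeasurableSet.univ.prod (wait_det W.l _ _ _).measurableSet
  have e1 := hI W (c.t I) _ _ hd hm
  have e2 : (IID2 W.m).real ((Set.univ : Set (ℕ → T)) ×ˢ W.l.WaitEv (c.r I) Kw (s - c.t I)) =
      (IID W.m).real (W.l.WaitEv (c.r I) Kw (s - c.t I)) := by
    rw [IID2, measureReal_prod_prod, probReal_univ, one_mul]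
  have e3 : W.M.real (W.lift (c.C I) ∩ ℓ.Th w (c.t I)) ≤
      W.M.real ((W.lift (c.C I) ∩ ℓ.Th w (c.t I)) \ ℓ.Th w (c.t I₀)) +
        W.M.real (W.lift (c.C I) ∩ ℓ.Th w (c.t I₀)) := by
    refine le_trans (measureReal_mono fun x hx => ?_) (measureReal_union_le _ _)
    by_cases h : x ∈ ℓ.Th w (c.t I₀)
    · exact Or.inr ⟨hx.1, h⟩
    · exact Or.inl ⟨hx, h⟩
  refine le_trans (mul_le_mul_of_nonneg_right (sub_le_iff_le_add.2 e3) measureReal_nonneg) ?_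
  rw [← e2, ← e1]
  refine measureReal_mono fun x hx => ?_
  obtain ⟨⟨⟨h1, h2⟩, h3⟩, -, h4⟩ := hx
  obtain ⟨n₀, hn₀, h5⟩ := exists_first (Q := ℓ.Rng w) (a := x.1) (n := c.t I) h2
  refine ⟨n₀, h5, ?_, hn₀, ⟨x.1, fun _ _ => rfl, h1⟩, h4⟩
  by_contra h6
  exact h3 (Lev.Rng.mono ℓ h5.1 (not_lt.1 h6))

end JProbAux

theorem jProb_thm (hF : FreshStmt) (hS : StopStmt) (hU : FubStmt) (hI : IndepStmt) (hQ : QStmt) :
    JProbStmt := by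
  intro W ℓ c w z I₀ I t' Kw s cw hw hII hcw h1 h2 h3 h4 h5
  have e1 := JProbAux.step1 hF hS hU ℓ c z I₀ I t' Kw s hw h4 h5
  have e2 := JProbAux.step2 hI ℓ c w Kw s hII
  have e3 := JProbAux.step3 hI hQ ℓ c w hII h2
  have hq := (hQ W.m W.l c I).2.1
  have hβ := ℓ.hβ
  have e4 : 3 / 8 * c.q I * cw ≤ W.M.real (JProbAux.DEv ℓ c w I₀ I Kw s) := by
    refine le_trans ?_ e2
    exact mul_le_mul (by linarith) h1 hcw (by linarith)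
  calc ℓ.β / 4 * cw * (3 / 8 * c.q I) = ℓ.β / 4 * (3 / 8 * c.q I * cw) := by ring
    _ ≤ ℓ.β / 4 * W.M.real (JProbAux.DEv ℓ c w I₀ I Kw s) :=
        mul_le_mul_of_nonneg_left e4 (by linarith)
    _ ≤ _ := e1

end Pool.Agent.MP_db8016_pr.HD
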