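import Pool.Agent.MP_db8016_pr.HD.Stmts

namespace Pool.Agent.MP_db8016_pr.HD
open MeasureTheory ProbabilityTheory Filter Finset

namespace KeyAux

lemma r_add {m : Measure T} {l : Lat m} (c : Cut l) {I : ℕ} (hI : 1 ≤ I) (k : ℕ) :
    c.r (I + k) = c.μ ^ k * c.r I := by
  induction k with
  | zero => simp
  | succ k ih => rw [← add_assoc, c.r_succ _ (by omega), ih]; ring

lemma t_le {m : Measure T} {l : Lat m} (c : Cut l) {I : ℕ} (hI : 1 ≤ I) (Lb : ℕ) :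
    c.t (I + 1 + Lb) ≤ 2 ^ (c.A + 2 * c.μ * (Lb + 1)) * c.r I ^ 2 := by
  rw [c.t_eq _ (by omega), show I + 1 + Lb = I + (Lb + 1) by ring, r_add c hI]
  have h1 : c.A ≤ 2 ^ c.A := (Nat.lt_two_pow_self).le
  have h2 : c.μ ≤ 2 ^ c.μ := (Nat.lt_two_pow_self).le
  have h3 : (c.μ ^ (Lb + 1)) ^ 2 ≤ ((2 ^ c.μ) ^ (Lb + 1)) ^ 2 := by gcongr
  calc c.A * (c.μ ^ (Lb + 1) * c.r I) ^ 2 = c.A * (c.μ ^ (Lb + 1)) ^ 2 * c.r I ^ 2 := by ring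
    _ ≤ 2 ^ c.A * ((2 ^ c.μ) ^ (Lb + 1)) ^ 2 * c.r I ^ 2 := by gcongr
    _ = 2 ^ (c.A + 2 * c.μ * (Lb + 1)) * c.r I ^ 2 := by
      rw [← pow_mul, ← pow_mul, ← pow_add]; congr 2; ring

lemma det_ext {m : Measure T} (l : Lat m) (r K : ℤ) (n : ℕ) : Det n (l.ExtEv r K n) := by
  intro a a' h ha k hk
  rw [l.U_congr h hk, l.Y_congr h hk]
  exact ha k hk

lemma det_wait {m : Measure T} (l : Lat m) (r K : ℤ) (n : ℕ) : Det n (l.WaitEv r K n) := by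
  intro a a' h ha k hk
  rw [l.U_congr h hk, l.Y_congr h hk]
  exact ha k hk

lemma det_pos {W : Model} (ℓ : Lev W) (n : ℕ) : Det n (ℓ.Pos n) := by
  intro a a' h ha k hk
  rw [ℓ.lv_congr h hk]
  exact ha k hk

lemma det_rise {W : Model} (ℓ : Lev W) (x : ℝ) (n : ℕ) : Det n (ℓ.Rise x n) := by
  rintro a a' h ⟨i, j, hij, hj, hx⟩
  exact ⟨i, j, hij, hj, by rwa [ℓ.lv_congr h hj, ℓ.lv_congr h (hij.trans hj)]⟩

lemma det_late {W : Model} (ℓ : Lev W) (x : ℝ) (t n : ℕ) :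
    Det (t + n) {e | ∀ σ ≤ t, sh σ e ∈ ℓ.Rise x n} := by
  intro a a' h ha σ hσ
  exact det_rise ℓ x n _ _ (fun i hi => h (σ + i) (by omega)) (ha σ hσ)

lemma beta_le_pos {W : Model} (ℓ : Lev W) (n : ℕ) : ℓ.β ≤ W.S.real (ℓ.Pos n) :=
  ℓ.up.trans (measureReal_mono fun _ he k _ => he k)

lemma lift_C (hI : IndepStmt) (W : Model) (c : Cut W.l) (I : ℕ) :
    W.M.real (W.lift (c.C I)) = c.q I := by
  have h := hI W 0 Set.univ (c.C I) (fun _ _ _ _ _ => trivial) (c.C_det I).measurableSet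
  simpa [Model.lift, Cut.q] using h

lemma zprob (hI : IndepStmt) (W : Model) (c : Cut W.l) (I Kw K₂ n s : ℕ) :
    W.M.real (W.lift (ZEv c I Kw K₂ n s)) = c.q I *
      ((IID W.m).real (W.l.ExtEv (c.r I) K₂ (n - c.t I)) *
        (IID W.m).real (W.l.WaitEv (c.r I) Kw (s - c.t I))) := by
  have hd : Det2 (c.t I) (c.t I) (W.lift (c.C I)) := fun x y h1 h2 hx =>
    c.C_det I (W.la x.1, x.2) (W.la y.1, y.2)
      (fun i hi => by simp only [Model.la]; rw [h1 i hi]) h2 hx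
  have h := hI W (c.t I) (W.lift (c.C I))
    (W.l.ExtEv (c.r I) K₂ (n - c.t I) ×ˢ W.l.WaitEv (c.r I) Kw (s - c.t I)) hd
    ((det_ext _ _ _ _).measurableSet.prod (det_wait _ _ _ _).measurableSet)
  rw [lift_C hI, IID2, measureReal_prod_prod] at h
  rw [← h]
  rfl

lemma meas_At {m : Measure T} {l : Lat m} (c : Cut l) (I s : ℕ) : MeasurableSet (c.At I s) :=
  ((measurable_sh s).prodMk (measurable_rev s)) (c.C_det I).measurableSet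

lemma shift_le (hA : AutoStmt) (hS : StopStmt) (W : Model) (m₀ : ℕ) (B : Set (ℕ → T))
    (hB : MeasurableSet B) : W.S.real (sh m₀ ⁻¹' (W.la ⁻¹' B)) ≤ (IID W.m).real B := by
  have h := hS W.D W.S W.S (fun _ i => i = m₀) (fun _ _ _ _ h => h) Set.univ
    (sh m₀ ⁻¹' (W.la ⁻¹' B)) MeasurableSet.univ (measurable_sh m₀ (W.measurable_la hB))
    ((IID W.m).real B) 1 (by
      rintro e n ⟨rfl, -⟩
      have := hA W e n B hB
      rw [Model.cS] at this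
      rw [this, Set.inter_univ, one_mul, mul_comm])
  simpa using h

lemma final_alg {β z P q C₀ ε₁ ε₂ E₁ E₂ Q : ℝ} (hβ : 0 < β) (hβ1 : β ≤ 1) (hz : 0 < z)
    (hP : 0 < P) (hq : 0 < q) (hE₁ : 0 ≤ E₁)
    (ha : P * (β * (q * z)) ≤ Q + E₁) (hb : β * Q ≤ E₂)
    (h1 : E₁ ^ 2 ≤ C₀ * (P * q) ^ 2 * ε₁) (h2 : E₂ ^ 2 ≤ C₀ * (P * q) ^ 2 * ε₂) :
    (β ^ 2 * z) ^ 2 ≤ 2 * C₀ * (ε₁ + ε₂) := by
  have h3 : (β ^ 2 * z) * (P * q) ≤ E₁ + E₂ := by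
    have := mul_le_mul_of_nonneg_left ha hβ.le
    nlinarith [mul_le_mul_of_nonneg_right hβ1 hE₁]
  have h4 : 0 ≤ (β ^ 2 * z) * (P * q) := by positivity
  have h5 : ((β ^ 2 * z) * (P * q)) ^ 2 ≤ (E₁ + E₂) ^ 2 := pow_le_pow_left₀ h4 h3 2
  have h6 : (β ^ 2 * z) ^ 2 * (P * q) ^ 2 ≤ 2 * C₀ * (ε₁ + ε₂) * (P * q) ^ 2 := by
    nlinarith [sq_nonneg (E₁ - E₂)]
  exact le_of_mul_le_mul_right h6 (by positivity)

end KeyAux

open KeyAux in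
theorem key_thm (hZ : ZTransStmt) (hC : CSStmt) (h2 : SecondStmt) (hA : AutoStmt)
    (hS : StopStmt) (hI : IndepStmt) (hE : ExtStmt) (hW : WaitStmt) (hQ : QStmt) : KeyStmt := by
  intro W ℓ c
  obtain ⟨cw, Kw, hcw, -, hWt⟩ := hW W.m W.l c.A
  obtain ⟨K₂, hK₂⟩ : ∃ K₂ : ℕ, K₂ = 2 * c.K + Kw + 1 := ⟨_, rfl⟩
  obtain ⟨ce, hce, hEx⟩ := hE W.m W.l (K₂ : ℤ) (by omega)
  obtain ⟨C₀, hC₀, hSec⟩ := h2 W.m W.l c
  have hβ := ℓ.hβ
  refine ⟨2 * C₀ * ((c.A : ℝ) + 1 + 2 * c.μ) ^ 2 / (ℓ.β ^ 2 * (ce * cw)) ^ 2, by positivity, ?_⟩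
  intro Lb I m₀ x ε₁ ε₂ hI1 hm h₁ h₂
  obtain ⟨n, hn⟩ : ∃ n, n = c.t (I + 1 + Lb) := ⟨_, rfl⟩
  obtain ⟨j, hj⟩ : ∃ j, j = c.A + 2 * c.μ * (Lb + 1) := ⟨_, rfl⟩
  rw [← hn] at h₁ h₂
  have hr : (0 : ℤ) < c.r I := by exact_mod_cast c.one_le_r hI1
  have ht1 : c.t (I + 1) ≤ n := hn ▸ c.t_mono (by omega)
  have ht9 := c.nine_t_le I
  have hrt := c.r_le_t hI1
  have htI := c.one_le_t hI1
  have hq := (hQ W.m W.l c I).2.1
  -- the lower bound for the lateral event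
  have hz : ∀ s ∈ Ico (c.t I) (2 * c.t I),
      c.q I * (ce / (j + 1) * cw) ≤ W.M.real (W.lift (ZEv c I Kw K₂ n s)) := by
    intro s hs
    rw [mem_Ico] at hs
    rw [zprob hI]
    refine mul_le_mul_of_nonneg_left (mul_le_mul ?_ ?_ hcw.le measureReal_nonneg) hq.le
    · refine hEx _ hr j _ ?_
      have h := t_le c hI1 Lb
      rw [← hn, ← hj] at h
      have h' : n - c.t I ≤ 2 ^ j * c.r I ^ 2 := le_trans (Nat.sub_le _ _) h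
      exact_mod_cast h'
    · refine hWt _ hr _ ?_
      have h' : s - c.t I ≤ c.A * c.r I ^ 2 := by rw [← c.t_eq I hI1]; omega
      exact_mod_cast h'
  let Z : ℕ → Set (ℕ → W.D) → Set (ℕ → W.D) := fun s B =>
    sh m₀ ⁻¹' W.At (W.lift (ZEv c I Kw K₂ n s) ∩ {x | x.1 ∈ B}) s
  let Q : ℕ → ℝ := fun s => W.M.real (W.lift (ZEv c I Kw K₂ n s) ∩ {y | y.1 ∈ ℓ.Rise x n})
  let N : ℕ → Set (ℕ → W.D) := fun s => sh m₀ ⁻¹' (W.la ⁻¹' c.At I s)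
  have hN : ∀ s, MeasurableSet (N s) := fun s => measurable_sh m₀ (W.measurable_la (meas_At c I s))
  have hZN : ∀ s B, Z s B ⊆ N s := fun s B e he => he.1.1
  have hZ' : ∀ s ∈ Ico (c.t I) (2 * c.t I), ∀ B, Det n B → ∀ A, Det m₀ A →
      W.S.real (A ∩ Z s B) =
        W.S.real A * W.M.real (W.lift (ZEv c I Kw K₂ n s) ∩ {y | y.1 ∈ B}) :=
    fun s hs B hB A hA' => hZ W c I Kw K₂ n s m₀ B hI1 hK₂.ge (by omega) (mem_Ico.1 hs).1 hm hB A hA'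
  have hNN : ∑ s ∈ Ico (c.t I) (2 * c.t I), ∑ s' ∈ Ico (c.t I) (2 * c.t I),
      W.S.real (N s ∩ N s') ≤ C₀ * ((c.t I : ℝ) * c.q I) ^ 2 := by
    refine le_trans (sum_le_sum fun s _ => sum_le_sum fun s' _ => ?_) (hSec I I le_rfl hI1)
    exact shift_le hA hS W m₀ (c.At I s ∩ c.At I s') ((meas_At c I s).inter (meas_At c I s'))
  have hCS : ∀ (B : Set (ℕ → W.D)) (ε : ℝ), MeasurableSet B → W.S.real B ≤ ε →
      (∑ s ∈ Ico (c.t I) (2 * c.t I), W.S.real (N s ∩ B)) ^ 2 ≤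
        C₀ * ((c.t I : ℝ) * c.q I) ^ 2 * ε := fun B ε hB hε =>
    (hC _ _ W.S _ N B hN hB).trans (mul_le_mul hNN hε measureReal_nonneg (by positivity))
  have e₁ := hCS _ _ ((det_pos ℓ m₀).measurableSet.diff (det_late ℓ x _ n).measurableSet) h₁
  have e₂ := hCS _ _ ((det_pos ℓ.neg m₀).measurableSet.inter (det_rise ℓ x _).measurableSet) h₂
  have ha : ∀ s ∈ Ico (c.t I) (2 * c.t I), ℓ.β * (c.q I * (ce / (j + 1) * cw)) ≤
      Q s + W.S.real (N s ∩ (ℓ.Pos m₀ \ {e | ∀ σ ≤ c.t (I + 1), sh σ e ∈ ℓ.Rise x n})) := by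
    intro s hs
    have k1 := hZ' s hs Set.univ (fun _ _ _ _ => trivial) _ (det_pos ℓ m₀)
    have k2 := hZ' s hs _ (det_rise ℓ x n) _ (det_pos ℓ m₀)
    have k3 : W.S.real (ℓ.Pos m₀ ∩ Z s (ℓ.Rise x n)) ≤ Q s := by
      rw [k2]
      exact mul_le_of_le_one_left measureReal_nonneg measureReal_le_one
    have k4 : ℓ.β * (c.q I * (ce / (j + 1) * cw)) ≤ W.S.real (ℓ.Pos m₀ ∩ Z s Set.univ) := by
      rw [k1]
      refine mul_le_mul (beta_le_pos ℓ m₀) ?_ (by positivity) measureReal_nonneg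
      simpa using hz s hs
    refine k4.trans (le_trans (measureReal_mono (?_ : _ ⊆ (ℓ.Pos m₀ ∩ Z s (ℓ.Rise x n)) ∪
      (N s ∩ (ℓ.Pos m₀ \ {e | ∀ σ ≤ c.t (I + 1), sh σ e ∈ ℓ.Rise x n}))))
      ((measureReal_union_le _ _).trans (add_le_add k3 le_rfl)))
    rintro e ⟨he, hz'⟩
    by_cases hl : ∀ σ ≤ c.t (I + 1), sh σ e ∈ ℓ.Rise x n
    · refine Or.inl ⟨he, hz'.1, ?_⟩
      have := hl (m₀ + s) (by have := (mem_Ico.1 hs).2; omega)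
      rwa [← sh_sh] at this
    · exact Or.inr ⟨hZN _ _ hz', he, hl⟩
  have hb : ∀ s ∈ Ico (c.t I) (2 * c.t I),
      ℓ.β * Q s ≤ W.S.real (N s ∩ (ℓ.neg.Pos m₀ ∩ ℓ.Rise x (2 * n))) := by
    intro s hs
    have k2 := hZ' s hs _ (det_rise ℓ x n) _ (det_pos ℓ.neg m₀)
    have k3 : ℓ.β * Q s ≤ W.S.real (ℓ.neg.Pos m₀ ∩ Z s (ℓ.Rise x n)) := by
      rw [k2]
      exact mul_le_mul_of_nonneg_right (beta_le_pos ℓ.neg m₀) measureReal_nonneg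
    refine k3.trans (measureReal_mono ?_)
    rintro e ⟨he, hz'⟩
    refine ⟨hZN _ _ hz', he, ?_⟩
    obtain ⟨i, k, hik, hk, hx⟩ : sh s (sh m₀ e) ∈ ℓ.Rise x n := hz'.2
    rw [sh_sh] at hx
    refine ⟨m₀ + s + i, m₀ + s + k, by omega, by have := (mem_Ico.1 hs).2; omega, ?_⟩
    rw [ℓ.lv_add e (m₀ + s) i, ℓ.lv_add e (m₀ + s) k]
    linarith
  have sa := sum_le_sum ha
  have sb := sum_le_sum hb
  rw [sum_const, Nat.card_Ico, show 2 * c.t I - c.t I = c.t I by omega, nsmul_eq_mul,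
    sum_add_distrib] at sa
  rw [← mul_sum] at sb
  have hf := final_alg hβ ℓ.β_le_one (by positivity : 0 < ce / (j + 1) * cw)
    (by exact_mod_cast htI : (0 : ℝ) < c.t I) hq
    (sum_nonneg fun _ _ => measureReal_nonneg) sa sb e₁ e₂
  have hε : 0 ≤ ε₁ + ε₂ := add_nonneg (measureReal_nonneg.trans h₁) (measureReal_nonneg.trans h₂)
  have hj1 : (j : ℝ) + 1 ≤ ((c.A : ℝ) + 1 + 2 * c.μ) * ((Lb : ℝ) + 1) := by
    rw [hj]
    push_cast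
    have : (0 : ℝ) ≤ Lb := by positivity
    have : (0 : ℝ) ≤ c.A := by positivity
    nlinarith
  have hj0 : (0 : ℝ) < j + 1 := by positivity
  have hf' : (ℓ.β ^ 2 * (ce * cw)) ^ 2 ≤ 2 * C₀ * (ε₁ + ε₂) * ((j : ℝ) + 1) ^ 2 := by
    have : (ℓ.β ^ 2 * (ce * cw)) ^ 2 = (ℓ.β ^ 2 * (ce / (j + 1) * cw)) ^ 2 * ((j : ℝ) + 1) ^ 2 := by
      field_simp
    rw [this]
    exact mul_le_mul_of_nonneg_right hf (by positivity)
  have hf'' : (ℓ.β ^ 2 * (ce * cw)) ^ 2 ≤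
      2 * C₀ * (ε₁ + ε₂) * (((c.A : ℝ) + 1 + 2 * c.μ) * ((Lb : ℝ) + 1)) ^ 2 :=
    hf'.trans (mul_le_mul_of_nonneg_left (pow_le_pow_left₀ hj0.le hj1 2) (by positivity))
  rw [div_mul_eq_mul_div, div_mul_eq_mul_div, le_div_iff₀ (by positivity)]
  linarith

end Pool.Agent.MP_db8016_pr.HD
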