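import Pool.Agent.MP_db8016_pr.HD.Stmts

/-! From the cookie environment with a planar projection to the abstract model. -/

namespace Pool.Agent.MP_db8016_pr.HD
open MeasureTheory ProbabilityTheory Filter Finset

namespace MainGAux

/-- The five lateral steps. -/
def st5 : T → ℤ × ℤ := ![(1, 0), (-1, 0), (0, 1), (0, -1), (0, 0)]

/-- The symbol of a lateral step. -/
def sym (y : ℤ × ℤ) : T :=
  if y = (1, 0) then 0 else if y = (-1, 0) then 1 else if y = (0, 1) then 2 else
    if y = (0, -1) then 3 else 4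

lemma sym_st5 (t : T) : sym (st5 t) = t := by fin_cases t <;> decide

/-- The weights of the symbols. -/
def w5 (p q : ℝ) : T → ℝ := ![p, p, q, q, 1 - 2 * p - 2 * q]

/-- The law of a symbol. -/
noncomputable def m5 (p q : ℝ) : Measure T :=
  ∑ t : T, ENNReal.ofReal (w5 p q t) • Measure.dirac t

lemma m5_single (p q : ℝ) (t : T) : m5 p q {t} = ENNReal.ofReal (w5 p q t) := by
  simp [m5, Set.indicator_apply]

lemma sum_w5 (p q : ℝ) : ∑ t, w5 p q t = 1 := by
  simp [w5, Fin.sum_univ_five]; ring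

lemma m5_prob {p q : ℝ} (h : ∀ t, 0 ≤ w5 p q t) : IsProbabilityMeasure (m5 p q) := by
  constructor
  simp only [m5, Measure.coe_finsetSum, Finset.sum_apply, Measure.smul_apply, measure_univ,
    smul_eq_mul, mul_one]
  rw [← ENNReal.ofReal_sum_of_nonneg fun t _ => h t, sum_w5, ENNReal.ofReal_one]

/-- The planar walk with these weights. -/
def lat5 {p q : ℝ} (hp : 0 < p) (hq : 0 < q) (h : ∀ t, 0 ≤ w5 p q t) : Lat (m5 p q) where
  u t := (st5 t).1
  v t := (st5 t).2
  p := p
  q := q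
  hp := hp
  hq := hq
  hst t := by fin_cases t <;> simp [st5]
  hE g := by
    simp only [Measure.real, m5_single, ENNReal.toReal_ofReal (h _)]
    simp [Fin.sum_univ_five, w5, st5]
    ring

variable {d : ℕ}

lemma pos_update (e : ℕ → Fin d × Bool) (n : ℕ) (x : Fin d × Bool) {k : ℕ} (hk : k ≤ n) :
    pos (Function.update e n x) k = pos e k :=
  sum_congr rfl fun i hi => by
    rw [Function.update_of_ne (by have := mem_range.1 hi; omega)]

lemma visits_update (e : ℕ → Fin d × Bool) (n : ℕ) (x : Fin d × Bool) {k : ℕ} (hk : k ≤ n) :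
    visits (Function.update e n x) k = visits e k := by
  unfold visits
  congr 1
  refine filter_congr fun i hi => ?_
  rw [pos_update e n x hk, pos_update e n x (by have := mem_range.1 hi; omega)]

lemma prod_update (ω : (Fin d → ℤ) → Fin d × Bool → ℕ → ℝ) (e : ℕ → Fin d × Bool) (n : ℕ)
    (x : Fin d × Bool) :
    ∏ i ∈ range (n + 1), ω (pos (Function.update e n x) i) (Function.update e n x i)
        (visits (Function.update e n x) i) =
      (∏ i ∈ range n, ω (pos e i) (e i) (visits e i)) * ω (pos e n) x (visits e n) := by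
  rw [prod_range_succ, pos_update e n x le_rfl, visits_update e n x le_rfl, Function.update_self]
  congr 1
  refine prod_congr rfl fun i hi => ?_
  have := mem_range.1 hi
  rw [pos_update e n x this.le, visits_update e n x this.le, Function.update_of_ne this.ne]

lemma Cy_update (e : ℕ → Fin d × Bool) (n : ℕ) (x : Fin d × Bool) :
    Cy e n ∩ {e' | e' n = x} = Cy (Function.update e n x) (n + 1) := by
  ext a
  simp only [Cy, Set.mem_inter_iff, Set.mem_ofPred_eq]
  constructor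
  · rintro ⟨h1, h2⟩ i hi
    rcases Nat.lt_succ_iff_lt_or_eq.1 hi with h | rfl
    · rw [Function.update_of_ne h.ne, h1 i h]
    · rw [Function.update_self, h2]
  · intro h
    refine ⟨fun i hi => ?_, by simpa using h n (by omega)⟩
    rw [h i (by omega), Function.update_of_ne hi.ne]

lemma measurable_w (e : ℕ → Fin d × Bool) (n : ℕ) :
    Measurable fun ω : (Fin d → ℤ) → Fin d × Bool → ℕ → ℝ =>
      ∏ i ∈ range n, ω (pos e i) (e i) (visits e i) :=
  Finset.measurable_prod _ fun i _ => by fun_prop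

lemma step_sum (F : Finset (Fin d × Bool)) (μ : Measure ((Fin d → ℤ) → Fin d × Bool → ℕ → ℝ))
    (h0 : ∀ᵐ ω ∂μ, ∀ z e i, 0 ≤ ω z e i) (S : Measure (ℕ → Fin d × Bool))
    (hS : ∀ e n, S (Cy e n) = wtc μ e n) (e : ℕ → Fin d × Bool) (n : ℕ) :
    S (Cy e n ∩ {e' | e' n ∈ F}) = ∫⁻ ω, ENNReal.ofReal
      ((∏ i ∈ range n, ω (pos e i) (e i) (visits e i)) * ∑ x ∈ F, ω (pos e n) x (visits e n)) ∂μ := by
  have h1 : Cy e n ∩ {e' | e' n ∈ F} = ⋃ x ∈ F, Cy (Function.update e n x) (n + 1) := by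
    ext a
    simp only [← Cy_update, Set.mem_inter_iff, Set.mem_ofPred_eq, Set.mem_iUnion]
    exact ⟨fun h => ⟨a n, h.2, h.1, rfl⟩, fun ⟨x, hx, h⟩ => ⟨h.1, h.2 ▸ hx⟩⟩
  rw [h1, measure_biUnion_finset _ fun x _ => measurableSet_Cy _ _]
  · simp only [hS, wtc]
    rw [← lintegral_finsetSum _ fun x _ => (measurable_w _ _).ennreal_ofReal]
    refine lintegral_congr_ae ?_
    filter_upwards [h0] with ω h
    rw [← ENNReal.ofReal_sum_of_nonneg fun x _ => prod_nonneg fun i _ => h _ _ _, mul_sum]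
    simp only [prod_update]
  · intro x _ y _ hxy
    refine Set.disjoint_left.2 fun a h1 h2 => hxy ?_
    simp only [← Cy_update] at h1 h2
    exact h1.2.symm.trans h2.2

end MainGAux

open MainGAux in
theorem mainG (hC : CoreStmt) (hZ : ZStmt) (hW : WtStmt) (hL : LawStmt) (d : ℕ)
    (μ : Measure ((Fin d → ℤ) → Fin d × Bool → ℕ → ℝ)) [IsProbabilityMeasure μ]
    (hind : iIndepFun (fun (z : Fin d → ℤ) (ω : (Fin d → ℤ) → Fin d × Bool → ℕ → ℝ) => ω z) μ)
    (hid : ∀ z : Fin d → ℤ,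
      IdentDistrib (fun ω : (Fin d → ℤ) → Fin d × Bool → ℕ → ℝ => ω z) (fun ω => ω 0) μ μ)
    (hsum : ∀ᵐ ω ∂μ, ∀ z i, ∑ e, ω z e i = 1)
    (κ : ℝ) (hκ : 0 < κ) (hell : ∀ᵐ ω ∂μ, ∀ z e i, κ ≤ ω z e i)
    (Y : (Fin d → ℤ) →+ ℤ × ℤ)
    (hY : ∀ e, Y (step e) ∈ ({(1, 0), (-1, 0), (0, 1), (0, -1), (0, 0)} : Set (ℤ × ℤ)))
    (p q : ℝ) (hp : 0 < p) (hq : 0 < q)
    (hpq : ∀ᵐ ω ∂μ, ∀ z i, ∑ e with Y (step e) = (1, 0), ω z e i = p ∧
      ∑ e with Y (step e) = (-1, 0), ω z e i = p ∧ ∑ e with Y (step e) = (0, 1), ω z e i = q ∧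
      ∑ e with Y (step e) = (0, -1), ω z e i = q)
    (P₀ : Measure (ℕ → Fin d → ℤ)) [IsProbabilityMeasure P₀]
    (hP₀ : ∀ e n, P₀ {X | ∀ i ≤ n, X i = pos e i} = wtc μ e n)
    (l : Fin d → ℝ) (hl : l ≠ 0) :
    P₀ {X | Tendsto (fun n => ∑ j, (X n j : ℝ) * l j) atTop atTop} = 0 ∨
    P₀ {X | Tendsto (fun n => ∑ j, (X n j : ℝ) * l j) atTop atTop} = 1 := by
  have h0 : ∀ᵐ ω ∂μ, ∀ z e i, 0 ≤ ω z e i := hell.mono fun ω h z e i => hκ.le.trans (h z e i)
  obtain ⟨j₁, hj₁⟩ : ∃ j, l j ≠ 0 := Function.ne_iff.1 hl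
  obtain ⟨S, hS1, hS, hT⟩ := hL d μ (Fin.pos j₁) hsum h0 P₀ hP₀
  obtain ⟨h3, hf⟩ := hW d μ hind hid hsum h0
  rw [hT l]
  by_contra hcon
  rw [not_or] at hcon
  obtain ⟨j₀, -, hj₀⟩ := exists_max_image univ (fun j => |l j|) ⟨j₁, mem_univ _⟩
  have hc : 0 < |l j₀| := (abs_pos.2 hj₁).trans_le (hj₀ j₁ (mem_univ _))
  let L : (Fin d → ℤ) →+ ℝ := AddMonoidHom.mk' (fun z => (∑ j, (z j : ℝ) * l j) / |l j₀|)
    fun a b => by simp [add_mul, sum_add_distrib, add_div]
  have hLs : ∀ j s, L (step (j, s)) = (if s then 1 else -1) * l j / |l j₀| := by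
    intro j s
    simp only [L, AddMonoidHom.mk'_apply, step]
    rw [sum_eq_single j (fun i _ hi => by simp [Pi.single_eq_of_ne hi]) (by simp)]
    cases s <;> simp
  have hL1 : ∀ e, |L (step e)| ≤ 1 := by
    rintro ⟨j, s⟩
    rw [hLs, abs_div, abs_abs, div_le_one hc, abs_mul]
    have := hj₀ j (mem_univ _)
    cases s <;> simpa using this
  have hLp : ∃ e, L (step e) = 1 := by
    rcases le_total 0 (l j₀) with h | h
    · exact ⟨(j₀, true), by rw [hLs, div_eq_one_iff_eq hc.ne', abs_of_nonneg h]; simp⟩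
    · exact ⟨(j₀, false), by rw [hLs, div_eq_one_iff_eq hc.ne', abs_of_nonpos h]; simp⟩
  have hLm : ∃ e, L (step e) = -1 := by
    rcases le_total 0 (l j₀) with h | h
    · exact ⟨(j₀, false), by rw [hLs, div_eq_iff hc.ne', abs_of_nonneg h]; simp⟩
    · exact ⟨(j₀, true), by rw [hLs, div_eq_iff hc.ne', abs_of_nonpos h]; simp⟩
  have hev : {e : ℕ → Fin d × Bool | Tendsto (fun n => L (ps step e n)) atTop atTop} =
      {e | Tendsto (fun n => ∑ j, (pos e n j : ℝ) * l j) atTop atTop} := by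
    ext e
    exact tendsto_div_const_atTop_of_pos hc
  have huel : ∀ e n x, κ * S.real (Cy e n) ≤ S.real (Cy e n ∩ {e' | e' n = x}) := by
    intro e n x
    have h1 := step_sum {x} μ h0 S hS e n
    simp only [mem_singleton, sum_singleton] at h1
    have h2 : ENNReal.ofReal κ * S (Cy e n) ≤ S (Cy e n ∩ {e' | e' n = x}) := by
      rw [h1, hS, wtc, ← lintegral_const_mul' _ _ ENNReal.ofReal_ne_top]
      refine lintegral_mono_ae ?_
      filter_upwards [hell, h0] with ω h h'
      rw [← ENNReal.ofReal_mul hκ.le, mul_comm]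
      exact ENNReal.ofReal_le_ofReal
        (mul_le_mul_of_nonneg_left (h _ _ _) (prod_nonneg fun i _ => h' _ _ _))
    have := ENNReal.toReal_mono (measure_ne_top _ _) h2
    rwa [ENNReal.toReal_mul, ENNReal.toReal_ofReal hκ.le] at this
  have hfresh : ∀ e n k, (∀ i < n, ∀ j < k, ps step e i ≠ ps step e (n + j)) →
      S.real (Cy e (n + k)) = S.real (Cy e n) * S.real (Cy (sh n e) k) := by
    intro e n k h
    simp only [Measure.real, hS]
    rw [hf e n k h, ENNReal.toReal_mul]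
  obtain ⟨β, hβ, hu, hdn⟩ := hZ _ _ step S L κ hL1 hLp hLm hκ huel (fun e n k j h => by
    have h1 := h3 e n k j h
    simp only [← hS] at h1
    have := ENNReal.toReal_mono (measure_ne_top _ _) h1
    rwa [ENNReal.toReal_mul] at this) hfresh (hev ▸ hcon.1) (hev ▸ hcon.2)
  have hst : ∀ e, st5 (sym (Y (step e))) = Y (step e) := by
    intro e
    rcases hY e with h | h | h | h | h <;> rw [h] <;> decide
  have hsym : ∀ e t, sym (Y (step e)) = t ↔ Y (step e) = st5 t := fun e t =>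
    ⟨fun h => by rw [← h, hst], fun h => by rw [h, sym_st5]⟩
  have hw : ∀ᵐ ω ∂μ, ∀ z i t, ∑ e with sym (Y (step e)) = t, ω z e i = w5 p q t := by
    filter_upwards [hsum, hpq] with ω h1 h2 z i t
    have h4 := sum_fiberwise univ (fun e => sym (Y (step e))) fun e => ω z e i
    rw [h1, Fin.sum_univ_five] at h4
    simp only [hsym] at h4 ⊢
    obtain ⟨a0, a1, a2, a3⟩ := h2 z i
    fin_cases t
    · exact a0
    · exact a1
    · exact a2
    · exact a3
    · have b0 : ∑ e with Y (step e) = st5 0, ω z e i = p := a0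
      have b1 : ∑ e with Y (step e) = st5 1, ω z e i = p := a1
      have b2 : ∑ e with Y (step e) = st5 2, ω z e i = q := a2
      have b3 : ∑ e with Y (step e) = st5 3, ω z e i = q := a3
      rw [b0, b1, b2, b3] at h4
      change ∑ e with Y (step e) = st5 4, ω z e i = 1 - 2 * p - 2 * q
      linarith
  have hw0 : ∀ t, 0 ≤ w5 p q t := by
    obtain ⟨ω, h1, h2⟩ := (hw.and h0).exists
    intro t
    rw [← h1 0 0 t]
    exact sum_nonneg fun e _ => h2 _ _ _
  have := m5_prob hw0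
  let W : Model :=
    { D := Fin d × Bool, Pt := Fin d → ℤ, S := S, vec := step, m := m5 p q
      l := lat5 hp hq hw0, lam := fun e => sym (Y (step e)), Y := Y
      hY := fun e => (hst e).symm
      fresh := hfresh
      auto := fun e n t => by
        have h1 := step_sum (univ.filter fun e => sym (Y (step e)) = t) μ h0 S hS e n
        simp only [mem_filter, mem_univ, true_and] at h1
        simp only [Measure.real, m5_single]
        rw [h1, hS, wtc, ← ENNReal.toReal_mul, ← lintegral_const_mul' _ _ ENNReal.ofReal_ne_top]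
        congr 1
        refine lintegral_congr_ae ?_
        filter_upwards [hw] with ω h
        rw [h, ← ENNReal.ofReal_mul (hw0 t), mul_comm]
      κ := κ, hκ := hκ, uel := huel }
  obtain ⟨e₀, he₀⟩ := hLp
  exact hC W ⟨L, hL1, ⟨e₀, by rw [show W.vec e₀ = step e₀ from rfl, he₀, abs_one]⟩, β, hβ, hu, hdn⟩

end Pool.Agent.MP_db8016_pr.HD
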