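import Pool.Agent.MP_db8016_pr.HD.Stmts

/-! After a record, a long rise is rarely followed by a return below the start. -/

namespace Pool.Agent.MP_db8016_pr.HD
open MeasureTheory ProbabilityTheory Filter Finset

namespace NoRegAux

variable {W : Model} (ℓ : Lev W)

lemma meas_ex {Q : (ℕ → W.D) → ℕ → Prop} (h : Adapt Q) : MeasurableSet {a | ∃ n, Q a n} := by
  have : {a | ∃ n, Q a n} = ⋃ n, {a | Q a n} := by ext a; simp
  rw [this]
  exact MeasurableSet.iUnion h.measurableSet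

/-- Level `s` is reached without a negative level, and the level at time `j` is negative. -/
def P (s : ℝ) (a : ℕ → W.D) (j : ℕ) : Prop :=
  ℓ.lv a j < 0 ∧ ∃ i ≤ j, s ≤ ℓ.lv a i ∧ ∀ k ≤ i, 0 ≤ ℓ.lv a k

/-- Level `s` is first reached at time `m`, after a negative level. -/
def Q (s : ℝ) (a : ℕ → W.D) (m : ℕ) : Prop :=
  s ≤ ℓ.lv a m ∧ (∀ k < m, ℓ.lv a k < s) ∧ ∃ k < m, ℓ.lv a k < 0

lemma adapt_neg : Adapt fun a j => ℓ.lv a j < 0 := fun _ _ _ h h' =>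
  (ℓ.lv_congr h le_rfl).trans_lt h'

lemma adapt_P (s : ℝ) : Adapt (P ℓ s) := by
  rintro a a' j h ⟨h1, i, hi, h2, h3⟩
  exact ⟨by rwa [ℓ.lv_congr h le_rfl], i, hi, by rwa [ℓ.lv_congr h hi],
    fun k hk => by rw [ℓ.lv_congr h (hk.trans hi)]; exact h3 k hk⟩

lemma adapt_Q (s : ℝ) : Adapt (Q ℓ s) := by
  rintro a a' j h ⟨h1, h2, k, hk, h3⟩
  exact ⟨by rwa [ℓ.lv_congr h le_rfl], fun i hi => by rw [ℓ.lv_congr h hi.le]; exact h2 i hi,
    k, hk, by rwa [ℓ.lv_congr h hk.le]⟩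

lemma meas_Back (x : ℝ) : MeasurableSet (ℓ.Back x) := by
  have : ℓ.Back x = {a | ∃ j, ∃ i ≤ j, x ≤ ℓ.lv a i ∧ ℓ.lv a j < 0} := by
    ext a
    exact ⟨fun ⟨i, j, h⟩ => ⟨j, i, h⟩, fun ⟨j, i, h⟩ => ⟨i, j, h⟩⟩
  rw [this]
  refine meas_ex ?_
  rintro a a' j h ⟨i, hi, h1, h2⟩
  exact ⟨i, hi, by rwa [ℓ.lv_congr h hi], by rwa [ℓ.lv_congr h le_rfl]⟩

lemma first_neg {a : ℕ → W.D} {j : ℕ} (h : ℓ.lv a j < 0) :
    ∃ k, ℓ.lv a k < 0 ∧ ∀ i < k, 0 ≤ ℓ.lv a i := by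
  obtain ⟨k, -, h1, h2⟩ := exists_first (Q := fun a j => ℓ.lv a j < 0) h
  exact ⟨k, h1, fun i hi => not_lt.1 (h2 i hi)⟩

lemma fresh (hF : FreshStmt) {R : (ℕ → W.D) → ℕ → Prop} (hR : Adapt R)
    (h : ∀ a j, R a j → ∃ k, R a k ∧ ∀ i < k, 0 ≤ ℓ.lv a i) {e : ℕ → W.D} {n : ℕ}
    (he : ℓ.Rec e n) :
    W.cS e n {a | ∃ j, R a j} = W.S.real (Cy e n) * W.S.real {a | ∃ j, R a j} := by
  refine hF W e n _ fun a ⟨j, hj⟩ => ?_
  obtain ⟨k, h1, h2⟩ := h a j hj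
  refine ⟨k, fun a' ha' => ⟨k, hR a a' k ha' h1⟩, fun i hi j' hj' heq => ?_⟩
  have h3 : ℓ.lv e i = ℓ.lv e n + ℓ.lv a j' := by
    simp only [Lev.lv, heq, map_add]
  linarith [he i hi, h2 j' hj']

lemma neg_le : W.S.real {a | ∃ j, ℓ.lv a j < 0} ≤ 1 - ℓ.β := by
  have h := measureReal_add_measureReal_compl (μ := W.S) (meas_ex (adapt_neg ℓ))
  have e : {a | ∃ j, ℓ.lv a j < 0}ᶜ = {e | ∀ n, 0 ≤ ℓ.L (W.X e n)} := by
    ext a
    simp [Lev.lv]
  rw [e, probReal_univ] at h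
  linarith [ℓ.up]

lemma step (hF : FreshStmt) (hS : StopStmt) {y z s : ℝ} (hy : 0 ≤ y) (hz : 0 ≤ z) (hs : 0 ≤ s)
    (H : ∀ e n, ℓ.Rec e n → W.cS e n (ℓ.Back y) ≤ z * W.S.real (Cy e n))
    (e : ℕ → W.D) (n : ℕ) (he : ℓ.Rec e n) :
    W.cS e n (ℓ.Back (y + (s + 1))) ≤
      (W.S.real {a | ∃ j, P ℓ s a j} + (1 - ℓ.β) * z) * W.S.real (Cy e n) := by
  set S₁ : Measure (ℕ → W.D) := (W.S.restrict (Cy e n)).map (sh n) with hS₁
  have hc : ∀ A, MeasurableSet A → S₁.real A = W.cS e n A := by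
    intro A hA
    rw [hS₁, map_measureReal_apply (measurable_sh n) hA,
      measureReal_restrict_apply (measurable_sh n hA), Set.inter_comm]
    rfl
  have sub : ℓ.Back (y + (s + 1)) ⊆
      {a | ∃ j, P ℓ s a j} ∪ ({a | ∃ m, Q ℓ s a m} ∩ ℓ.Back (y + (s + 1))) := by
    intro a ha
    obtain ⟨i, j, hij, h1, h2⟩ := id ha
    obtain ⟨m, hm, h3, h4⟩ :=
      exists_first (Q := fun a m => s ≤ ℓ.lv a m) (a := a) (n := i) (by linarith)
    by_cases h5 : ∃ k < m, ℓ.lv a k < 0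
    · exact Or.inr ⟨⟨m, h3, fun k hk => not_le.1 (h4 k hk), h5⟩, ha⟩
    · refine Or.inl ⟨j, h2, m, hm.trans hij, h3, fun k hk => ?_⟩
      rcases hk.lt_or_eq with hk | rfl
      · exact not_lt.1 fun h => h5 ⟨k, hk, h⟩
      · exact hs.trans h3
  have hP := fresh ℓ hF (adapt_P ℓ s) (fun a j ⟨h1, i, _, h2, h3⟩ => by
    obtain ⟨k, h4, h5⟩ := first_neg ℓ h1
    exact ⟨k, ⟨h4, i, (not_lt.1 fun h => absurd (h3 k h.le) (not_le.2 h4)), h2, h3⟩, h5⟩) he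
  have hN := fresh ℓ hF (adapt_neg ℓ) (fun a j h => first_neg ℓ h) he
  have hQ := hS W.D S₁ S₁ (Q ℓ s) (adapt_Q ℓ s) Set.univ (ℓ.Back (y + (s + 1))) MeasurableSet.univ
    (meas_Back ℓ _) z 1 (by
      rintro e' m ⟨⟨h1, h2, k, hk, -⟩, -⟩
      have hr : ℓ.Rec (Model.cat e n e') (n + m) := by
        intro i hi
        rw [ℓ.lv_add, Model.sh_cat]
        rcases lt_or_ge i n with h3 | h3
        · rw [ℓ.lv_congr (Model.cat_mem e n e') h3.le, ℓ.lv_congr (Model.cat_mem e n e') le_rfl]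
          linarith [he i h3]
        · obtain ⟨j, rfl⟩ := Nat.exists_eq_add_of_le h3
          rw [ℓ.lv_add, Model.sh_cat]
          linarith [h2 j (by omega)]
      have h4 : ℓ.lv e' m ≤ s + 1 := by
        obtain ⟨m, rfl⟩ : ∃ m', m = m' + 1 := ⟨m - 1, by omega⟩
        linarith [(abs_le.1 (ℓ.lv_succ e' m)).2, h2 m (Nat.lt_succ_self m)]
      have h5 := H _ _ hr
      rw [one_mul, Set.inter_univ, hc _ ((measurableSet_Cy _ _).inter (meas_Back ℓ _)),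
        hc _ (measurableSet_Cy _ _)]
      rw [Model.cS, Model.Cy_cat] at h5
      refine le_trans (measureReal_mono ?_ (measure_ne_top _ _)) h5
      rintro a ⟨a1, a2, i, j, hij, a3, a4⟩
      refine ⟨⟨a1, a2⟩, ?_⟩
      have hmi : m ≤ i := not_lt.1 fun h => by
        have := h2 i h
        rw [← ℓ.lv_congr a2 h.le] at this
        linarith
      obtain ⟨i, rfl⟩ := Nat.exists_eq_add_of_le hmi
      obtain ⟨j, rfl⟩ := Nat.exists_eq_add_of_le (hmi.trans hij)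
      rw [ℓ.lv_add, ℓ.lv_congr a2 le_rfl, sh_sh] at a3 a4
      exact ⟨i, j, by omega, by linarith, by linarith⟩)
  have h6 : S₁.real ({a | ∃ m, Q ℓ s a m} ∩ Set.univ) ≤ (1 - ℓ.β) * W.S.real (Cy e n) := by
    refine le_trans (measureReal_mono (s₂ := {a | ∃ j, ℓ.lv a j < 0}) ?_ (measure_ne_top _ _)) ?_
    · rintro a ⟨⟨m, -, -, k, -, h⟩, -⟩
      exact ⟨k, h⟩
    · rw [hc _ (meas_ex (adapt_neg ℓ)), hN, mul_comm]
      exact mul_le_mul_of_nonneg_right (neg_le ℓ) measureReal_nonneg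
  have h7 := (measureReal_mono sub (measure_ne_top S₁ _)).trans (measureReal_union_le _ _)
  rw [hc _ (meas_Back ℓ _), hc _ (meas_ex (adapt_P ℓ s)), hP] at h7
  have h8 := mul_le_mul_of_nonneg_left h6 hz
  linarith

lemma tendsto_P :
    Tendsto (fun s : ℕ => W.S.real {a | ∃ j, P ℓ s a j}) atTop (nhds 0) := by
  have h := tendsto_measure_iInter_atTop (μ := W.S) (s := fun s : ℕ => {a | ∃ j, P ℓ s a j})
    (fun s => (meas_ex (adapt_P ℓ s)).nullMeasurableSet)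
    (fun s t hst a ⟨j, h1, i, h2, h3, h4⟩ =>
      ⟨j, h1, i, h2, (Nat.cast_le.2 hst).trans h3, h4⟩) ⟨0, measure_ne_top _ _⟩
  have e : ⋂ s : ℕ, {a | ∃ j, P ℓ s a j} = ∅ := by
    refine Set.eq_empty_of_forall_notMem fun a ha => ?_
    rw [Set.mem_iInter] at ha
    obtain ⟨j, h1, -⟩ := ha 0
    obtain ⟨_, -, i, -, h2, h3⟩ := ha j
    have h4 : i < j := not_le.1 fun h => absurd (h3 j h) (not_le.2 h1)
    have h5 : (i : ℝ) < j := by exact_mod_cast h4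
    linarith [(abs_le.1 (ℓ.abs_lv_le a i)).2]
  rw [e, measure_empty] at h
  exact (ENNReal.tendsto_toReal ENNReal.zero_ne_top).comp h

lemma iter (hF : FreshStmt) (hS : StopStmt) {s : ℝ} (hs : 0 ≤ s) (k : ℕ) :
    ∀ e n, ℓ.Rec e n → W.cS e n (ℓ.Back (k * (s + 1))) ≤
      (k * W.S.real {a | ∃ j, P ℓ s a j} + (1 - ℓ.β) ^ k) * W.S.real (Cy e n) := by
  have hb := sub_nonneg.2 ℓ.β_le_one
  induction k with
  | zero =>
    intro e n _
    simp only [Nat.cast_zero, zero_mul, pow_zero, zero_add, one_mul]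
    exact measureReal_mono Set.inter_subset_left (measure_ne_top _ _)
  | succ k ih =>
    intro e n he
    have h := step ℓ hF hS (by positivity) (by positivity) hs ih e n he
    rw [Nat.cast_succ, add_mul (k : ℝ) 1 (s + 1), one_mul]
    refine h.trans (mul_le_mul_of_nonneg_right ?_ measureReal_nonneg)
    have h1 : 0 ≤ ℓ.β * (k * W.S.real {a | ∃ j, P ℓ s a j}) :=
      mul_nonneg ℓ.hβ.le (by positivity)
    rw [pow_succ]
    linarith

end NoRegAux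

theorem noReg_thm (hF : FreshStmt) (hS : StopStmt) : NoRegStmt := by
  intro W ℓ ε hε
  obtain ⟨k, hk⟩ := exists_pow_lt_of_lt_one (half_pos hε) (sub_lt_self 1 ℓ.hβ)
  have ht := (NoRegAux.tendsto_P ℓ).const_mul (k : ℝ)
  rw [mul_zero] at ht
  obtain ⟨s, hs⟩ := (ht.eventually (gt_mem_nhds (half_pos hε))).exists
  refine ⟨k * (s + 1), fun x hx e n he => ?_⟩
  have h := NoRegAux.iter ℓ hF hS (Nat.cast_nonneg s) k e n he
  refine le_trans (measureReal_mono ?_ (measure_ne_top _ _))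
    (h.trans (mul_le_mul_of_nonneg_right (by linarith) measureReal_nonneg))
  rintro a ⟨a1, i, j, hij, a2, a3⟩
  exact ⟨a1, i, j, hij, hx.trans a2, a3⟩

end Pool.Agent.MP_db8016_pr.HD
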