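import Pool.Agent.MP_db8016_pr.HD.Stmts

namespace Pool.Agent.MP_db8016_pr.HD
open MeasureTheory ProbabilityTheory Filter Finset

namespace OptAux

/-- A symbol put in front of a sequence. -/
def cons (s : T) (a : ℕ → T) : ℕ → T
  | 0 => s
  | i + 1 => a i

lemma measurable_cons (s : T) : Measurable (cons s) := by
  refine measurable_pi_lambda _ fun i => ?_
  cases i with
  | zero => exact measurable_const
  | succ i => exact measurable_pi_apply i

lemma sh_cons (s : T) (a : ℕ → T) : sh 1 (cons s a) = a := by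
  funext i
  simp only [sh]
  rw [add_comm]
  rfl

lemma cons_sh (a : ℕ → T) : cons (a 0) (sh 1 a) = a := by
  funext i
  cases i with
  | zero => rfl
  | succ i => simp only [cons, sh]; rw [add_comm]

variable {m : Measure T} (l : Lat m)

lemma Y_cons (s : T) (a : ℕ → T) (k : ℕ) : l.Y (cons s a) (k + 1) = l.st s + l.Y a k := by
  rw [add_comm k 1, l.Y_add, sh_cons]
  congr 1
  have := l.Y_succ (cons s a) 0
  simpa [cons] using this

lemma stop_zero {Dm : Set (ℤ × ℤ)} {x : ℤ × ℤ} {t : ℕ} (h : t = 0 ∨ x ∉ Dm) (a : ℕ → T) :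
    l.stop Dm x t a = 0 := by
  rcases h with rfl | h
  · exact Nat.le_zero.1 (l.stop_le Dm x 0 a)
  · by_contra h0
    have := l.mem_of_lt_stop (Nat.pos_of_ne_zero h0)
    rw [l.Y_zero, add_zero] at this
    exact h this

lemma stop_cons {Dm : Set (ℤ × ℤ)} {x : ℤ × ℤ} (hx : x ∈ Dm) (t : ℕ) (s : T) (a : ℕ → T) :
    l.stop Dm x (t + 1) (cons s a) = l.stop Dm (x + l.st s) t a + 1 := by
  have h1 := l.stop_le Dm x (t + 1) (cons s a)
  have h2 := l.stop_le Dm (x + l.st s) t a
  have h3 := l.stop_spec Dm x (t + 1) (cons s a)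
  have h4 := l.stop_spec Dm (x + l.st s) t a
  rcases lt_trichotomy (l.stop Dm x (t + 1) (cons s a)) (l.stop Dm (x + l.st s) t a + 1) with
    h | h | h
  · exfalso
    rcases h3 with h3 | h3
    · omega
    · rcases hk : l.stop Dm x (t + 1) (cons s a) with _ | k
      · rw [hk, l.Y_zero, add_zero] at h3
        exact h3 hx
      · rw [hk, Y_cons, ← add_assoc] at h3
        exact h3 (l.mem_of_lt_stop (t := t) (by omega))
  · exact h
  · exfalso
    rcases h4 with h4 | h4
    · omega
    · have := l.mem_of_lt_stop h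
      rw [Y_cons, ← add_assoc] at this
      exact h4 this

lemma split (hI : IidStmt) [IsProbabilityMeasure m] {E : Set (ℕ → T)} (hE : MeasurableSet E) :
    (IID m).real E = ∑ s, m.real {s} * (IID m).real (cons s ⁻¹' E) := by
  have h1 : E = ⋃ s ∈ (univ : Finset T), Cy (fun _ => s) 1 ∩ sh 1 ⁻¹' (cons s ⁻¹' E) := by
    ext a
    simp only [Set.mem_iUnion, Set.mem_inter_iff, Set.mem_preimage, mem_univ, exists_const]
    constructor
    · intro ha
      refine ⟨a 0, fun i hi => ?_, by rwa [cons_sh]⟩
      rw [Nat.lt_one_iff.1 hi]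
    · rintro ⟨s, hs, ha⟩
      have : a 0 = s := hs 0 one_pos
      rwa [← this, cons_sh] at ha
  conv_lhs => rw [h1]
  rw [measureReal_biUnion_finset]
  · refine sum_congr rfl fun s _ => ?_
    obtain ⟨h2, h3⟩ := hI m (fun _ => s) 1
    rw [h3 _ (measurable_cons s hE), h2, prod_range_one]
  · intro s _ s' _ hss
    refine Set.disjoint_left.2 fun a ha ha' => hss ?_
    exact (ha.1 0 one_pos).symm.trans (ha'.1 0 one_pos)
  · intro s _
    exact (measurableSet_Cy _ _).inter (measurable_sh 1 (measurable_cons s hE))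

lemma base [IsProbabilityMeasure m] {E : Set (ℕ → T)} {y c₀ c : ℝ}
    (h : ∀ a, y ≤ c₀ + c * E.indicator 1 a) : y ≤ c₀ + c * (IID m).real E := by
  rcases E.eq_empty_or_nonempty with rfl | ⟨a, ha⟩
  · simpa using h fun _ => 0
  · have h1 := h a
    rw [Set.indicator_of_mem ha, Pi.one_apply, mul_one] at h1
    by_cases hu : E = Set.univ
    · rw [hu, probReal_univ, mul_one]
      exact h1
    · obtain ⟨b, hb⟩ := (Set.ne_univ_iff_exists_notMem E).1 hu
      have h2 := h b
      rw [Set.indicator_of_notMem hb, mul_zero, add_zero] at h2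
      have h3 : 0 ≤ (IID m).real E := measureReal_nonneg
      have h4 : (IID m).real E ≤ 1 := measureReal_le_one
      nlinarith

end OptAux

open OptAux in
theorem opt_thm (hI : IidStmt) : OptStmt := by
  intro m _ l Dm x t
  induction t generalizing x with
  | zero =>
    intro f E c₀ c _ _ h
    refine base fun a => ?_
    simpa [stop_zero l (Or.inl rfl) a] using h a
  | succ t ih =>
    intro f E c₀ c hE hf h
    by_cases hx : x ∈ Dm
    · have h1 : ∀ s, f 1 (x + l.st s) ≤ c₀ + c * (IID m).real (cons s ⁻¹' E) := by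
        intro s
        refine ih (x + l.st s) (fun k => f (k + 1)) (cons s ⁻¹' E) c₀ c (measurable_cons s hE)
          (fun k hk z hz => hf (k + 1) (by omega) z hz) fun a => ?_
        have h2 := h (cons s a)
        rw [stop_cons l hx, Y_cons, ← add_assoc] at h2
        exact h2
      have h2 := hf 0 (by omega) x hx
      have h3 := l.hE fun u v => f 1 (x + (u, v))
      have h4 : ∑ s : T, m.real {s} = 1 := by
        rw [sum_measureReal_singleton, coe_univ, probReal_univ]
      have h5 : ∑ s, m.real {s} * f 1 (x + l.st s) ≤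
          ∑ s, m.real {s} * (c₀ + c * (IID m).real (cons s ⁻¹' E)) :=
        sum_le_sum fun s _ => mul_le_mul_of_nonneg_left (h1 s) measureReal_nonneg
      have h6 : ∑ s, m.real {s} * (c₀ + c * (IID m).real (cons s ⁻¹' E)) =
          c₀ + c * (IID m).real E := by
        rw [split hI hE, mul_sum]
        conv_rhs => rw [← one_mul c₀, ← h4, sum_mul, ← sum_add_distrib]
        exact sum_congr rfl fun s _ => by ring
      have h7 : l.av (f (0 + 1)) x = ∑ s, m.real {s} * f 1 (x + l.st s) := by
        refine Eq.trans ?_ h3.symm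
        have : x + ((0 : ℤ), (0 : ℤ)) = x := add_zero x
        rw [this]
        rfl
      linarith
    · refine base fun a => ?_
      simpa [stop_zero l (Or.inr hx) a] using h a

end Pool.Agent.MP_db8016_pr.HD
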