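import Pool.Agent.MP_db8016_pr.HD.Stmts

/-! The cut events have product form. -/

namespace Pool.Agent.MP_db8016_pr.HD
open MeasureTheory ProbabilityTheory Filter Finset

namespace ProdAux

variable (hI : IidStmt) (m : Measure T) [IsProbabilityMeasure m]
include hI

lemma map_sh (e : ℕ → T) (n : ℕ) :
    ((IID m).restrict (Cy e n)).map (sh n) = IID m (Cy e n) • IID m := by
  ext B hB
  rw [Measure.map_apply (measurable_sh n) hB, Measure.restrict_apply (measurable_sh n hB),
    Measure.smul_apply, smul_eq_mul, Set.inter_comm,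
    ← ENNReal.toReal_eq_toReal_iff' (by finiteness) (by finiteness), ENNReal.toReal_mul]
  exact (hI m e n).2 B hB

lemma rect (e b : ℕ → T) (n : ℕ) {E : Set ((ℕ → T) × (ℕ → T))} (hE : MeasurableSet E) :
    IID2 m (Prod.map (sh n) (sh n) ⁻¹' E ∩ Cy e n ×ˢ Cy b n) =
      IID2 m (Cy e n ×ˢ Cy b n) * IID2 m E := by
  have h := (measurable_sh (α := T) n).prodMap (measurable_sh (α := T) n)
  rw [← Measure.restrict_apply (h hE), IID2, ← Measure.prod_restrict, ← Measure.map_apply h hE,
    ← Measure.map_prod_map _ _ (measurable_sh n) (measurable_sh n), map_sh hI, map_sh hI,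
    Measure.prod_smul_left, Measure.prod_smul_right, Measure.prod_prod, smul_smul,
    Measure.smul_apply, smul_eq_mul]

lemma indep {n : ℕ} {Θ E : Set ((ℕ → T) × (ℕ → T))} (hΘ : Det2 n n Θ) (hE : MeasurableSet E) :
    IID2 m (Θ ∩ Prod.map (sh n) (sh n) ⁻¹' E) = IID2 m Θ * IID2 m E := by
  classical
  let g : (ℕ → T) × (ℕ → T) → (Fin n → T) × (Fin n → T) :=
    fun x => (fun i => x.1 i, fun i => x.2 i)
  have h := (measurable_sh (α := T) n).prodMap (measurable_sh (α := T) n)
  have h1 : ∀ x, g ⁻¹' {g x} = Cy x.1 n ×ˢ Cy x.2 n := fun x => by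
    ext y
    simp only [g, Cy, Set.mem_preimage, Set.mem_singleton_iff, Prod.mk.injEq, funext_iff,
      Set.mem_prod, Set.mem_ofPred_eq, Fin.forall_iff]
  have h2 : Θ = g ⁻¹' ((Set.toFinite (g '' Θ)).toFinset : Set _) := by
    rw [Set.Finite.coe_toFinset]
    refine Set.Subset.antisymm (Set.subset_preimage_image _ _) ?_
    rintro y ⟨x, hx, hxy⟩
    have : y ∈ g ⁻¹' {g x} := hxy.symm
    rw [h1] at this
    exact hΘ x y this.1 this.2 hx
  have h3 : ∀ w ∈ (Set.toFinite (g '' Θ)).toFinset, MeasurableSet (g ⁻¹' {w}) := fun w hw => by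
    obtain ⟨x, -, rfl⟩ := (Set.Finite.mem_toFinset _).1 hw
    rw [h1]
    exact (measurableSet_Cy _ _).prod (measurableSet_Cy _ _)
  rw [← Measure.restrict_apply hΘ.measurableSet, h2, ← sum_measure_preimage_singleton _ h3,
    ← sum_measure_preimage_singleton _ h3, sum_mul]
  refine sum_congr rfl fun w hw => ?_
  rw [Measure.restrict_apply (h3 w hw)]
  obtain ⟨x, -, rfl⟩ := (Set.Finite.mem_toFinset _).1 hw
  rw [h1, Set.inter_comm, rect hI m _ _ _ hE]

end ProdAux

theorem prod_thm (hI : IidStmt) : ProdStmt := by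
  intro m _ l c F
  induction F using Finset.induction_on_max with
  | empty => simp
  | insert j F hj ih =>
    have h1 : Det2 (c.t j) (c.t j)
        {x : (ℕ → T) × (ℕ → T) | ∀ i ∈ F, (sh (c.t i) x.1, sh (c.t i) x.2) ∈ c.G i} := by
      intro x y h1 h2 hx i hi
      have h3 := c.t_mono (show i + 1 ≤ j from hj i hi)
      have h4 := c.t_mono (Nat.le_succ i)
      exact c.det i (sh (c.t i) x.1, sh (c.t i) x.2) (sh (c.t i) y.1, sh (c.t i) y.2)
        (fun k hk => h1 (c.t i + k) (by omega)) (fun k hk => h2 (c.t i + k) (by omega)) (hx i hi)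
    have h2 := congrArg ENNReal.toReal (ProdAux.indep hI m h1 (c.det j).measurableSet)
    rw [ENNReal.toReal_mul] at h2
    rw [prod_insert fun h => lt_irrefl _ (hj j h), ← ih, mul_comm]
    refine Eq.trans (congrArg _ ?_) h2
    ext x
    simp only [mem_insert, forall_eq_or_imp, Set.mem_ofPred_eq, Set.mem_inter_iff,
      Set.mem_preimage, and_comm]
    rfl

theorem q_thm (hP : ProdStmt) : QStmt := by
  intro m _ l c
  have h : ∀ I, c.q I = ∏ i ∈ range I, (IID2 m).real (c.G i) := fun I => by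
    rw [← hP m l c]
    simp only [mem_range]
    rfl
  have h1 : ∀ I, c.q (I + 1) = c.q I * (IID2 m).real (c.G I) := fun I => by
    rw [h, h, prod_range_succ]
  have h2 : ∀ I, 0 < c.q I := fun I => by
    rw [h]
    exact prod_pos fun i _ => c.π₀_pos.trans_le (c.π₀_le i)
  refine fun I => ⟨h1 I, h2 I, fun k => ?_⟩
  induction k with
  | zero => simp
  | succ k ih =>
    rw [← add_assoc, h1, pow_succ, mul_right_comm]
    exact mul_le_mul ih (c.π₀_le _) c.π₀_pos.le (h2 _).le

end Pool.Agent.MP_db8016_pr.HD
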