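import Pool.Agent.MP_db8016_pr.HD.Stmts

/-! Reversal of the past and independence of disjoint coordinates. -/

namespace Pool.Agent.MP_db8016_pr.HD
open MeasureTheory ProbabilityTheory Filter Finset

namespace RevAux

/-- Restriction of a pair of sequences to the first coordinates. -/
def cutp (n s : ℕ) (x : (ℕ → T) × (ℕ → T)) : (Fin n → T) × (Fin s → T) :=
  (fun i => x.1 i, fun i => x.2 i)

lemma measurable_cutp (n s : ℕ) : Measurable (cutp n s) := by
  refine Measurable.prodMk (measurable_pi_lambda _ fun i => ?_)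
    (measurable_pi_lambda _ fun i => ?_)
  · exact (measurable_pi_apply (i : ℕ)).comp measurable_fst
  · exact (measurable_pi_apply (i : ℕ)).comp measurable_snd

/-- Extension of a word to a sequence. -/
def ext0 {n : ℕ} (f : Fin n → T) : ℕ → T := fun i => if h : i < n then f ⟨i, h⟩ else 0

lemma mem_ext0 {n : ℕ} (f : Fin n → T) (a : ℕ → T) :
    a ∈ Cy (ext0 f) n ↔ (fun i : Fin n => a i) = f := by
  constructor
  · intro h
    funext i
    have := h i i.2
    simpa [ext0] using this
  · rintro rfl i hi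
    simp [ext0, hi]

lemma cutp_pre (n s : ℕ) (f : Fin n → T) (b : Fin s → T) :
    cutp n s ⁻¹' {(f, b)} = Cy (ext0 f) n ×ˢ Cy (ext0 b) s := by
  ext x
  simp only [Set.mem_preimage, Set.mem_singleton_iff, Set.mem_prod, mem_ext0, cutp,
    Prod.mk.injEq]

lemma rev_mem (s : ℕ) (a b : ℕ → T) : rev s a ∈ Cy b s ↔ a ∈ Cy (rev s b) s := by
  constructor
  · intro h i hi
    have h1 := h (s - 1 - i) (by omega)
    simp only [rev] at h1 ⊢
    rwa [show s - 1 - (s - 1 - i) = i by omega] at h1
  · intro h i hi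
    have h1 := h (s - 1 - i) (by omega)
    simp only [rev] at h1 ⊢
    rwa [show s - 1 - (s - 1 - i) = i by omega] at h1

lemma det_pre {n s : ℕ} {E : Set ((ℕ → T) × (ℕ → T))} (h : Det2 n s E) :
    E = cutp n s ⁻¹' (cutp n s '' E) := by
  refine Set.Subset.antisymm (Set.subset_preimage_image _ _) ?_
  rintro y ⟨x, hx, hxy⟩
  refine h x y (fun i hi => ?_) (fun i hi => ?_) hx
  · exact (congrFun (congrArg Prod.fst hxy) ⟨i, hi⟩).symm
  · exact (congrFun (congrArg Prod.snd hxy) ⟨i, hi⟩).symm

lemma fin_pre (F : Finset ℕ) {A : Set (ℕ → T)}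
    (h : ∀ a a', (∀ i ∈ F, a' i = a i) → a ∈ A → a' ∈ A) :
    A = (fun (a : ℕ → T) (i : F) => a i) ⁻¹' ((fun (a : ℕ → T) (i : F) => a i) '' A) := by
  refine Set.Subset.antisymm (Set.subset_preimage_image _ _) ?_
  rintro y ⟨x, hx, hxy⟩
  exact h x y (fun i hi => (congrFun hxy ⟨i, hi⟩).symm) hx

end RevAux

open RevAux

theorem rev_thm (hI : IidStmt) : RevStmt := by
  intro m _ s n E hE
  have hφ : Measurable fun a : ℕ → T => (sh s a, rev s a) :=
    (measurable_sh s).prodMk (measurable_rev s)
  have hg := measurable_cutp n s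
  have key : (IID m).map (cutp n s ∘ fun a : ℕ → T => (sh s a, rev s a)) =
      (IID2 m).map (cutp n s) := by
    rw [Measure.ext_iff_singleton]
    rintro ⟨f, b⟩
    rw [Measure.map_apply (hg.comp hφ) (measurableSet_singleton _),
      Measure.map_apply hg (measurableSet_singleton _), Set.preimage_comp, cutp_pre]
    have h1 : (fun a : ℕ → T => (sh s a, rev s a)) ⁻¹' (Cy (ext0 f) n ×ˢ Cy (ext0 b) s) =
        Cy (rev s (ext0 b)) s ∩ sh s ⁻¹' Cy (ext0 f) n := by
      ext a
      simp only [Set.mem_preimage, Set.mem_prod, Set.mem_inter_iff, rev_mem]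
      exact and_comm
    rw [h1, IID2, Measure.prod_prod]
    have h2 := (hI m (rev s (ext0 b)) s).2 _ (measurableSet_Cy (ext0 f) n)
    have h3 : (IID m).real (Cy (rev s (ext0 b)) s) = (IID m).real (Cy (ext0 b) s) := by
      rw [(hI m _ s).1, (hI m _ s).1]
      exact Finset.prod_range_reflect (fun i => m.real {ext0 b i}) s
    rw [h3, mul_comm] at h2
    refine (ENNReal.toReal_eq_toReal_iff' (measure_ne_top _ _)
      (ENNReal.mul_ne_top (measure_ne_top _ _) (measure_ne_top _ _))).1 ?_
    rw [ENNReal.toReal_mul]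
    exact h2
  have hS : MeasurableSet (cutp n s '' E) := (Set.to_countable _).measurableSet
  have h4 := congrArg (fun μ => μ (cutp n s '' E)) key
  simp only [Measure.map_apply (hg.comp hφ) hS, Measure.map_apply hg hS, Set.preimage_comp,
    ← det_pre hE] at h4
  exact congrArg ENNReal.toReal h4

theorem coord_thm : CoordStmt := by
  intro m _ F F' A B hd hA hB
  have h0 : iIndepFun (fun (i : ℕ) (ω : ℕ → T) => ω i) (IID m) :=
    iIndepFun_infinitePi (P := fun _ : ℕ => m) (X := fun _ ω => ω) fun _ => measurable_id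
  have h1 := h0.indepFun_finset F F' hd fun i => measurable_pi_apply i
  have h2 := h1.measure_inter_preimage_eq_mul
    ((fun (a : ℕ → T) (i : F) => a i) '' A) ((fun (a : ℕ → T) (i : F') => a i) '' B)
    (Set.to_countable _).measurableSet (Set.to_countable _).measurableSet
  rw [← fin_pre F hA, ← fin_pre F' hB] at h2
  simp only [Measure.real, h2, ENNReal.toReal_mul]

end Pool.Agent.MP_db8016_pr.HD
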