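import Pool.Agent.MP_db8016_pr.HD.Stmts

/-! Runs of the level with small lateral moves, and late rises. -/

namespace Pool.Agent.MP_db8016_pr.HD
open MeasureTheory ProbabilityTheory Filter Finset

namespace RunAux

lemma key (b : ℝ) (hb0 : 0 ≤ b) (hb1 : b ≤ 1) (g : ℕ) : (1 - b) ^ g * (1 + g * b) ≤ 1 := by
  induction g with
  | zero => simp
  | succ g ih =>
    have h1 : 0 ≤ (1 - b) ^ g := pow_nonneg (by linarith) g
    have h2 : (1 - b) * (1 + ((g + 1 : ℕ) : ℝ) * b) ≤ 1 + g * b := by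
      push_cast
      have h3 : (0 : ℝ) ≤ g := Nat.cast_nonneg g
      nlinarith [mul_nonneg (mul_nonneg h3 hb0) hb0, mul_nonneg hb0 hb0]
    calc (1 - b) ^ (g + 1) * (1 + ((g + 1 : ℕ) : ℝ) * b)
        = (1 - b) ^ g * ((1 - b) * (1 + ((g + 1 : ℕ) : ℝ) * b)) := by ring
      _ ≤ (1 - b) ^ g * (1 + g * b) := mul_le_mul_of_nonneg_left h2 h1
      _ ≤ 1 := ih

lemma cS_zero (W : Model) (e : ℕ → W.D) (A : Set (ℕ → W.D)) : W.cS e 0 A = W.S.real A := by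
  have : sh 0 ⁻¹' A = A := by ext a; simp
  simp [Model.cS, this]

lemma Up_sub_Reach {W : Model} (ℓ : Lev W) {w w' : ℝ} (h : w' ≤ w) (t : ℕ) :
    ℓ.Up w t ⊆ ℓ.Reach w' t := fun _ ⟨n, h1, h2, _⟩ => ⟨n, h1, h.trans h2⟩

lemma fast0 (hF : FastStmt) (W : Model) (ℓ : Lev W) (z : ℝ) (t g : ℕ) (hz : 0 ≤ z) :
    W.S.real (ℓ.Reach (g * (z + 1)) t) ≤ (1 - W.S.real (ℓ.Slow z t)) ^ g := by
  obtain ⟨d, -⟩ := ℓ.hd
  have h := hF W ℓ z t g (fun _ => d) 0 hz (fun i hi => absurd hi (Nat.not_lt_zero i))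
  rw [cS_zero] at h
  simpa using h

lemma dev0 (hD : DevStmt) (hA : AutoStmt) (W : Model) (ℓ : Lev W) (ρ : ℤ) (t : ℕ) (hρ : 0 < ρ) :
    W.S.real (W.la ⁻¹' {a | ∃ k ≤ t, ρ ≤ nn (W.l.Y a k)}) ≤ t / (ρ : ℝ) ^ 2 := by
  obtain ⟨d, -⟩ := ℓ.hd
  have hm : MeasurableSet {a | ∃ k ≤ t, ρ ≤ nn (W.l.Y a k)} := by
    refine Det.measurableSet (n := t) ?_
    rintro a a' h ⟨k, hk, h'⟩
    exact ⟨k, hk, by rwa [W.l.Y_congr h hk]⟩
  have h := hA W (fun _ => d) 0 _ hm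
  rw [cS_zero] at h
  rw [h]
  simpa using hD W.m W.l ρ t hρ

end RunAux

open RunAux

theorem run_thm (hG : GroupStmt) (hL : SlowStmt) (hD : DevStmt) (hA : AutoStmt) : RunStmt := by
  intro W ℓ j
  have hβ := ℓ.hβ
  have hβ1 := ℓ.β_le_one
  rcases Nat.eq_zero_or_pos j with rfl | hj
  · refine ⟨1, le_rfl, fun N hN w t ρ hw _ _ h => ?_⟩
    exfalso
    have hN' : (1 : ℝ) ≤ N := by exact_mod_cast hN
    have he : ℓ.Up w (0 * t) = ∅ := by
      ext e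
      simp only [Lev.Up, zero_mul, Set.mem_ofPred_eq, Set.mem_empty_iff_false, iff_false]
      rintro ⟨n, h1, h2, -⟩
      obtain rfl : n = 0 := by omega
      rw [Lev.lv_zero] at h2
      linarith
    rw [he] at h
    simp only [measureReal_empty] at h
    linarith
  · have hj' : (1 : ℝ) ≤ j := by exact_mod_cast hj
    obtain ⟨g, hg⟩ : ∃ g : ℕ, (1 - ℓ.β / 2) ^ g < ℓ.β / 2 / j :=
      exists_pow_lt_of_lt_one (by positivity) (by linarith)
    rw [lt_div_iff₀ (by linarith)] at hg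
    refine ⟨2 * j * (g + 1), Nat.mul_pos (by omega) (by omega), fun N hN w t ρ hw hρ ht h => ?_⟩
    have hN' : 2 * (j : ℝ) * (g + 1) ≤ N := by exact_mod_cast hN
    have hg0 : (0 : ℝ) ≤ g := Nat.cast_nonneg g
    have hNpos : (0 : ℝ) < N := by nlinarith
    have hw0 : 0 < w := by linarith
    have hz : 0 ≤ w / N := by positivity
    have hup : ℓ.β / 2 < W.S.real (ℓ.Up (w / N) t) := by
      by_contra hc
      push Not at hc
      have h1 := hL W ℓ (w / N) t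
      have h2 := hG W ℓ (w / N) t g j hz hj
      have h3 : (j : ℝ) * (g * (w / N + 1) + 1) ≤ w := by
        have h4 : w = w / N * N := by field_simp
        have h5 : w / N * (2 * (j : ℝ) * (g + 1)) ≤ w / N * N :=
          mul_le_mul_of_nonneg_left hN' hz
        have h6 : 0 ≤ w / N * j := by positivity
        nlinarith
      have h4 : W.S.real (ℓ.Up w (j * t)) ≤
          W.S.real (ℓ.Reach (j * (g * (w / N + 1) + 1)) (j * t)) :=
        measureReal_mono (Up_sub_Reach ℓ h3 _)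
      have h5 : (1 - W.S.real (ℓ.Slow (w / N) t)) ^ g ≤ (1 - ℓ.β / 2) ^ g :=
        pow_le_pow_left₀ (by linarith [measureReal_le_one (μ := W.S) (s := ℓ.Slow (w / N) t)])
          (by linarith) g
      have h6 : (j : ℝ) * (1 - W.S.real (ℓ.Slow (w / N) t)) ^ g ≤ j * (1 - ℓ.β / 2) ^ g :=
        mul_le_mul_of_nonneg_left h5 (by linarith)
      linarith
    have hsub : ℓ.Up (w / N) t ⊆
        ℓ.Run (w / N) t ρ ∪ W.la ⁻¹' {a | ∃ k ≤ t, ρ ≤ nn (W.l.Y a k)} := by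
      rintro e ⟨n, h1, h2, h3⟩
      by_cases hc : ∃ k ≤ t, ρ ≤ nn (W.l.Y (W.la e) k)
      · exact Or.inr hc
      · push Not at hc
        exact Or.inl ⟨n, h1, h2, fun k hk => ⟨h3 k hk, hc k (hk.trans h1)⟩⟩
    have h7 := (measureReal_mono (μ := W.S) hsub).trans (measureReal_union_le _ _)
    have h8 := dev0 hD hA W ℓ ρ t hρ
    have hρ' : (0 : ℝ) < (ρ : ℝ) ^ 2 := by
      have : (0 : ℝ) < ρ := by exact_mod_cast hρ
      positivity
    have h9 : (t : ℝ) / (ρ : ℝ) ^ 2 ≤ ℓ.β / 4 := by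
      rw [div_le_iff₀ hρ']; linarith
    linarith

theorem late_thm (hF : FastStmt) (hL : SlowStmt) : LateStmt := by
  intro W ℓ g g' w w' x t₁ n m₀ hg hg' hw' hup hlt hx hw
  have hβ := ℓ.hβ
  have hβ1 := ℓ.β_le_one
  have hg1 : (1 : ℝ) ≤ g := by exact_mod_cast hg
  have hg1' : (1 : ℝ) ≤ g' := by exact_mod_cast hg'
  have hx0 : 0 < x := by nlinarith
  have hsub : ℓ.Pos m₀ \ {e | ∀ σ ≤ t₁, sh σ e ∈ ℓ.Rise x n} ⊆
      (ℓ.Pos m₀ \ {e | ∀ k, 0 ≤ ℓ.lv e k}) ∪ ℓ.Reach (g * (w' + 1 + 1)) t₁ ∪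
        ℓ.Slow (2 * x) n := by
    rintro e ⟨h1, h2⟩
    by_contra hc
    simp only [Set.mem_union, not_or] at hc
    obtain ⟨⟨hc1, hc2⟩, hc3⟩ := hc
    have hpos : ∀ k, 0 ≤ ℓ.lv e k := by
      by_contra hn
      exact hc1 ⟨h1, hn⟩
    have hlow : ∀ k ≤ t₁, ℓ.lv e k < x := by
      intro k hk
      by_contra hn
      push Not at hn
      exact hc2 ⟨k, hk, by linarith⟩
    obtain ⟨j, hj, hj2⟩ : ∃ j ≤ n, 2 * x ≤ ℓ.lv e j := by
      by_contra hn
      push Not at hn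
      exact hc3 fun k hk => ⟨hpos k, hn k hk⟩
    have hj3 : t₁ < j := by
      by_contra hn
      push Not at hn
      have := hlow j hn
      linarith
    refine h2 fun σ hσ => ?_
    obtain ⟨i, rfl⟩ := Nat.exists_eq_add_of_le (show σ ≤ j by omega)
    refine ⟨0, i, Nat.zero_le _, by omega, ?_⟩
    rw [ℓ.lv_add] at hj2
    have := hlow σ hσ
    rw [Lev.lv_zero]
    linarith
  have h1 := (measureReal_mono (μ := W.S) hsub).trans (measureReal_union_le _ _)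
  have h2 := measureReal_union_le (μ := W.S) (ℓ.Pos m₀ \ {e | ∀ k, 0 ≤ ℓ.lv e k})
    (ℓ.Reach (g * (w' + 1 + 1)) t₁)
  have h3 : W.S.real (ℓ.Reach (g * (w' + 1 + 1)) t₁) ≤ 2 / (ℓ.β * g) := by
    have h4 := fast0 hF W ℓ (w' + 1) t₁ g (by linarith)
    have h5 := hL W ℓ (w' + 1) t₁
    have h6 : (1 - W.S.real (ℓ.Slow (w' + 1) t₁)) ^ g ≤ (1 - ℓ.β / 2) ^ g :=
      pow_le_pow_left₀ (by linarith [measureReal_le_one (μ := W.S) (s := ℓ.Slow (w' + 1) t₁)])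
        (by linarith) g
    have h7 := key (ℓ.β / 2) (by linarith) (by linarith) g
    have h8 : 0 ≤ (1 - ℓ.β / 2) ^ g := pow_nonneg (by linarith) g
    rw [le_div_iff₀ (by positivity)]
    have h9 : W.S.real (ℓ.Reach (g * (w' + 1 + 1)) t₁) * (ℓ.β * g) ≤
        (1 - ℓ.β / 2) ^ g * (ℓ.β * g) :=
      mul_le_mul_of_nonneg_right (h4.trans h6) (by positivity)
    nlinarith
  have h4 : W.S.real (ℓ.Slow (2 * x) n) ≤ 2 / (ℓ.β * g') := by
    have h5 := fast0 hF W ℓ (2 * x) n g' (by linarith)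
    have h6 : W.S.real (ℓ.Up w n) ≤ W.S.real (ℓ.Reach (g' * (2 * x + 1)) n) :=
      measureReal_mono (Up_sub_Reach ℓ hw _)
    have h0 : 0 ≤ W.S.real (ℓ.Slow (2 * x) n) := measureReal_nonneg
    have h7 := key (W.S.real (ℓ.Slow (2 * x) n)) h0 measureReal_le_one g'
    have h8 : ℓ.β / 2 * (1 + g' * W.S.real (ℓ.Slow (2 * x) n)) ≤
        (1 - W.S.real (ℓ.Slow (2 * x) n)) ^ g' * (1 + g' * W.S.real (ℓ.Slow (2 * x) n)) :=
      mul_le_mul_of_nonneg_right (by linarith) (by positivity)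
    rw [le_div_iff₀ (by positivity)]
    nlinarith
  linarith

end Pool.Agent.MP_db8016_pr.HD
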