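import Pool.Agent.MP_db8016_pr.HD.Stmts
namespace Pool.Agent.MP_db8016_pr.HD
open MeasureTheory ProbabilityTheory Filter Finset

namespace SecondAux
variable {m : Measure T} [IsProbabilityMeasure m] {l : Lat m} (c : Cut l)

/-- The blocks with index in `F`, read at time `s`. -/
def E (F : Finset ℕ) (s : ℕ) : Set (ℕ → T) :=
  {a | ∀ i ∈ F, (sh (c.t i) (sh s a), sh (c.t i) (rev s a)) ∈ c.G i}

/-- The coordinates used by these blocks. -/
def D (F : Finset ℕ) (s : ℕ) : Finset ℕ :=
  F.biUnion fun i => Ico (s + c.t i) (s + c.t (i + 1)) ∪ Ico (s - c.t (i + 1)) (s - c.t i)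

omit [IsProbabilityMeasure m] in
lemma dep {F : Finset ℕ} {s : ℕ} (hs : ∀ i ∈ F, c.t (i + 1) ≤ s) (a a' : ℕ → T)
    (h : ∀ k ∈ D c F s, a' k = a k) (ha : a ∈ E c F s) : a' ∈ E c F s := fun i hi => by
  have h1 := hs i hi
  refine c.det i (sh (c.t i) (sh s a), sh (c.t i) (rev s a))
    (sh (c.t i) (sh s a'), sh (c.t i) (rev s a')) (fun k hk => h (s + (c.t i + k)) ?_)
    (fun k hk => h (s - 1 - (c.t i + k)) ?_) (ha i hi) <;>
    refine mem_biUnion.2 ⟨i, hi, ?_⟩ <;> simp only [mem_union, mem_Ico] <;> omega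

lemma prob (hP : ProdStmt) (hR : RevStmt) {F : Finset ℕ} {s : ℕ} (hs : ∀ i ∈ F, c.t (i + 1) ≤ s) :
    (IID m).real (E c F s) = ∏ i ∈ F, (IID2 m).real (c.G i) := by
  rw [← hP m l c F]
  refine hR m s s {x | ∀ i ∈ F, (sh (c.t i) x.1, sh (c.t i) x.2) ∈ c.G i}
    fun x y h1 h2 hx i hi => ?_
  have h3 := hs i hi
  exact c.det i (sh (c.t i) x.1, sh (c.t i) x.2) (sh (c.t i) y.1, sh (c.t i) y.2)
    (fun k hk => h1 (c.t i + k) (by omega)) (fun k hk => h2 (c.t i + k) (by omega)) (hx i hi)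

lemma q_eq (hP : ProdStmt) (J : ℕ) : c.q J = ∏ i ∈ range J, (IID2 m).real (c.G i) := by
  rw [← hP m l c]
  simp only [Cut.q, Cut.C, CC, mem_range]

lemma pair (hP : ProdStmt) (hR : RevStmt) (hC : CoordStmt) {J s s' : ℕ} (hs : c.t J ≤ s)
    (hss : s ≤ s') : (IID m).real (c.At J s ∩ c.At J s') ≤ c.q J ^ 2 + ∑ j ∈ range J,
      if s' < s + 2 * c.t (j + 1) ∧ s < s' + 2 * c.t (j + 1) then c.q j * c.q J / c.π₀ ^ 2
      else 0 := by
  have hex : ∃ j, s' < s + 2 * c.t (j + 1) := by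
    have : ∀ j, j + 1 ≤ c.t (j + 1) := fun j => by
      induction j with
      | zero => exact c.one_le_t le_rfl
      | succ j ih => have := c.nine_t_le (j + 1); omega
    exact ⟨s', by have := this s'; omega⟩
  obtain ⟨j, h2, h1⟩ : ∃ j, s' < s + 2 * c.t (j + 1) ∧ s + 2 * c.t j ≤ s' := by
    refine ⟨Nat.find hex, Nat.find_spec hex, ?_⟩
    rcases h : Nat.find hex with _ | k
    · simpa [c.t_zero] using hss
    · exact not_lt.1 (Nat.find_min hex (by omega))
  have hq : ∀ i, 0 ≤ c.q i := fun _ => measureReal_nonneg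
  have hπ := c.π₀_pos
  have hF : ∀ i ∈ (range J).filter (fun i => i < j ∨ j + 2 ≤ i), c.t (i + 1) ≤ s := fun i hi =>
    (c.t_mono (mem_range.1 (mem_filter.1 hi).1)).trans hs
  have hF' : ∀ i ∈ range (min j J), c.t (i + 1) ≤ s' := fun i hi =>
    (c.t_mono (lt_min_iff.1 (mem_range.1 hi)).2).trans (hs.trans hss)
  have key : (IID m).real (c.At J s ∩ c.At J s') ≤
      (∏ i ∈ (range J).filter (fun i => i < j ∨ j + 2 ≤ i), (IID2 m).real (c.G i)) *
        c.q (min j J) := by
    rw [q_eq c hP, ← prob c hP hR hF, ← prob c hP hR hF',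
      ← hC m _ _ _ _ ?_ (dep c hF) (dep c hF')]
    · refine measureReal_mono (Set.inter_subset_inter (fun a ha i hi => ha i ?_)
        fun a ha i hi => ha i ?_)
      · exact mem_range.1 (mem_filter.1 hi).1
      · exact (lt_min_iff.1 (mem_range.1 hi)).2
    · refine disjoint_left.2 fun k hk hk' => ?_
      obtain ⟨i, hi, a1⟩ := mem_biUnion.1 hk
      obtain ⟨i', hi', a2⟩ := mem_biUnion.1 hk'
      have a3 := c.t_mono (show i' + 1 ≤ j from (lt_min_iff.1 (mem_range.1 hi')).1)
      have a4 := c.nine_t_le j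
      have a5 := c.nine_t_le (j + 1)
      simp only [mem_union, mem_Ico] at a1 a2
      rcases (mem_filter.1 hi).2 with a6 | a6
      · have := c.t_mono (show i + 1 ≤ j from a6)
        omega
      · have := c.t_mono (show j + 1 + 1 ≤ i from a6)
        omega
  have hn : ∀ i ∈ range J, 0 ≤ if s' < s + 2 * c.t (i + 1) ∧ s < s' + 2 * c.t (i + 1) then
      c.q i * c.q J / c.π₀ ^ 2 else 0 := fun i _ => by
    have := hq i; have := hq J
    split_ifs <;> positivity
  refine key.trans ?_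
  rcases le_or_gt J j with h | h
  · rw [filter_true_of_mem fun i hi => Or.inl ((mem_range.1 hi).trans_le h), min_eq_right h,
      ← q_eq c hP, sq]
    exact le_add_of_nonneg_right (sum_nonneg hn)
  · refine le_add_of_nonneg_of_le (sq_nonneg _) (le_trans ?_ (single_le_sum hn (mem_range.2 h)))
    rw [if_pos ⟨h2, by omega⟩, min_eq_left h.le, mul_comm, mul_div_assoc]
    refine mul_le_mul_of_nonneg_left ((le_div_iff₀ (by positivity)).2 ?_) (hq j)
    rw [q_eq c hP, ← prod_filter_mul_prod_filter_not (range J) fun i => i < j ∨ j + 2 ≤ i]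
    refine mul_le_mul_of_nonneg_left ?_ (prod_nonneg fun _ _ => measureReal_nonneg)
    have hc : ((range J).filter fun i => ¬ (i < j ∨ j + 2 ≤ i)).card ≤ 2 :=
      (card_le_card fun i hi => by
        have := (mem_filter.1 hi).2
        simp only [mem_insert, mem_singleton]
        omega).trans (card_le_two (a := j) (b := j + 1))
    refine (pow_le_pow_of_le_one hπ.le ((c.π₀_le 0).trans measureReal_le_one) hc).trans ?_
    rw [← prod_const]
    exact prod_le_prod (fun _ _ => hπ.le) fun i _ => c.π₀_le i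

lemma geo (hQ : QStmt) (J : ℕ) :
    ∑ j ∈ range J, (c.t (j + 1) : ℝ) * c.q (j + 1) ≤ 2 * (c.t J * c.q J) := by
  induction J with
  | zero => simp [c.t_zero]
  | succ J ih =>
    rw [sum_range_succ]
    suffices h : 2 * (c.t J * c.q J) ≤ (c.t (J + 1) : ℝ) * c.q (J + 1) by linarith
    rcases Nat.eq_zero_or_pos J with rfl | hJ
    · have := (hQ m l c (0 + 1)).2.1
      rw [c.t_zero, Nat.cast_zero, zero_mul, mul_zero]
      positivity
    · have h1 := mul_le_mul_of_nonneg_right (c.two_le J hJ)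
        (mul_nonneg (Nat.cast_nonneg (c.t J)) (hQ m l c J).2.1.le)
      rw [(hQ m l c J).1, c.t_succ hJ]
      push_cast
      linarith

end SecondAux

open SecondAux in
theorem second_thm (hP : ProdStmt) (hQ : QStmt) (hR : RevStmt) (hC : CoordStmt) : SecondStmt := by
  intro m _ l c
  have hπ := c.π₀_pos
  refine ⟨1 + 8 / c.π₀ ^ 3, by positivity, fun J I hJ _ => ?_⟩
  have hq : ∀ i, 0 < c.q i := fun i => (hQ m l c i).2.1
  have ht := c.t_mono hJ
  have h1 : ∀ s ∈ Ico (c.t I) (2 * c.t I), ∑ s' ∈ Ico (c.t I) (2 * c.t I),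
      (IID m).real (c.At J s ∩ c.At J s') ≤
        c.t I * c.q J ^ 2 + 8 / c.π₀ ^ 3 * (c.t I * c.q J ^ 2) := fun s hs => by
    refine (sum_le_sum (g := fun s' => c.q J ^ 2 + ∑ j ∈ range J,
      if s' < s + 2 * c.t (j + 1) ∧ s < s' + 2 * c.t (j + 1) then c.q j * c.q J / c.π₀ ^ 2
      else 0) fun s' hs' => ?_).trans ?_
    · rcases le_total s s' with h | h
      · exact pair c hP hR hC (ht.trans (mem_Ico.1 hs).1) h
      · rw [Set.inter_comm]
        simpa only [and_comm] using pair c hP hR hC (ht.trans (mem_Ico.1 hs').1) h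
    rw [sum_add_distrib, sum_const, Nat.card_Ico, show 2 * c.t I - c.t I = c.t I by omega,
      nsmul_eq_mul, sum_comm]
    refine add_le_add le_rfl ((sum_le_sum (g := fun j => 4 * c.q J / c.π₀ ^ 3 *
      ((c.t (j + 1) : ℝ) * c.q (j + 1))) fun j _ => ?_).trans ?_)
    · rw [← sum_filter, sum_const, nsmul_eq_mul]
      have h2 : (((Ico (c.t I) (2 * c.t I)).filter fun s' => s' < s + 2 * c.t (j + 1) ∧
          s < s' + 2 * c.t (j + 1)).card : ℝ) ≤ 4 * c.t (j + 1) := by
        have := card_le_card (show (Ico (c.t I) (2 * c.t I)).filter (fun s' =>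
            s' < s + 2 * c.t (j + 1) ∧ s < s' + 2 * c.t (j + 1)) ⊆
            Ico (s - 2 * c.t (j + 1)) (s + 2 * c.t (j + 1)) from fun k hk => by
          have := (mem_filter.1 hk).2
          rw [mem_Ico]
          omega)
        rw [Nat.card_Ico] at this
        exact_mod_cast this.trans (by omega)
      have h3 : c.π₀ ^ 1 * c.q j ≤ c.q (j + 1) := (hQ m l c j).2.2 1
      have := hq j; have := hq J
      calc _ ≤ 4 * c.t (j + 1) * (c.q j * c.q J / c.π₀ ^ 2) := by gcongr
        _ = 4 * c.q J / c.π₀ ^ 3 * (c.t (j + 1) * (c.π₀ ^ 1 * c.q j)) := by field_simp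
        _ ≤ _ := by gcongr
    · rw [← mul_sum]
      have := hq J
      calc _ ≤ 4 * c.q J / c.π₀ ^ 3 * (2 * (c.t J * c.q J)) := by gcongr; exact geo c hQ J
        _ ≤ 4 * c.q J / c.π₀ ^ 3 * (2 * (c.t I * c.q J)) := by gcongr
        _ = _ := by ring
  refine (sum_le_sum h1).trans (le_of_eq ?_)
  rw [sum_const, Nat.card_Ico, show 2 * c.t I - c.t I = c.t I by omega, nsmul_eq_mul]
  ring

end Pool.Agent.MP_db8016_pr.HD
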