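import Pool.Agent.MP_db8016_pr.HD.Stmts

/-! The strong Markov inequality for two independent sequences. -/

namespace Pool.Agent.MP_db8016_pr.HD
open MeasureTheory ProbabilityTheory Filter Finset

namespace Sm2Aux

lemma det_first {Q : (ℕ → T) → ℕ → Prop} (hQ : Adapt Q) (n : ℕ) : Det n {a | First Q a n} := by
  intro a a' h ha
  refine ⟨hQ a a' n h ha.1, fun k hk hk' => ha.2 k hk ?_⟩
  exact hQ a' a k (fun i hi => (h i (lt_trans hi hk)).symm) hk'

lemma det_indep (hS : StopStmt) (hI : IidStmt) (m : Measure T) [IsProbabilityMeasure m] {n : ℕ}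
    {A : Set (ℕ → T)} (hA : Det n A) {B : Set (ℕ → T)} (hB : MeasurableSet B) :
    (IID m).real (A ∩ sh n ⁻¹' B) = (IID m).real A * (IID m).real B := by
  have hQ : Adapt fun (a : ℕ → T) k => k = n ∧ a ∈ A := by
    rintro a a' k h ⟨rfl, ha⟩
    exact ⟨rfl, hA a a' h ha⟩
  have hset : {e : ℕ → T | ∃ k, k = n ∧ e ∈ A} = A := by ext e; simp
  have hm : MeasurableSet (sh n ⁻¹' B) := measurable_sh n hB
  have h1 := hS T (IID m) (IID m) _ hQ (sh n ⁻¹' B) Set.univ hm MeasurableSet.univ 1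
    ((IID m).real B) (by
      rintro e k ⟨⟨rfl, -⟩, -⟩
      rw [Set.inter_univ, (hI m e k).2 B hB]
      exact le_of_eq (by ring))
  have h2 := hS T (IID m) (IID m) _ hQ Set.univ (sh n ⁻¹' B) MeasurableSet.univ hm
    ((IID m).real B) 1 (by
      rintro e k ⟨⟨rfl, -⟩, -⟩
      rw [Set.inter_univ, (hI m e k).2 B hB]
      exact le_of_eq (by ring))
  rw [hset, Set.inter_univ] at h1 h2
  linarith

lemma map_restrict (hS : StopStmt) (hI : IidStmt) (m : Measure T) [IsProbabilityMeasure m] {n : ℕ}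
    {A : Set (ℕ → T)} (hA : Det n A) :
    ((IID m).restrict A).map (sh n) = IID m A • IID m := by
  ext B hB
  rw [Measure.map_apply (measurable_sh n) hB, Measure.restrict_apply (measurable_sh n hB),
    Measure.smul_apply, smul_eq_mul, Set.inter_comm]
  have h := det_indep hS hI m hA hB
  simp only [Measure.real, ← ENNReal.toReal_mul] at h
  exact (ENNReal.toReal_eq_toReal_iff' (measure_ne_top _ _)
    (ENNReal.mul_ne_top (measure_ne_top _ _) (measure_ne_top _ _))).1 h

lemma two_shift (hS : StopStmt) (hI : IidStmt) (m : Measure T) [IsProbabilityMeasure m]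
    {n n' : ℕ} {A B : Set (ℕ → T)} (hA : Det n A) (hB : Det n' B)
    {E : Set ((ℕ → T) × (ℕ → T))} (hE : MeasurableSet E) :
    IID2 m (Prod.map (sh n) (sh n') ⁻¹' E ∩ A ×ˢ B) = IID m A * IID m B * IID2 m E := by
  have hm : Measurable (Prod.map (sh n) (sh n') : (ℕ → T) × (ℕ → T) → (ℕ → T) × (ℕ → T)) :=
    (measurable_sh n).prodMap (measurable_sh n')
  rw [← Measure.restrict_apply (hm hE), ← Measure.map_apply hm hE, IID2,
    ← Measure.prod_restrict, ← Measure.map_prod_map _ _ (measurable_sh n) (measurable_sh n'),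
    map_restrict hS hI m hA, map_restrict hS hI m hB, Measure.prod_smul_left,
    Measure.prod_smul_right, Measure.smul_apply, Measure.smul_apply, smul_eq_mul, smul_eq_mul,
    mul_assoc]

lemma meas_exists (m : Measure T) {Q : (ℕ → T) → ℕ → Prop} (hQ : Adapt Q) :
    IID m {a | ∃ n, Q a n} = ∑' n, IID m {a | First Q a n} := by
  rw [← measure_iUnion]
  · congr 1
    ext a
    simp only [Set.mem_iUnion, Set.mem_ofPred_eq]
    exact ⟨fun ⟨_, h⟩ => (exists_first h).imp fun _ h' => h'.2, fun ⟨n, h⟩ => ⟨n, h.1⟩⟩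
  · intro i j hij
    exact Set.disjoint_left.2 fun a h h' => hij (First.unique h h')
  · exact fun n => (det_first hQ n).measurableSet

end Sm2Aux

open Sm2Aux in
theorem sm2_thm (hS : StopStmt) (hF : FubStmt) (hI : IidStmt) : SM2Stmt := by
  intro m _ Q Q' hQ hQ' E c hc hE h
  have _ := hF
  have hset : {x : (ℕ → T) × (ℕ → T) |
      ∃ n n', First Q x.1 n ∧ First Q' x.2 n' ∧ (sh n x.1, sh n' x.2) ∈ E n n'} =
      ⋃ p : ℕ × ℕ, Prod.map (sh p.1) (sh p.2) ⁻¹' E p.1 p.2 ∩
        {a | First Q a p.1} ×ˢ {b | First Q' b p.2} := by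
    ext x
    simp only [Set.mem_iUnion, Set.mem_ofPred_eq, Set.mem_inter_iff, Set.mem_preimage,
      Set.mem_prod, Prod.exists]
    exact ⟨fun ⟨n, n', h1, h2, h3⟩ => ⟨n, n', h3, h1, h2⟩,
      fun ⟨n, n', h3, h1, h2⟩ => ⟨n, n', h1, h2, h3⟩⟩
  have hle : ENNReal.ofReal c * IID m {a | ∃ n, Q a n} * IID m {b | ∃ n', Q' b n'} ≤
      IID2 m {x : (ℕ → T) × (ℕ → T) |
        ∃ n n', First Q x.1 n ∧ First Q' x.2 n' ∧ (sh n x.1, sh n' x.2) ∈ E n n'} := by
    rw [hset, measure_iUnion, meas_exists m hQ, meas_exists m hQ', ENNReal.tsum_prod', mul_assoc,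
      ← ENNReal.tsum_mul_right, ← ENNReal.tsum_mul_left]
    · refine ENNReal.tsum_le_tsum fun n => ?_
      rw [← ENNReal.tsum_mul_left, ← ENNReal.tsum_mul_left]
      refine ENNReal.tsum_le_tsum fun n' => ?_
      rw [two_shift hS hI m (det_first hQ n) (det_first hQ' n') (hE n n')]
      rcases Set.eq_empty_or_nonempty {a | First Q a n} with h1 | ⟨a, ha⟩
      · simp [h1]
      rcases Set.eq_empty_or_nonempty {b | First Q' b n'} with h2 | ⟨b, hb⟩
      · simp [h2]
      rw [mul_comm]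
      gcongr
      exact ENNReal.ofReal_le_of_le_toReal (h a n b n' ha hb)
    · rintro ⟨i, i'⟩ ⟨j, j'⟩ hij
      refine Set.disjoint_left.2 fun x h1 h2 => hij ?_
      exact Prod.ext (First.unique h1.2.1 h2.2.1) (First.unique h1.2.2 h2.2.2)
    · exact fun p => ((measurable_sh p.1).prodMap (measurable_sh p.2) (hE p.1 p.2)).inter
        ((det_first hQ p.1).measurableSet.prod (det_first hQ' p.2).measurableSet)
  have := ENNReal.toReal_mono (measure_ne_top _ _) hle
  rwa [ENNReal.toReal_mul, ENNReal.toReal_mul, ENNReal.toReal_ofReal hc] at this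

end Pool.Agent.MP_db8016_pr.HD
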