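import Pool.Agent.MP_db8016_pr.HD.Stmts

/-! Polynomial speed of the range of the levels. -/

namespace Pool.Agent.MP_db8016_pr.HD
open MeasureTheory ProbabilityTheory Filter Finset

namespace SpeedAux

lemma le_r {m : Measure T} {l : Lat m} (c : Cut l) {i : ℕ} (hi : 1 ≤ i) : i ≤ c.r i := by
  induction i, hi using Nat.le_induction with
  | base => rw [c.r_one]
  | succ i hi ih =>
    rw [c.r_succ i hi]
    have := c.hμ; have := c.hK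
    nlinarith

/-- On the cut event of depth `I` the range `w` is reached with conditional probability `1/2`. -/
def phi (W : Model) (ℓ : Lev W) (c : Cut W.l) (w : ℝ) (I : ℕ) : Prop :=
  1 / 2 * c.q I ≤ W.M.real (W.lift (c.C I) ∩ ℓ.Th w (c.t I))

lemma phi_le (hQ : QStmt) {W : Model} {ℓ : Lev W} {c : Cut W.l} {w : ℝ} {I : ℕ}
    (h : phi W ℓ c w I) : w ≤ c.t I := by
  by_contra h'
  have e : W.lift (c.C I) ∩ ℓ.Th w (c.t I) = ∅ :=
    Set.eq_empty_of_forall_notMem fun x hx => h' (Lev.Rng.le ℓ hx.2)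
  have := (hQ W.m W.l c I).2.1
  rw [phi, e, measureReal_empty] at h
  linarith

lemma phi_of (hQ : QStmt) {W : Model} {ℓ : Lev W} {c : Cut W.l} {w : ℝ} {I : ℕ}
    (h : 7 / 8 * c.q I ≤ W.M.real (W.lift (c.C I) ∩ ℓ.Th w (c.t I))) : phi W ℓ c w I := by
  have := (hQ W.m W.l c I).2.1
  unfold phi
  linarith

end SpeedAux

open SpeedAux in
theorem speed_thm (h2 : X2Stmt) (h3 : X3Stmt) (h5 : X5Stmt) (h6 : X6Stmt) (hR : RunStmt)
    (hS : StartStmt) (hQ : QStmt) : SpeedStmt := by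
  classical
  intro W ℓ c
  have hβ := ℓ.hβ
  have hβ1 := ℓ.β_le_one
  obtain ⟨K5, b5, hK5, hb5, H5⟩ := h5 W ℓ c
  obtain ⟨k0, H0⟩ := h2 W ℓ c K5 b5 hK5 hb5
  obtain ⟨Ca, -, Ha⟩ := h3 W ℓ c K5 b5 hK5 hb5
  obtain ⟨Cb, -, Hb⟩ := h3 W ℓ.neg c K5 b5 hK5 hb5
  obtain ⟨K6, hK6, H6⟩ := h6 W ℓ c
  obtain ⟨b6, hb6, H6⟩ := H6 (k0 + 1)
  obtain ⟨k6, H7⟩ := h2 W ℓ c K6 b6 hK6 hb6
  obtain ⟨j, hj⟩ := exists_nat_ge (8 * ((Ca + Cb : ℕ) * (c.μ ^ 2 * c.A : ℕ) : ℝ) / ℓ.β)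
  rw [div_le_iff₀ hβ] at hj
  obtain ⟨Na, hNa, Ra⟩ := hR W ℓ j
  obtain ⟨Nb, -, Rb⟩ := hR W ℓ.neg j
  obtain ⟨i0, hi0⟩ := exists_nat_ge (8 / ℓ.β)
  rw [div_le_iff₀ hβ] at hi0
  have i1 : 1 ≤ i0 := by
    rcases Nat.eq_zero_or_pos i0 with e | e
    · rw [e] at hi0
      norm_num at hi0
    · exact e
  obtain ⟨N, hN⟩ : ∃ N, N = Na + Nb := ⟨_, rfl⟩
  have N0 : (0 : ℝ) < N := by exact_mod_cast (show 0 < N by omega)
  obtain ⟨w0, hw0⟩ : ∃ w0, w0 = N + c.t i0 := ⟨_, rfl⟩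
  have hw0' : (w0 : ℝ) = N + c.t i0 := by rw [hw0]; push_cast; rfl
  have step : ∀ (w : ℝ) (I : ℕ), (w0 : ℝ) ≤ w → phi W ℓ c w I →
      phi W ℓ c (w + w / N) (I + (k0 + k6 + 1)) := by
    intro w I hw h
    have ex : ∃ I, phi W ℓ c w I := ⟨I, h⟩
    have f1 := Nat.find_spec ex
    have f2 := Nat.find_min' ex h
    have f3 := fun i => Nat.find_min ex (m := i)
    generalize Nat.find ex = I' at f1 f2 f3
    have t0 : (0 : ℝ) ≤ c.t i0 := Nat.cast_nonneg _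
    have f4 : i0 < I' := by
      refine lt_of_not_ge fun e => ?_
      have e1 : (c.t I' : ℝ) ≤ c.t i0 := by exact_mod_cast c.t_mono e
      linarith [phi_le hQ f1]
    obtain ⟨I0, rfl⟩ : ∃ I0, I' = I0 + 1 := ⟨I' - 1, by omega⟩
    have I1 : 1 ≤ I0 := by omega
    have E := H5 w (I0 + 1) (by omega) f1
    have r1 : (i0 : ℝ) ≤ c.r I0 := by exact_mod_cast (show i0 ≤ I0 by omega).trans (le_r c I1)
    have r2 : (1 : ℝ) ≤ c.r I0 := by exact_mod_cast c.one_le_r I1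
    have r3 : 8 ≤ ℓ.β * (c.r I0 : ℝ) ^ 2 := by nlinarith [mul_le_mul_of_nonneg_right r1 hβ.le]
    obtain ⟨t', g1, g2⟩ : ∃ t' : ℕ, (t' : ℝ) ≤ ℓ.β * (c.r I0 : ℝ) ^ 2 / 4 ∧
        ℓ.β * (c.r I0 : ℝ) ^ 2 / 8 ≤ t' :=
      ⟨⌊ℓ.β * (c.r I0 : ℝ) ^ 2 / 4⌋₊, Nat.floor_le (by positivity), by
        linarith [Nat.lt_floor_add_one (ℓ.β * (c.r I0 : ℝ) ^ 2 / 4)]⟩
    have g3 : (Ca + Cb) * c.t (I0 + 1) ≤ j * t' := by
      rw [c.t_succ I1, c.t_eq _ I1, ← mul_assoc (c.μ ^ 2), ← mul_assoc, ← @Nat.cast_le ℝ,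
        Nat.cast_mul, Nat.cast_mul, Nat.cast_mul j, Nat.cast_pow (c.r I0)]
      nlinarith [mul_le_mul_of_nonneg_left g2 (Nat.cast_nonneg (α := ℝ) j),
        mul_le_mul_of_nonneg_right hj (sq_nonneg (c.r I0 : ℝ))]
    have g4 : t' ≤ c.t (I0 + (k0 + 1)) := by
      refine le_trans ?_ (c.t_mono (Nat.le_add_right _ _))
      have : (1 : ℝ) ≤ c.A := by exact_mod_cast c.hA
      rw [c.t_eq _ I1, ← @Nat.cast_le ℝ]
      push_cast
      nlinarith [sq_nonneg (c.r I0 : ℝ)]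
    have g5 : (0 : ℤ) < c.r I0 := by exact_mod_cast c.one_le_r I1
    have g6 : (t' : ℝ) ≤ ℓ.β * (((c.r I0 : ℕ) : ℤ) : ℝ) ^ 2 / 4 := by rwa [Int.cast_natCast]
    have u1 := Ra N (by omega) w t' (c.r I0) (by linarith) g5 g6 ((Ha w _ (by omega) E).trans
      (measureReal_mono (ℓ.Up_mono le_rfl ((Nat.mul_le_mul_right _ (by omega)).trans g3))))
    have u2 := Rb N (by omega) w t' (c.r I0) (by linarith) g5 g6
      ((Hb w _ (by omega) (ℓ.neg_Exit E)).trans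
      (measureReal_mono (ℓ.neg.Up_mono le_rfl ((Nat.mul_le_mul_right _ (by omega)).trans g3))))
    exact phi_of hQ (H7 _ _ (by omega) (H6 w (w / N) I0 t' I1 (by linarith) g4
      (not_le.1 (f3 I0 (by omega))).le (H0 w _ (by omega) E _ (by omega)) u1 u2) _ (by omega))
  obtain ⟨k7, H8⟩ := h2 W ℓ c 1 (W.κ ^ w0) le_rfl (pow_pos W.hκ _)
  have s1 := le_r c (show 1 ≤ w0 + 1 by omega)
  have s2 := c.r_le_t (show 1 ≤ w0 + 1 by omega)
  have st := phi_of hQ (H8 w0 (w0 + 1) (by omega)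
    (hS W ℓ w0 _ _ (by omega) (by exact_mod_cast (show w0 < 1 * c.r (w0 + 1) by omega))) _ le_rfl)
  have a1 : (1 : ℝ) < 1 + 1 / N := lt_add_of_pos_right _ (by positivity)
  have w1 : (0 : ℝ) < w0 := by exact_mod_cast (show 0 < w0 by omega)
  have all : ∀ k, phi W ℓ c ((1 + 1 / N) ^ k * w0) (w0 + 1 + k7 + k * (k0 + k6 + 1)) := by
    intro k
    induction k with
    | zero => simpa using st
    | succ k ih =>
      have := step _ _ (le_mul_of_one_le_left w1.le (one_le_pow₀ a1.le)) ih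
      rwa [show (1 + 1 / (N : ℝ)) ^ k * w0 + (1 + 1 / (N : ℝ)) ^ k * w0 / N =
          (1 + 1 / (N : ℝ)) ^ (k + 1) * w0 by ring,
        show w0 + 1 + k7 + k * (k0 + k6 + 1) + (k0 + k6 + 1) =
          w0 + 1 + k7 + (k + 1) * (k0 + k6 + 1) by ring] at this
  exact ⟨1 + 1 / N, w0, k0 + k6 + 1, Ca, w0 + 1 + k7, a1, w1, by omega, by omega,
    fun k => Ha _ _ (by omega) (H5 _ _ (by omega) (all k))⟩

end Pool.Agent.MP_db8016_pr.HD
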