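import Pool.Agent.MP_db8016_pr.HD.Stmts

/-! One stage: two disjoint ways from a standard position to the next one. -/

namespace Pool.Agent.MP_db8016_pr.HD
open MeasureTheory ProbabilityTheory Filter Finset

namespace StageAux

lemma ph_congr {m : Measure T} (l : Lat m) {h₁ M₁ h₂ M₂ : ℤ} {a a' : ℕ → T} {n : ℕ}
    (h : ∀ i < n, a' i = a i) (hp : l.Ph h₁ M₁ h₂ M₂ a n) : l.Ph h₁ M₁ h₂ M₂ a' n := by
  refine ⟨fun k hk => ?_, ?_⟩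
  · rw [l.U_congr h hk, l.V_congr h hk]
    exact hp.1 k hk
  · rw [l.U_congr h le_rfl]
    exact hp.2

lemma sh_congr {a a' : ℕ → T} {n s k : ℕ} (h : ∀ i < n, a' i = a i) (hk : s + k ≤ n) :
    ∀ i < k, sh s a' i = sh s a i := fun i hi => h (s + i) (by omega)

lemma way2_congr {m : Measure T} (l : Lat m) {ρ h H K₀ a₁ X₁ a₂ X₂ a₃ X₃ : ℤ} {a a' : ℕ → T}
    {n : ℕ} (he : ∀ i < n, a' i = a i) (hp : l.Way2 ρ h H K₀ a₁ X₁ a₂ X₂ a₃ X₃ a n) :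
    l.Way2 ρ h H K₀ a₁ X₁ a₂ X₂ a₃ X₃ a' n := by
  obtain ⟨n₁, n₂, n₃, n₄, n₅, hn, p1, p2, p3, p4, p5⟩ := hp
  refine ⟨n₁, n₂, n₃, n₄, n₅, hn, ph_congr _ (fun i hi => he i (by omega)) p1,
    ph_congr _ (sh_congr he (by omega)) p2, ph_congr _ (sh_congr he (by omega)) p3,
    ph_congr _ (sh_congr he (by omega)) p4, ph_congr _ (sh_congr he (by omega)) p5⟩

lemma meas_first {Q : (ℕ → T) → ℕ → Prop} (hQ : Adapt Q) (n : ℕ) :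
    MeasurableSet {a | First Q a n} := by
  refine Det.measurableSet (n := n) ?_
  intro a a' h ha
  refine ⟨hQ a a' n h ha.1, fun k hk hq => ha.2 k hk ?_⟩
  exact hQ a' a k (fun i hi => (h i (by omega)).symm) hq

lemma meas_pair {Q : (ℕ → T) → ℕ → Prop} (hQ : Adapt Q)
    {E : ℕ → ℕ → Set ((ℕ → T) × (ℕ → T))} (hE : ∀ n n', MeasurableSet (E n n')) :
    MeasurableSet {x : (ℕ → T) × (ℕ → T) | ∃ n n', First Q x.1 n ∧ First Q x.2 n' ∧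
      (sh n x.1, sh n' x.2) ∈ E n n'} := by
  have : {x : (ℕ → T) × (ℕ → T) | ∃ n n', First Q x.1 n ∧ First Q x.2 n' ∧
      (sh n x.1, sh n' x.2) ∈ E n n'} = ⋃ n, ⋃ n', (Prod.fst ⁻¹' {a | First Q a n}) ∩
        ((Prod.snd ⁻¹' {a | First Q a n'}) ∩
          (fun x : (ℕ → T) × (ℕ → T) => (sh n x.1, sh n' x.2)) ⁻¹' E n n') := by
    ext x
    simp only [Set.mem_iUnion, Set.mem_inter_iff, Set.mem_preimage, Set.mem_ofPred_eq]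
  rw [this]
  refine MeasurableSet.iUnion fun n => MeasurableSet.iUnion fun n' => ?_
  refine (measurable_fst (meas_first hQ n)).inter ((measurable_snd (meas_first hQ n')).inter ?_)
  exact (((measurable_sh n).comp measurable_fst).prodMk
    ((measurable_sh n').comp measurable_snd)) (hE n n')

lemma climb_low (hC : ClimbStmt) (m : Measure T) [IsProbabilityMeasure m] (l : Lat m) (ε : ℝ)
    (hε : 0 < ε) : ∃ (K₁ : ℤ) (A₁ : ℕ), 1 ≤ K₁ ∧ 1 ≤ A₁ ∧ ∀ ρ lam : ℤ, 0 < ρ → 1 ≤ lam →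
      (1 - ε) / (lam : ℝ) ^ 2 ≤ (IID m).real {a | ∃ n : ℕ, (n : ℤ) ≤ A₁ * (lam ^ 2 * ρ) ^ 2 ∧
        l.Ph ρ (lam ^ 2 * ρ - ρ) (K₁ * (lam ^ 2 * ρ)) (K₁ * (lam ^ 2 * ρ)) a n} := by
  have hp := l.hp
  have hq := l.hq
  obtain ⟨N, hN⟩ := exists_nat_ge (2 * (l.q / l.p) / ε)
  obtain ⟨B, hB⟩ := exists_nat_ge (1 / (l.p * ε))
  refine ⟨(N : ℤ) + 1, B + 1, by omega, by omega, fun ρ lam hρ hl => ?_⟩
  set H : ℤ := lam ^ 2 * ρ with hH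
  have hl2 : 1 ≤ lam ^ 2 := one_le_pow₀ hl
  have hρH : ρ ≤ H := by nlinarith
  have hH0 : 0 < H := by omega
  obtain ⟨Hn, hHn⟩ : ∃ Hn : ℕ, (Hn : ℤ) = H := ⟨H.toNat, Int.toNat_of_nonneg hH0.le⟩
  have hHn0 : 0 < Hn := by omega
  have key := hC m l ρ H (((N : ℤ) + 1) * H) ((B + 1) * Hn ^ 2) hρ hρH (by positivity)
    (by positivity)
  have hset : {a | ∃ n ≤ (B + 1) * Hn ^ 2,
      l.Ph ρ (H - ρ) (((N : ℤ) + 1) * H) (((N : ℤ) + 1) * H) a n} =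
      {a | ∃ n : ℕ, (n : ℤ) ≤ ((B + 1 : ℕ) : ℤ) * H ^ 2 ∧
        l.Ph ρ (H - ρ) (((N : ℤ) + 1) * H) (((N : ℤ) + 1) * H) a n} := by
    ext a
    simp only [Set.mem_ofPred_eq]
    refine exists_congr fun n => and_congr_left fun _ => ?_
    rw [← hHn]
    exact_mod_cast Iff.rfl
  rw [hset] at key
  refine le_trans ?_ key
  have hHr : (0 : ℝ) < H := by exact_mod_cast hH0
  have hρr : (0 : ℝ) < ρ := by exact_mod_cast hρ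
  have hlr : (1 : ℝ) ≤ lam := by exact_mod_cast hl
  have hHnr : (Hn : ℝ) = H := by exact_mod_cast hHn
  have e1 : (ρ : ℝ) / H = 1 / (lam : ℝ) ^ 2 := by
    rw [hH]; push_cast; field_simp
  have e2 : l.q / l.p * (H : ℝ) ^ 2 / ((((N : ℤ) + 1) * H : ℤ) : ℝ) ^ 2 =
      l.q / l.p / ((N : ℝ) + 1) ^ 2 := by
    push_cast; field_simp
  have e3 : (H : ℝ) ^ 2 / (2 * l.p * (((B + 1) * Hn ^ 2 : ℕ) : ℝ)) =
      1 / (2 * l.p * ((B : ℝ) + 1)) := by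
    push_cast; rw [hHnr]; field_simp
  rw [e1, e2, e3]
  have hN0 : (0 : ℝ) ≤ N := Nat.cast_nonneg _
  have hB0 : (0 : ℝ) ≤ B := Nat.cast_nonneg _
  have b2 : l.q / l.p / ((N : ℝ) + 1) ^ 2 ≤ ε / 2 := by
    rw [div_le_iff₀ (by positivity)]
    rw [div_le_iff₀ hε] at hN
    nlinarith [mul_nonneg hε.le (sq_nonneg (N : ℝ))]
  have b3 : 1 / (2 * l.p * ((B : ℝ) + 1)) ≤ ε / 2 := by
    rw [div_le_iff₀ (by positivity)]
    rw [div_le_iff₀ (by positivity)] at hB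
    nlinarith [mul_pos hp hε]
  rw [div_eq_mul_one_div (1 - ε), mul_comm]
  exact mul_le_mul_of_nonneg_left (by linarith) (by positivity)

end StageAux
open StageAux

theorem stage_thm (hC : ClimbStmt) (hW : Way2Prob) (h2 : SM2Stmt) (g1 : Way1Geo) (g2 : Way2Geo)
    (g12 : Way12Geo) : StageStmt := by
  intro m _ l
  obtain ⟨K₀, a₁, X₁, a₂, X₂, a₃, X₃, Aw, cw, hcw, hK0, ha1, hX1, ha2, hX2, ha3, hX3, hw⟩ := hW m l
  set c₀ : ℝ := min cw 1 with hc₀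
  have hc0 : 0 < c₀ := lt_min hcw one_pos
  have hc1 : c₀ ≤ 1 := min_le_right _ _
  have hc2 : c₀ ≤ cw := min_le_left _ _
  obtain ⟨K₁, A₁, hK1, hA1, hcl⟩ := climb_low hC m l (c₀ ^ 2 / 4) (by positivity)
  refine ⟨K₁ + 1 + K₀ + 1 + a₁ + X₁ + a₂ + X₂ + a₃ + X₃, max A₁ Aw, c₀ ^ 2 / 2, by positivity,
    by omega, hA1.trans (le_max_left _ _), ?_⟩
  intro lam K' ρ g hK hK' hρ hg hgρ E b hb hE hEb
  have hl : 1 ≤ lam := by omega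
  set H : ℤ := lam ^ 2 * ρ with hH
  have hh0 : 0 < lam * ρ := by positivity
  have hρh : ρ ≤ lam * ρ := by nlinarith
  have hHh : H = lam * (lam * ρ) := by rw [hH]; ring
  have hhH : lam * ρ ≤ H := by rw [hHh]; nlinarith
  have hKh : K' * ρ ≤ lam * ρ := mul_le_mul_of_nonneg_right hK' hρ.le
  have hA1' : (A₁ : ℤ) * H ^ 2 ≤ ((max A₁ Aw : ℕ) : ℤ) * H ^ 2 :=
    mul_le_mul_of_nonneg_right (by exact_mod_cast le_max_left _ _) (sq_nonneg _)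
  have hAw' : (Aw : ℤ) * H ^ 2 ≤ ((max A₁ Aw : ℕ) : ℤ) * H ^ 2 :=
    mul_le_mul_of_nonneg_right (by exact_mod_cast le_max_right _ _) (sq_nonneg _)
  let Q₁ : (ℕ → T) → ℕ → Prop := fun a n => (n : ℤ) ≤ ((max A₁ Aw : ℕ) : ℤ) * H ^ 2 ∧
    l.Ph ρ (H - ρ) (K₁ * H) (K₁ * H) a n
  let Q₂ : (ℕ → T) → ℕ → Prop := fun a n => (n : ℤ) ≤ ((max A₁ Aw : ℕ) : ℤ) * H ^ 2 ∧
    l.Way2 ρ (lam * ρ) H K₀ a₁ X₁ a₂ X₂ a₃ X₃ a n
  have hQ1 : Adapt Q₁ := fun a a' n h hq => ⟨hq.1, ph_congr l h hq.2⟩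
  have hQ2 : Adapt Q₂ := fun a a' n h hq => ⟨hq.1, way2_congr l h hq.2⟩
  have p1 : (1 - c₀ ^ 2 / 4) / (lam : ℝ) ^ 2 ≤ (IID m).real {a | ∃ n, Q₁ a n} :=
    (hcl ρ lam hρ hl).trans (measureReal_mono fun a ⟨n, h1, h2⟩ => ⟨n, h1.trans hA1', h2⟩)
  have hlr : (1 : ℝ) ≤ lam := by exact_mod_cast hl
  have p2 : c₀ / (lam : ℝ) ^ 2 ≤ (IID m).real {a | ∃ n, Q₂ a n} :=
    (div_le_div_of_nonneg_right hc2 (by positivity)).trans ((hw ρ lam hρ hl).trans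
      (measureReal_mono fun a ⟨n, h1, h2⟩ => ⟨n, h1.trans hAw', h2⟩))
  have s1 := h2 m Q₁ Q₁ hQ1 hQ1 E b hb hE fun _ n _ n' h h' => hEb n n' h.1.1 h'.1.1
  have s2 := h2 m Q₂ Q₂ hQ2 hQ2 E b hb hE fun _ n _ n' h h' => hEb n n' h.1.1 h'.1.1
  have hdis : Disjoint {x : (ℕ → T) × (ℕ → T) | ∃ n n', First Q₁ x.1 n ∧ First Q₁ x.2 n' ∧
      (sh n x.1, sh n' x.2) ∈ E n n'} {x : (ℕ → T) × (ℕ → T) | ∃ n n', First Q₂ x.1 n ∧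
      First Q₂ x.2 n' ∧ (sh n x.1, sh n' x.2) ∈ E n n'} := by
    rw [Set.disjoint_left]
    rintro x ⟨n, -, h1, -, -⟩ ⟨k, -, h3, -, -⟩
    refine g12 m l ρ (lam * ρ) H K₀ a₁ X₁ a₂ X₂ a₃ X₃ (K₁ * H) x.1 k n hh0 hX1 ha2 ?_ h3.1.2 h1.1.2
    rw [hHh]
    exact mul_le_mul_of_nonneg_right (by omega) hh0.le
  have hun := measureReal_union (μ := IID2 m) hdis (meas_pair hQ2 hE)
  refine le_trans ?_ (measureReal_mono (s₁ := {x : (ℕ → T) × (ℕ → T) | ∃ n n', First Q₁ x.1 n ∧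
      First Q₁ x.2 n' ∧ (sh n x.1, sh n' x.2) ∈ E n n'} ∪ {x : (ℕ → T) × (ℕ → T) | ∃ n n',
      First Q₂ x.1 n ∧ First Q₂ x.2 n' ∧ (sh n x.1, sh n' x.2) ∈ E n n'}) ?_)
  · rw [hun]
    refine le_trans ?_ (add_le_add s1 s2)
    have hc3 : c₀ ^ 2 ≤ 1 := by nlinarith
    have u1 : 0 ≤ (1 - c₀ ^ 2 / 4) / (lam : ℝ) ^ 2 := div_nonneg (by linarith) (by positivity)
    have u2 : 0 ≤ c₀ / (lam : ℝ) ^ 2 := by positivity
    have v1 := mul_le_mul p1 p1 u1 measureReal_nonneg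
    have v2 := mul_le_mul p2 p2 u2 measureReal_nonneg
    have w : (1 + c₀ ^ 2 / 2) / (lam : ℝ) ^ 4 ≤
        (1 - c₀ ^ 2 / 4) / (lam : ℝ) ^ 2 * ((1 - c₀ ^ 2 / 4) / (lam : ℝ) ^ 2) +
          c₀ / (lam : ℝ) ^ 2 * (c₀ / (lam : ℝ) ^ 2) := by
      have : (1 - c₀ ^ 2 / 4) / (lam : ℝ) ^ 2 * ((1 - c₀ ^ 2 / 4) / (lam : ℝ) ^ 2) +
          c₀ / (lam : ℝ) ^ 2 * (c₀ / (lam : ℝ) ^ 2) =
          ((1 - c₀ ^ 2 / 4) ^ 2 + c₀ ^ 2) / (lam : ℝ) ^ 4 := by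
        field_simp
      rw [this]
      exact div_le_div_of_nonneg_right (by nlinarith [sq_nonneg (c₀ ^ 2)]) (by positivity)
    rw [mul_assoc, mul_assoc, ← mul_add, mul_comm]
    exact mul_le_mul_of_nonneg_left (w.trans (add_le_add v1 v2)) hb
  · rintro x (⟨n, n', h1, h3, h4⟩ | ⟨n, n', h1, h3, h4⟩)
    · exact ⟨n, n', h1.1.1, h3.1.1, g1 m l ρ H g K' K₁ _ x.1 x.2 n n' hρ (hρh.trans hhH) hg
        (hKh.trans hhH) hK1 (by omega) h1.1.2 h3.1.2, h4⟩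
    · refine ⟨n, n', h1.1.1, h3.1.1, g2 m l ρ (lam * ρ) H g K' K₀ a₁ X₁ a₂ X₂ a₃ X₃ _ x.1 x.2 n n'
        hρ hρh hg hgρ hKh hK0 ha1 hX1 (by omega) hX2 ha3 hX3 ?_ (by omega) h1.1.2 h3.1.2, h4⟩
      rw [hHh]
      exact mul_le_mul_of_nonneg_right (by omega) hh0.le

end Pool.Agent.MP_db8016_pr.HD
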