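import Pool.Agent.MP_db8016_pr.HD.Stmts

namespace Pool.Agent.MP_db8016_pr.HD
open MeasureTheory ProbabilityTheory Filter Finset

namespace TransferAux

lemma part {Ω β : Type} [MeasurableSpace Ω] [Fintype β] (ρ : Measure Ω) [IsFiniteMeasure ρ]
    (g : Ω → β) (hg : ∀ b, MeasurableSet (g ⁻¹' {b})) (A : Set Ω) :
    ρ.real A = ∑ b, ρ.real (A ∩ g ⁻¹' {b}) := by
  have h := sum_measure_preimage_singleton (μ := ρ.restrict A) Finset.univ (f := g)
    (fun b _ => hg b)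
  simp only [coe_univ, Set.preimage_univ, Measure.restrict_apply_univ] at h
  simp only [Measure.real]
  rw [← h, ENNReal.toReal_sum (fun b _ => measure_ne_top _ _)]
  refine sum_congr rfl fun b _ => ?_
  rw [Measure.restrict_apply (hg b), Set.inter_comm]

/-- The first `s` terms. -/
def res {α : Type} (s : ℕ) (a : ℕ → α) : Fin s → α := fun i => a i

/-- A finite word, continued by a constant. -/
def ext {α : Type} (x : α) {s : ℕ} (d : Fin s → α) : ℕ → α :=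
  fun i => if h : i < s then d ⟨i, h⟩ else x

lemma res_eq_iff {α : Type} (x : α) {s : ℕ} (d : Fin s → α) (a : ℕ → α) :
    res s a = d ↔ a ∈ Cy (ext x d) s := by
  constructor
  · rintro rfl i hi
    simp [ext, res, hi]
  · intro h
    funext i
    have := h i i.2
    simpa [ext, res] using this

lemma Y_rev {m : Measure T} (l : Lat m) (a : ℕ → T) (s s' : ℕ) (h : s' ≤ s) :
    l.Y (rev s a) s' + l.Y a (s - s') = l.Y a s := by
  induction s' with
  | zero => simp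
  | succ k ih =>
    have h1 := ih (by omega)
    have h2 : s - k = (s - (k + 1)) + 1 := by omega
    rw [h2, l.Y_succ] at h1
    rw [l.Y_succ, ← h1]
    have h3 : rev s a k = a (s - (k + 1)) := by
      simp only [rev]; congr 1; omega
    rw [h3]; abel

lemma rev_congr {α : Type} {s : ℕ} {a a' : ℕ → α} (h : ∀ i < s, a' i = a i) :
    ∀ i < s, rev s a' i = rev s a i := fun i hi => h _ (by omega)

/-- The hypothesis on `J`. -/
def Hyp (W : Model) (e : ℕ → W.D) (n s : ℕ) (J : Set ((ℕ → W.D) × (ℕ → T))) : Prop :=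
  ∀ x ∈ J, ∃ k, (∀ y : (ℕ → W.D) × (ℕ → T), (∀ i < k, y.1 i = x.1 i) →
      (∀ i < s, y.2 i = x.2 i) → y ∈ J) ∧
    (∀ j < k, ∀ s' ≤ s, 1 ≤ s' → W.l.Y (W.la x.1) j + W.l.Y x.2 s' ≠ 0) ∧
    (∀ j < k, ∀ i < n, W.l.Y (W.la e) i ≠
      W.l.Y (W.la e) n + W.l.Y x.2 s + W.l.Y (W.la x.1) j)

variable {W : Model} {e : ℕ → W.D} {n s : ℕ} {J : Set ((ℕ → W.D) × (ℕ → T))}

lemma Hyp.congr (h : Hyp W e n s J) {e' : ℕ → W.D} {b b' : ℕ → T} (hb : ∀ i < s, b' i = b i)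
    (hx : (e', b) ∈ J) : (e', b') ∈ J := by
  obtain ⟨k, hk, -⟩ := h _ hx
  exact hk (e', b') (fun _ _ => rfl) hb

lemma one_word (hF : FreshStmt) (h : Hyp W e n s J) (D : ℕ → W.D) (b : ℕ → T)
    (hb : rev s (W.la D) ∈ Cy b s) :
    W.cS (Model.cat e n D) (n + s) {e' | (e', b) ∈ J} =
      W.S.real (Cy (Model.cat e n D) (n + s)) * W.S.real {e' | (e', b) ∈ J} := by
  refine hF W _ _ _ fun e' he' => ?_
  obtain ⟨k, hk, h2, h3⟩ := h _ he'
  refine ⟨k, fun y hy => hk (y, b) hy fun _ _ => rfl, fun i hi j hj heq => ?_⟩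
  have h4 := congrArg W.Y heq
  rw [map_add, W.Y_X, W.Y_X, W.Y_X, W.l.Y_add, ← W.la_sh, Model.sh_cat] at h4
  have h5 : ∀ i ≤ n, W.l.Y (W.la (Model.cat e n D)) i = W.l.Y (W.la e) i := fun i hi =>
    W.l.Y_congr (n := n) (fun i hi => by simp [Model.la, Model.cat, hi]) hi
  have h6 : ∀ s' ≤ s, W.l.Y b s' + W.l.Y (W.la D) (s - s') = W.l.Y (W.la D) s := fun s' hs' => by
    rw [← Y_rev W.l (W.la D) s s' hs', W.l.Y_congr (n := s) hb hs']
  rw [h5 n le_rfl] at h4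
  rcases lt_or_ge i n with h7 | h7
  · rw [h5 i h7.le] at h4
    have h8 := h6 s le_rfl
    rw [Nat.sub_self, W.l.Y_zero, add_zero] at h8
    exact h3 j hj i h7 (by rw [h4, h8])
  · obtain ⟨i', rfl⟩ := Nat.exists_eq_add_of_le h7
    rw [W.l.Y_add, ← W.la_sh, Model.sh_cat, h5 n le_rfl] at h4
    have h8 := h6 (s - i') (by omega)
    rw [show s - (s - i') = i' by omega] at h8
    refine h2 j hj (s - i') (by omega) (by omega) ?_
    show W.l.Y (W.la e') j + W.l.Y b (s - i') = 0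
    have h9 : W.l.Y (W.la e') j + W.l.Y b (s - i') =
        (W.l.Y (W.la e) n + W.l.Y (W.la D) s + W.l.Y (W.la e') j) -
          (W.l.Y (W.la e) n + W.l.Y (W.la D) i') := by rw [← h8]; abel
    rw [h9, ← h4, sub_self]

lemma fib_meas {α : Type} [MeasurableSpace α] [MeasurableSingletonClass α] (x : α) (s : ℕ)
    (d : Fin s → α) : MeasurableSet (res s ⁻¹' {d} : Set (ℕ → α)) := by
  have : (res s ⁻¹' {d} : Set (ℕ → α)) = Cy (ext x d) s := by
    ext a; exact res_eq_iff x d a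
  rw [this]; exact measurableSet_Cy _ _

lemma one_lat (hF : FreshStmt) (h : Hyp W e n s J) (b : ℕ → T) :
    W.cS e n (W.la ⁻¹' {a | rev s a ∈ Cy b s} ∩ sh s ⁻¹' {e' | (e', b) ∈ J}) =
      W.cS e n (W.la ⁻¹' {a | rev s a ∈ Cy b s}) * W.S.real {e' | (e', b) ∈ J} := by
  have hg : ∀ d : Fin s → W.D, MeasurableSet ((fun a : ℕ → W.D => res s (sh n a)) ⁻¹' {d}) :=
    fun d => measurable_sh n (fib_meas (e 0) s d)
  unfold Model.cS
  rw [part W.S _ hg, part W.S _ hg (Cy e n ∩ sh n ⁻¹' (W.la ⁻¹' {a | rev s a ∈ Cy b s})), sum_mul]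
  refine sum_congr rfl fun d _ => ?_
  have key : ∀ a : ℕ → W.D, sh n a ∈ Cy (ext (e 0) d) s →
      (rev s (W.la (sh n a)) ∈ Cy b s ↔ rev s (W.la (ext (e 0) d)) ∈ Cy b s) := by
    intro a ha
    have h1 : ∀ i < s, rev s (W.la (sh n a)) i = rev s (W.la (ext (e 0) d)) i :=
      rev_congr fun i hi => by simp only [Model.la]; rw [ha i hi]
    exact ⟨fun h2 i hi => (h1 i hi).symm.trans (h2 i hi), fun h2 i hi => (h1 i hi).trans (h2 i hi)⟩
  by_cases hb : rev s (W.la (ext (e 0) d)) ∈ Cy b s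
  · have h1 := one_word hF h (ext (e 0) d) b hb
    unfold Model.cS at h1
    rw [Model.Cy_cat] at h1
    have e1 : Cy e n ∩ sh n ⁻¹' (W.la ⁻¹' {a | rev s a ∈ Cy b s} ∩ sh s ⁻¹' {e' | (e', b) ∈ J}) ∩
        (fun a : ℕ → W.D => res s (sh n a)) ⁻¹' {d} =
        Cy e n ∩ sh n ⁻¹' Cy (ext (e 0) d) s ∩ sh (n + s) ⁻¹' {e' | (e', b) ∈ J} := by
      ext a
      simp only [Set.mem_inter_iff, Set.mem_preimage, Set.mem_singleton_iff, Set.mem_ofPred_eq,
        res_eq_iff (e 0), sh_sh]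
      exact ⟨fun h2 => ⟨⟨h2.1.1, h2.2⟩, h2.1.2.2⟩,
        fun h2 => ⟨⟨h2.1.1, (key a h2.1.2).2 hb, h2.2⟩, h2.1.2⟩⟩
    have e2 : Cy e n ∩ sh n ⁻¹' (W.la ⁻¹' {a | rev s a ∈ Cy b s}) ∩
        (fun a : ℕ → W.D => res s (sh n a)) ⁻¹' {d} = Cy e n ∩ sh n ⁻¹' Cy (ext (e 0) d) s := by
      ext a
      simp only [Set.mem_inter_iff, Set.mem_preimage, Set.mem_singleton_iff, Set.mem_ofPred_eq,
        res_eq_iff (e 0)]
      exact ⟨fun h2 => ⟨h2.1.1, h2.2⟩, fun h2 => ⟨⟨h2.1, (key a h2.2).2 hb⟩, h2.2⟩⟩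
    rw [e1, e2, h1]
  · have e1 : Cy e n ∩ sh n ⁻¹' (W.la ⁻¹' {a | rev s a ∈ Cy b s} ∩ sh s ⁻¹' {e' | (e', b) ∈ J}) ∩
        (fun a : ℕ → W.D => res s (sh n a)) ⁻¹' {d} = ∅ := by
      refine Set.eq_empty_of_forall_notMem fun a ha => hb ?_
      exact (key a ((res_eq_iff (e 0) d _).1 ha.2)).1 ha.1.2.1
    have e2 : Cy e n ∩ sh n ⁻¹' (W.la ⁻¹' {a | rev s a ∈ Cy b s}) ∩
        (fun a : ℕ → W.D => res s (sh n a)) ⁻¹' {d} = ∅ := by
      refine Set.eq_empty_of_forall_notMem fun a ha => hb ?_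
      exact (key a ((res_eq_iff (e 0) d _).1 ha.2)).1 ha.1.2
    rw [e1, e2]; simp

lemma rev_cy (hR : RevStmt) (m : Measure T) [IsProbabilityMeasure m] (s : ℕ) (b : ℕ → T) :
    (IID m).real {a | rev s a ∈ Cy b s} = (IID m).real (Cy b s) := by
  have h := hR m s 0 (Set.univ ×ˢ Cy b s) (by
    rintro x y - h2 ⟨-, hx⟩
    exact ⟨trivial, fun i hi => (h2 i hi).trans (hx i hi)⟩)
  have e1 : {a : ℕ → T | (sh s a, rev s a) ∈ (Set.univ ×ˢ Cy b s : Set ((ℕ → T) × (ℕ → T)))} =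
      {a | rev s a ∈ Cy b s} := by ext a; simp
  rw [e1] at h
  rw [h, IID2]
  simp only [Measure.real, Measure.prod_prod, measure_univ, one_mul]

end TransferAux

open TransferAux in
theorem transfer_thm (hF : FreshStmt) (hA : AutoStmt) (hR : RevStmt) : TransferStmt := by
  intro W e n s J hJ
  have h : Hyp W e n s J := hJ
  have hg : ∀ c : Fin s → T,
      MeasurableSet ((fun a : ℕ → W.D => res s (rev s (W.la (sh n a)))) ⁻¹' {c}) :=
    fun c => measurable_sh n (W.measurable_la (measurable_rev s (fib_meas 0 s c)))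
  have hg2 : ∀ c : Fin s → T,
      MeasurableSet ((fun x : (ℕ → W.D) × (ℕ → T) => res s x.2) ⁻¹' {c}) :=
    fun c => measurable_snd (fib_meas 0 s c)
  rw [Model.cS, part W.S _ hg, part W.M _ hg2, mul_sum]
  refine sum_congr rfl fun c _ => ?_
  have e1 : Cy e n ∩ sh n ⁻¹' W.At J s ∩
      (fun a : ℕ → W.D => res s (rev s (W.la (sh n a)))) ⁻¹' {c} =
      Cy e n ∩ sh n ⁻¹' (W.la ⁻¹' {a | rev s a ∈ Cy (ext 0 c) s} ∩
        sh s ⁻¹' {e' | (e', ext 0 c) ∈ J}) := by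
    ext a
    simp only [Set.mem_inter_iff, Set.mem_preimage, Set.mem_singleton_iff, Set.mem_ofPred_eq,
      res_eq_iff (0 : T), Model.At]
    exact ⟨fun h2 => ⟨h2.1.1, h2.2, h.congr (fun i hi => (h2.2 i hi).symm) h2.1.2⟩,
      fun h2 => ⟨⟨h2.1, h.congr h2.2.1 h2.2.2⟩, h2.2.1⟩⟩
  have e2 : J ∩ (fun x : (ℕ → W.D) × (ℕ → T) => res s x.2) ⁻¹' {c} =
      {e' | (e', ext 0 c) ∈ J} ×ˢ Cy (ext 0 c) s := by
    ext ⟨a, b⟩
    simp only [Set.mem_inter_iff, Set.mem_preimage, Set.mem_singleton_iff, Set.mem_ofPred_eq,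
      res_eq_iff (0 : T), Set.mem_prod]
    exact ⟨fun h2 => ⟨h.congr (fun i hi => (h2.2 i hi).symm) h2.1, h2.2⟩,
      fun h2 => ⟨h.congr h2.2 h2.1, h2.2⟩⟩
  have h1 := one_lat hF h (ext 0 c)
  have hm : MeasurableSet {a : ℕ → T | rev s a ∈ Cy (ext 0 c) s} :=
    measurable_rev s (measurableSet_Cy (ext 0 c) s)
  rw [hA W e n _ hm, rev_cy hR] at h1
  rw [e1, e2]
  refine h1.trans ?_
  simp only [Model.M, Measure.real, Measure.prod_prod, ENNReal.toReal_mul]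
  ring

end Pool.Agent.MP_db8016_pr.HD
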