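import Pool.Agent.MP_db8016_pr.HD.Stmts

/-! The transit estimate for the planar walk. -/

namespace Pool.Agent.MP_db8016_pr.HD
open MeasureTheory ProbabilityTheory Filter Finset

namespace TransitAux

/-- The harmonic polynomial of the transit estimate. -/
def f0 (H₂ r u v : ℝ) : ℝ := u * v * (H₂ ^ 2 - v ^ 2) + r * v * u ^ 3

/-- The test function of the transit estimate. -/
def ft (h H₁ H₂ r γ δ : ℝ) (k : ℕ) (z : ℤ × ℤ) : ℝ :=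
  f0 H₂ r ((z.1 : ℝ) + h) ((z.2 : ℝ) + h) - γ * k -
    δ * (((z.1 : ℝ) + h) * (H₁ - ((z.1 : ℝ) + h)))

lemma av_ft {m : Measure T} (l : Lat m) (h H₁ H₂ r γ δ : ℝ) (hr : l.p * r = l.q)
    (hδ : 2 * l.p * δ = γ) (k : ℕ) (z : ℤ × ℤ) :
    l.av (ft h H₁ H₂ r γ δ (k + 1)) z = ft h H₁ H₂ r γ δ k z := by
  simp only [Lat.av, ft, f0, Prod.fst_add, Prod.snd_add]
  push_cast
  linear_combination hδ + 6 * ((z.1 : ℝ) + h) * ((z.2 : ℝ) + h) * hr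

/-- The box in which the walk is observed. -/
def Dt (h M₁ M₂ : ℤ) : Set (ℤ × ℤ) := {z | -h < z.1 ∧ z.1 < M₁ ∧ -h < z.2 ∧ z.2 ≤ M₂}

lemma det_Ph {m : Measure T} (l : Lat m) (h₁ M₁ h₂ M₂ : ℤ) (t : ℕ) :
    Det t {a | ∃ n ≤ t, l.Ph h₁ M₁ h₂ M₂ a n} := by
  rintro a a' hh ⟨n, hn, h1, h2⟩
  refine ⟨n, hn, fun k hk => ?_, ?_⟩
  · rw [l.U_congr hh (hk.trans hn), l.V_congr hh (hk.trans hn)]
    exact h1 k hk
  · rw [l.U_congr hh hn]; exact h2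

lemma geo {m : Measure T} (l : Lat m) {h M₁ M₂ : ℤ} (h0 : 0 < h) (hM₁ : 0 < M₁) (hM₂ : 0 < M₂)
    (a : ℕ → T) (τ : ℕ) (hb : ∀ k < τ, l.Y a k ∈ Dt h M₁ M₂) :
    -h ≤ l.U a τ ∧ l.U a τ ≤ M₁ ∧ -h ≤ l.V a τ ∧ l.V a τ ≤ M₂ + 1 ∧
      (l.U a τ = M₁ → l.Ph h M₁ h M₂ a τ) := by
  have key : -h ≤ l.U a τ ∧ l.U a τ ≤ M₁ ∧ -h ≤ l.V a τ ∧ l.V a τ ≤ M₂ + 1 ∧
      (l.U a τ = M₁ → -h < l.V a τ ∧ l.V a τ ≤ M₂) := by
    rcases τ with _ | j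
    · simp only [Lat.U_zero, Lat.V_zero]
      omega
    · have h1 := hb j (Nat.lt_succ_self j)
      simp only [Dt, Lat.Y, Set.mem_ofPred_eq] at h1
      have h2 := l.hst (a j)
      simp only [Prod.mk.injEq] at h2
      rw [l.U_succ, l.V_succ]
      omega
  refine ⟨key.1, key.2.1, key.2.2.1, key.2.2.2.1, fun he => ⟨fun k hk => ?_, he⟩⟩
  rcases lt_or_eq_of_le hk with hk' | rfl
  · have h1 := hb k hk'
    simp only [Dt, Lat.Y, Set.mem_ofPred_eq] at h1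
    omega
  · have h3 := key.2.2.2.2 he
    omega

lemma cube_le {r u v H₁ K : ℝ} (hr : 0 ≤ r) (hu : 0 ≤ u) (hu' : u ≤ H₁) (hv : 0 ≤ v)
    (hv' : v ≤ K) : r * v * u ^ 3 ≤ r * K * H₁ ^ 3 := by
  have hK : 0 ≤ K := hv.trans hv'
  gcongr

lemma f0_le {r u v H₁ H₂ K : ℝ} (hr : 0 ≤ r) (hu : 0 ≤ u) (hu' : u ≤ H₁) (hv : 0 ≤ v)
    (hv' : v ≤ H₂) (hK : H₂ ≤ K) : f0 H₂ r u v ≤ H₁ * K ^ 3 + r * K * H₁ ^ 3 := by
  have h2 : 0 ≤ H₂ := hv.trans hv'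
  have h1 : 0 ≤ H₁ := hu.trans hu'
  have hK0 : 0 ≤ K := h2.trans hK
  have e1 := cube_le hr hu hu' hv (hv'.trans hK)
  have e2 : H₂ ^ 2 - v ^ 2 ≤ K ^ 2 := by nlinarith [sq_nonneg v]
  have e3 : u * v ≤ H₁ * K := mul_le_mul hu' (hv'.trans hK) hv h1
  have e4 : u * v * (H₂ ^ 2 - v ^ 2) ≤ H₁ * K * K ^ 2 :=
    (mul_le_mul_of_nonneg_left e2 (mul_nonneg hu hv)).trans
      (mul_le_mul_of_nonneg_right e3 (sq_nonneg K))
  unfold f0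
  linarith only [e1, e4]

/-- The estimate with free constants. -/
lemma main (hO : OptStmt) (m : Measure T) [IsProbabilityMeasure m] (l : Lat m) {h M₁ M₂ : ℤ}
    (h0 : 0 < h) (hM₁ : 0 < M₁) (hM₂ : 0 < M₂) (t : ℕ) (r γ δ K H₁ H₂ : ℝ) (hr : l.p * r = l.q)
    (hr0 : 0 ≤ r) (hδ : 2 * l.p * δ = γ) (hδ0 : 0 ≤ δ) (hγ0 : 0 ≤ γ) (hH₁ : H₁ = M₁ + h)
    (hH₂ : H₂ = M₂ + 1 + h) (hK : H₂ ≤ K) (hγ : H₁ * K ^ 3 + r * K * H₁ ^ 3 ≤ γ * t) :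
    f0 H₂ r h h - δ * (h * M₁) ≤ r * K * H₁ ^ 3 + (H₁ * K ^ 3 + r * K * H₁ ^ 3) *
      (IID m).real {a | ∃ n ≤ t, l.Ph h M₁ h M₂ a n} := by
  have h0' : (0 : ℝ) < h := by exact_mod_cast h0
  have hM₁' : (0 : ℝ) < M₁ := by exact_mod_cast hM₁
  have hM₂' : (0 : ℝ) < M₂ := by exact_mod_cast hM₂
  have hH₁0 : 0 ≤ H₁ := by rw [hH₁]; positivity
  have hH₂0 : 0 ≤ H₂ := by rw [hH₂]; positivity
  have hK0 : 0 ≤ K := hH₂0.trans hK
  have c0 : 0 ≤ r * K * H₁ ^ 3 := by positivity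
  have c1 : 0 ≤ H₁ * K ^ 3 + r * K * H₁ ^ 3 := by positivity
  have key := hO m l (Dt h M₁ M₂) 0 t (ft h H₁ H₂ r γ δ) {a | ∃ n ≤ t, l.Ph h M₁ h M₂ a n}
    (r * K * H₁ ^ 3) (H₁ * K ^ 3 + r * K * H₁ ^ 3) (det_Ph l h M₁ h M₂ t).measurableSet
    (fun k _ z _ => (av_ft l h H₁ H₂ r γ δ hr hδ k z).ge) ?_
  · have e0 : ft h H₁ H₂ r γ δ 0 0 = f0 H₂ r h h - δ * (h * M₁) := by simp [ft, hH₁]
    rwa [e0] at key
  · intro a
    have hle := l.stop_le (Dt h M₁ M₂) 0 t a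
    have hsp := l.stop_spec (Dt h M₁ M₂) 0 t a
    have hb : ∀ k < l.stop (Dt h M₁ M₂) 0 t a, l.Y a k ∈ Dt h M₁ M₂ := fun k hk => by
      simpa using l.mem_of_lt_stop hk
    generalize l.stop (Dt h M₁ M₂) 0 t a = τ at hle hsp hb
    obtain ⟨g1, g2, g3, g4, g5⟩ := geo l h0 hM₁ hM₂ a τ hb
    rw [zero_add] at hsp ⊢
    have g1' : (0 : ℝ) ≤ (l.U a τ : ℝ) + h := by
      have : (0 : ℤ) ≤ l.U a τ + h := by omega
      exact_mod_cast this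
    have g2' : (l.U a τ : ℝ) + h ≤ H₁ := by
      have : (l.U a τ : ℝ) ≤ M₁ := by exact_mod_cast g2
      linarith only [this, hH₁]
    have g3' : (0 : ℝ) ≤ (l.V a τ : ℝ) + h := by
      have : (0 : ℤ) ≤ l.V a τ + h := by omega
      exact_mod_cast this
    have g4' : (l.V a τ : ℝ) + h ≤ H₂ := by
      have : (l.V a τ : ℝ) ≤ M₂ + 1 := by exact_mod_cast g4
      linarith only [this, hH₂]
    have p1 : 0 ≤ δ * (((l.U a τ : ℝ) + h) * (H₁ - ((l.U a τ : ℝ) + h))) :=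
      mul_nonneg hδ0 (mul_nonneg g1' (sub_nonneg.2 g2'))
    have p3 : 0 ≤ γ * (τ : ℝ) := by positivity
    have p4 := f0_le hr0 g1' g2' g3' g4' hK
    have ef : ft h H₁ H₂ r γ δ τ (l.Y a τ) = f0 H₂ r ((l.U a τ : ℝ) + h) ((l.V a τ : ℝ) + h) -
        γ * τ - δ * (((l.U a τ : ℝ) + h) * (H₁ - ((l.U a τ : ℝ) + h))) := rfl
    rw [ef]
    by_cases he : l.U a τ = M₁
    · have hmem : a ∈ {a | ∃ n ≤ t, l.Ph h M₁ h M₂ a n} := ⟨τ, hle, g5 he⟩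
      rw [Set.indicator_of_mem hmem, Pi.one_apply]
      linarith only [p1, p3, p4, c0]
    · have hi : 0 ≤ (H₁ * K ^ 3 + r * K * H₁ ^ 3) *
          Set.indicator {a | ∃ n ≤ t, l.Ph h M₁ h M₂ a n} (1 : (ℕ → T) → ℝ) a :=
        mul_nonneg c1 (Set.indicator_nonneg (fun _ _ => zero_le_one) _)
      refine le_trans ?_ (le_add_of_nonneg_right hi)
      rcases hsp with rfl | hout
      · linarith only [p1, p4, hγ, c0]
      · simp only [Dt, Lat.Y, Set.mem_ofPred_eq] at hout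
        have hc : l.U a τ = -h ∨ l.V a τ = -h ∨ l.V a τ = M₂ + 1 := by omega
        rcases hc with hc | hc | hc
        · have e : (l.U a τ : ℝ) + h = 0 := by rw [hc]; push_cast; ring
          have : f0 H₂ r ((l.U a τ : ℝ) + h) ((l.V a τ : ℝ) + h) = 0 := by rw [e]; simp [f0]
          linarith only [this, p1, p3, c0]
        · have e : (l.V a τ : ℝ) + h = 0 := by rw [hc]; push_cast; ring
          have : f0 H₂ r ((l.U a τ : ℝ) + h) ((l.V a τ : ℝ) + h) = 0 := by rw [e]; simp [f0]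
          linarith only [this, p1, p3, c0]
        · have e : (l.V a τ : ℝ) + h = H₂ := by rw [hc, hH₂]; push_cast; ring
          have e1 : f0 H₂ r ((l.U a τ : ℝ) + h) ((l.V a τ : ℝ) + h) =
              r * H₂ * ((l.U a τ : ℝ) + h) ^ 3 := by rw [e]; simp [f0]
          have e2 := cube_le hr0 g1' g2' hH₂0 hK
          linarith only [e1, e2, p1, p3]

end TransitAux

open TransitAux

theorem transit_thm (hO : OptStmt) : TransitStmt := by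
  intro m _ l a₀ ha
  have hp := l.hp
  have hq := l.hq
  have ha' : (0 : ℝ) < a₀ := by exact_mod_cast ha
  obtain ⟨r, hr⟩ : ∃ r : ℝ, r = l.q / l.p := ⟨_, rfl⟩
  have hr0 : 0 < r := by rw [hr]; positivity
  have hpr : l.p * r = l.q := by rw [hr]; field_simp
  obtain ⟨b, hb⟩ : ∃ b : ℝ, b = a₀ + 1 := ⟨_, rfl⟩
  have hb0 : 0 < b := by rw [hb]; positivity
  obtain ⟨X, hX⟩ := exists_nat_ge (r * b ^ 3 + 1)
  have hX1 : (1 : ℝ) ≤ X := by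
    have : 0 < r * b ^ 3 := by positivity
    linarith only [this, hX]
  have hX0 : (0 : ℝ) < X := lt_of_lt_of_le one_pos hX1
  obtain ⟨F, hF⟩ : ∃ F : ℝ, F = b * ((X : ℝ) + 2) ^ 3 + r * ((X : ℝ) + 2) * b ^ 3 := ⟨_, rfl⟩
  have hF0 : 0 < F := by rw [hF]; positivity
  obtain ⟨A, hA⟩ := exists_nat_ge (F * a₀ / (2 * l.p))
  have hA0 : (0 : ℝ) < A := lt_of_lt_of_le (by positivity) hA
  have hA' : F * a₀ ≤ A * (2 * l.p) := (div_le_iff₀ (by positivity)).1 hA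
  refine ⟨1 / F, X, A, by positivity, by exact_mod_cast hX0, fun h h0 => ?_⟩
  have h0' : (0 : ℝ) < h := by exact_mod_cast h0
  have h1' : (1 : ℝ) ≤ h := by exact_mod_cast h0
  obtain ⟨t, ht⟩ : ∃ t : ℕ, (t : ℤ) = A * h ^ 2 := ⟨(A * h ^ 2 : ℤ).toNat, by
    rw [Int.toNat_of_nonneg (by positivity)]⟩
  have ht' : (t : ℝ) = A * (h : ℝ) ^ 2 := by exact_mod_cast ht
  have hE : {a | ∃ n : ℕ, (n : ℤ) ≤ A * h ^ 2 ∧ l.Ph h (a₀ * h) h (X * h) a n} =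
      {a | ∃ n ≤ t, l.Ph h (a₀ * h) h (X * h) a n} := by
    ext a
    simp only [Set.mem_ofPred_eq, ← ht, Nat.cast_le]
  rw [hE]
  obtain ⟨γ, hγ⟩ : ∃ γ : ℝ, γ = F * (h : ℝ) ^ 2 / A := ⟨_, rfl⟩
  obtain ⟨δ, hδ⟩ : ∃ δ : ℝ, δ = γ / (2 * l.p) := ⟨_, rfl⟩
  have hγ0 : 0 ≤ γ := by rw [hγ]; positivity
  have hδ0 : 0 ≤ δ := by rw [hδ]; positivity
  have hδp : 2 * l.p * δ = γ := by rw [hδ]; field_simp
  have hγt : γ * t = F * (h : ℝ) ^ 4 := by rw [hγ, ht']; field_simp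
  have hFm : (b * h) * (((X : ℝ) + 2) * h) ^ 3 + r * (((X : ℝ) + 2) * h) * (b * h) ^ 3 =
      F * (h : ℝ) ^ 4 := by rw [hF]; ring
  have hXz : (0 : ℤ) < X := by exact_mod_cast hX0
  have key := main hO m l h0 (mul_pos ha h0) (mul_pos hXz h0) t r γ δ (((X : ℝ) + 2) * h) (b * h)
    ((X : ℝ) * h + 1 + h) hpr hr0.le hδp hδ0 hγ0 (by rw [hb]; push_cast; ring)
    (by push_cast; ring) (by linarith only [h1']) (by rw [hFm, hγt])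
  rw [hFm] at key
  generalize (IID m).real {a | ∃ n ≤ t, l.Ph h (a₀ * h) h (X * h) a n} = P at key ⊢
  have h4 : (0 : ℝ) < (h : ℝ) ^ 4 := by positivity
  have e1 : δ * (h * ((a₀ * h : ℤ) : ℝ)) ≤ (h : ℝ) ^ 4 := by
    have : δ * (h * ((a₀ * h : ℤ) : ℝ)) = F * a₀ / (A * (2 * l.p)) * (h : ℝ) ^ 4 := by
      rw [hδ, hγ]; push_cast; field_simp
    rw [this]
    exact mul_le_of_le_one_left h4.le ((div_le_one (by positivity)).2 hA')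
  have e2 : (X : ℝ) * (X + 2) * (h : ℝ) ^ 4 ≤ f0 ((X : ℝ) * h + 1 + h) r h h := by
    have : f0 ((X : ℝ) * h + 1 + h) r h h = (X : ℝ) * (X + 2) * (h : ℝ) ^ 4 +
        ((h : ℝ) ^ 2 * (2 * ((X : ℝ) + 1) * h + 1) + r * (h : ℝ) ^ 4) := by
      unfold f0; ring
    rw [this]
    exact le_add_of_nonneg_right (by positivity)
  have e3 : r * (((X : ℝ) + 2) * h) * (b * h) ^ 3 + 2 * (h : ℝ) ^ 4 ≤
      (X : ℝ) * (X + 2) * (h : ℝ) ^ 4 := by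
    have h5 : (r * b ^ 3 + 1) * ((X : ℝ) + 2) ≤ X * (X + 2) :=
      mul_le_mul_of_nonneg_right hX (by positivity)
    have h6 : r * b ^ 3 * ((X : ℝ) + 2) + 2 ≤ X * (X + 2) := by linarith only [h5, hX0]
    have h7 := mul_le_mul_of_nonneg_right h6 h4.le
    linarith only [h7]
  have e4 : 1 * (h : ℝ) ^ 4 ≤ P * F * (h : ℝ) ^ 4 := by linarith only [key, e1, e2, e3]
  rw [div_le_iff₀ hF0]
  exact le_of_mul_le_mul_right e4 h4

end Pool.Agent.MP_db8016_pr.HD
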