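import Pool.Agent.MP_db8016_pr.HD.Stmts

/-! The walk waits in a half box for a time of order `h ^ 2` with probability bounded below. -/

namespace Pool.Agent.MP_db8016_pr.HD
open MeasureTheory ProbabilityTheory Filter Finset

namespace WaitAux

/-- The test function. -/
def F (B h : ℝ) (k : ℕ) (z : ℤ × ℤ) : ℝ :=
  B * h * ((z.1 : ℝ) + h) - ((z.1 : ℝ) ^ 2 + (z.2 : ℝ) ^ 2) + k

lemma F_av {m : Measure T} (l : Lat m) (B h : ℝ) (k : ℕ) (z : ℤ × ℤ) :
    F B h k z ≤ l.av (F B h (k + 1)) z := by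
  have h0 := l.rest_nonneg
  have : l.av (F B h (k + 1)) z = F B h k z + (1 - 2 * l.p - 2 * l.q) := by
    simp only [Lat.av, F, Prod.fst_add, Prod.snd_add]
    push_cast
    ring
  rw [this]
  linarith

lemma F_le (B h : ℝ) (k : ℕ) (z : ℤ × ℤ) : F B h k z ≤ k + (B ^ 2 + B) * h ^ 2 := by
  unfold F
  nlinarith [sq_nonneg ((z.1 : ℝ) - B * h), sq_nonneg (z.2 : ℝ), sq_nonneg (z.1 : ℝ),
    sq_nonneg (B * h)]

lemma F_low {B h : ℝ} (hB : 0 ≤ B) (hh : 0 < h) (k : ℕ) {z : ℤ × ℤ} (hz : (z.1 : ℝ) ≤ -h) :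
    F B h k z ≤ k := by
  unfold F
  have h1 : B * h * ((z.1 : ℝ) + h) ≤ 0 :=
    mul_nonpos_of_nonneg_of_nonpos (mul_nonneg hB hh.le) (by linarith)
  nlinarith [sq_nonneg (z.2 : ℝ), sq_nonneg (z.1 : ℝ)]

lemma F_far {B h : ℝ} (hB : 0 ≤ B) (hh : 0 < h) (k : ℕ) {z : ℤ × ℤ}
    (hz : (B + 1) * h ≤ (nn z : ℝ)) : F B h k z ≤ k := by
  unfold F
  have h1 : (z.1 : ℝ) ≤ (nn z : ℝ) := by
    exact_mod_cast (le_abs_self z.1).trans (le_max_left _ _)
  have h2 : (nn z : ℝ) ^ 2 ≤ (z.1 : ℝ) ^ 2 + (z.2 : ℝ) ^ 2 := by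
    have : nn z ^ 2 ≤ z.1 ^ 2 + z.2 ^ 2 := by
      unfold nn
      rcases le_total |z.1| |z.2| with h | h
      · rw [max_eq_right h, sq_abs]; nlinarith [sq_nonneg z.1]
      · rw [max_eq_left h, sq_abs]; nlinarith [sq_nonneg z.2]
    exact_mod_cast this
  set N : ℝ := (nn z : ℝ)
  have hBh : 0 ≤ B * h := mul_nonneg hB hh.le
  have h3 : B * h * (z.1 : ℝ) ≤ B * h * N := mul_le_mul_of_nonneg_left h1 hBh
  have h4 : 0 ≤ N - B * h - h := by linarith
  have h5 : 0 ≤ N := by nlinarith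
  have h6 : N * h ≤ N * (N - B * h) := mul_le_mul_of_nonneg_left (by linarith) h5
  have h7 : (B + 1) * h * h ≤ N * h := mul_le_mul_of_nonneg_right hz hh.le
  nlinarith [sq_nonneg h]

lemma det_wait {m : Measure T} (l : Lat m) (h K : ℤ) (t : ℕ) : Det t (l.WaitEv h K t) := by
  intro a a' h1 h2 k hk
  rw [l.U_congr h1 hk, l.Y_congr h1 hk]
  exact h2 k hk

end WaitAux

open WaitAux in
theorem wait_thm (hO : OptStmt) : WaitStmt := by
  intro m _ l A
  set B : ℝ := (A : ℝ) + 1 with hBdef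
  have hA : (0 : ℝ) ≤ A := Nat.cast_nonneg A
  have hB : 0 < B := by linarith
  have hC : 0 < B ^ 2 + B := by positivity
  refine ⟨1 / (B ^ 2 + B), A + 2, by positivity, by omega, fun h hh t ht => ?_⟩
  have hh' : (0 : ℝ) < h := by exact_mod_cast hh
  have ht' : (t : ℝ) ≤ A * (h : ℝ) ^ 2 := by exact_mod_cast ht
  set K : ℤ := ((A + 2 : ℕ) : ℤ) with hK
  set Dm : Set (ℤ × ℤ) := {z | -h < z.1 ∧ nn z ≤ K * h} with hDm
  have key := hO m l Dm 0 t (F B h) (l.WaitEv h K t) (A * (h : ℝ) ^ 2) ((B ^ 2 + B) * (h : ℝ) ^ 2)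
    (det_wait l h K t).measurableSet (fun k _ z _ => F_av l B h k z) ?_
  · have h0 : F B h 0 0 = B * (h : ℝ) ^ 2 := by simp [F]; ring
    rw [h0] at key
    rw [div_le_iff₀ hC]
    have hsq : (0 : ℝ) < (h : ℝ) ^ 2 := by positivity
    have h1 : 1 * (h : ℝ) ^ 2 ≤ ((IID m).real (l.WaitEv h K t) * (B ^ 2 + B)) * (h : ℝ) ^ 2 := by
      rw [hBdef] at key ⊢
      linarith
    exact le_of_mul_le_mul_right h1 hsq
  · intro a
    have hs : ((l.stop Dm 0 t a : ℕ) : ℝ) ≤ t := by exact_mod_cast l.stop_le Dm 0 t a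
    by_cases ha : a ∈ l.WaitEv h K t
    · rw [Set.indicator_of_mem ha, Pi.one_apply, mul_one]
      have := F_le B h (l.stop Dm 0 t a) (0 + l.Y a (l.stop Dm 0 t a))
      linarith
    · rw [Set.indicator_of_notMem ha, mul_zero, add_zero]
      have hout : 0 + l.Y a (l.stop Dm 0 t a) ∉ Dm := by
        intro hin
        rcases l.stop_spec Dm 0 t a with h1 | h1
        · apply ha
          intro k hk
          have h2 : 0 + l.Y a k ∈ Dm := by
            rcases lt_or_eq_of_le hk with h3 | h3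
            · exact l.mem_of_lt_stop (x := 0) (t := t) (by rw [h1]; exact h3)
            · rw [h3, ← h1]; exact hin
          rw [zero_add] at h2
          exact h2
        · exact h1 hin
      set z := 0 + l.Y a (l.stop Dm 0 t a)
      have h2 : F B h (l.stop Dm 0 t a) z ≤ (l.stop Dm 0 t a : ℕ) := by
        by_cases h3 : -h < z.1
        · have h4 : K * h < nn z := by
            by_contra h5
            exact hout ⟨h3, not_lt.1 h5⟩
          refine F_far hB.le hh' _ ?_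
          have h5 : ((K * h : ℤ) : ℝ) ≤ (nn z : ℝ) := by exact_mod_cast h4.le
          rw [hK] at h5
          push_cast at h5
          rw [hBdef]
          linarith
        · refine F_low hB.le hh' _ ?_
          exact_mod_cast not_lt.1 h3
      linarith

end Pool.Agent.MP_db8016_pr.HD
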