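import Pool.Agent.MP_db8016_pr.HD.Stmts

/-! The averaged weight of a path is a product over the sites. -/

namespace Pool.Agent.MP_db8016_pr.HD
open MeasureTheory ProbabilityTheory Filter Finset

namespace WtAux
variable {d : ℕ}

/-- The factors of the weight of the first `n` steps that are read at the site `z`. -/
noncomputable def loc (e : ℕ → Fin d × Bool) (n : ℕ) (z : Fin d → ℤ)
    (b : Fin d × Bool → ℕ → ℝ) : ENNReal :=
  ∏ i ∈ range n, if pos e i = z then ENNReal.ofReal (b (e i) (visits e i)) else 1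

lemma measurable_loc (e : ℕ → Fin d × Bool) (n : ℕ) (z : Fin d → ℤ) :
    Measurable (loc e n z) := by
  unfold loc
  refine Finset.measurable_prod _ fun i _ => ?_
  split_ifs
  · exact ENNReal.measurable_ofReal.comp
      ((measurable_pi_apply (visits e i)).comp (measurable_pi_apply (e i)))
  · exact measurable_const

lemma pos_add (e : ℕ → Fin d × Bool) (n k : ℕ) : pos e (n + k) = pos e n + pos (sh n e) k :=
  ps_add step e n k

lemma visits_add (e : ℕ → Fin d × Bool) (n k : ℕ) (h : ∀ i < n, pos e i ≠ pos e (n + k)) :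
    visits e (n + k) = visits (sh n e) k := by
  unfold visits
  rw [Finset.card_filter, Finset.card_filter, sum_range_add,
    Finset.sum_eq_zero fun i hi => if_neg (h i (mem_range.1 hi)), zero_add]
  refine sum_congr rfl fun i _ => ?_
  simp only [pos_add e n, add_right_inj]

lemma loc_one (e : ℕ → Fin d × Bool) (n : ℕ) (z : Fin d → ℤ) (h : ∀ i < n, pos e i ≠ z) :
    loc e n z = fun _ => 1 := by
  funext b
  exact Finset.prod_eq_one fun i hi => if_neg (h i (mem_range.1 hi))

lemma loc_trunc (e : ℕ → Fin d × Bool) (n k : ℕ) (z : Fin d → ℤ)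
    (h : ∀ i < k, pos e (n + i) ≠ z) : loc e (n + k) z = loc e n z := by
  funext b
  unfold loc
  rw [prod_range_add, Finset.prod_eq_one (s := range k) fun i hi => if_neg (h i (mem_range.1 hi)),
    mul_one]

lemma loc_shift (e : ℕ → Fin d × Bool) (n k : ℕ) (z : Fin d → ℤ)
    (h : ∀ i < n, pos e i ≠ z) : loc e (n + k) z = loc (sh n e) k (z - pos e n) := by
  funext b
  unfold loc
  rw [prod_range_add, Finset.prod_eq_one (s := range n) fun i hi => if_neg (h i (mem_range.1 hi)),
    one_mul]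
  refine prod_congr rfl fun i _ => ?_
  by_cases hz : pos e (n + i) = z
  · have hz' : pos (sh n e) i = z - pos e n := by rw [← hz, pos_add]; abel
    rw [if_pos hz, if_pos hz', visits_add e n i (by rw [hz]; exact h)]
    rfl
  · have hz' : pos (sh n e) i ≠ z - pos e n := fun h1 => hz (by rw [pos_add, h1]; abel)
    rw [if_neg hz, if_neg hz']

variable (μ : Measure ((Fin d → ℤ) → Fin d × Bool → ℕ → ℝ))

/-- The averaged factor of a site. -/
noncomputable def w (e : ℕ → Fin d × Bool) (n : ℕ) (z : Fin d → ℤ) : ENNReal :=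
  ∫⁻ ω, loc e n z (ω 0) ∂μ

lemma w_one [IsProbabilityMeasure μ] (e : ℕ → Fin d × Bool) (n : ℕ) (z : Fin d → ℤ)
    (h : ∀ i < n, pos e i ≠ z) : w μ e n z = 1 := by
  simp [w, loc_one e n z h]

lemma w_le [IsProbabilityMeasure μ] (h1 : ∀ᵐ ω ∂μ, ∀ z i, ∑ e, ω z e i = 1)
    (h0 : ∀ᵐ ω ∂μ, ∀ z e i, 0 ≤ ω z e i) (e : ℕ → Fin d × Bool) (n : ℕ) (z : Fin d → ℤ) :
    w μ e n z ≤ 1 := by
  have : ∫⁻ ω, loc e n z (ω 0) ∂μ ≤ ∫⁻ _, 1 ∂μ := by
    refine lintegral_mono_ae ?_
    filter_upwards [h1, h0] with ω h1 h0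
    refine Finset.prod_le_one' fun i _ => ?_
    split_ifs
    · refine ENNReal.ofReal_le_one.2 ?_
      rw [← h1 0 (visits e i)]
      exact Finset.single_le_sum (f := fun c => ω 0 c (visits e i)) (fun c _ => h0 0 c _)
        (mem_univ _)
    · exact le_rfl
  simpa [w] using this

lemma key [IsProbabilityMeasure μ]
    (hind : iIndepFun (fun (z : Fin d → ℤ) (ω : (Fin d → ℤ) → Fin d × Bool → ℕ → ℝ) => ω z) μ)
    (hid : ∀ z, IdentDistrib (fun ω : (Fin d → ℤ) → Fin d × Bool → ℕ → ℝ => ω z)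
      (fun ω => ω 0) μ μ)
    (h0 : ∀ᵐ ω ∂μ, ∀ z e i, 0 ≤ ω z e i) (e : ℕ → Fin d × Bool) (n : ℕ)
    (S : Finset (Fin d → ℤ)) (hS : ∀ i < n, pos e i ∈ S) :
    wtc μ e n = ∏ z ∈ S, w μ e n z := by
  have h1 : wtc μ e n = ∫⁻ ω, ∏ z ∈ S, loc e n z (ω z) ∂μ := by
    refine lintegral_congr_ae ?_
    filter_upwards [h0] with ω h
    rw [ENNReal.ofReal_prod_of_nonneg fun i _ => h _ _ _]
    unfold loc
    rw [Finset.prod_comm]
    refine prod_congr rfl fun i hi => ?_
    rw [Finset.prod_eq_single_of_mem (pos e i) (hS i (mem_range.1 hi))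
      fun z _ hz => if_neg (Ne.symm hz), if_pos rfl]
  rw [h1, lintegral_prod_eq_prod_lintegral_of_indepFun _
    (fun (z : Fin d → ℤ) (ω : (Fin d → ℤ) → Fin d × Bool → ℕ → ℝ) => loc e n z (ω z))
    (hind.comp (fun z b => loc e n z b) fun z => measurable_loc _ _ _)
    fun z => (measurable_loc _ _ _).comp (measurable_pi_apply z)]
  exact prod_congr rfl fun z _ => ((hid z).comp (measurable_loc e n z)).lintegral_eq

lemma key_shift [IsProbabilityMeasure μ]
    (hind : iIndepFun (fun (z : Fin d → ℤ) (ω : (Fin d → ℤ) → Fin d × Bool → ℕ → ℝ) => ω z) μ)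
    (hid : ∀ z, IdentDistrib (fun ω : (Fin d → ℤ) → Fin d × Bool → ℕ → ℝ => ω z)
      (fun ω => ω 0) μ μ)
    (h0 : ∀ᵐ ω ∂μ, ∀ z e i, 0 ≤ ω z e i) (e : ℕ → Fin d × Bool) (n k : ℕ)
    (S : Finset (Fin d → ℤ)) (hS : ∀ i < k, pos e (n + i) ∈ S) :
    wtc μ (sh n e) k = ∏ z ∈ S, w μ (sh n e) k (z - pos e n) := by
  rw [key μ hind hid h0 (sh n e) k (S.image fun z => z - pos e n) fun i hi =>
    mem_image.2 ⟨_, hS i hi, by rw [pos_add]; abel⟩,
    Finset.prod_image fun a _ b _ hab => sub_left_injective hab]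

end WtAux

open WtAux in
theorem wt_thm : WtStmt := by
  intro d μ _ hind hid h1 h0
  refine ⟨fun e n k j h => ?_, fun e n k h => ?_⟩
  · have hS : ∀ i < n + k + j, pos e i ∈ (range (n + k + j)).image (pos e) := fun i hi =>
      mem_image_of_mem _ (mem_range.2 hi)
    rw [key μ hind hid h0 e (n + k) _ fun i hi => hS i (by omega),
      key_shift μ hind hid h0 e n (k + j) _ fun i hi => hS (n + i) (by omega),
      key μ hind hid h0 e (n + k + j) _ hS, ← prod_mul_distrib]
    refine Finset.prod_le_prod' fun z _ => ?_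
    by_cases hz : ∀ i < n, pos e i ≠ z
    · have : w μ e (n + k + j) z = w μ (sh n e) (k + j) (z - pos e n) := by
        rw [w, add_assoc, loc_shift e n (k + j) z hz, w]
      rw [this]
      exact mul_le_of_le_one_left' (w_le μ h1 h0 _ _ _)
    · push Not at hz
      obtain ⟨i, hi, rfl⟩ := hz
      have : w μ e (n + k + j) (pos e i) = w μ e (n + k) (pos e i) := by
        rw [w, loc_trunc e (n + k) j _ fun i' hi' => (h i hi i' hi').symm, w]
      rw [this]
      exact mul_le_of_le_one_right' (w_le μ h1 h0 _ _ _)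
  · have hS : ∀ i < n + k, pos e i ∈ (range (n + k)).image (pos e) := fun i hi =>
      mem_image_of_mem _ (mem_range.2 hi)
    rw [key μ hind hid h0 e n _ fun i hi => hS i (by omega),
      key_shift μ hind hid h0 e n k _ fun i hi => hS (n + i) (by omega),
      key μ hind hid h0 e (n + k) _ hS, ← prod_mul_distrib]
    refine prod_congr rfl fun z _ => ?_
    by_cases hz : ∀ i < n, pos e i ≠ z
    · rw [w_one μ e n z hz, one_mul, w, loc_shift e n k z hz, w]
    · push Not at hz
      obtain ⟨i, hi, rfl⟩ := hz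
      rw [w_one μ (sh n e) k _ fun j hj h2 => h i hi j hj (by rw [pos_add, h2]; abel), mul_one,
        w, loc_trunc e n k _ fun i' hi' => (h i hi i' hi').symm, w]

end Pool.Agent.MP_db8016_pr.HD
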