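import Pool.Agent.MP_db8016_pr.HD.XSix
import Pool.Agent.MP_db8016_pr.HD.JProb

/-! The exit estimate when the range is large on the cut event. -/

namespace Pool.Agent.MP_db8016_pr.HD
open MeasureTheory ProbabilityTheory Filter Finset

theorem x5b_thm (hE : ExitOfStmt) (hW : WaitStmt) (hI : IndepStmt) : X5Stmt := by
  intro W ℓ c
  obtain ⟨cw, Kw, hcw, -, hwait⟩ := hW W.m W.l c.A
  obtain ⟨C₀, hC₀, hEx⟩ := hE W ℓ c
  refine ⟨2 * c.K + 2 * Kw + 2, (cw / 2) ^ 2 / C₀, by omega, by positivity, ?_⟩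
  intro w I hI1 hA
  refine hEx w I I _ _ (fun s => (W.lift (c.C I) ∩ ℓ.Th w (c.t I)) ∩
    {x | sh (c.t I) x.2 ∈ W.l.WaitEv (c.r I) Kw (s - c.t I)}) le_rfl hI1 (by positivity) ?_
  intro s hs
  obtain ⟨hs1, hs2⟩ := mem_Ico.1 hs
  have hd : Det2 (c.t I) (c.t I) (W.lift (c.C I) ∩ ℓ.Th w (c.t I)) := fun x y h1 h2 hx =>
    ⟨JProbAux.det_lift c I x y h1 h2 hx.1, (JProbAux.th_iff ℓ w le_rfl h1).2 hx.2⟩
  refine ⟨?_, fun x hx => hx.1.1, fun x hx => ?_⟩
  · have h1 : cw ≤ (IID W.m).real (W.l.WaitEv (c.r I) Kw (s - c.t I)) := by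
      refine hwait _ (by exact_mod_cast c.one_le_r hI1) _ ?_
      have h2 : s - c.t I ≤ c.A * c.r I ^ 2 := by
        rw [← c.t_eq _ hI1]; omega
      exact_mod_cast h2
    have hm : MeasurableSet (W.l.WaitEv (c.r I) Kw (s - c.t I)) :=
      (JProbAux.wait_det W.l _ _ _).measurableSet
    have h3 := hI W (c.t I) _ (Set.univ ×ˢ W.l.WaitEv (c.r I) Kw (s - c.t I)) hd
      (MeasurableSet.univ.prod hm)
    have h4 : (IID2 W.m).real (Set.univ ×ˢ W.l.WaitEv (c.r I) Kw (s - c.t I)) =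
        (IID W.m).real (W.l.WaitEv (c.r I) Kw (s - c.t I)) := by
      simp only [IID2, Measure.real, Measure.prod_prod, measure_univ, one_mul]
    have h5 : {x : (ℕ → W.D) × (ℕ → T) | (sh (c.t I) (W.la x.1), sh (c.t I) x.2) ∈
        Set.univ ×ˢ W.l.WaitEv (c.r I) Kw (s - c.t I)} =
        {x | sh (c.t I) x.2 ∈ W.l.WaitEv (c.r I) Kw (s - c.t I)} := by
      ext x; simp
    rw [h4, h5] at h3
    rw [h3]
    calc cw / 2 * c.q I = 1 / 2 * c.q I * cw := by ring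
      _ ≤ _ := mul_le_mul hA h1 hcw.le measureReal_nonneg
  · have hr1 : (1 : ℤ) ≤ c.r I := by exact_mod_cast c.one_le_r hI1
    obtain ⟨g1, g2, g3, g4⟩ := XSixAux.geo c (n₀ := c.t I) (n₁ := 0) (a := W.la x.1)
      (a' := W.la x.1) (b := x.2) hI1 le_rfl le_rfl le_rfl hs1 (fun _ _ => rfl) hx.1.1 hx.2
      (fun j hj => by
        obtain rfl : j = 0 := by omega
        rw [Lat.Y_zero]
        simp only [nn, Prod.fst_zero, Prod.snd_zero, abs_zero, max_self]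
        omega)
    refine ⟨c.t I, by omega, fun y h1 h2 => ⟨hd x y h1 (fun i hi => h2 i (by omega)) hx.1,
      XSixAux.wait_stab h2 hx.2⟩, g1, g2, hx.1.2, g3, g4⟩

end Pool.Agent.MP_db8016_pr.HD
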