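import Pool.Agent.MP_db8016_pr.HD.Stmts

/-! Repeated attempts at the first hits of the lateral levels. -/

namespace Pool.Agent.MP_db8016_pr.HD
open MeasureTheory ProbabilityTheory Filter Finset

namespace XOneAux

variable {W : Model}

/-- The lateral coordinate rises by `y` within `t` steps, without range `w`. -/
def Ev (ℓ : Lev W) (w : ℝ) (t₀ : ℕ) (y : ℤ) (t : ℕ) : Set (ℕ → W.D) :=
  {e' | (∃ j ≤ t, y ≤ W.l.U (W.la e') j) ∧ ¬ ℓ.Rng w e' (t + t₀)}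

lemma U_eq {a a' : ℕ → W.D} {n k : ℕ} (h : ∀ i < n, a' i = a i) (hk : k ≤ n) :
    W.l.U (W.la a') k = W.l.U (W.la a) k :=
  W.l.U_congr (n := n) (fun i hi => by simp only [Model.la, h i hi]) hk

lemma Rng_congr (ℓ : Lev W) {w : ℝ} {a a' : ℕ → W.D} {n k : ℕ} (h : ∀ i < n, a' i = a i)
    (hk : k ≤ n) (h' : ℓ.Rng w a k) : ℓ.Rng w a' k :=
  ℓ.adapt_Rng w a a' k (fun i hi => h i (by omega)) h'

lemma meas_Ev (ℓ : Lev W) (w : ℝ) (t₀ : ℕ) (y : ℤ) (t : ℕ) : MeasurableSet (Ev ℓ w t₀ y t) := by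
  refine Det.measurableSet (n := t + t₀) ?_
  rintro a a' h ⟨⟨j, hj, h1⟩, h2⟩
  refine ⟨⟨j, hj, by rwa [U_eq h (by omega)]⟩, fun h3 => h2 ?_⟩
  exact Rng_congr ℓ (fun i hi => (h i hi).symm) le_rfl h3

lemma meas_Succ (ℓ : Lev W) (w : ℝ) (t₀ : ℕ) (R : ℤ) : MeasurableSet (ℓ.Succ w t₀ R) := by
  refine Det.measurableSet (n := t₀) ?_
  rintro a a' h ⟨m, hm, h1, h2⟩
  exact ⟨m, hm, Rng_congr ℓ h hm h1, fun k hk => by rw [U_eq h (by omega)]; exact h2 k hk⟩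

lemma stop_step (hS : StopStmt) (e : ℕ → W.D) (n : ℕ) (Q : (ℕ → W.D) → ℕ → Prop)
    (hQ : Adapt Q) (B : Set (ℕ → W.D)) (hB : MeasurableSet B) (θ : ℝ)
    (B' : ℕ → Set (ℕ → W.D))
    (h1 : ∀ e' j, First Q e' j → ∀ a ∈ Cy e' j, a ∈ B → sh j a ∈ B' j)
    (h2 : ∀ e' j, First Q e' j → W.cS (Model.cat e n e') (n + j) (B' j) ≤
      θ * W.S.real (Cy (Model.cat e n e') (n + j)))
    (hsub : B ⊆ {a | ∃ j, Q a j}) : W.cS e n B ≤ θ * W.cS e n {a | ∃ j, Q a j} := by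
  set S1 : Measure (ℕ → W.D) := (W.S.restrict (Cy e n)).map (sh n) with hS1
  have hv : ∀ X, MeasurableSet X → S1.real X = W.cS e n X := by
    intro X hX
    rw [hS1, map_measureReal_apply (measurable_sh n) hX,
      measureReal_restrict_apply (measurable_sh n hX), Set.inter_comm]
    rfl
  have hm : MeasurableSet {a | ∃ j, Q a j} := by
    have : {a | ∃ j, Q a j} = ⋃ j, {a | Q a j} := by ext a; simp
    rw [this]
    exact MeasurableSet.iUnion fun j => hQ.measurableSet j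
  have key := hS W.D S1 S1 Q hQ Set.univ B MeasurableSet.univ hB θ 1 (by
    intro e' j hj
    rw [one_mul, Set.inter_univ, hv _ ((measurableSet_Cy e' j).inter hB),
      hv _ (measurableSet_Cy e' j)]
    have h3 := h2 e' j hj
    rw [Model.cS, Model.Cy_cat] at h3
    refine le_trans (measureReal_mono ?_) h3
    rintro a ⟨ha, ha1, ha2⟩
    refine ⟨⟨ha, ha1⟩, ?_⟩
    have := h1 e' j hj _ ha1 ha2
    rwa [sh_sh] at this)
  rwa [one_mul, Set.inter_univ, Set.inter_eq_right.2 hsub, hv _ hB, hv _ hm] at key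

lemma hit_eq {a : ℕ → T} {h : ℤ} {j : ℕ} (h0 : 0 ≤ h) (h1 : ∀ i < j, W.l.U a i < h)
    (h2 : h ≤ W.l.U a j) : W.l.U a j = h := by
  rcases j with _ | j
  · rw [W.l.U_zero] at h2 ⊢; omega
  · have h3 := h1 j (by omega)
    have h4 := W.l.U_succ a j
    have h5 := (abs_le.1 (W.l.abs_u_le (a j))).2
    omega

lemma rec_cat {e e' : ℕ → W.D} {n j : ℕ} {h : ℤ}
    (he : ∀ i ≤ n, W.l.U (W.la e) i ≤ W.l.U (W.la e) n + h)
    (h1 : ∀ i < j, W.l.U (W.la e') i < h) (h2 : W.l.U (W.la e') j = h) :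
    ∀ i ≤ n + j, W.l.U (W.la (Model.cat e n e')) i ≤
      W.l.U (W.la (Model.cat e n e')) (n + j) + 0 := by
  have h3 : ∀ i ≤ n, W.l.U (W.la (Model.cat e n e')) i = W.l.U (W.la e) i :=
    fun i hi => U_eq (Model.cat_mem e n e') hi
  have h4 : ∀ i, W.l.U (W.la (Model.cat e n e')) (n + i) =
      W.l.U (W.la e) n + W.l.U (W.la e') i := by
    intro i
    rw [W.l.U_add, h3 n le_rfl, ← W.la_sh, Model.sh_cat]
  intro i hi
  rw [h4, h2]
  rcases le_total i n with h5 | h5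
  · rw [h3 i h5]
    have := he i h5
    omega
  · obtain ⟨i', rfl⟩ := Nat.exists_eq_add_of_le h5
    rw [h4]
    rcases Nat.lt_or_ge i' j with h6 | h6
    · have := h1 i' h6
      omega
    · obtain rfl : i' = j := by omega
      omega

lemma shift_Ev (ℓ : Lev W) {w : ℝ} {t₀ t j : ℕ} {h y : ℤ} (hy : 0 ≤ y) {e' a : ℕ → W.D}
    (hj : j ≤ t) (h1 : ∀ i < j, W.l.U (W.la e') i < h) (h2 : W.l.U (W.la e') j = h)
    (ha : a ∈ Cy e' j) (hB : a ∈ Ev ℓ w t₀ (h + y) t) : sh j a ∈ Ev ℓ w t₀ (0 + y) (t - j) := by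
  obtain ⟨⟨j1, hj1, h3⟩, h4⟩ := hB
  have h5 : j ≤ j1 := by
    by_contra h6
    have h7 := h1 j1 (by omega)
    rw [← U_eq ha (by omega)] at h7
    omega
  obtain ⟨j2, rfl⟩ := Nat.exists_eq_add_of_le h5
  refine ⟨⟨j2, by omega, ?_⟩, fun h6 => h4 ?_⟩
  · rw [W.l.U_add, U_eq ha le_rfl, h2, ← W.la_sh] at h3
    omega
  · have := Lev.Rng.of_sh ℓ h6
    rwa [show j + (t - j + t₀) = t + t₀ by omega] at this

lemma cS_le (e : ℕ → W.D) (n : ℕ) (X : Set (ℕ → W.D)) : W.cS e n X ≤ W.S.real (Cy e n) :=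
  measureReal_mono Set.inter_subset_left

lemma case_zero (hS : StopStmt) (ℓ : Lev W) {w : ℝ} {t₀ : ℕ} {R : ℤ} {c : ℝ} (hR : 0 < R)
    (hc : c ≤ 1) (hE : ℓ.Exit w t₀ R c) (k : ℕ) : ∀ (e : ℕ → W.D) (n t : ℕ),
    (∀ i ≤ n, W.l.U (W.la e) i ≤ W.l.U (W.la e) n + 0) →
    W.cS e n (Ev ℓ w t₀ (0 + k * R) t) ≤ (1 - c) ^ k * W.S.real (Cy e n) := by
  induction k with
  | zero =>
    intro e n t _
    rw [pow_zero, one_mul]
    exact cS_le e n _
  | succ k ih =>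
    intro e n t he
    have hk : (0 : ℤ) ≤ k * R := by positivity
    have e1 : (0 : ℤ) + ((k + 1 : ℕ) : ℤ) * R = R + k * R := by push_cast; ring
    rw [e1]
    let Q : (ℕ → W.D) → ℕ → Prop := fun a j => R ≤ W.l.U (W.la a) j ∧
      (∀ i < j, W.l.U (W.la a) i < R) ∧ j ≤ t ∧ ¬ ∃ i < j, i ≤ t₀ ∧ ℓ.Rng w a i
    have hQ : Adapt Q := by
      rintro a a' j h ⟨h1, h2, h3, h4⟩
      refine ⟨by rwa [U_eq h le_rfl], fun i hi => by rw [U_eq h hi.le]; exact h2 i hi, h3, ?_⟩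
      rintro ⟨i, hi, hi', h5⟩
      exact h4 ⟨i, hi, hi', Rng_congr ℓ (fun i hi => (h i hi).symm) hi.le h5⟩
    have h1 := stop_step hS e n Q hQ (Ev ℓ w t₀ (R + k * R) t) (meas_Ev ℓ _ _ _ _) ((1 - c) ^ k)
      (fun j => Ev ℓ w t₀ (0 + k * R) (t - j))
      (fun e' j hj a ha hB =>
        shift_Ev ℓ hk hj.1.2.2.1 hj.1.2.1 (hit_eq hR.le hj.1.2.1 hj.1.1) ha hB)
      (fun e' j hj => ih _ _ _ (rec_cat (fun i hi => by have := he i hi; omega) hj.1.2.1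
        (hit_eq hR.le hj.1.2.1 hj.1.1)))
      (by
        rintro a ⟨⟨j, hj, h1⟩, h2⟩
        obtain ⟨j0, hj0, h3, h4⟩ := exists_first
          (Q := fun (a : ℕ → W.D) j => R ≤ W.l.U (W.la a) j) (a := a) (n := j) (by omega)
        refine ⟨j0, h3, fun i hi => not_le.1 (h4 i hi), by omega, ?_⟩
        rintro ⟨i, _, hi', h5⟩
        exact h2 (Lev.Rng.mono ℓ h5 (by omega)))
    have h2 : W.cS e n {a | ∃ j, Q a j} ≤ (1 - c) * W.S.real (Cy e n) := by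
      have h3 := hE e n (fun i hi => by have := he i hi; omega)
      have h4 := measureReal_inter_add_sdiff (μ := W.S) (s := Cy e n)
        (measurable_sh n (meas_Succ ℓ w t₀ R))
      have h5 : W.cS e n {a | ∃ j, Q a j} ≤ W.S.real (Cy e n \ sh n ⁻¹' ℓ.Succ w t₀ R) := by
        refine measureReal_mono ?_
        rintro a ⟨ha, j, h6, _, _, h7⟩
        refine ⟨ha, ?_⟩
        rintro ⟨m, hm, h8, h9⟩
        rcases Nat.lt_or_ge m j with h10 | h10
        · exact h7 ⟨m, h10, hm, h8⟩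
        · have := h9 j h10
          omega
      rw [Model.cS] at h3
      linarith
    have h0 : 0 ≤ (1 - c) ^ k := pow_nonneg (by linarith) k
    calc _ ≤ _ := h1
      _ ≤ (1 - c) ^ k * ((1 - c) * W.S.real (Cy e n)) := mul_le_mul_of_nonneg_left h2 h0
      _ = _ := by ring

end XOneAux

open XOneAux in
theorem x1_thm (hS : StopStmt) : X1Stmt := by
  intro W ℓ w t₀ R c hR hE k e n h t h0 he
  have hc : c ≤ 1 := by
    have h1 := hE e 0 (fun i hi => by obtain rfl : i = 0 := by omega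
                                      exact le_rfl)
    have h2 := cS_le e 0 (ℓ.Succ w t₀ R)
    rw [Cy_zero, probReal_univ] at h1 h2
    linarith
  have hk : (0 : ℤ) ≤ k * R := by positivity
  let Q : (ℕ → W.D) → ℕ → Prop := fun a j => j ≤ t ∧ h ≤ W.l.U (W.la a) j
  have hQ : Adapt Q := by
    rintro a a' j h ⟨h1, h2⟩
    exact ⟨h1, by rwa [U_eq h le_rfl]⟩
  have hlt : ∀ e' j, First Q e' j → ∀ i < j, W.l.U (W.la e') i < h := by
    intro e' j hj i hi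
    by_contra h1
    exact hj.2 i hi ⟨by have := hj.1.1; omega, not_lt.1 h1⟩
  have h1 := stop_step hS e n Q hQ (Ev ℓ w t₀ (h + k * R) t) (meas_Ev ℓ _ _ _ _) ((1 - c) ^ k)
    (fun j => Ev ℓ w t₀ (0 + k * R) (t - j))
    (fun e' j hj a ha hB =>
      shift_Ev ℓ hk hj.1.1 (hlt e' j hj) (hit_eq h0 (hlt e' j hj) hj.1.2) ha hB)
    (fun e' j hj => case_zero hS ℓ hR hc hE k _ _ _
      (rec_cat he (hlt e' j hj) (hit_eq h0 (hlt e' j hj) hj.1.2)))
    (by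
      rintro a ⟨⟨j, hj, h1⟩, _⟩
      exact ⟨j, hj, by omega⟩)
  exact h1.trans (mul_le_mul_of_nonneg_left (cS_le e n _) (pow_nonneg (by linarith) k))

end Pool.Agent.MP_db8016_pr.HD
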