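import Pool.Agent.MP_db8016_pr.HD.Stmts

/-! The exit estimate after a stopped cut event followed by a run. -/

namespace Pool.Agent.MP_db8016_pr.HD
open MeasureTheory ProbabilityTheory Filter Finset

namespace XSixAux

lemma nn_le {z : ℤ × ℤ} {R : ℤ} (h : nn z ≤ R) : -R ≤ z.1 ∧ z.1 ≤ R := by
  have := le_trans (le_max_left _ _) h
  exact abs_le.1 this

lemma nn_lt {z : ℤ × ℤ} {R : ℤ} (h : nn z < R) : -R < z.1 ∧ z.1 < R := by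
  have := lt_of_le_of_lt (le_max_left _ _) h
  exact abs_lt.1 this

lemma nn_neg (z : ℤ × ℤ) : nn (-z) = nn z := by simp [nn]

variable {m : Measure T} {l : Lat m}

/-- The deterministic geometry. -/
lemma geo (c : Cut l) {I₀ I n₀ n₁ s Kw : ℕ} {a a' b : ℕ → T} (h0 : 1 ≤ I₀) (hI : I₀ ≤ I)
    (h1 : c.t I₀ ≤ n₀) (h2 : n₀ ≤ c.t I) (hs : c.t I ≤ s) (ha : ∀ i < n₀, a' i = a i)
    (hC : (a', b) ∈ c.C I) (hw : sh (c.t I) b ∈ l.WaitEv (c.r I) Kw (s - c.t I))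
    (hd : ∀ j ≤ n₁, nn (l.Y (sh n₀ a) j) < c.r I₀) :
    (∀ j < n₀ + n₁, ∀ s' ≤ s, 1 ≤ s' → l.Y a j + l.Y b s' ≠ 0) ∧
    (∀ j < n₀ + n₁, 0 < l.U b s + l.U a j) ∧
    (∀ s' ≤ s, l.U b s - l.U b s' < ((2 * c.K + 2 * Kw + 2) * c.r I : ℕ)) ∧
    (∀ j ≤ n₀ + n₁, l.U b s + l.U a j < ((2 * c.K + 2 * Kw + 2) * c.r I : ℕ)) := by
  have hI1 : 1 ≤ I := h0.trans hI
  have hr : (c.r I₀ : ℤ) ≤ c.r I := by exact_mod_cast c.r_mono h0 hI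
  have hr1 : (1 : ℤ) ≤ c.r I := by exact_mod_cast c.one_le_r hI1
  have hKw : (0 : ℤ) ≤ Kw * c.r I := by positivity
  have hK : (0 : ℤ) ≤ c.K * c.r I := by positivity
  have g1 := c.g1 I _ hC
  have g2 := c.g2 I _ hC I₀ h0 n₀ h2 h1
  have g3 := c.g3 I hI1 _ hC
  have g4 := c.g4 I hI1 _ hC
  simp only at g1 g2 g3 g4
  -- the first walk
  have hA : ∀ j ≤ n₀ + n₁, (c.r I : ℤ) < l.U a j + l.U b (c.t I) ∧
      l.U a j ≤ c.K * c.r I + c.r I := by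
    intro j hj
    rcases le_total j n₀ with h | h
    · have e1 := l.U_congr ha h
      have e2 := (g4 j (h.trans h2)).2
      have e3 := (nn_le (g3 j (h.trans h2)).1).2
      simp only [Lat.Y] at e3
      constructor <;> linarith
    · obtain ⟨j₁, rfl⟩ := Nat.exists_eq_add_of_le h
      have e1 := l.U_congr ha le_rfl
      have e2 := (g4 n₀ h2).2
      have e3 := (nn_le (g3 n₀ h2).1).2
      have e4 := nn_lt (hd j₁ (by omega))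
      simp only [Lat.Y] at e3 e4
      rw [l.U_add]
      constructor <;> linarith [e4.1, e4.2]
  -- the second walk
  have hB : ∀ s' ≤ s, c.t I ≤ s' → l.U b (c.t I) - c.r I < l.U b s' := by
    intro s' h h'
    obtain ⟨k, rfl⟩ := Nat.exists_eq_add_of_le h'
    have e1 := (hw k (by omega)).1
    rw [l.U_add]
    linarith
  have hB' : ∀ s' ≤ s, -(c.K * c.r I + Kw * c.r I : ℤ) ≤ l.U b s' ∧
      l.U b s' ≤ c.K * c.r I + Kw * c.r I := by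
    intro s' h
    rcases le_total s' (c.t I) with h' | h'
    · have e3 := nn_le (g3 s' h').2
      simp only [Lat.Y] at e3
      constructor <;> linarith [e3.1, e3.2]
    · obtain ⟨k, rfl⟩ := Nat.exists_eq_add_of_le h'
      have e1 := nn_le (hw k (by omega)).2
      have e3 := nn_le (g3 _ le_rfl).2
      simp only [Lat.Y] at e1 e3
      rw [l.U_add]
      constructor <;> linarith [e3.1, e3.2, e1.1, e1.2]
  refine ⟨fun j hj s' h1' h2' => ?_, fun j hj => ?_, fun s' h => ?_, fun j hj => ?_⟩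
  · rcases le_total s' (c.t I) with h' | h'
    · rcases le_total j n₀ with h | h
      · rw [← l.Y_congr ha h]
        exact g1 j (h.trans h2) s' h' h2'
      · obtain ⟨j₁, rfl⟩ := Nat.exists_eq_add_of_le h
        intro h0'
        have e1 := g2 s' h'
        have e4 := hd j₁ (by omega)
        rw [l.Y_add, ← l.Y_congr ha le_rfl] at h0'
        have e5 : l.Y a' n₀ + l.Y b s' = -l.Y (sh n₀ a) j₁ := by
          rw [eq_neg_iff_add_eq_zero, ← h0']; abel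
        rw [e5, nn_neg] at e1
        linarith
    · intro h0'
      have e1 := congrArg Prod.fst h0'
      simp only [Lat.Y, Prod.fst_add, Prod.fst_zero] at e1
      have e2 := (hA j hj.le).1
      have e3 := hB s' h1' h'
      linarith
  · have e2 := (hA j hj.le).1
    have e3 := hB s le_rfl hs
    linarith
  · have e1 := (hB' s le_rfl).2
    have e2 := (hB' s' h).1
    push_cast
    linarith
  · have e1 := (hB' s le_rfl).2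
    have e2 := (hA j hj).2
    push_cast
    linarith

variable {W : Model}

lemma run_stab (ℓ : Lev W) {e e' : ℕ → W.D} {n₀ n₁ t' : ℕ} {z : ℝ} {ρ : ℤ}
    (h : ∀ i < n₀ + n₁, e' i = e i) (hn : n₁ ≤ t') (hz : z ≤ ℓ.lv (sh n₀ e) n₁)
    (hk : ∀ k ≤ n₁, 0 ≤ ℓ.lv (sh n₀ e) k ∧ nn (W.l.Y (W.la (sh n₀ e)) k) < ρ) :
    sh n₀ e' ∈ ℓ.Run z t' ρ := by
  have h' : ∀ i < n₁, sh n₀ e' i = sh n₀ e i := fun i hi => h _ (by omega)
  have h'' : ∀ i < n₁, W.la (sh n₀ e') i = W.la (sh n₀ e) i := fun i hi =>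
    congrArg W.lam (h' i hi)
  refine ⟨n₁, hn, by rwa [ℓ.lv_congr h' le_rfl], fun k hk' => ?_⟩
  rw [ℓ.lv_congr h' hk', W.l.Y_congr h'' hk']
  exact hk k hk'

lemma rec_stab (ℓ : Lev W) {e e' : ℕ → W.D} {n₀ : ℕ} (h : ∀ i < n₀, e' i = e i)
    (hr : ℓ.Rec e n₀) : ℓ.Rec e' n₀ := by
  intro i hi
  rw [ℓ.lv_congr h hi.le, ℓ.lv_congr h le_rfl]
  exact hr i hi

lemma first_stab (ℓ : Lev W) {e e' : ℕ → W.D} {n₀ : ℕ} {w : ℝ} (h : ∀ i < n₀, e' i = e i)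
    (hf : First (ℓ.Rng w) e n₀) : First (ℓ.Rng w) e' n₀ :=
  ⟨ℓ.adapt_Rng w e e' n₀ h hf.1, fun k hk hk' =>
    hf.2 k hk (ℓ.adapt_Rng w e' e k (fun i hi => (h i (hi.trans hk)).symm) hk')⟩

lemma wait_stab {b b' : ℕ → T} {t s : ℕ} {h K : ℤ} (hb : ∀ i < s, b' i = b i)
    (hw : sh t b ∈ l.WaitEv h K (s - t)) : sh t b' ∈ l.WaitEv h K (s - t) := by
  have h' : ∀ i < s - t, sh t b' i = sh t b i := fun i hi => hb _ (by omega)
  intro k hk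
  rw [l.U_congr h' hk, l.Y_congr h' hk]
  exact hw k hk

/-- The witness time of a point of the stopped event. -/
lemma wit (ℓ : Lev W) (c : Cut W.l) {w z : ℝ} {I₀ I t' Kw s : ℕ} (hs : c.t I ≤ s)
    {x : (ℕ → W.D) × (ℕ → T)} (hx : x ∈ JEv W ℓ c w z I₀ I t' Kw s) :
    ∃ n₀ n₁, ∃ y : ℕ → W.D, c.t I₀ < n₀ ∧ n₀ ≤ c.t I ∧ n₁ ≤ t' ∧ (∀ i < n₀, y i = x.1 i) ∧
      (W.la y, x.2) ∈ c.C I ∧ sh (c.t I) x.2 ∈ W.l.WaitEv (c.r I) Kw (s - c.t I) ∧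
      (∀ j ≤ n₁, nn (W.l.Y (sh n₀ (W.la x.1)) j) < c.r I₀) ∧ ℓ.Rng (w + z) x.1 (n₀ + n₁) ∧
      ∀ x' : (ℕ → W.D) × (ℕ → T), (∀ i < n₀ + n₁, x'.1 i = x.1 i) → (∀ i < s, x'.2 i = x.2 i) →
        x' ∈ JEv W ℓ c w z I₀ I t' Kw s := by
  obtain ⟨n₀, hf, h1, h2, ⟨y, hy, hC⟩, hw, h⟩ := hx
  have key : ∀ n₁, ∀ x' : (ℕ → W.D) × (ℕ → T), (∀ i < n₀ + n₁, x'.1 i = x.1 i) →
      (∀ i < s, x'.2 i = x.2 i) → First (ℓ.Rng w) x'.1 n₀ ∧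
      (∃ y : ℕ → W.D, (∀ i < n₀, y i = x'.1 i) ∧ (W.la y, x'.2) ∈ c.C I) ∧
      sh (c.t I) x'.2 ∈ W.l.WaitEv (c.r I) Kw (s - c.t I) := by
    intro n₁ x' e1 e2
    refine ⟨first_stab ℓ (fun i hi => e1 i (by omega)) hf,
      ⟨y, fun i hi => (hy i hi).trans (e1 i (by omega)).symm, ?_⟩, wait_stab e2 hw⟩
    exact c.C_det I (W.la y, x.2) (W.la y, x'.2) (fun _ _ => rfl)
      (fun i hi => e2 i (by omega)) hC
  rcases h with ⟨hr, ⟨i, hi, hl⟩, n₁, hn, hz, hk⟩ | ⟨hr, ⟨i, hi, hl⟩, n₁, hn, hz, hk⟩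
  · refine ⟨n₀, n₁, y, h1, h2, hn, hy, hC, hw, fun j hj => (hk j hj).2,
      ⟨i, by omega, n₀ + n₁, le_rfl, by rw [ℓ.lv_add]; linarith⟩, fun x' e1 e2 => ?_⟩
    obtain ⟨k1, k2, k3⟩ := key n₁ x' e1 e2
    have e0 : ∀ i < n₀, x'.1 i = x.1 i := fun i hi => e1 i (by omega)
    refine ⟨n₀, k1, h1, h2, k2, k3, Or.inl ⟨rec_stab ℓ e0 hr, ⟨i, hi, ?_⟩,
      run_stab ℓ e1 hn hz hk⟩⟩
    rwa [ℓ.lv_congr e0 hi, ℓ.lv_congr e0 le_rfl]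
  · refine ⟨n₀, n₁, y, h1, h2, hn, hy, hC, hw, fun j hj => (hk j hj).2,
      ⟨n₀ + n₁, le_rfl, i, by omega, ?_⟩, fun x' e1 e2 => ?_⟩
    · rw [ℓ.lv_add]
      rw [Lev.neg_lv] at hz
      linarith
    obtain ⟨k1, k2, k3⟩ := key n₁ x' e1 e2
    have e0 : ∀ i < n₀, x'.1 i = x.1 i := fun i hi => e1 i (by omega)
    refine ⟨n₀, k1, h1, h2, k2, k3, Or.inr ⟨rec_stab ℓ.neg e0 hr, ⟨i, hi, ?_⟩,
      run_stab ℓ.neg e1 hn hz hk⟩⟩
    rwa [ℓ.lv_congr e0 hi, ℓ.lv_congr e0 le_rfl]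

end XSixAux

theorem x6_thm (hE : ExitOfStmt) (hJ : JProbStmt) (hW : WaitStmt) (hQ : QStmt) : X6Stmt := by
  intro W ℓ c
  obtain ⟨cw, Kw, hcw, -, hwait⟩ := hW W.m W.l c.A
  obtain ⟨C₀, hC₀, hEx⟩ := hE W ℓ c
  refine ⟨2 * c.K + 2 * Kw + 2, by omega, fun k => ?_⟩
  have hβ := ℓ.hβ
  have hπ := c.π₀_pos
  have hb : 0 < ℓ.β / 4 * cw * (3 / 8 * c.π₀ ^ k) := by positivity
  refine ⟨(ℓ.β / 4 * cw * (3 / 8 * c.π₀ ^ k)) ^ 2 / C₀, by positivity, ?_⟩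
  intro w z I₀ t' h0 hw ht hA hB hR hR'
  have hI : I₀ ≤ I₀ + k := Nat.le_add_right _ _
  have hI1 : 1 ≤ I₀ + k := h0.trans hI
  refine hEx (w + z) I₀ (I₀ + k) _ _ (fun s => JEv W ℓ c w z I₀ (I₀ + k) t' Kw s) hI hI1 hb.le ?_
  intro s hs
  obtain ⟨hs1, hs2⟩ := mem_Ico.1 hs
  refine ⟨?_, fun x hx => ?_, fun x hx => ?_⟩
  · have h1 : cw ≤ (IID W.m).real (W.l.WaitEv (c.r (I₀ + k)) Kw (s - c.t (I₀ + k))) := by
      refine hwait _ (by exact_mod_cast c.one_le_r hI1) _ ?_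
      have h2 : s - c.t (I₀ + k) ≤ c.A * c.r (I₀ + k) ^ 2 := by
        rw [← c.t_eq _ hI1]; omega
      exact_mod_cast h2
    refine le_trans ?_ (hJ W ℓ c w z I₀ (I₀ + k) t' Kw s cw hw hI hcw.le h1 hA hB hR hR')
    have h3 := (hQ W.m W.l c I₀).2.2 k
    have h4 : 0 ≤ ℓ.β / 4 * cw * (3 / 8) := by positivity
    calc ℓ.β / 4 * cw * (3 / 8 * c.π₀ ^ k) * c.q I₀
        = ℓ.β / 4 * cw * (3 / 8) * (c.π₀ ^ k * c.q I₀) := by ring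
      _ ≤ ℓ.β / 4 * cw * (3 / 8) * c.q (I₀ + k) := mul_le_mul_of_nonneg_left h3 h4
      _ = _ := by ring
  · obtain ⟨n₀, -, h1, -, ⟨y, hy, hC⟩, -⟩ := hx
    exact c.C_det I₀ (W.la y, x.2) (W.la x.1, x.2)
      (fun i hi => congrArg W.lam (hy i (by omega)).symm) (fun _ _ => rfl) (c.C_anti hI hC)
  · obtain ⟨n₀, n₁, y, h1, h2, h3, hy, hC, hwt, hd, hrng, hst⟩ := XSixAux.wit ℓ c hs1 hx
    obtain ⟨g1, g2, g3, g4⟩ := XSixAux.geo c (a := W.la x.1) (a' := W.la y) (b := x.2) h0 hI h1.le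
      h2 hs1 (fun i hi => congrArg W.lam (hy i hi)) hC hwt hd
    exact ⟨n₀ + n₁, by omega, hst, g1, g2, hrng, g3, g4⟩

end Pool.Agent.MP_db8016_pr.HD
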