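import Pool.Agent.MP_db8016_pr.HD.Stmts

namespace Pool.Agent.MP_db8016_pr.HD
open MeasureTheory ProbabilityTheory Filter Finset

namespace XTwoAux

lemma r_grow {m : Measure T} {l : Lat m} (c : Cut l) {I : ℕ} (hI : 1 ≤ I) (i : ℕ) :
    (i + 1) * c.r I ≤ c.r (I + i) := by
  induction i with
  | zero => simp
  | succ i ih =>
    rw [← add_assoc, c.r_succ _ (by omega)]
    have h1 := c.hμ
    have h2 := c.hK
    have h3 : 3 * c.r (I + i) ≤ c.μ * c.r (I + i) := Nat.mul_le_mul_right _ (by omega)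
    nlinarith

lemma meas_lift (W : Model) {E : Set ((ℕ → T) × (ℕ → T))} (hE : MeasurableSet E) :
    MeasurableSet (W.lift E) :=
  ((W.measurable_la.comp measurable_fst).prodMk measurable_snd) hE

lemma real_lift (hI : IndepStmt) (W : Model) (c : Cut W.l) (J : ℕ) :
    W.M.real (W.lift (c.C J)) = c.q J := by
  have := hI W 0 Set.univ (c.C J) (fun _ _ _ _ _ => trivial) (c.C_det J).measurableSet
  simpa [Model.lift, Cut.q] using this

lemma abs_U_le {m : Measure T} {l : Lat m} (c : Cut l) {J : ℕ} (hJ : 1 ≤ J)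
    {x : (ℕ → T) × (ℕ → T)} (hx : x ∈ c.C J) {s : ℕ} (hs : s ≤ c.t J) :
    |l.U x.1 s| ≤ c.K * c.r J :=
  (le_max_left _ _).trans (c.g3 J hJ x hx s hs).1

/-- The event of the first exit lemma. -/
def Ev (W : Model) (ℓ : Lev W) (w : ℝ) (z : ℤ) (t t₀ : ℕ) : Set (ℕ → W.D) :=
  {e' | (∃ j ≤ t, z ≤ W.l.U (W.la e') j) ∧ ¬ ℓ.Rng w e' (t + t₀)}

lemma meas_Ev (W : Model) (ℓ : Lev W) (w : ℝ) (z : ℤ) (t t₀ : ℕ) :
    MeasurableSet (Ev W ℓ w z t t₀) := by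
  refine Det.measurableSet (n := t + t₀) ?_
  rintro a a' h ⟨⟨j, hj, h1⟩, h2⟩
  refine ⟨⟨j, hj, ?_⟩, fun h3 => h2 (ℓ.adapt_Rng w a' a _ (fun i hi => (h i hi).symm) h3)⟩
  rwa [W.l.U_congr (a := W.la a) (a' := W.la a') (n := t + t₀)
    (fun i hi => by simp only [Model.la, h i hi]) (by omega)]

lemma one_step (hS : StopStmt) (hF : FubStmt) (W : Model) (c : Cut W.l) (J : ℕ)
    (F : Set (ℕ → W.D)) (hm : MeasurableSet F) (γ : ℝ)
    (h : ∀ e b, (W.la e, b) ∈ c.C J → W.cS e (c.t J) F ≤ γ * W.S.real (Cy e (c.t J))) :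
    W.M.real (W.lift (c.C J) ∩ {x | sh (c.t J) x.1 ∈ F}) ≤ γ * W.M.real (W.lift (c.C J)) := by
  have m1 := meas_lift W (c.C_det J).measurableSet
  have := hF _ _ W.S (IID W.m) (W.lift (c.C J)) (W.lift (c.C J) ∩ {x | sh (c.t J) x.1 ∈ F}) m1
    (m1.inter (((measurable_sh _).comp measurable_fst) hm)) γ 1 fun b => by
      have h1 := hS W.D W.S W.S (fun e n => n = c.t J ∧ (W.la e, b) ∈ c.C J) (by
        rintro e e' n he ⟨rfl, h2⟩
        exact ⟨rfl, c.C_det J (W.la e, b) (W.la e', b)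
          (fun i hi => by simp only [Model.la, he i hi]) (fun _ _ => rfl) h2⟩)
        Set.univ (sh (c.t J) ⁻¹' F) MeasurableSet.univ (measurable_sh _ hm) γ 1 (by
          rintro e n ⟨⟨rfl, h2⟩, -⟩
          rw [one_mul, Set.inter_univ]
          exact h e b h2)
      have e1 : {e | (e, b) ∈ W.lift (c.C J)} =
          {e | ∃ n, n = c.t J ∧ (W.la e, b) ∈ c.C J} ∩ Set.univ := by
        ext e; simp [Model.lift]
      have e2 : {e | (e, b) ∈ W.lift (c.C J) ∩ {x | sh (c.t J) x.1 ∈ F}} =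
          {e | ∃ n, n = c.t J ∧ (W.la e, b) ∈ c.C J} ∩ sh (c.t J) ⁻¹' F := by
        ext e; simp [Model.lift]
      rw [e1, e2]
      exact h1
  rwa [one_mul] at this

end XTwoAux

open XTwoAux in
theorem x2_thm (h1 : X1Stmt) (hQ : QStmt) (hI : IndepStmt) (hS : StopStmt) (hF : FubStmt) :
    X2Stmt := by
  intro W ℓ c K' b hK' hb
  obtain ⟨k, hk⟩ := exists_pow_lt_of_lt_one (show 0 < c.π₀ ^ 2 / 8 by have := c.π₀_pos; positivity)
    (show 1 - b < 1 by linarith)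
  refine ⟨k * K' + 3, fun w I hI1 hE J hJ => ?_⟩
  obtain ⟨J₂, rfl⟩ : ∃ J₂, J = J₂ + 2 := ⟨J - 2, by omega⟩
  have hJ₂ : 1 ≤ J₂ := by omega
  have hR : (0 : ℤ) < ((K' * c.r I : ℕ) : ℤ) := by
    exact_mod_cast Nat.mul_pos hK' (c.one_le_r hI1)
  have hst := one_step hS hF W c J₂ (Ev W ℓ w (2 * (c.K * c.r J₂) + k * ((K' * c.r I : ℕ) : ℤ))
    (c.t (J₂ + 1) - c.t J₂) (4 * c.t I)) (meas_Ev ..) ((1 - b) ^ k) fun e y hy =>
      h1 W ℓ w _ _ b hR hE k e _ _ _ (by positivity) fun i hi => by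
        have h2 := abs_le.1 (abs_U_le c hJ₂ hy hi)
        have h3 := abs_le.1 (abs_U_le c hJ₂ hy le_rfl)
        simp only at h2 h3
        linarith [h2.2, h3.1]
  have hsub : W.lift (c.C (J₂ + 2)) ⊆ (W.lift (c.C (J₂ + 2)) ∩ ℓ.Th w (c.t (J₂ + 2))) ∪
      (W.lift (c.C J₂) ∩ {x | sh (c.t J₂) x.1 ∈
        Ev W ℓ w (2 * (c.K * c.r J₂) + k * ((K' * c.r I : ℕ) : ℤ))
          (c.t (J₂ + 1) - c.t J₂) (4 * c.t I)}) := by
    intro x hx
    by_cases hT : x ∈ ℓ.Th w (c.t (J₂ + 2))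
    · exact Or.inl ⟨hx, hT⟩
    have hx0 : (W.la x.1, x.2) ∈ c.C J₂ := c.C_anti (by omega) hx
    have hx1 : (W.la x.1, x.2) ∈ c.C (J₂ + 1) := c.C_anti (by omega) hx
    have ht := c.t_mono (Nat.le_succ J₂)
    refine Or.inr ⟨hx0, ⟨_, le_rfl, ?_⟩, fun hr => hT (Lev.Rng.mono ℓ (Lev.Rng.of_sh ℓ hr) ?_)⟩
    · have h2 := (c.g4 (J₂ + 1) (by omega) _ hx1 0 (Nat.zero_le _)).1
      have h3 := (abs_le.1 (abs_U_le c hJ₂ hx0 le_rfl)).2
      have h4 := W.l.U_add (W.la x.1) (c.t J₂) (c.t (J₂ + 1) - c.t J₂)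
      rw [Nat.add_sub_cancel' ht] at h4
      have h5 : 3 * (c.K * c.r J₂) ≤ c.r (J₂ + 1) := by
        rw [c.r_succ _ hJ₂, ← mul_assoc]
        exact Nat.mul_le_mul_right _ c.hμ
      have h6 : k * (K' * c.r I) ≤ c.r (J₂ + 1) := by
        have h7 := r_grow c hI1 (k * K')
        have h8 := c.r_mono (show 1 ≤ I + k * K' by omega) (show I + k * K' ≤ J₂ + 1 by omega)
        nlinarith
      have h5' : 3 * ((c.K : ℤ) * c.r J₂) ≤ c.r (J₂ + 1) := by exact_mod_cast h5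
      have h6' : (k : ℤ) * ((K' * c.r I : ℕ) : ℤ) ≤ c.r (J₂ + 1) := by exact_mod_cast h6
      simp only [Lat.U_zero, add_zero] at h2 h3
      rw [Model.la_sh]
      linarith
    · have h2 := c.nine_t_le (J₂ + 1)
      have h3 := c.t_mono (show I ≤ J₂ + 1 by omega)
      simp only [Nat.succ_eq_add_one] at ht
      have h4 : c.t (J₂ + 1 + 1) = c.t (J₂ + 2) := rfl
      omega
  have h2 := (measureReal_mono (μ := W.M) hsub).trans (measureReal_union_le _ _)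
  rw [real_lift hI] at h2 hst
  obtain ⟨-, h3, h4⟩ := hQ W.m W.l c J₂
  have h5 := h4 2
  have h6 := mul_le_mul_of_nonneg_right hk.le h3.le
  linarith

end Pool.Agent.MP_db8016_pr.HD
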