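import Pool.Agent.MP_db8016_pr.HD.Stmts

namespace Pool.Agent.MP_db8016_pr.HD
open MeasureTheory ProbabilityTheory Filter Finset

namespace ZTransAux

lemma nn_add (z z' : ℤ × ℤ) : nn (z + z') ≤ nn z + nn z' := by
  simp only [nn, Prod.fst_add, Prod.snd_add]
  refine max_le ?_ ?_
  · exact (abs_add_le _ _).trans (add_le_add (le_max_left _ _) (le_max_left _ _))
  · exact (abs_add_le _ _).trans (add_le_add (le_max_right _ _) (le_max_right _ _))

lemma nn_neg (z : ℤ × ℤ) : nn (-z) = nn z := by simp [nn]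

lemma fst_le_nn (z : ℤ × ℤ) : z.1 ≤ nn z := (le_abs_self _).trans (le_max_left _ _)

lemma nn_le_add (z z' : ℤ × ℤ) : nn z ≤ nn (z + z') + nn z' := by
  have h := nn_add (z + z') (-z')
  rwa [nn_neg, add_neg_cancel_right] at h

variable {m : Measure T} {l : Lat m}

lemma nn_Y_le (a : ℕ → T) (k : ℕ) : nn (l.Y a k) ≤ k := by
  induction k with
  | zero => simp [nn]
  | succ k ih =>
    rw [l.Y_succ]
    have h1 := nn_add (l.Y a k) (l.st (a k))
    have h2 : nn (l.st (a k)) ≤ 1 := max_le (l.abs_u_le _) (l.abs_v_le _)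
    push_cast
    omega

lemma fst_sum (a b : ℕ → T) (j s : ℕ) : (l.Y a j + l.Y b s).1 = l.U a j + l.U b s := rfl

lemma geo (c : Cut l) {I Kw K₂ n s : ℕ} (hI : 1 ≤ I) (hK : 2 * c.K + Kw + 1 ≤ K₂)
    {a b : ℕ → T} (hx : (a, b) ∈ ZEv c I Kw K₂ n s) {j s' : ℕ} (hj : j ≤ n) (hs : s' ≤ s)
    (h : c.t I ≤ j ∨ c.t I ≤ s') : (c.r I : ℤ) < nn (l.Y a j + l.Y b s') := by
  obtain ⟨hC, hE, hW⟩ := hx
  have g3 := c.g3 I hI _ hC
  have g4 := c.g4 I hI _ hC
  have g5 := c.g5 I hI _ hC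
  simp only at g3 g4 g5 hE hW
  have hr : (0 : ℤ) ≤ c.r I := Int.natCast_nonneg _
  have hK' : 2 * (c.K : ℤ) + Kw + 1 ≤ K₂ := by exact_mod_cast hK
  have hKr : (2 * (c.K : ℤ) + Kw + 1) * c.r I ≤ K₂ * c.r I := mul_le_mul_of_nonneg_right hK' hr
  have hKw : 0 ≤ (Kw : ℤ) * c.r I := mul_nonneg (Int.natCast_nonneg _) hr
  have hU := fst_le_nn (l.Y a j + l.Y b s')
  rw [fst_sum] at hU
  have hb : (s' ≤ c.t I ∧ nn (l.Y b s') ≤ c.K * c.r I) ∨
      (l.U b (c.t I) - c.r I < l.U b s' ∧ nn (l.Y b s') ≤ c.K * c.r I + Kw * c.r I) := by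
    rcases le_total s' (c.t I) with h1 | h1
    · exact Or.inl ⟨h1, (g3 s' h1).2⟩
    · obtain ⟨k, rfl⟩ := Nat.exists_eq_add_of_le h1
      obtain ⟨h2, h3⟩ := hW k (by omega)
      refine Or.inr ⟨?_, ?_⟩
      · rw [l.U_add]; omega
      · rw [l.Y_add]
        exact (nn_add _ _).trans (add_le_add (g3 _ le_rfl).2 h3)
  rcases le_total j (c.t I) with h1 | h1
  · have h2 := (g4 j h1).2
    rcases hb with ⟨h3, _⟩ | ⟨h3, _⟩
    · have h4 := c.one_le_r hI
      rcases h with h | h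
      · have h5 := (g4 s' h3).1
        obtain rfl : j = c.t I := le_antisymm h1 h
        omega
      · obtain rfl : s' = c.t I := le_antisymm h3 h
        omega
    · omega
  · obtain ⟨k, rfl⟩ := Nat.exists_eq_add_of_le h1
    rcases hE k (by omega) with h2 | h2
    · rw [l.U_add] at hU
      rcases hb with ⟨h3, _⟩ | ⟨h3, _⟩
      · have h5 := (g4 s' h3).1
        omega
      · omega
    · have h3 : nn (l.Y b s') ≤ c.K * c.r I + Kw * c.r I := by
        rcases hb with ⟨_, h3⟩ | ⟨_, h3⟩ <;> omega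
      have h4 := nn_le_add (l.Y a (c.t I + k)) (l.Y b s')
      have h5 := nn_le_add (l.Y (sh (c.t I) a) k) (l.Y a (c.t I))
      rw [add_comm (l.Y (sh (c.t I) a) k), ← l.Y_add] at h5
      have h6 := (g3 _ le_rfl).1
      nlinarith

lemma det_ZEv (c : Cut l) {I Kw K₂ n s : ℕ} (hn : c.t I ≤ n) (hs : c.t I ≤ s) :
    Det2 n s (ZEv c I Kw K₂ n s) := by
  rintro x y h1 h2 ⟨hC, hE, hW⟩
  have h3 : ∀ i < n - c.t I, sh (c.t I) y.1 i = sh (c.t I) x.1 i := fun i hi => h1 _ (by omega)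
  have h4 : ∀ i < s - c.t I, sh (c.t I) y.2 i = sh (c.t I) x.2 i := fun i hi => h2 _ (by omega)
  refine ⟨c.C_det I x y (fun i hi => h1 i (by omega)) (fun i hi => h2 i (by omega)) hC,
    fun k hk => ?_, fun k hk => ?_⟩
  · rw [l.U_congr h3 hk, l.Y_congr h3 hk]; exact hE k hk
  · rw [l.U_congr h4 hk, l.Y_congr h4 hk]; exact hW k hk

lemma glue (hS : StopStmt) (W : Model) {m₀ : ℕ} {A X : Set (ℕ → W.D)} (hA : Det m₀ A)
    (hX : MeasurableSet X) {p : ℝ}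
    (h : ∀ e, W.S.real (Cy e m₀ ∩ X) = W.S.real (Cy e m₀) * p) :
    W.S.real (A ∩ X) = W.S.real A * p := by
  have hQ : Adapt (fun (e : ℕ → W.D) (j : ℕ) => j = m₀ ∧ e ∈ A) := by
    rintro a a' n h1 ⟨rfl, h2⟩
    exact ⟨rfl, hA a a' h1 h2⟩
  have hset : {e : ℕ → W.D | ∃ j : ℕ, j = m₀ ∧ e ∈ A} = A := by ext e; simp
  have h1 := hS W.D W.S W.S _ hQ Set.univ X MeasurableSet.univ hX p 1 (by
    rintro e n ⟨⟨rfl, _⟩, _⟩
    rw [h e, Set.inter_univ, one_mul, mul_comm])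
  have h2 := hS W.D W.S W.S _ hQ X Set.univ hX MeasurableSet.univ 1 p (by
    rintro e n ⟨⟨rfl, _⟩, _⟩
    rw [h e, Set.inter_univ, one_mul, mul_comm])
  rw [hset, Set.inter_univ, one_mul, mul_comm] at h1 h2
  exact le_antisymm h1 h2

end ZTransAux

open ZTransAux in
theorem zTrans_thm (hT : TransferStmt) (hS : StopStmt) : ZTransStmt := by
  intro W c I Kw K₂ n s m₀ B hI hK hn hs hm hB A hA
  have hJ : Det2 n s (W.lift (ZEv c I Kw K₂ n s) ∩ {x | x.1 ∈ B}) := by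
    rintro x y h1 h2 ⟨h3, h4⟩
    refine ⟨det_ZEv c hn hs (W.la x.1, x.2) (W.la y.1, y.2) (fun i hi => ?_) h2 h3,
      hB _ _ h1 h4⟩
    simp only [Model.la, h1 i hi]
  have hAt : MeasurableSet (W.At (W.lift (ZEv c I Kw K₂ n s) ∩ {x | x.1 ∈ B}) s) :=
    ((measurable_sh s).prodMk ((measurable_rev s).comp W.measurable_la)) hJ.measurableSet
  refine glue hS W hA (measurable_sh m₀ hAt) fun e => ?_
  refine hT W e m₀ s _ fun x hx => ⟨n, fun y h1 h2 => hJ x y h1 h2 hx, ?_, ?_⟩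
  · intro j hj s' hs' h1
    by_cases h2 : j ≤ c.t I ∧ s' ≤ c.t I
    · exact c.g1 I _ hx.1.1 j h2.1 s' h2.2 h1
    · intro h0
      have h3 := geo c hI hK hx.1 hj.le hs' (by omega)
      rw [h0] at h3
      simp only [nn, Prod.fst_zero, Prod.snd_zero, abs_zero, max_self] at h3
      omega
  · intro j hj i hi h0
    have h3 := geo c hI hK hx.1 hj.le le_rfl (Or.inr hs)
    obtain ⟨k, rfl⟩ := Nat.exists_eq_add_of_le hi.le
    rw [W.l.Y_add] at h0
    have h4 : W.l.Y (W.la x.1) j + W.l.Y x.2 s = -W.l.Y (sh i (W.la e)) k := by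
      rw [eq_neg_iff_add_eq_zero]
      have h5 : W.l.Y (W.la e) i + (W.l.Y (W.la x.1) j + W.l.Y x.2 s +
          W.l.Y (sh i (W.la e)) k) = W.l.Y (W.la e) i + 0 := by
        rw [add_zero]
        conv_rhs => rw [h0]
        abel
      exact add_left_cancel h5
    rw [h4, nn_neg] at h3
    have h5 := nn_Y_le (l := W.l) (sh i (W.la e)) k
    omega

end Pool.Agent.MP_db8016_pr.HD
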