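import Pool.Agent.MP_db8016_pr.HD.Stop
import Pool.Agent.MP_db8016_pr.HD.Iid
import Pool.Agent.MP_db8016_pr.HD.Sm2
import Pool.Agent.MP_db8016_pr.HD.Rev
import Pool.Agent.MP_db8016_pr.HD.Opt
import Pool.Agent.MP_db8016_pr.HD.Climb
import Pool.Agent.MP_db8016_pr.HD.Transit
import Pool.Agent.MP_db8016_pr.HD.Wait
import Pool.Agent.MP_db8016_pr.HD.Ann
import Pool.Agent.MP_db8016_pr.HD.Ext
import Pool.Agent.MP_db8016_pr.HD.Geo1
import Pool.Agent.MP_db8016_pr.HD.Geo2
import Pool.Agent.MP_db8016_pr.HD.Stage
import Pool.Agent.MP_db8016_pr.HD.Block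
import Pool.Agent.MP_db8016_pr.HD.CutEx
import Pool.Agent.MP_db8016_pr.HD.Prod
import Pool.Agent.MP_db8016_pr.HD.Second
import Pool.Agent.MP_db8016_pr.HD.Auto
import Pool.Agent.MP_db8016_pr.HD.Indep
import Pool.Agent.MP_db8016_pr.HD.Transfer
import Pool.Agent.MP_db8016_pr.HD.Fast
import Pool.Agent.MP_db8016_pr.HD.Group
import Pool.Agent.MP_db8016_pr.HD.NoReg
import Pool.Agent.MP_db8016_pr.HD.Draw
import Pool.Agent.MP_db8016_pr.HD.XOne
import Pool.Agent.MP_db8016_pr.HD.XTwo
import Pool.Agent.MP_db8016_pr.HD.XThree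
import Pool.Agent.MP_db8016_pr.HD.ExitOf
import Pool.Agent.MP_db8016_pr.HD.XFiveB
import Pool.Agent.MP_db8016_pr.HD.Run
import Pool.Agent.MP_db8016_pr.HD.JProb
import Pool.Agent.MP_db8016_pr.HD.XSix
import Pool.Agent.MP_db8016_pr.HD.Speed
import Pool.Agent.MP_db8016_pr.HD.ZTrans
import Pool.Agent.MP_db8016_pr.HD.Key
import Pool.Agent.MP_db8016_pr.HD.Final
import Pool.Agent.MP_db8016_pr.HD.Core
import Pool.Agent.MP_db8016_pr.HD.ZOne
import Pool.Agent.MP_db8016_pr.HD.Wt
import Pool.Agent.MP_db8016_pr.HD.Law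
import Pool.Agent.MP_db8016_pr.HD.MainG

/-! Assembly. -/

namespace Pool.Agent.MP_db8016_pr.HD

theorem all_sm1 : SM1Stmt := sm1_thm stop_thm
theorem all_sm2 : SM2Stmt := sm2_thm stop_thm fub_thm iid_thm
theorem all_rev : RevStmt := rev_thm iid_thm
theorem all_opt : OptStmt := opt_thm iid_thm
theorem all_climb : ClimbStmt := climb_thm all_opt
theorem all_dev : DevStmt := dev_thm all_opt
theorem all_wait : WaitStmt := wait_thm all_opt
theorem all_ext : ExtStmt := ext_thm all_climb (ann_thm all_opt) all_sm1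
theorem all_stage : StageStmt :=
  stage_thm all_climb (way2prob_thm all_climb (transit_thm all_opt) all_sm1) all_sm2 way1_thm
    way2_thm way12_thm
theorem all_cut : CutStmt :=
  cut_thm (block_thm all_stage all_wait waitgeo_thm leadTrans_thm leadDet_thm) iid_thm leadDet_thm
theorem all_q : QStmt := q_thm (prod_thm iid_thm)
theorem all_second : SecondStmt := second_thm (prod_thm iid_thm) all_q all_rev coord_thm
theorem all_auto : AutoStmt := auto_thm iid_thm
theorem all_fresh : FreshStmt := fresh_thm stop_thm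
theorem all_indep : IndepStmt := indep_thm all_auto iid_thm
theorem all_transfer : TransferStmt := transfer_thm all_fresh all_auto all_rev
theorem all_fast : FastStmt := fast_thm all_fresh stop_thm
theorem all_group : GroupStmt := group_thm all_fast stop_thm
theorem all_x1 : X1Stmt := x1_thm stop_thm
theorem all_exitOf : ExitOfStmt := exitOf_thm all_transfer all_auto cs_thm all_second all_q
theorem all_speed : SpeedStmt :=
  speed_thm (x2_thm all_x1 all_q all_indep stop_thm fub_thm) (x3_thm all_x1 all_climb all_auto)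
    (x5b_thm all_exitOf all_wait all_indep)
    (x6_thm all_exitOf (jProb_thm all_fresh stop_thm fub_thm all_indep all_q) all_wait all_q)
    (run_thm all_group slow_thm all_dev all_auto) start_thm all_q
theorem all_final : FinalStmt :=
  final_thm (key_thm (zTrans_thm all_transfer stop_thm) cs_thm all_second all_auto stop_thm
      all_indep all_ext all_wait all_q) (late_thm all_fast slow_thm)
    (move_thm (draw_thm (noReg_thm all_fresh stop_thm) stop_thm) all_group slow_thm) posLim_thm
theorem all_core : CoreStmt := core_thm all_cut all_speed all_final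
theorem all_z : ZStmt := z_thm stop_thm

end Pool.Agent.MP_db8016_pr.HD
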