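import Pool.Agent.MP_db8016_pr.HD.Stmts

/-! One block of the cut construction, from the stages and the final wait. -/

namespace Pool.Agent.MP_db8016_pr.HD
open MeasureTheory ProbabilityTheory Filter Finset

namespace BlockAux

variable {m : Measure T}

/-- The pairs that lead from scale `ρ` to the end of the block. -/
def Val (l : Lat m) (r R KB ρ K' : ℤ) (M M' : ℕ) : Set ((ℕ → T) × (ℕ → T)) :=
  {x | l.Lead ρ r K' R R KB x.1 M x.2 M'}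

/-- The number of steps left is enough for the remaining stages and not too large. -/
def Ok (As : ℕ) (R ρ : ℤ) (M : ℕ) : Prop :=
  2 * As * (4 * R) ^ 2 - 2 * As * ρ ^ 2 ≤ M ∧ (M : ℤ) ≤ 64 * As * R ^ 2

lemma ok_step {As : ℕ} {R ρ lam : ℤ} {M n : ℕ} (hlam : 2 ≤ lam) (hρ : 0 < ρ)
    (hH : lam ^ 2 * ρ ≤ 4 * R) (h : Ok As R ρ M) (hn : (n : ℤ) ≤ As * (lam ^ 2 * ρ) ^ 2) :
    n ≤ M ∧ Ok As R (lam ^ 2 * ρ) (M - n) := by
  obtain ⟨h1, h2⟩ := h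
  have hA : (0 : ℤ) ≤ As := Int.natCast_nonneg _
  have hl2 : 4 ≤ lam ^ 2 := by nlinarith
  have hH0 : 4 * ρ ≤ lam ^ 2 * ρ := by nlinarith
  generalize lam ^ 2 * ρ = H at hH hn hH0 ⊢
  have h3 : 2 * ρ ^ 2 ≤ H ^ 2 := by nlinarith
  have h4 : H ^ 2 ≤ (4 * R) ^ 2 := by nlinarith
  have h5 : As * (2 * ρ ^ 2) ≤ As * H ^ 2 := mul_le_mul_of_nonneg_left h3 hA
  have h6 : As * H ^ 2 ≤ As * (4 * R) ^ 2 := mul_le_mul_of_nonneg_left h4 hA
  have hnM : n ≤ M := by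
    have : (n : ℤ) ≤ M := by linarith
    exact_mod_cast this
  refine ⟨hnM, ?_, ?_⟩
  · rw [Nat.cast_sub hnM]; linarith
  · rw [Nat.cast_sub hnM]
    have : (0 : ℤ) ≤ n := Int.natCast_nonneg _
    linarith

variable [IsProbabilityMeasure m]

lemma base (g : WaitGeo) (l : Lat m) {r R K KB : ℤ} {Kw : ℕ} {cw : ℝ} (hcw : 0 ≤ cw) (hR : 0 < R)
    (hr : 0 ≤ r) (hK : 4 * K + 2 * Kw ≤ KB) {M M' : ℕ}
    (h1 : cw ≤ (IID m).real (l.WaitEv (2 * R) Kw M))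
    (h2 : cw ≤ (IID m).real (l.WaitEv (2 * R) Kw M')) :
    cw ^ 2 ≤ (IID2 m).real (Val l r R KB (4 * R) K M M') := by
  have hsub : l.WaitEv (2 * R) Kw M ×ˢ l.WaitEv (2 * R) Kw M' ⊆ Val l r R KB (4 * R) K M M' :=
    fun x hx => g m l R r K Kw KB x.1 x.2 M M' hR hr hK (Int.natCast_nonneg _) hx.1 hx.2
  refine le_trans ?_ (measureReal_mono hsub (measure_ne_top _ _))
  unfold IID2
  rw [measureReal_prod_prod, sq]
  exact mul_le_mul h1 h2 hcw measureReal_nonneg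

end BlockAux

open BlockAux in
theorem block_thm (hS : StageStmt) (hW : WaitStmt) (g : WaitGeo) (hT : LeadTrans)
    (hD : LeadDet) : BlockStmt := by
  intro m _ l
  obtain ⟨K, As, c, hc, hK, hAs, hst⟩ := hS m l
  obtain ⟨cw, Kw, hcw, -, hw⟩ := hW m l (64 * As)
  obtain ⟨N, hN⟩ := pow_unbounded_of_one_lt (32 / cw ^ 2) (by linarith : 1 < 1 + c)
  obtain ⟨K0, rfl⟩ := Int.eq_ofNat_of_zero_le (by linarith : 0 ≤ K)
  obtain ⟨KB, hKB⟩ : ∃ KB : ℕ, KB = 4 * K0 + 2 * Kw + 64 * As := ⟨_, rfl⟩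
  obtain ⟨μ, hμ⟩ : ∃ μ : ℕ, μ = (3 * KB) ^ 2 * (6 * KB) ^ (2 * N) := ⟨_, rfl⟩
  have hKB1 : 64 ≤ KB := by omega
  have hμ1 : 3 * KB ≤ μ := by
    rw [hμ]
    have h1 : 1 ≤ (6 * KB) ^ (2 * N) := Nat.one_le_pow _ _ (by omega)
    nlinarith
  refine ⟨64 * As, μ, KB, by omega, by omega, hμ1, fun r hr => ?_⟩
  obtain ⟨lam, hlam⟩ : ∃ lam : ℤ, lam = 6 * KB := ⟨_, rfl⟩
  obtain ⟨R, hR⟩ : ∃ R : ℤ, R = (μ * r : ℕ) := ⟨_, rfl⟩
  have hlam2 : 2 ≤ lam := by omega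
  have hr1 : (1 : ℤ) ≤ r := by exact_mod_cast hr
  have hRr : 2 * (r : ℤ) ≤ R := by
    rw [hR]
    have : 2 * r ≤ μ * r := Nat.mul_le_mul_right _ (by omega)
    exact_mod_cast this
  have hR0 : 0 < R := by linarith
  have h4μ : lam ^ (2 * (N + 1)) = 4 * μ := by
    rw [hlam, hμ]; push_cast; ring
  have hq : 0 ≤ (1 + c) / (lam : ℝ) ^ 4 := by positivity
  -- one stage
  have step : ∀ (b : ℝ) (ρ K' : ℤ), 0 ≤ b → (K0 : ℤ) ≤ K' → K' ≤ lam → (r : ℤ) ≤ ρ →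
      lam ^ 2 * ρ ≤ 4 * R →
      (∀ M M', Ok As R (lam ^ 2 * ρ) M → Ok As R (lam ^ 2 * ρ) M' →
        b ≤ (IID2 m).real (Val l r R KB (lam ^ 2 * ρ) K0 M M')) →
      ∀ M M', Ok As R ρ M → Ok As R ρ M' →
        (1 + c) / (lam : ℝ) ^ 4 * b ≤ (IID2 m).real (Val l r R KB ρ K' M M') := by
    intro b ρ K' hb h1 h2 h3 h4 ih M M' hM hM'
    have hρ : 0 < ρ := by linarith
    refine le_trans (hst lam K' ρ r h1 h2 hρ (by linarith) h3
      (fun n n' => Val l r R KB (lam ^ 2 * ρ) K0 (M - n) (M' - n')) b hb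
      (fun n n' => (hD m l _ _ _ _ _ _ _ _).measurableSet)
      (fun n n' hn hn' => ih _ _ (ok_step hlam2 hρ h4 hM hn).2 (ok_step hlam2 hρ h4 hM' hn').2))
      (measureReal_mono ?_ (measure_ne_top _ _))
    rintro x ⟨n, n', hn, hn', hx, hx'⟩
    have := hT m l _ _ _ _ _ _ _ _ _ _ _ _ _ _ hx hx'
    rw [Nat.add_sub_cancel' (ok_step hlam2 hρ h4 hM hn).1,
      Nat.add_sub_cancel' (ok_step hlam2 hρ h4 hM' hn').1] at this
    exact this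
  have hle : ∀ (k : ℕ) (ρ : ℤ), 0 < ρ → lam ^ (2 * (k + 1)) * ρ = 4 * R →
      lam ^ (2 * k) * (lam ^ 2 * ρ) = 4 * R ∧ lam ^ 2 * ρ ≤ 4 * R ∧ ρ ≤ lam ^ 2 * ρ := by
    intro k ρ hρ h
    have h1 : lam ^ (2 * k) * (lam ^ 2 * ρ) = 4 * R := by rw [← h]; ring
    have h2 : 1 ≤ lam ^ (2 * k) := one_le_pow₀ (by linarith)
    have h3 : 1 ≤ lam ^ 2 := one_le_pow₀ (by linarith)
    have h4 : ρ ≤ lam ^ 2 * ρ := le_mul_of_one_le_left hρ.le h3
    refine ⟨h1, ?_, h4⟩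
    rw [← h1]
    exact le_mul_of_one_le_left (by linarith) h2
  have main : ∀ (k : ℕ) (ρ : ℤ), (r : ℤ) ≤ ρ → lam ^ (2 * k) * ρ = 4 * R →
      ∀ M M', Ok As R ρ M → Ok As R ρ M' →
        ((1 + c) / (lam : ℝ) ^ 4) ^ k * cw ^ 2 ≤ (IID2 m).real (Val l r R KB ρ K0 M M') := by
    intro k
    induction k with
    | zero =>
      intro ρ _ h M M' hM hM'
      have hρ : ρ = 4 * R := by simpa using h
      have hA : (0 : ℤ) ≤ As * R ^ 2 := by positivity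
      rw [pow_zero, one_mul, hρ]
      refine base g l hcw.le hR0 (by linarith) (by omega)
        (hw _ (by linarith) _ ?_) (hw _ (by linarith) _ ?_)
      · have := hM.2; push_cast; nlinarith
      · have := hM'.2; push_cast; nlinarith
    | succ k ih =>
      intro ρ h1 h2 M M' hM hM'
      obtain ⟨h3, h4, h5⟩ := hle k ρ (by linarith) h2
      rw [pow_succ', mul_assoc]
      exact step _ ρ K0 (by positivity) le_rfl (by omega) h1 h4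
        (ih _ (by linarith) h3) M M' hM hM'
  have hlast : lam ^ (2 * (N + 1)) * r = 4 * R := by rw [h4μ, hR]; push_cast; ring
  obtain ⟨h3, h4, h5⟩ := hle N r (by linarith) hlast
  have hOk : Ok As R r (64 * As * (μ * r) ^ 2 - 64 * As * r ^ 2) := by
    have h6 : 64 * As * r ^ 2 ≤ 64 * As * (μ * r) ^ 2 :=
      Nat.mul_le_mul_left _ (Nat.pow_le_pow_left (Nat.le_mul_of_pos_left _ (by omega)) _)
    have h7 : ((64 * As * (μ * r) ^ 2 - 64 * As * r ^ 2 : ℕ) : ℤ) =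
        64 * As * R ^ 2 - 64 * As * (r : ℤ) ^ 2 := by
      rw [Nat.cast_sub h6, hR]; push_cast; ring
    have hA : (0 : ℤ) ≤ As := Int.natCast_nonneg _
    have h8 : 4 * (r : ℤ) ^ 2 ≤ R ^ 2 := by nlinarith
    have h9 : As * (4 * (r : ℤ) ^ 2) ≤ As * R ^ 2 := mul_le_mul_of_nonneg_left h8 hA
    have h10 : (0 : ℤ) ≤ As * (r : ℤ) ^ 2 := by positivity
    refine ⟨?_, ?_⟩
    · rw [h7]; nlinarith
    · rw [h7]; nlinarith
  have fin := step _ r KB (by positivity) (by omega) (by omega) le_rfl h4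
    (main N _ h5 h3) _ _ hOk hOk
  rw [← hR]
  refine le_trans ?_ (mul_le_mul_of_nonneg_left fin (by positivity))
  have hl0 : (0 : ℝ) < lam := by exact_mod_cast (by linarith : 0 < lam)
  have h16 : ((lam : ℝ) ^ 4) ^ (N + 1) = 16 * (μ : ℝ) ^ 2 := by
    have : ((lam : ℝ)) ^ (2 * (N + 1)) = 4 * μ := by exact_mod_cast h4μ
    calc ((lam : ℝ) ^ 4) ^ (N + 1) = ((lam : ℝ) ^ (2 * (N + 1))) ^ 2 := by ring
      _ = 16 * (μ : ℝ) ^ 2 := by rw [this]; ring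
  have hμ0 : (0 : ℝ) < μ := by exact_mod_cast (by omega : 0 < μ)
  have h32 : 32 < (1 + c) ^ N * cw ^ 2 := (div_lt_iff₀ (by positivity)).1 hN
  have heq : (μ : ℝ) ^ 2 * ((1 + c) / (lam : ℝ) ^ 4 * (((1 + c) / (lam : ℝ) ^ 4) ^ N * cw ^ 2)) =
      (1 + c) * ((1 + c) ^ N * cw ^ 2) / 16 := by
    rw [← mul_assoc ((1 + c) / (lam : ℝ) ^ 4), ← pow_succ', div_pow, h16]
    field_simp
    ring
  rw [heq]
  nlinarith

end Pool.Agent.MP_db8016_pr.HD
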