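import Mathlib

/-! The excited random walk on `ℤ^d`: steps, positions and visit counts. -/

namespace Pool.Agent.MP_db8016_pr.HD

/-- The unit step: the pair `j, true` stands for `+e_j` and `j, false` for `-e_j`. -/
def step {d : ℕ} (e : Fin d × Bool) : Fin d → ℤ := Pi.single e.1 (if e.2 then 1 else -1)

/-- Position at time `n` of the path from the origin that makes the steps `e 0, e 1, …`. -/
def pos {d : ℕ} (e : ℕ → Fin d × Bool) (n : ℕ) : Fin d → ℤ := ∑ i ∈ Finset.range n, step (e i)

/-- Number of visits to the site `pos e n` before time `n`. The cookie used at time `n` is the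
cookie number `visits e n + 1` of that site; stacks are indexed from `0`. -/
def visits {d : ℕ} (e : ℕ → Fin d × Bool) (n : ℕ) : ℕ :=
  ((Finset.range n).filter fun i => pos e i = pos e n).card

end Pool.Agent.MP_db8016_pr.HD
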