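import Pool.Agent.MP_db8016_pr.HD.Stmts

/-! From the cookie environment to the abstract model. -/

namespace Pool.Agent.MP_db8016_pr.HD
open MeasureTheory ProbabilityTheory Filter Finset

namespace MainAux

variable {d : ℕ}

/-- Cookie environments. -/
abbrev Env (d : ℕ) := (Fin d → ℤ) → Fin d × Bool → ℕ → ℝ

lemma pos_eq (e : ℕ → Fin d × Bool) (n : ℕ) : pos e n = ps step e n := rfl

lemma pos_congr {e e' : ℕ → Fin d × Bool} {n k : ℕ} (h : ∀ i < n, e' i = e i) (hk : k ≤ n) :
    pos e' k = pos e k := ps_congr step h hk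

lemma visits_congr {e e' : ℕ → Fin d × Bool} {n k : ℕ} (h : ∀ i < n, e' i = e i) (hk : k ≤ n) :
    visits e' k = visits e k := by
  unfold visits
  congr 1
  refine filter_congr fun i hi => ?_
  rw [pos_congr h hk, pos_congr h ((mem_range.1 hi).le.trans hk)]

/-- The quenched weight of the first `n` steps. -/
def pr (ω : Env d) (e : ℕ → Fin d × Bool) (n : ℕ) : ℝ :=
  ∏ i ∈ range n, ω (pos e i) (e i) (visits e i)

lemma measurable_ev (z : Fin d → ℤ) (c : Fin d × Bool) (i : ℕ) :
    Measurable fun ω : Env d => ω z c i :=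
  (measurable_pi_apply i).comp ((measurable_pi_apply c).comp (measurable_pi_apply z))

lemma measurable_pr (e : ℕ → Fin d × Bool) (n : ℕ) : Measurable fun ω : Env d => pr ω e n :=
  Finset.measurable_prod _ fun _ _ => measurable_ev _ _ _

lemma Cy_update (e : ℕ → Fin d × Bool) (n : ℕ) (c : Fin d × Bool) :
    Cy e n ∩ {e' | e' n = c} = Cy (Function.update e n c) (n + 1) := by
  ext a
  simp only [Cy, Set.mem_inter_iff, Set.mem_ofPred_eq]
  constructor
  · rintro ⟨h1, h2⟩ i hi
    rcases Nat.lt_succ_iff_lt_or_eq.1 hi with h | rfl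
    · rw [Function.update_of_ne h.ne, h1 i h]
    · rw [Function.update_self, h2]
  · intro h
    refine ⟨fun i hi => ?_, ?_⟩
    · rw [h i (by omega), Function.update_of_ne hi.ne]
    · rw [h n (by omega), Function.update_self]

lemma pr_update (ω : Env d) (e : ℕ → Fin d × Bool) (n : ℕ) (c : Fin d × Bool) :
    pr ω (Function.update e n c) (n + 1) = pr ω e n * ω (pos e n) c (visits e n) := by
  have h : ∀ i < n, Function.update e n c i = e i := fun i hi => Function.update_of_ne hi.ne _ _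
  unfold pr
  rw [prod_range_succ, pos_congr h le_rfl, visits_congr h le_rfl, Function.update_self]
  congr 1
  refine prod_congr rfl fun i hi => ?_
  have hi' := mem_range.1 hi
  rw [pos_congr h hi'.le, visits_congr h hi'.le, h i hi']

lemma step_formula (μ : Measure (Env d)) (h0 : ∀ᵐ ω ∂μ, ∀ z c i, 0 ≤ ω z c i)
    (S : Measure (ℕ → Fin d × Bool)) (hS : ∀ e n, S (Cy e n) = wtc μ e n)
    (e : ℕ → Fin d × Bool) (n : ℕ) (F : Finset (Fin d × Bool)) :
    S (Cy e n ∩ {e' | e' n ∈ F}) =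
      ∫⁻ ω, ENNReal.ofReal (pr ω e n * ∑ c ∈ F, ω (pos e n) c (visits e n)) ∂μ := by
  have h1 : Cy e n ∩ {e' | e' n ∈ F} = ⋃ c ∈ F, Cy (Function.update e n c) (n + 1) := by
    ext a
    simp only [← Cy_update, Set.mem_inter_iff, Set.mem_ofPred_eq, Set.mem_iUnion]
    exact ⟨fun h => ⟨a n, h.2, h.1, rfl⟩, fun ⟨c, hc, h2, h3⟩ => ⟨h2, h3 ▸ hc⟩⟩
  rw [h1, measure_biUnion_finset]
  · have h2 : ∀ c ∈ F, S (Cy (Function.update e n c) (n + 1)) =
        ∫⁻ ω, ENNReal.ofReal (pr ω e n * ω (pos e n) c (visits e n)) ∂μ := by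
      intro c _
      rw [hS]
      refine lintegral_congr fun ω => ?_
      rw [← pr_update]
      rfl
    rw [sum_congr rfl h2, ← lintegral_finsetSum]
    · refine lintegral_congr_ae ?_
      filter_upwards [h0] with ω hω
      have hp : 0 ≤ pr ω e n := prod_nonneg fun i _ => hω _ _ _
      rw [mul_sum, ENNReal.ofReal_sum_of_nonneg fun c _ => mul_nonneg hp (hω _ _ _)]
    · intro c _
      exact ((measurable_pr e n).mul (measurable_ev _ _ _)).ennreal_ofReal
  · intro c _ c' _ hne
    simp only [Function.onFun, ← Cy_update]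
    refine Set.disjoint_left.2 fun a h2 h3 => hne ?_
    exact h2.2.symm.trans h3.2
  · intro c _
    exact measurableSet_Cy _ _

lemma const_mul_wtc (μ : Measure (Env d)) (e : ℕ → Fin d × Bool) (n : ℕ) {c : ℝ} (hc : 0 ≤ c) :
    ENNReal.ofReal c * wtc μ e n = ∫⁻ ω, ENNReal.ofReal (pr ω e n * c) ∂μ := by
  unfold wtc
  rw [← lintegral_const_mul' _ _ ENNReal.ofReal_ne_top]
  refine lintegral_congr fun ω => ?_
  rw [mul_comm (pr ω e n), ENNReal.ofReal_mul hc]
  rfl

lemma uel_of (μ : Measure (Env d)) {κ : ℝ} (hκ : 0 < κ) (h0 : ∀ᵐ ω ∂μ, ∀ z c i, κ ≤ ω z c i)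
    (S : Measure (ℕ → Fin d × Bool)) [IsFiniteMeasure S] (hS : ∀ e n, S (Cy e n) = wtc μ e n)
    (e : ℕ → Fin d × Bool) (n : ℕ) (c : Fin d × Bool) :
    κ * S.real (Cy e n) ≤ S.real (Cy e n ∩ {e' | e' n = c}) := by
  have h0' : ∀ᵐ ω ∂μ, ∀ z c i, 0 ≤ ω z c i := by
    filter_upwards [h0] with ω hω z c i using hκ.le.trans (hω z c i)
  have h1 := step_formula μ h0' S hS e n {c}
  simp only [mem_singleton, sum_singleton] at h1
  have h2 : ENNReal.ofReal κ * S (Cy e n) ≤ S (Cy e n ∩ {e' | e' n = c}) := by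
    rw [h1, hS, const_mul_wtc μ e n hκ.le]
    refine lintegral_mono_ae ?_
    filter_upwards [h0, h0'] with ω hω hω'
    have hp : 0 ≤ pr ω e n := prod_nonneg fun i _ => hω' _ _ _
    exact ENNReal.ofReal_le_ofReal (mul_le_mul_of_nonneg_left (hω _ _ _) hp)
  have h3 := ENNReal.toReal_mono (measure_ne_top _ _) h2
  rwa [ENNReal.toReal_mul, ENNReal.toReal_ofReal hκ.le] at h3

lemma auto_of (μ : Measure (Env d)) (h0 : ∀ᵐ ω ∂μ, ∀ z c i, 0 ≤ ω z c i)
    (S : Measure (ℕ → Fin d × Bool)) (hS : ∀ e n, S (Cy e n) = wtc μ e n)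
    (F : Finset (Fin d × Bool)) {r : ℝ} (hr : 0 ≤ r)
    (hF : ∀ᵐ ω ∂μ, ∀ z i, ∑ c ∈ F, ω z c i = r) (e : ℕ → Fin d × Bool) (n : ℕ) :
    S.real (Cy e n ∩ {e' | e' n ∈ F}) = r * S.real (Cy e n) := by
  have h2 : S (Cy e n ∩ {e' | e' n ∈ F}) = ENNReal.ofReal r * S (Cy e n) := by
    rw [step_formula μ h0 S hS, hS, const_mul_wtc μ e n hr]
    refine lintegral_congr_ae ?_
    filter_upwards [hF] with ω hω
    rw [hω]
  rw [Measure.real, h2, ENNReal.toReal_mul, ENNReal.toReal_ofReal hr]
  rfl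

/-- The lateral symbol of a direction. -/
def lam (a b : Fin d) (c : Fin d × Bool) : T :=
  if c.1 = a then (if c.2 then 0 else 1) else if c.1 = b then (if c.2 then 2 else 3) else 4

/-- The weights of the symbols. -/
def wv (p q : ℝ) : T → ℝ := ![p, p, q, q, 1 - 2 * p - 2 * q]

lemma sum_fiber {a b : Fin d} (hab : a ≠ b) (f : Fin d × Bool → ℝ) {p q : ℝ}
    (h1 : ∑ c, f c = 1) (ha : ∀ s, f (a, s) = p) (hb : ∀ s, f (b, s) = q) (t : T) :
    ∑ c ∈ univ.filter (fun c => lam a b c = t), f c = wv p q t := by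
  have e0 : univ.filter (fun c => lam a b c = 0) = {(a, true)} := by
    ext ⟨j, s⟩
    rw [mem_filter, mem_singleton, Prod.mk.injEq]
    unfold lam
    by_cases h : j = a <;> by_cases h' : j = b <;> cases s <;> simp_all
  have e1 : univ.filter (fun c => lam a b c = 1) = {(a, false)} := by
    ext ⟨j, s⟩
    rw [mem_filter, mem_singleton, Prod.mk.injEq]
    unfold lam
    by_cases h : j = a <;> by_cases h' : j = b <;> cases s <;> simp_all
  have e2 : univ.filter (fun c => lam a b c = 2) = {(b, true)} := by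
    ext ⟨j, s⟩
    rw [mem_filter, mem_singleton, Prod.mk.injEq]
    unfold lam
    by_cases h : j = a <;> by_cases h' : j = b <;> cases s <;> simp_all
  have e3 : univ.filter (fun c => lam a b c = 3) = {(b, false)} := by
    ext ⟨j, s⟩
    rw [mem_filter, mem_singleton, Prod.mk.injEq]
    unfold lam
    by_cases h : j = a <;> by_cases h' : j = b <;> cases s <;> simp_all
  have h5 := sum_fiberwise univ (lam a b) f
  rw [Fin.sum_univ_five, e0, e1, e2, e3, h1] at h5
  simp only [sum_singleton, ha, hb] at h5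
  fin_cases t
  · change ∑ c ∈ univ.filter (fun c => lam a b c = 0), f c = p
    rw [e0, sum_singleton, ha]
  · change ∑ c ∈ univ.filter (fun c => lam a b c = 1), f c = p
    rw [e1, sum_singleton, ha]
  · change ∑ c ∈ univ.filter (fun c => lam a b c = 2), f c = q
    rw [e2, sum_singleton, hb]
  · change ∑ c ∈ univ.filter (fun c => lam a b c = 3), f c = q
    rw [e3, sum_singleton, hb]
  · change ∑ c ∈ univ.filter (fun c => lam a b c = 4), f c = 1 - 2 * p - 2 * q
    linarith

/-- The law of the symbols. -/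
noncomputable def mm (p q : ℝ) : Measure T :=
  ∑ t, ENNReal.ofReal (wv p q t) • Measure.dirac t

lemma mm_real {p q : ℝ} (h : ∀ t, 0 ≤ wv p q t) (t : T) : (mm p q).real {t} = wv p q t := by
  have : mm p q {t} = ENNReal.ofReal (wv p q t) := by
    unfold mm
    rw [Measure.finsetSum_apply, sum_eq_single t]
    · simp
    · intro t' _ ht
      simp [ht]
    · simp
  rw [Measure.real, this, ENNReal.toReal_ofReal (h t)]

lemma mm_prob {p q : ℝ} (h : ∀ t, 0 ≤ wv p q t) : IsProbabilityMeasure (mm p q) := by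
  constructor
  unfold mm
  rw [Measure.finsetSum_apply]
  simp only [Measure.smul_apply, measure_univ, smul_eq_mul, mul_one]
  rw [← ENNReal.ofReal_sum_of_nonneg fun t _ => h t, Fin.sum_univ_five]
  have : wv p q 0 + wv p q 1 + wv p q 2 + wv p q 3 + wv p q 4 = 1 := by
    change p + p + q + q + (1 - 2 * p - 2 * q) = 1
    ring
  rw [this, ENNReal.ofReal_one]

/-- The planar step. -/
def lat {p q : ℝ} (hp : 0 < p) (hq : 0 < q) (h : ∀ t, 0 ≤ wv p q t) : Lat (mm p q) where
  u := ![1, -1, 0, 0, 0]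
  v := ![0, 0, 1, -1, 0]
  p := p
  q := q
  hp := hp
  hq := hq
  hst t := by fin_cases t <;> simp
  hE g := by
    simp only [mm_real h]
    rw [Fin.sum_univ_five]
    change p * g 1 0 + p * g (-1) 0 + q * g 0 1 + q * g 0 (-1) + (1 - 2 * p - 2 * q) * g 0 0 = _
    ring

/-- The planar projection. -/
def proj (a b : Fin d) : (Fin d → ℤ) →+ ℤ × ℤ where
  toFun z := (z a, z b)
  map_zero' := rfl
  map_add' _ _ := rfl

lemma proj_step {a b : Fin d} (hab : a ≠ b) {p q : ℝ} (hp : 0 < p) (hq : 0 < q)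
    (h : ∀ t, 0 ≤ wv p q t) (c : Fin d × Bool) :
    proj a b (step c) = (lat hp hq h).st (lam a b c) := by
  obtain ⟨j, s⟩ := c
  change (step (j, s) a, step (j, s) b) = _
  by_cases h1 : j = a
  · subst h1
    cases s <;> simp [step, lam, Lat.st, lat, hab.symm]
  · by_cases h2 : j = b
    · subst h2
      cases s <;> simp [step, lam, Lat.st, lat, hab, h1]
    · cases s <;> simp [step, lam, Lat.st, lat, h1, h2, Ne.symm h1, Ne.symm h2]

/-- The normalised level. -/
noncomputable def lev (l : Fin d → ℝ) (c : ℝ) : (Fin d → ℤ) →+ ℝ where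
  toFun z := (∑ j, (z j : ℝ) * l j) / c
  map_zero' := by simp
  map_add' x y := by
    simp only [Pi.add_apply, Int.cast_add, add_mul, sum_add_distrib, add_div]

lemma lev_step (l : Fin d → ℝ) (c : ℝ) (j : Fin d) (s : Bool) :
    lev l c (step (j, s)) = (if s then l j else -l j) / c := by
  change (∑ i, ((step (j, s) i : ℤ) : ℝ) * l i) / c = _
  congr 1
  rw [sum_eq_single j]
  · cases s <;> simp [step]
  · intro i _ hi
    simp [step, hi]
  · simp

end MainAux

open MainAux in
theorem main_thm (hC : CoreStmt) (hZ : ZStmt) (hW : WtStmt) (hL : LawStmt) : MainStmt := by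
  intro d μ _ hind hid h1 κ hκ hk a b hab p q hpq P₀ _ hP l hl
  have h0 : ∀ᵐ ω ∂μ, ∀ z c i, 0 ≤ ω z c i := by
    filter_upwards [hk] with ω hω z c i using hκ.le.trans (hω z c i)
  obtain ⟨S, hSp, hS, hT⟩ := hL d μ a.pos h1 h0 P₀ hP
  obtain ⟨hW3, hW2⟩ := hW d μ hind hid h1 h0
  rw [hT l]
  by_contra hcon
  rw [not_or] at hcon
  obtain ⟨j₀, -, hj₀⟩ := exists_max_image univ (fun j => |l j|) ⟨a, mem_univ _⟩
  have hc : 0 < |l j₀| := by
    obtain ⟨j, hj⟩ := Function.ne_iff.1 hl
    exact (abs_pos.2 hj).trans_le (hj₀ j (mem_univ _))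
  have hset : {e : ℕ → Fin d × Bool |
      Tendsto (fun n => lev l |l j₀| (ps step e n)) atTop atTop} =
      {e | Tendsto (fun n => ∑ j, (pos e n j : ℝ) * l j) atTop atTop} := by
    ext e
    exact tendsto_div_const_atTop_of_pos hc
  have hL1 : ∀ c, |lev l |l j₀| (step c)| ≤ 1 := by
    rintro ⟨j, s⟩
    rw [lev_step, abs_div, abs_abs, div_le_one hc]
    cases s <;> simpa using hj₀ j (mem_univ _)
  have hup : ∃ c, lev l |l j₀| (step c) = 1 := by
    rcases le_total 0 (l j₀) with h | h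
    · refine ⟨(j₀, true), ?_⟩
      rw [lev_step, div_eq_one_iff_eq hc.ne', abs_of_nonneg h]
      simp
    · refine ⟨(j₀, false), ?_⟩
      rw [lev_step, div_eq_one_iff_eq hc.ne', abs_of_nonpos h]
      simp
  have hdn : ∃ c, lev l |l j₀| (step c) = -1 := by
    rcases le_total 0 (l j₀) with h | h
    · refine ⟨(j₀, false), ?_⟩
      rw [lev_step, div_eq_iff hc.ne', abs_of_nonneg h]
      simp
    · refine ⟨(j₀, true), ?_⟩
      rw [lev_step, div_eq_iff hc.ne', abs_of_nonpos h]
      simp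
  have huel := uel_of μ hκ hk S hS
  have hfresh : ∀ e n k, (∀ i < n, ∀ j < k, ps step e i ≠ ps step e (n + j)) →
      S.real (Cy e (n + k)) = S.real (Cy e n) * S.real (Cy (sh n e) k) := by
    intro e n k h
    simp only [Measure.real, hS]
    rw [hW2 e n k h, ENNReal.toReal_mul]
  have hthree : ∀ e n k j, (∀ i < n, ∀ i' < j, ps step e i ≠ ps step e (n + k + i')) →
      S.real (Cy e (n + k)) * S.real (Cy (sh n e) (k + j)) ≤ S.real (Cy e (n + k + j)) := by
    intro e n k j h
    have h2 := hW3 e n k j h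
    rw [← hS, ← hS, ← hS] at h2
    have h3 := ENNReal.toReal_mono (measure_ne_top _ _) h2
    rwa [ENNReal.toReal_mul] at h3
  obtain ⟨β, hβ, hu, hd⟩ := hZ (Fin d × Bool) (Fin d → ℤ) step S (lev l |l j₀|) κ hL1 hup hdn hκ
    huel hthree hfresh (by rw [hset]; exact hcon.1) (by rw [hset]; exact hcon.2)
  obtain ⟨ω, hω1, hωk, hωpq⟩ := (h1.and (hk.and hpq)).exists
  have hp : 0 < p := by
    rw [← (hωpq 0 true 0).1]
    exact hκ.trans_le (hωk _ _ _)
  have hq : 0 < q := by
    rw [← (hωpq 0 true 0).2]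
    exact hκ.trans_le (hωk _ _ _)
  have hwv : ∀ t, 0 ≤ wv p q t := by
    intro t
    rw [← sum_fiber hab (fun c => ω 0 c 0) (hω1 0 0) (fun s => (hωpq 0 s 0).1)
      (fun s => (hωpq 0 s 0).2) t]
    exact sum_nonneg fun c _ => hκ.le.trans (hωk _ _ _)
  have := mm_prob hwv
  have hauto : ∀ e n t, S.real (Cy e n ∩ {e' | lam a b (e' n) = t}) =
      (mm p q).real {t} * S.real (Cy e n) := by
    intro e n t
    have h2 := auto_of μ h0 S hS (univ.filter fun c => lam a b c = t) (hwv t) (by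
      filter_upwards [h1, hpq] with ω' h3 h4 z i
      exact sum_fiber hab (fun c => ω' z c i) (h3 z i) (fun s => (h4 z s i).1)
        (fun s => (h4 z s i).2) t) e n
    simp only [mem_filter, mem_univ, true_and] at h2
    rw [mm_real hwv, h2]
  let W : Model :=
    { D := Fin d × Bool
      Pt := Fin d → ℤ
      S := S
      vec := step
      m := mm p q
      l := lat hp hq hwv
      lam := lam a b
      Y := proj a b
      hY := proj_step hab hp hq hwv
      fresh := hfresh
      auto := hauto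
      κ := κ
      hκ := hκ
      uel := huel }
  refine hC W
    { L := lev l |l j₀|
      hL := hL1
      hd := ?_
      β := β
      hβ := hβ
      up := hu
      down := hd }
  obtain ⟨c, hc'⟩ := hup
  refine ⟨c, ?_⟩
  change |lev l |l j₀| (step c)| = 1
  rw [hc', abs_one]

end Pool.Agent.MP_db8016_pr.HD
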