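import Pool.Agent.MP_db8016_pr.HD.Stmts

/-! Exit estimate from a cut event on which the range is already large. -/

namespace Pool.Agent.MP_db8016_pr.HD
open MeasureTheory ProbabilityTheory Filter Finset

namespace XFiveAux

lemma wait_det {m : Measure T} (l : Lat m) (h K : ℤ) (t : ℕ) : Det t (l.WaitEv h K t) := by
  intro a a' h1 ha k hk
  rw [l.U_congr h1 hk, l.Y_congr h1 hk]
  exact ha k hk

lemma abs_U_le {m : Measure T} (l : Lat m) (a : ℕ → T) (k : ℕ) : |l.U a k| ≤ nn (l.Y a k) :=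
  le_max_left _ _

lemma theta_det (W : Model) (ℓ : Lev W) (c : Cut W.l) (w : ℝ) (I : ℕ) :
    Det2 (c.t I) (c.t I) (W.lift (c.C I) ∩ ℓ.Th w (c.t I)) := by
  intro x y h1 h2 hx
  refine ⟨?_, ℓ.adapt_Rng w _ _ _ h1 hx.2⟩
  exact c.C_det I (W.la x.1, x.2) (W.la y.1, y.2)
    (fun i hi => by simp only [Model.la, h1 i hi]) h2 hx.1

lemma prod_real (m : Measure T) [IsProbabilityMeasure m] (B : Set (ℕ → T)) :
    (IID2 m).real (Set.univ ×ˢ B) = (IID m).real B := by
  simp only [Measure.real, IID2, Measure.prod_prod, measure_univ, one_mul]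

end XFiveAux

open XFiveAux in
theorem x5_thm (hE : ExitOfStmt) (hW : WaitStmt) (hI : IndepStmt) : X5Stmt := by
  intro W ℓ c
  obtain ⟨C₀, hC₀, hex⟩ := hE W ℓ c
  obtain ⟨cw, Kw, hcw, hKw, hwait⟩ := hW W.m W.l c.A
  refine ⟨2 * c.K + 2 * Kw + 2, (cw / 2) ^ 2 / C₀, by omega, by positivity, ?_⟩
  intro w I hI1 hq
  have hr : (1 : ℤ) ≤ c.r I := by exact_mod_cast c.one_le_r hI1
  have hq0 : 0 ≤ c.q I := measureReal_nonneg
  refine hex w I I _ (cw / 2) (fun s => (W.lift (c.C I) ∩ ℓ.Th w (c.t I)) ∩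
    {x | (sh (c.t I) (W.la x.1), sh (c.t I) x.2) ∈
      Set.univ ×ˢ W.l.WaitEv (c.r I) Kw (s - c.t I)}) le_rfl hI1 (by positivity) ?_
  intro s hs
  rw [mem_Ico] at hs
  refine ⟨?_, fun x hx => hx.1.1, ?_⟩
  · rw [hI W (c.t I) _ _ (theta_det W ℓ c w I)
      (MeasurableSet.univ.prod (wait_det W.l _ _ _).measurableSet), prod_real]
    have h1 : cw ≤ (IID W.m).real (W.l.WaitEv (c.r I) Kw (s - c.t I)) := by
      refine hwait _ (by omega) _ ?_
      have h2 : s - c.t I ≤ c.A * c.r I ^ 2 := by rw [← c.t_eq I hI1]; omega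
      exact_mod_cast h2
    calc cw / 2 * c.q I = (1 / 2 * c.q I) * cw := by ring
      _ ≤ _ := mul_le_mul hq h1 hcw.le measureReal_nonneg
  · rintro x ⟨hx, -, hxw⟩
    have hC : (W.la x.1, x.2) ∈ CC c.t c.G I := hx.1
    have hg3 := c.g3 I hI1 _ hC
    have hg4 := c.g4 I hI1 _ hC
    simp only at hg3 hg4 hxw
    have hK0 : (0 : ℤ) ≤ c.K * c.r I := by positivity
    have hKw0 : (0 : ℤ) ≤ Kw * c.r I := by positivity
    have hlate : ∀ s' ≤ s, c.t I ≤ s' → W.l.U x.2 (c.t I) - c.r I < W.l.U x.2 s' ∧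
        |W.l.U x.2 s'| ≤ c.K * c.r I + Kw * c.r I := by
      intro s' h1 h2
      obtain ⟨k, rfl⟩ := Nat.exists_eq_add_of_le h2
      have h3 := hxw k (by omega)
      have h4 := (abs_U_le W.l _ _).trans h3.2
      have h5 := (abs_U_le W.l _ _).trans (hg3 (c.t I) le_rfl).2
      rw [W.l.U_add]
      refine ⟨by linarith [h3.1], (abs_add_le _ _).trans (add_le_add h5 h4)⟩
    have hall : ∀ s' ≤ s, |W.l.U x.2 s'| ≤ c.K * c.r I + Kw * c.r I := by
      intro s' h1
      rcases le_total s' (c.t I) with h2 | h2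
      · have h5 := (abs_U_le W.l _ _).trans (hg3 s' h2).2
        linarith
      · exact (hlate s' h1 h2).2
    have hR : ((2 * c.K + 2 * Kw + 2) * c.r I : ℕ) =
        2 * ((c.K : ℤ) * c.r I) + 2 * ((Kw : ℤ) * c.r I) + 2 * (c.r I : ℤ) := by
      push_cast; ring
    refine ⟨c.t I, by omega, ?_, ?_, ?_, hx.2, ?_, ?_⟩
    · intro y h1 h2
      refine ⟨theta_det W ℓ c w I x y h1 (fun i hi => h2 i (by omega)) hx, trivial, ?_⟩
      exact wait_det W.l _ _ _ (sh (c.t I) x.2) (sh (c.t I) y.2)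
        (fun i hi => h2 (c.t I + i) (by omega)) hxw
    · intro j hj s' h1 h2
      rcases le_total s' (c.t I) with h3 | h3
      · exact c.g1 I _ hC j hj.le s' h3 h2
      · intro h0
        have h4 : W.l.U (W.la x.1) j + W.l.U x.2 s' = 0 := congrArg Prod.fst h0
        have h5 := (hlate s' h1 h3).1
        have h6 := (hg4 j hj.le).2
        linarith
    · intro j hj
      have h5 := (hlate s le_rfl hs.1).1
      have h6 := (hg4 j hj.le).2
      linarith
    · intro s' h1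
      have h2 := abs_le.1 (hall s le_rfl)
      have h3 := abs_le.1 (hall s' h1)
      rw [hR]
      linarith [h2.2, h3.1]
    · intro j hj
      have h2 := abs_le.1 (hall s le_rfl)
      have h3 := abs_le.1 ((abs_U_le W.l _ _).trans (hg3 j hj).1)
      rw [hR]
      linarith [h2.2, h3.2]

end Pool.Agent.MP_db8016_pr.HD
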