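import Pool.Agent.MP_db8016_pr.HD.Stmts

/-! From the exit property to a lower bound for the speed of the level. -/

namespace Pool.Agent.MP_db8016_pr.HD
open MeasureTheory ProbabilityTheory Filter Finset

namespace XThreeAux

lemma climb (hC : ClimbStmt) (m : Measure T) [IsProbabilityMeasure m] (l : Lat m) (ε : ℝ)
    (hε : 0 < ε) : ∃ A : ℕ, 1 ≤ A ∧ ∀ ρ : ℕ, 0 < ρ →
      1 - ε ≤ (IID m).real {a | ∃ j ≤ A * ρ ^ 2, (ρ : ℤ) ≤ l.U a j} := by
  have hp := l.hp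
  have hq := l.hq
  obtain ⟨N, hN⟩ := exists_nat_ge (1 + (1 + l.q / l.p + 1 / (2 * l.p)) / ε)
  have h0 : 0 < (1 + l.q / l.p + 1 / (2 * l.p)) / ε := by positivity
  have hN1 : (1 : ℝ) ≤ N := by linarith
  have hN' : 1 ≤ N := by exact_mod_cast hN1
  refine ⟨N * (N + 1) ^ 2, Nat.mul_pos hN' (by positivity), fun ρ hρ => ?_⟩
  have hρ' : (0 : ℝ) < ρ := by exact_mod_cast hρ
  have hρz : (0 : ℤ) < ρ := by exact_mod_cast hρ
  have hNz : (0 : ℤ) < N := by exact_mod_cast hN'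
  have h := hC m l (N * ρ) ((N + 1) * ρ) (N * ((N + 1) * ρ)) (N * (N + 1) ^ 2 * ρ ^ 2)
    (by positivity) (by nlinarith) (by positivity) (by positivity)
  refine le_trans (le_trans ?_ h) (measureReal_mono ?_)
  · push_cast
    have e1 : (N : ℝ) * ρ / ((N + 1) * ρ) = 1 - 1 / (N + 1) := by field_simp; ring
    have e2 : l.q / l.p * (((N : ℝ) + 1) * ρ) ^ 2 / (N * ((N + 1) * ρ)) ^ 2 =
        l.q / l.p / N ^ 2 := by field_simp
    have e3 : (((N : ℝ) + 1) * ρ) ^ 2 / (2 * l.p * (N * (N + 1) ^ 2 * ρ ^ 2)) =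
        1 / (2 * l.p) / N := by field_simp
    rw [e1, e2, e3]
    have a1 : 1 / ((N : ℝ) + 1) ≤ 1 / N := one_div_le_one_div_of_le (by linarith) (by linarith)
    have a2 : l.q / l.p / (N : ℝ) ^ 2 ≤ l.q / l.p / N :=
      div_le_div_of_nonneg_left (by positivity) (by linarith) (by nlinarith)
    have a3 : 1 / (N : ℝ) + l.q / l.p / N + 1 / (2 * l.p) / N ≤ ε := by
      rw [← add_div, ← add_div, div_le_iff₀ (by linarith)]
      have : (1 + l.q / l.p + 1 / (2 * l.p)) / ε ≤ N := by linarith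
      rw [div_le_iff₀ hε] at this
      linarith
    have a4 : 0 ≤ 1 / ((N : ℝ) + 1) * (l.q / l.p / (N : ℝ) ^ 2 + 1 / (2 * l.p) / N) := by
      positivity
    nlinarith
  · rintro a ⟨n, hn, -, h2⟩
    exact ⟨n, hn, by rw [h2]; linarith⟩

end XThreeAux

theorem x3_thm (h1 : X1Stmt) (hC : ClimbStmt) (hA : AutoStmt) : X3Stmt := by
  intro W ℓ c K' b hK hb
  have hβ := ℓ.hβ
  obtain ⟨k, hk⟩ := exists_pow_lt_of_lt_one (show 0 < ℓ.β / 4 by linarith)
    (show 1 - b < 1 by linarith)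
  have hk0 : 0 < k := by
    rcases Nat.eq_zero_or_pos k with rfl | h
    · have := ℓ.β_le_one
      rw [pow_zero] at hk
      linarith
    · exact h
  obtain ⟨A, -, hA'⟩ := XThreeAux.climb hC W.m W.l (ℓ.β / 4) (by linarith)
  refine ⟨A * (k * K') ^ 2 + 4, by omega, fun w I hI hE => ?_⟩
  have hr := c.one_le_r hI
  have hR : 0 < K' * c.r I := Nat.mul_pos hK hr
  have h2 := hA' (k * (K' * c.r I)) (Nat.mul_pos hk0 hR)
  set t := A * (k * (K' * c.r I)) ^ 2 with ht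
  set B : Set (ℕ → T) := {a | ∃ j ≤ t, ((k * (K' * c.r I) : ℕ) : ℤ) ≤ W.l.U a j} with hB
  have hBm : MeasurableSet B := Det.measurableSet (n := t) fun a a' h ⟨j, hj, h'⟩ =>
    ⟨j, hj, by rwa [W.l.U_congr h hj]⟩
  obtain ⟨d, -⟩ := ℓ.hd
  have h3 := h1 W ℓ w (4 * c.t I) (K' * c.r I : ℕ) b (by exact_mod_cast hR) hE k (fun _ => d) 0 0 t
    le_rfl (fun i hi => by rw [Nat.le_zero.1 hi, add_zero])
  have h4 := hA W (fun _ => d) 0 Bᶜ hBm.compl
  have e0 : ∀ X : Set (ℕ → W.D), W.cS (fun _ => d) 0 X = W.S.real X := fun X => by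
    have : sh 0 ⁻¹' X = X := by ext a; simp
    rw [Model.cS, Cy_zero, Set.univ_inter, this]
  rw [e0, Cy_zero, probReal_univ, mul_one] at h3
  rw [e0, Cy_zero, probReal_univ, one_mul, probReal_compl_eq_one_sub hBm] at h4
  have hT : t + 4 * c.t I ≤ (A * (k * K') ^ 2 + 4) * c.t I := by
    have h5 : c.r I ^ 2 ≤ c.t I := by
      rw [c.t_eq I hI]
      exact Nat.le_mul_of_pos_left _ c.hA
    have h6 : t = A * (k * K') ^ 2 * c.r I ^ 2 := by rw [ht]; ring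
    rw [h6, add_mul]
    exact Nat.add_le_add_right (Nat.mul_le_mul_left _ h5) _
  have hsub : {e | ∀ n, 0 ≤ ℓ.L (W.X e n)} ⊆
      (ℓ.Up w ((A * (k * K') ^ 2 + 4) * c.t I) ∪ W.la ⁻¹' Bᶜ) ∪
        {e' | (∃ j ≤ t, 0 + (k : ℤ) * (K' * c.r I : ℕ) ≤ W.l.U (W.la e') j) ∧
          ¬ ℓ.Rng w e' (t + 4 * c.t I)} := by
    intro e he
    by_cases hb : W.la e ∈ B
    · by_cases hr : ℓ.Rng w e (t + 4 * c.t I)
      · obtain ⟨i, -, j, hj, h⟩ := hr
        have h7 : 0 ≤ ℓ.lv e i := he i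
        exact Or.inl (Or.inl ⟨j, hj.trans hT, by linarith, fun n _ => he n⟩)
      · obtain ⟨j, hj, h⟩ := hb
        exact Or.inr ⟨⟨j, hj, by rw [zero_add]; exact_mod_cast h⟩, hr⟩
    · exact Or.inl (Or.inr hb)
  have h8 := (ℓ.up.trans (measureReal_mono hsub)).trans (measureReal_union_le _ _)
  have h9 := measureReal_union_le (μ := W.S) (ℓ.Up w ((A * (k * K') ^ 2 + 4) * c.t I))
    (W.la ⁻¹' Bᶜ)
  linarith

end Pool.Agent.MP_db8016_pr.HD
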